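import Pool.Agent.H98.KC.Wza

/-!
# Wzb (MP_95be7d_S4): pointwise bounds for the weights (uses the statements of `Wza`)

* `om4_lo`: `Th B y = 1/(1+e^{-y/B}) ≥ (1/2)e^{-|y|/B}`, `Zf(s y) ≥ (1/15)e^{-2s|y|}`, `2s ≤ 1/(8B)`.
* `ta_lo`: `deriv (Th B) = Th(1-Th)/B = 1/(B(2+2cosh(y/B))) ≥ (1/(4B))e^{-|y|/B}`.
* `ch B y ≤ 4 e^{-2|y|/B}` (`se2_hi`, `ch_eq'`).  `ych_le_ta`: `(1+|y|)e^{-|y|/(4B)} ≤ 4B` (`1+x ≤ e^x`: `1+|y| ≤ 4B(1+|y|/(4B)) ≤ 4B e^{|y|/4B}`), so
  `(1+|y|)²ch ≤ 64B²e^{-3|y|/(2B)} ≤ 64B²·60B·ta`.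
* `rat_le`: `y ≤ 0`: `Th ≤ 1/2`... `Th' = Th(1-Th)/B ≥ Th/(2B)` so `ta ≥ om4/(2B)`, `om4² ≤ 2B om4 ta ≤ 2B e^{y/B}ta` (`om4 ≤ Th ≤ e^{y/B}`), `bd (1/2) 0 y = 1`.
  `y ≥ 0`: `ta ≥ Th'Z ≥ (1/(4B))e^{-y/B}Z`, `om4² ≤ Z² ≤ Z ≤ 4B e^{y/B} ta`, `bd(1/2) 0 y² = e^{-y}`, `e^{y/B-y} ≤ e^{-y/B}` (`2/B ≤ 1`).
* `ta_bd`: `y ≤ 0`: `ta ≤ (2/B)om4 ≤ (2/B) Th ≤ (2/B) e^{y/B}`; `y ≥ 0`: `ta ≤ 2/B ≤ 1`, `e^{-y} ≤ e^{-y/B}`.
* `int_om4`: `om4 ≤ Zf(s y)`, `∫ sech²(s y - 2) dy = 2/s` (primitive `tanh(s y-2)/s`; or substitution and `∫ sech² = 2`), monotonicity.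
* `bi_le_om`: for `y ≥ 1/s`: `|s y · Z'(s y)| ≤ 2ξ sech²(ξ-2)`, `ξ = (ξ-2)+2 ≤ 3 cosh(ξ-2)` (`x ≤ cosh x`, `1 ≤ cosh x`).
* `bi_int`: `bi s ≤ sech(s y-2)`, which is `Cl s s` (as in `Cl_Zs`), measurable indicator.
-/

open MeasureTheory Filter Topology Set
open scoped ContDiff

noncomputable section

namespace H98KC

open H98KB H68KC

variable {B s : ℝ}

theorem Wzb_h (h : Slow4 B s) : 0 < B ∧ 16 ≤ B ∧ 0 < s ∧ 4 * s ≤ 1 / (2 * B) := by
  obtain ⟨h1, h2, h3⟩ := h
  refine ⟨by linarith, h1, h2, ?_⟩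
  rw [le_div_iff₀ (by linarith)]
  nlinarith

theorem Wzb_sy (h : Slow4 B s) (y : ℝ) : 2 * |s * y| ≤ |y| / (2 * B) := by
  obtain ⟨hB, hB16, hs, h4⟩ := Wzb_h h
  rw [abs_mul, abs_of_pos hs]
  have h5 := mul_le_mul_of_nonneg_right h4 (abs_nonneg y)
  have h6 : 1 / (2 * B) * |y| = |y| / (2 * B) := by ring
  rw [h6] at h5
  have h7 : 0 ≤ s * |y| := by positivity
  linarith

theorem Wzb_Z (h : Slow4 B s) (y : ℝ) : 1 / 15 * Real.exp (-(|y| / (2 * B))) ≤ Zf (s * y) := by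
  refine le_trans ?_ (Zf_lo (s * y))
  apply mul_le_mul_of_nonneg_left _ (by norm_num)
  rw [Real.exp_le_exp]
  linarith [Wzb_sy h y]

theorem Wzb_d (h : Slow4 B s) (y : ℝ) : deriv (Th B) y = Th B y * (1 - Th B y) / B :=
  (Th_hd (Wzb_h h).1 y).deriv

theorem om4_lo (h : Slow4 B s) (y : ℝ) :
    1 / 30 * Real.exp (-(3 * |y| / (2 * B))) ≤ om4 B s y := by
  obtain ⟨hB, hB16, hs, h4⟩ := Wzb_h h
  unfold om4
  rw [Wts_exp]
  have h1 := mul_le_mul (Wts_lo hB y) (Wzb_Z h y) (by positivity) (Th_pos B y).le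
  refine le_trans (le_of_eq ?_) h1
  ring

theorem Wzb_ta (h : Slow4 B s) (y : ℝ) : Th B y * (1 - Th B y) / B * Zf (s * y) ≤ ta B s y := by
  obtain ⟨hB, hB16, hs, h4⟩ := Wzb_h h
  unfold ta
  rw [Wzb_d h]
  apply mul_le_mul_of_nonneg_right _ (Zf_pos _).le
  have := mul_pos hs (Th_pos B y)
  linarith

theorem ta_lo (h : Slow4 B s) (y : ℝ) :
    1 / (60 * B) * Real.exp (-(3 * |y| / (2 * B))) ≤ ta B s y := by
  obtain ⟨hB, hB16, hs, h4⟩ := Wzb_h h
  refine le_trans ?_ (Wzb_ta h y)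
  rw [Wts_exp]
  have h0 : 1 / 4 * Real.exp (-(|y| / B)) / B ≤ Th B y * (1 - Th B y) / B :=
    div_le_div_of_nonneg_right (Wts_lo2 hB y) hB.le
  have h2 : 0 ≤ Th B y * (1 - Th B y) / B := le_trans (by positivity) h0
  have h1 := mul_le_mul h0 (Wzb_Z h y) (by positivity) h2
  refine le_trans (le_of_eq ?_) h1
  field_simp
  ring

theorem ta_hi (h : Slow4 B s) (y : ℝ) : ta B s y ≤ 2 / B := by
  obtain ⟨hB, hB16, hs, h4⟩ := Wzb_h h
  have h1 := ta_le h y
  have h2 := om4_le_one B s y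
  have h3 : 0 ≤ 2 / B := by positivity
  have h5 := mul_le_mul_of_nonneg_left h2 h3
  linarith

theorem Wzb_lo (h : Slow4 B s) (y : ℝ) :
    Real.exp (-(3 * |y| / (2 * B))) ≤ 60 * B * ta B s y := by
  obtain ⟨hB, hB16, hs, h4⟩ := Wzb_h h
  have h1 := mul_le_mul_of_nonneg_left (ta_lo h y) (by positivity : (0 : ℝ) ≤ 60 * B)
  have h2 : 60 * B * (1 / (60 * B) * Real.exp (-(3 * |y| / (2 * B)))) =
      Real.exp (-(3 * |y| / (2 * B))) := by
    field_simp
  rwa [h2] at h1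

theorem ch_le_om4 (h : Slow4 B s) (y : ℝ) : ch B y ≤ 120 * om4 B s y := by
  obtain ⟨hB, hB16, hs, h4⟩ := Wzb_h h
  linarith [Wts_ch hB y, om4_lo h y, Wts_mono hB y]

theorem ch_le_ta (h : Slow4 B s) (y : ℝ) : ch B y ≤ 240 * B * ta B s y := by
  obtain ⟨hB, hB16, hs, h4⟩ := Wzb_h h
  linarith [Wts_ch hB y, Wzb_lo h y, Wts_mono hB y]

theorem ych_le_ta (h : Slow4 B s) (y : ℝ) :
    (1 + |y|) ^ 2 * ch B y ≤ 4000 * B ^ 3 * ta B s y := by
  obtain ⟨hB, hB16, hs, h4⟩ := Wzb_h h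
  have h0 := abs_nonneg y
  have hE : 0 < Real.exp (-(|y| / (4 * B))) := Real.exp_pos _
  have h3 : (1 + |y|) * Real.exp (-(|y| / (4 * B))) ≤ 4 * B := by
    have h5 := Real.add_one_le_exp (|y| / (4 * B))
    have h6 : 1 + |y| ≤ 4 * B * Real.exp (|y| / (4 * B)) := by
      have h7 := mul_le_mul_of_nonneg_left h5 (by positivity : (0 : ℝ) ≤ 4 * B)
      have h8 : 4 * B * (|y| / (4 * B) + 1) = |y| + 4 * B := by
        field_simp
      rw [h8] at h7
      linarith
    have h8 := mul_le_mul_of_nonneg_right h6 hE.le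
    have h9 : 4 * B * Real.exp (|y| / (4 * B)) * Real.exp (-(|y| / (4 * B))) = 4 * B := by
      rw [mul_assoc, ← Real.exp_add, add_neg_cancel, Real.exp_zero, mul_one]
    rw [h9] at h8
    exact h8
  have h2 : Real.exp (-(2 * |y| / B)) =
      Real.exp (-(3 * |y| / (2 * B))) * (Real.exp (-(|y| / (4 * B)))) ^ 2 := by
    rw [← Real.exp_nat_mul, ← Real.exp_add]
    congr 1
    push_cast
    field_simp
    ring
  have h5 : ((1 + |y|) * Real.exp (-(|y| / (4 * B)))) ^ 2 ≤ (4 * B) ^ 2 :=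
    pow_le_pow_left₀ (by positivity) h3 2
  have h6 := mul_le_mul_of_nonneg_left (Wts_ch hB y) (by positivity : (0 : ℝ) ≤ (1 + |y|) ^ 2)
  rw [h2] at h6
  have h7 := mul_le_mul_of_nonneg_left h5 (Real.exp_pos (-(3 * |y| / (2 * B)))).le
  have h8 := mul_le_mul_of_nonneg_left (Wzb_lo h y) (by positivity : (0 : ℝ) ≤ 64 * B ^ 2)
  have h9 : 0 ≤ B ^ 3 * ta B s y := mul_nonneg (by positivity) (ta_pos h y).le
  have h10 : (1 + |y|) ^ 2 * (4 * (Real.exp (-(3 * |y| / (2 * B))) * (Real.exp (-(|y| / (4 * B)))) ^ 2)) =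
      4 * (Real.exp (-(3 * |y| / (2 * B))) * ((1 + |y|) * Real.exp (-(|y| / (4 * B)))) ^ 2) := by ring
  rw [h10] at h6
  have h11 : 64 * B ^ 2 * (60 * B * ta B s y) = 3840 * (B ^ 3 * ta B s y) := by ring
  rw [h11] at h8
  have h12 : Real.exp (-(3 * |y| / (2 * B))) * (4 * B) ^ 2 = 16 * B ^ 2 * Real.exp (-(3 * |y| / (2 * B))) := by ring
  rw [h12] at h7
  have h13 : 4000 * B ^ 3 * ta B s y = 4000 * (B ^ 3 * ta B s y) := by ring
  rw [h13]
  linarith

theorem Wzb_ex (h : Slow4 B s) (y : ℝ) :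
    Real.exp (-(|y| / 2)) ≤ Real.exp (-(3 * |y| / (2 * B))) := by
  obtain ⟨hB, hB16, hs, h4⟩ := Wzb_h h
  rw [Real.exp_le_exp]
  have h1 : 1 / B ≤ 1 / 16 := one_div_le_one_div_of_le (by norm_num) hB16
  have h2 := mul_le_mul_of_nonneg_right h1 (abs_nonneg y)
  have h3 : 3 * |y| / (2 * B) = 3 / 2 * (1 / B * |y|) := by ring
  rw [h3]
  have := abs_nonneg y
  linarith

theorem ex_le_ta (h : Slow4 B s) (y : ℝ) : Real.exp (-(|y| / 2)) ≤ 60 * B * ta B s y :=
  le_trans (Wzb_ex h y) (Wzb_lo h y)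

theorem ex_le_om4 (h : Slow4 B s) (y : ℝ) : Real.exp (-(|y| / 2)) ≤ 30 * om4 B s y := by
  linarith [Wzb_ex h y, om4_lo h y]

theorem Wzb_Th (hB : 0 < B) {y : ℝ} : Th B y ≤ Real.exp (y / B) := by
  unfold Th
  rw [div_le_iff₀ (by positivity), mul_add, mul_one, ← Real.exp_add]
  have h1 : y / B + -y / B = 0 := by ring
  rw [h1, Real.exp_zero]
  linarith [Real.exp_pos (y / B)]

theorem Wzb_Thle (hB : 0 < B) {y : ℝ} (hy : y ≤ 0) : Th B y ≤ 1 / 2 := by
  have h1 := Wts_half hB (y := -y) (by linarith)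
  linarith [Th_neg hB y]

theorem Wzb_om (B s y : ℝ) : om4 B s y ≤ Th B y := by
  unfold om4
  exact mul_le_of_le_one_right (Th_pos B y).le (Zf_le_one _)

theorem rat_le (h : Slow4 B s) (y : ℝ) : (om4 B s y) ^ 2 * (bd (1 / 2) 0 y) ^ 2 ≤
    4 * B * Real.exp (-(|y| / B)) * ta B s y := by
  obtain ⟨hB, hB16, hs, h4⟩ := Wzb_h h
  have ho := om4_pos B s y
  have ht := ta_pos h y
  have hta := Wzb_ta h y
  have hZ := Zf_pos (s * y)
  rcases le_total y 0 with hy | hy
  · rw [bd_of_nonpos hy, abs_of_nonpos hy]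
    have e1 : (Real.exp (0 * y)) ^ 2 = 1 := by
      rw [zero_mul, Real.exp_zero]
      norm_num
    rw [e1, mul_one]
    have h1 : om4 B s y ≤ 2 * B * ta B s y := by
      have h2 : Th B y * (1 / 2) / B * Zf (s * y) ≤ Th B y * (1 - Th B y) / B * Zf (s * y) := by
        apply mul_le_mul_of_nonneg_right _ hZ.le
        apply div_le_div_of_nonneg_right _ hB.le
        apply mul_le_mul_of_nonneg_left _ (Th_pos B y).le
        linarith [Wzb_Thle hB hy]
      have h3 : om4 B s y = 2 * B * (Th B y * (1 / 2) / B * Zf (s * y)) := by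
        unfold om4
        field_simp
      rw [h3]
      exact mul_le_mul_of_nonneg_left (h2.trans hta) (by positivity)
    have h2 : om4 B s y ≤ Real.exp (-(-y / B)) := by
      refine (Wzb_om B s y).trans ((Wzb_Th hB).trans (le_of_eq ?_))
      congr 1
      ring
    have h3 := mul_le_mul h2 h1 ho.le (Real.exp_pos _).le
    have h5 : 0 ≤ Real.exp (-(-y / B)) * (2 * B * ta B s y) := by positivity
    nlinarith
  · rw [bd_of_nonneg hy, abs_of_nonneg hy]
    have e1 : (Real.exp (-(1 / 2 * y))) ^ 2 = Real.exp (-y) := by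
      rw [← Real.exp_nat_mul]
      congr 1
      push_cast
      ring
    rw [e1]
    have h1 : Zf (s * y) ≤ 4 * B * Real.exp (y / B) * ta B s y := by
      have h2 : 1 / 4 * Real.exp (-(|y| / B)) / B * Zf (s * y) ≤ Th B y * (1 - Th B y) / B * Zf (s * y) := by
        apply mul_le_mul_of_nonneg_right _ hZ.le
        exact div_le_div_of_nonneg_right (Wts_lo2 hB y) hB.le
      rw [abs_of_nonneg hy] at h2
      have h3 : Zf (s * y) = 4 * B * Real.exp (y / B) * (1 / 4 * Real.exp (-(y / B)) / B * Zf (s * y)) := by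
        have e : Real.exp (y / B) * Real.exp (-(y / B)) = 1 := by
          rw [← Real.exp_add, add_neg_cancel, Real.exp_zero]
        calc Zf (s * y) = 1 * Zf (s * y) := by ring
          _ = (Real.exp (y / B) * Real.exp (-(y / B))) * Zf (s * y) := by rw [e]
          _ = _ := by
            field_simp
      calc Zf (s * y) = 4 * B * Real.exp (y / B) * (1 / 4 * Real.exp (-(y / B)) / B * Zf (s * y)) := h3
        _ ≤ 4 * B * Real.exp (y / B) * ta B s y :=
          mul_le_mul_of_nonneg_left (h2.trans hta) (by positivity)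
    have h2 : (om4 B s y) ^ 2 ≤ Zf (s * y) := by
      have h3 : om4 B s y ≤ Zf (s * y) := by
        unfold om4
        exact mul_le_of_le_one_left hZ.le (Th_lt_one B y).le
      have h5 := om4_le_one B s y
      nlinarith
    have h3 : Real.exp (y / B) * Real.exp (-y) ≤ Real.exp (-(y / B)) := by
      rw [← Real.exp_add, Real.exp_le_exp]
      have h5 : 1 / B ≤ 1 / 16 := one_div_le_one_div_of_le (by norm_num) hB16
      have h6 := mul_le_mul_of_nonneg_right h5 hy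
      have h7 : y / B = 1 / B * y := by ring
      rw [h7]
      linarith
    calc (om4 B s y) ^ 2 * Real.exp (-y) ≤ (4 * B * Real.exp (y / B) * ta B s y) * Real.exp (-y) :=
          mul_le_mul_of_nonneg_right (h2.trans h1) (Real.exp_pos _).le
      _ = 4 * B * (Real.exp (y / B) * Real.exp (-y)) * ta B s y := by ring
      _ ≤ 4 * B * Real.exp (-(y / B)) * ta B s y := by
          apply mul_le_mul_of_nonneg_right _ ht.le
          exact mul_le_mul_of_nonneg_left h3 (by positivity)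

theorem ta_bd (h : Slow4 B s) (y : ℝ) :
    ta B s y * (bd (1 / 2) 0 y) ^ 2 ≤ Real.exp (-(|y| / B)) := by
  obtain ⟨hB, hB16, hs, h4⟩ := Wzb_h h
  have h2B : 2 / B ≤ 1 := by
    rw [div_le_one hB]
    linarith
  have ht := ta_pos h y
  rcases le_total y 0 with hy | hy
  · rw [bd_of_nonpos hy, abs_of_nonpos hy]
    have e1 : (Real.exp (0 * y)) ^ 2 = 1 := by
      rw [zero_mul, Real.exp_zero]
      norm_num
    rw [e1, mul_one]
    have h2 : om4 B s y ≤ Real.exp (-(-y / B)) := by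
      refine (Wzb_om B s y).trans ((Wzb_Th hB).trans (le_of_eq ?_))
      congr 1
      ring
    have h3 := ta_le h y
    have h5 := mul_le_mul_of_nonneg_right h2B (om4_pos B s y).le
    linarith
  · rw [bd_of_nonneg hy, abs_of_nonneg hy]
    have e1 : (Real.exp (-(1 / 2 * y))) ^ 2 = Real.exp (-y) := by
      rw [← Real.exp_nat_mul]
      congr 1
      push_cast
      ring
    rw [e1]
    have h3 : Real.exp (-y) ≤ Real.exp (-(y / B)) := by
      rw [Real.exp_le_exp]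
      have h5 : 1 / B ≤ 1 / 16 := one_div_le_one_div_of_le (by norm_num) hB16
      have h6 := mul_le_mul_of_nonneg_right h5 hy
      have h7 : y / B = 1 / B * y := by ring
      rw [h7]
      linarith
    have h5 : ta B s y ≤ 1 := (ta_hi h y).trans h2B
    have h6 := mul_le_mul_of_nonneg_right h5 (Real.exp_pos (-y)).le
    linarith

theorem Wzb_Zeq (ξ : ℝ) : Zf ξ = 4 * (Th (1 / 2) (ξ - 2) * (1 - Th (1 / 2) (ξ - 2))) := by
  have h1 := Th_eq (B := 1 / 2) (by norm_num) (ξ - 2)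
  have h2 : (ξ - 2) / (2 * (1 / 2)) = ξ - 2 := by ring
  rw [h2] at h1
  have h3 : Zf ξ = 1 - Real.tanh (ξ - 2) ^ 2 := by
    unfold Zf
    rw [Tan_sub_sq, div_pow, one_pow]
  rw [h3, h1]
  ring

theorem Wzb_topTh : Tendsto (fun x : ℝ => Th (1 / 2) x) atTop (𝓝 1) := by
  have h1 : Tendsto (fun x : ℝ => Real.exp (-x / (1 / 2))) atTop (𝓝 0) := by
    have h2 : Tendsto (fun x : ℝ => -x / (1 / 2)) atTop atBot := by
      have h3 : (fun x : ℝ => -x / (1 / 2)) = fun x => (-2) * x := by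
        funext x
        ring
      rw [h3]
      exact tendsto_id.const_mul_atTop_of_neg (by norm_num)
    exact Real.tendsto_exp_atBot.comp h2
  have h4 : Tendsto (fun x : ℝ => 1 / (1 + Real.exp (-x / (1 / 2)))) atTop (𝓝 (1 / (1 + 0))) :=
    (tendsto_const_nhds (x := (1 : ℝ))).div (h1.const_add 1) (by norm_num)
  simpa [Th] using h4

theorem Wzb_botTh : Tendsto (fun x : ℝ => Th (1 / 2) x) atBot (𝓝 0) := by
  have h1 : Tendsto (fun x : ℝ => Real.exp (-x / (1 / 2))) atBot atTop := by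
    have h2 : Tendsto (fun x : ℝ => -x / (1 / 2)) atBot atTop := by
      have h3 : (fun x : ℝ => -x / (1 / 2)) = fun x => (-2) * x := by
        funext x
        ring
      rw [h3]
      exact tendsto_id.const_mul_atBot_of_neg (by norm_num)
    exact Real.tendsto_exp_atTop.comp h2
  have h4 : Tendsto (fun x : ℝ => 1 + Real.exp (-x / (1 / 2))) atBot atTop :=
    tendsto_atTop_add_const_left _ 1 h1
  have h5 := h4.inv_tendsto_atTop
  refine h5.congr fun x => ?_
  simp [Th]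

theorem Wzb_Zint (hs : 0 < s) : ∫ y, Zf (s * y) = 2 / s := by
  have hd : ∀ y, HasDerivAt (fun y => 2 / s * Th (1 / 2) (s * y - 2)) (Zf (s * y)) y := by
    intro y
    have h1 : HasDerivAt (fun y : ℝ => s * y - 2) s y := by
      have := ((hasDerivAt_id y).const_mul s).sub_const 2
      simpa using this
    have h2 := (Th_hd (B := 1 / 2) (by norm_num) (s * y - 2)).comp y h1
    have h3 := h2.const_mul (2 / s)
    refine h3.congr_deriv ?_
    rw [Wzb_Zeq]
    field_simp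
    ring
  have ht1 : Tendsto (fun y : ℝ => s * y - 2) atTop atTop :=
    tendsto_atTop_add_const_right _ (-2) (tendsto_id.const_mul_atTop hs)
  have ht2 : Tendsto (fun y : ℝ => s * y - 2) atBot atBot :=
    tendsto_atBot_add_const_right _ (-2) (tendsto_id.const_mul_atBot hs)
  have l1 : Tendsto (fun y => 2 / s * Th (1 / 2) (s * y - 2)) atTop (𝓝 (2 / s * 1)) :=
    (Wzb_topTh.comp ht1).const_mul (2 / s)
  have l2 : Tendsto (fun y => 2 / s * Th (1 / 2) (s * y - 2)) atBot (𝓝 (2 / s * 0)) :=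
    (Wzb_botTh.comp ht2).const_mul (2 / s)
  have h5 := integral_of_hasDerivAt_of_tendsto hd
    (Cl_int (Cl_Zs hs) (by positivity) (by positivity)) l2 l1
  rw [h5]
  ring

theorem int_om4 (h : Slow4 B s) : Integrable (om4 B s) ∧ ∫ y, om4 B s y ≤ 2 / s := by
  obtain ⟨hB, hB16, hs, h4⟩ := Wzb_h h
  have hi : Integrable (om4 B s) := Cl_int (Cl_om4 h) (by positivity) (by positivity)
  refine ⟨hi, ?_⟩
  rw [← Wzb_Zint hs]
  refine integral_mono hi (Cl_int (Cl_Zs hs) (by positivity) (by positivity)) (fun y => ?_)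
  unfold om4
  exact mul_le_of_le_one_left (Zf_pos _).le (Th_lt_one B y).le

theorem bi_nonneg (s y : ℝ) : 0 ≤ bi s y := by
  unfold bi
  apply indicator_nonneg
  intro z _
  have := Real.cosh_pos (s * z - 2)
  positivity

theorem bi_int (hs : 0 < s) {f : ℝ → ℝ} (hf : Cl 0 0 f) : Integrable (fun y => bi s y * f y) := by
  obtain ⟨C, hC0, hC⟩ := Cl_bnd hf
  have hc : Continuous (fun z : ℝ => 1 / Real.cosh (s * z - 2)) := by
    apply Continuous.div continuous_const (by fun_prop)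
    intro z
    exact (Real.cosh_pos _).ne'
  have hm : AEStronglyMeasurable (fun y => bi s y * f y) volume := by
    refine AEStronglyMeasurable.mul ?_ (Cl_cont hf).aestronglyMeasurable
    exact hc.aestronglyMeasurable.indicator measurableSet_Ici
  refine ((bd_int hs hs).const_mul (2 * Real.exp 2 * C)).mono' hm ?_
  refine Eventually.of_forall fun y => ?_
  rw [Real.norm_eq_abs, abs_mul, abs_of_nonneg (bi_nonneg s y)]
  have h1 : bi s y ≤ 2 * Real.exp 2 * bd s s y := by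
    have h2 : bi s y ≤ 1 / Real.cosh (s * y - 2) := by
      unfold bi
      apply indicator_le_self'
      intro _ _
      have := Real.cosh_pos (s * y - 2)
      positivity
    refine h2.trans ((Tan_sech_le _).trans ?_)
    rw [bd_abs, mul_assoc, ← Real.exp_add]
    apply mul_le_mul_of_nonneg_left _ (by norm_num)
    rw [Real.exp_le_exp]
    have h3 : |s * y| ≤ |s * y - 2| + |(2 : ℝ)| := by
      have := abs_add_le (s * y - 2) 2
      simpa using this
    rw [abs_mul, abs_of_pos hs, abs_of_pos (by norm_num : (0 : ℝ) < 2)] at h3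
    linarith
  have h2 : |f y| ≤ C := by
    have := hC y
    rw [bd_zero, mul_one] at this
    exact this
  calc bi s y * |f y| ≤ (2 * Real.exp 2 * bd s s y) * C :=
        mul_le_mul h1 h2 (abs_nonneg _) (mul_nonneg (by positivity) (bd_pos _ _ _).le)
    _ = 2 * Real.exp 2 * C * bd s s y := by ring

theorem Wzb_cosh (x : ℝ) : x ≤ Real.cosh x := by
  rcases le_total 0 x with hx | hx
  · have h1 := Real.self_le_sinh_iff.mpr hx
    have h2 := Real.sinh_lt_cosh x
    linarith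
  · have := Real.cosh_pos x
    linarith

theorem Z_le_bi (h : Slow4 B s) {y : ℝ} (hy : 1 / s ≤ y) :
    Zf (s * y) ≤ bi s y ∧ |y * (s * deriv Zf (s * y))| ≤ 6 * bi s y := by
  obtain ⟨hB, hB16, hs, h4⟩ := Wzb_h h
  have hbi : bi s y = 1 / Real.cosh (s * y - 2) := by
    unfold bi
    rw [indicator_of_mem (show y ∈ Ici (1 / s) from hy)]
  have hc := Real.cosh_pos (s * y - 2)
  have hc1 := Real.one_le_cosh (s * y - 2)
  have hi0 : 0 < 1 / Real.cosh (s * y - 2) := by positivity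
  have hi1 : 1 / Real.cosh (s * y - 2) ≤ 1 := by
    rw [div_le_one hc]
    exact hc1
  have hZ : Zf (s * y) = (1 / Real.cosh (s * y - 2)) ^ 2 := rfl
  have hsy : 1 ≤ s * y := by
    rw [div_le_iff₀ hs] at hy
    linarith
  rw [hbi]
  refine ⟨?_, ?_⟩
  · rw [hZ]
    nlinarith
  · rw [(Zf_hd (s * y)).deriv]
    have e1 : y * (s * (-2 * Real.tanh (s * y - 2) * Zf (s * y))) =
        (-2) * (s * y) * Real.tanh (s * y - 2) * Zf (s * y) := by ring
    rw [e1, abs_mul, abs_mul, abs_mul, abs_of_pos (Zf_pos (s * y)), abs_of_pos (by linarith : 0 < s * y)]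
    have e2 : |(-2 : ℝ)| = 2 := by norm_num
    rw [e2]
    have h5 := tanh_abs_lt (s * y - 2)
    have h6 : 2 * (s * y) * |Real.tanh (s * y - 2)| ≤ 2 * (s * y) := by
      have : 0 ≤ 2 * (s * y) := by linarith
      nlinarith
    have h7 := mul_le_mul_of_nonneg_right h6 (Zf_pos (s * y)).le
    refine h7.trans ?_
    have h8 : s * y ≤ 3 * Real.cosh (s * y - 2) := by
      have := Wzb_cosh (s * y - 2)
      linarith
    have h9 : 2 * (s * y) * Zf (s * y) ≤ 2 * (3 * Real.cosh (s * y - 2)) * Zf (s * y) := by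
      apply mul_le_mul_of_nonneg_right _ (Zf_pos (s * y)).le
      linarith
    refine h9.trans (le_of_eq ?_)
    rw [hZ]
    field_simp
    ring

end H98KC

end
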