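import Pool.Agent.H98.KC.Coe
import Pool.Agent.H98.KC.Wzb
import Pool.Agent.H98.KB.Cos

/-!
# Cof (MP_95be7d_S4): coercivity of the energy `E4` (variant of `CO_E` in `KB/Cos.lean`; uses the statements `L_coer4`, `Wza`, `Wzb`)

`r = √om4` (smooth, positive, class `Cl s (s+1/(2B))`), `F = rε ∈ Cl s (s+1/(2B))`.  `h = r'/r = om4'/(2om4) = (1/2)((1-Th)/B + s Z'/Z)`, `|Z'| ≤ 2Z`, so `|h| ≤ 1/B`.
`E4 = (1/2)∫om(ε'²+ε²-Q⁴ε²) - ∫om(bF-(1/2)Q⁴ε²)`, second integral `≤ Cν∫omε²` (`bF_cub`).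
`r ε' = F' - hF`: `omε'² ≥ (1-1/B)F'² - (C/B)F²` so `∫om(ε'²+ε²-Q⁴ε²) ≥ ∫(F'²+F²-Q⁴F²) - (C/B)∫(F²+F'²)`.
`L_coer4` for `F`.  For `φ ∈ {Q, Q', ρ}` (class `Cl 1 1`): `ip F φ = r(0) ip ε φ + ∫ F (1-r(0)/r) φ`, `|1-r(0)/r(y)| ≤ (|y|/B) e^{|y|/B}` (because `|(log r)'| ≤ 1/B`:
`r e^{y/B}` is nondecreasing and `r e^{-y/B}` is nonincreasing), so `|ip F φ - r(0) ip ε φ| ≤ (C/B)|F|_{L²}`.  `r(0) ≤ 1`.  `∫(F²+F'²) ≥ (1/2)∫om(ε²+ε'²)`.
Take `B ≥ B₁` large, `ν` small.  In `KB/Cos.lean` the weight is monotone; here use the two monotone functions above.  `Cos_w_int`, `Cos_exp_le`, `Cos_pt`, `Cos_bd_half` are reusable.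
-/

open MeasureTheory Filter Topology Set
open scoped ContDiff

noncomputable section

namespace H98KC

open H98KB H68KC

variable {B s : ℝ}

/-- the square root of the weight -/
def Cof_r (B s y : ℝ) : ℝ := √(om4 B s y)

/-- logarithmic derivative of `Cof_r` -/
def Cof_h (B s y : ℝ) : ℝ := (1 - Th B y) / (2 * B) - s * Real.tanh (s * y - 2)

theorem Cof_r_pos (B s y : ℝ) : 0 < Cof_r B s y := Real.sqrt_pos.2 (om4_pos B s y)

theorem Cof_r_sq (B s y : ℝ) : Cof_r B s y ^ 2 = om4 B s y := Real.sq_sqrt (om4_pos B s y).le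

theorem Cof_r_hd (hB : 0 < B) (s y : ℝ) :
    HasDerivAt (Cof_r B s) (Cof_h B s y * Cof_r B s y) y := by
  have h1 := (Wza_h1 hB s y).sqrt (om4_pos B s y).ne'
  have h2 : Cof_r B s = fun y => √(om4 B s y) := rfl
  rw [h2]
  refine h1.congr_deriv ?_
  have h3 : √(om4 B s y) ≠ 0 := (Cof_r_pos B s y).ne'
  have h4 : (1 / B * (Th B y * (1 - Th B y)) - 2 * s * (Real.tanh (s * y - 2) * Th B y)) *
      Zf (s * y) = 2 * Cof_h B s y * om4 B s y := by
    unfold om4 Cof_h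
    field_simp
  have h5 : om4 B s y = √(om4 B s y) * √(om4 B s y) := (Real.mul_self_sqrt (om4_pos B s y).le).symm
  rw [h4, div_eq_iff (by positivity)]
  nth_rewrite 1 [h5]
  ring

theorem Cof_h_le (h : Slow4 B s) (y : ℝ) : |Cof_h B s y| ≤ 1 / B := by
  obtain ⟨hB, hs, hsB⟩ := Wza_s h
  obtain ⟨t1, t2, -⟩ := Wza_abs (tanh_abs_lt (s * y - 2))
  have h1 := Th_pos B y
  have h2 := Th_lt_one B y
  unfold Cof_h
  have e : (1 - Th B y) / (2 * B) = (1 - Th B y) / 2 * (1 / B) := by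
    field_simp
  rw [e]
  obtain ⟨β, hβ⟩ : ∃ β, β = 1 / B := ⟨_, rfl⟩
  rw [← hβ] at hsB ⊢
  have hβ0 : 0 < β := by rw [hβ]; positivity
  have a1 : 0 ≤ (1 - Th B y) / 2 * β := mul_nonneg (by linarith) hβ0.le
  have a2 : (1 - Th B y) / 2 * β ≤ 1 / 2 * β := mul_le_mul_of_nonneg_right (by linarith) hβ0.le
  have a3 : s * Real.tanh (s * y - 2) ≤ s * 1 := mul_le_mul_of_nonneg_left t2.le hs.le
  have a4 : s * (-1) ≤ s * Real.tanh (s * y - 2) := mul_le_mul_of_nonneg_left t1.le hs.le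
  rw [abs_le]
  constructor <;> linarith

theorem Cof_Cl_h (hB : 0 < B) (hs : 0 < s) : Cl 0 0 (Cof_h B s) := by
  have h1 : Cl 0 0 (Th B) := Cl_mono (Cl_Th hB) le_rfl (by positivity)
  have h3 := Wza_tr (Cl_tanh s) (2 / s)
  have h2 := Cl_sub (Cl_sub (Cl_const (1 / (2 * B))) (Cl_smul (1 / (2 * B)) h1)) (Cl_smul s h3)
  have e : Cof_h B s = fun y => 1 / (2 * B) - 1 / (2 * B) * Th B y
      - s * Real.tanh (s * (y - 2 / s)) := by
    funext y
    unfold Cof_h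
    have e1 : s * (y - 2 / s) = s * y - 2 := by
      field_simp
    rw [e1]
    ring
  rw [e]
  exact h2

theorem Cof_smooth (h : Slow4 B s) : ContDiff ℝ ∞ (Cof_r B s) :=
  (Cl_om4 h).1.sqrt (fun y => (om4_pos B s y).ne')

theorem Cof_iter (hB : 0 < B) (hs : 0 < s) (j : ℕ) :
    ∃ P : ℝ → ℝ, Cl 0 0 P ∧ ∀ y, iteratedDeriv j (Cof_r B s) y = P y * Cof_r B s y := by
  induction j with
  | zero => exact ⟨fun _ => 1, Cl_const 1, fun y => by simp⟩
  | succ j ih =>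
    obtain ⟨P, hP, hj⟩ := ih
    refine ⟨fun y => deriv P y + P y * Cof_h B s y, Cl_add (Cl_der hP)
      (Cl_mul0 hP (Cof_Cl_h hB hs)), fun y => ?_⟩
    rw [iteratedDeriv_succ]
    have e : iteratedDeriv j (Cof_r B s) = fun y => P y * Cof_r B s y := funext hj
    rw [e]
    have h := ((Cl_hd hP y).mul (Cof_r_hd hB s y)).deriv
    have h' : deriv (fun y => P y * Cof_r B s y) y =
        deriv P y * Cof_r B s y + P y * (Cof_h B s y * Cof_r B s y) := h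
    rw [h']
    ring

theorem Cof_Cl_r (h : Slow4 B s) : Cl s s (Cof_r B s) := by
  obtain ⟨hB, hs, hsB⟩ := Wza_s h
  refine ⟨Cof_smooth h, fun j => ?_⟩
  obtain ⟨P, hP, hj⟩ := Cof_iter hB hs j
  obtain ⟨A, hA0, hA⟩ := Cl_bnd hP
  obtain ⟨D, hD0, hD⟩ := Cl_bnd (Cl_mono (Cl_om4 h) (p' := 2 * s) (q' := 2 * s) le_rfl
    (by have : 0 < 1 / B := by positivity
        linarith))
  refine ⟨A * √D, fun y => ?_⟩
  rw [hj, abs_mul, mul_assoc]
  have h1 : |P y| ≤ A := by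
    have := hA y
    rwa [bd_zero, mul_one] at this
  have h2 : |Cof_r B s y| ≤ √D * bd s s y := by
    have e1 : bd s s y = √(bd (2 * s) (2 * s) y) := by
      rw [Cos_bd_half]
      congr 1 <;> ring
    rw [abs_of_pos (Cof_r_pos B s y), e1, ← Real.sqrt_mul hD0]
    exact Real.sqrt_le_sqrt ((le_abs_self _).trans (hD y))
  exact mul_le_mul h1 h2 (abs_nonneg _) hA0

theorem Cof_anti (h : Slow4 B s) :
    Antitone (fun y => Real.exp (-(1 / B * y)) * Cof_r B s y) := by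
  obtain ⟨hB, hs, hsB⟩ := Wza_s h
  have hd : ∀ y, HasDerivAt (fun y => Real.exp (-(1 / B * y)) * Cof_r B s y)
      (Real.exp (-(1 / B * y)) * (-(1 / B)) * Cof_r B s y +
        Real.exp (-(1 / B * y)) * (Cof_h B s y * Cof_r B s y)) y := by
    intro y
    have h1 : HasDerivAt (fun y : ℝ => -(1 / B * y)) (-(1 / B)) y := by
      have h0 := ((hasDerivAt_id y).const_mul (1 / B)).neg
      rw [mul_one] at h0
      exact h0
    exact h1.exp.mul (Cof_r_hd hB s y)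
  refine antitone_of_deriv_nonpos (fun y => (hd y).differentiableAt) (fun y => ?_)
  rw [(hd y).deriv]
  have h1 := (abs_le.1 (Cof_h_le h y)).2
  have h2 : 0 ≤ Real.exp (-(1 / B * y)) * Cof_r B s y :=
    mul_nonneg (Real.exp_pos _).le (Cof_r_pos B s y).le
  nlinarith

theorem Cof_mono (h : Slow4 B s) :
    Monotone (fun y => Real.exp (1 / B * y) * Cof_r B s y) := by
  obtain ⟨hB, hs, hsB⟩ := Wza_s h
  have hd : ∀ y, HasDerivAt (fun y => Real.exp (1 / B * y) * Cof_r B s y)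
      (Real.exp (1 / B * y) * (1 / B) * Cof_r B s y +
        Real.exp (1 / B * y) * (Cof_h B s y * Cof_r B s y)) y := by
    intro y
    have h1 : HasDerivAt (fun y : ℝ => 1 / B * y) (1 / B) y := by
      have h0 := (hasDerivAt_id y).const_mul (1 / B)
      rw [mul_one] at h0
      exact h0
    exact h1.exp.mul (Cof_r_hd hB s y)
  refine monotone_of_deriv_nonneg (fun y => (hd y).differentiableAt) (fun y => ?_)
  rw [(hd y).deriv]
  have h1 := (abs_le.1 (Cof_h_le h y)).1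
  have h2 : 0 ≤ Real.exp (1 / B * y) * Cof_r B s y :=
    mul_nonneg (Real.exp_pos _).le (Cof_r_pos B s y).le
  nlinarith

theorem Cof_rat (h : Slow4 B s) (y : ℝ) :
    Real.exp (-(1 / B * |y|)) ≤ Cof_r B s 0 / Cof_r B s y ∧
    Cof_r B s 0 / Cof_r B s y ≤ Real.exp (1 / B * |y|) := by
  have hr := Cof_r_pos B s y
  have e0 : Real.exp (-(1 / B * 0)) * Cof_r B s 0 = Cof_r B s 0 := by simp
  have e1 : Real.exp (1 / B * 0) * Cof_r B s 0 = Cof_r B s 0 := by simp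
  rcases le_total 0 y with hy | hy
  · have m2 : Real.exp (-(1 / B * y)) * Cof_r B s y ≤ Real.exp (-(1 / B * 0)) * Cof_r B s 0 :=
      Cof_anti h hy
    have m3 : Real.exp (1 / B * 0) * Cof_r B s 0 ≤ Real.exp (1 / B * y) * Cof_r B s y :=
      Cof_mono h hy
    rw [e0] at m2
    rw [e1] at m3
    rw [abs_of_nonneg hy]
    exact ⟨(le_div_iff₀ hr).2 m2, (div_le_iff₀ hr).2 m3⟩
  · have m2 : Real.exp (-(1 / B * 0)) * Cof_r B s 0 ≤ Real.exp (-(1 / B * y)) * Cof_r B s y :=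
      Cof_anti h hy
    have m3 : Real.exp (1 / B * y) * Cof_r B s y ≤ Real.exp (1 / B * 0) * Cof_r B s 0 :=
      Cof_mono h hy
    rw [e0] at m2
    rw [e1] at m3
    rw [abs_of_nonpos hy]
    have e2 : -(1 / B * -y) = 1 / B * y := by ring
    have e3 : 1 / B * -y = -(1 / B * y) := by ring
    rw [e2, e3]
    exact ⟨(le_div_iff₀ hr).2 m3, (div_le_iff₀ hr).2 m2⟩

theorem Cof_ratio (h : Slow4 B s) (y : ℝ) :
    |1 - Cof_r B s 0 / Cof_r B s y| ≤ 1 / B * (|y| * Real.exp (|y| / 16)) := by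
  obtain ⟨hB, hs, hsB⟩ := Wza_s h
  obtain ⟨q1, q2⟩ := Cof_rat h y
  have hexp : Real.exp (1 / B * |y|) ≤ Real.exp (|y| / 16) := by
    refine Real.exp_le_exp.2 ?_
    have h1 : 1 / B ≤ 1 / 16 := one_div_le_one_div_of_le (by norm_num) h.1
    have := mul_le_mul_of_nonneg_right h1 (abs_nonneg y)
    linarith
  have hy0 : 0 ≤ |y| := abs_nonneg y
  have hBi : 0 < 1 / B := by positivity
  have key : 1 / B * |y| * Real.exp (1 / B * |y|) ≤ 1 / B * (|y| * Real.exp (|y| / 16)) := by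
    rw [mul_assoc]
    exact mul_le_mul_of_nonneg_left (mul_le_mul_of_nonneg_left hexp hy0) hBi.le
  refine le_trans ?_ key
  have h3 := Real.add_one_le_exp (-(1 / B * |y|))
  have h4 : 1 ≤ Real.exp (1 / B * |y|) := Real.one_le_exp (by positivity)
  have h5 : 0 ≤ 1 / B * |y| := by positivity
  have h6 := Cos_exp_le (1 / B * |y|)
  have h7 : 1 / B * |y| ≤ 1 / B * |y| * Real.exp (1 / B * |y|) := by nlinarith
  rw [abs_le]
  constructor <;> linarith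

/-- change of the test function -/
theorem Cof_ip {φ : ℝ → ℝ} (hφ : Cl 1 1 φ) : ∃ K : ℝ, 0 ≤ K ∧ ∀ B s : ℝ, Slow4 B s →
    ∀ ε : ℝ → ℝ, Cl 0 0 ε →
    (ip (fun y => Cof_r B s y * ε y) φ) ^ 2 ≤
      (ip ε φ) ^ 2 + K / B * ∫ y, (Cof_r B s y * ε y) ^ 2 := by
  obtain ⟨A, hA0, hA⟩ := Cl_bnd hφ
  refine ⟨2 * (A ^ 2 * ∫ y, (|y| * Real.exp (|y| / 16) * bd 1 1 y) ^ 2), ?_, ?_⟩
  · have : 0 ≤ ∫ y, (|y| * Real.exp (|y| / 16) * bd 1 1 y) ^ 2 :=
      integral_nonneg (fun y => sq_nonneg _)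
    positivity
  intro B s h ε hcl
  obtain ⟨hB, hs, hsB⟩ := Wza_s h
  have hBi : 0 < 1 / B := by positivity
  have hF := Cl_mul (Cof_Cl_r h) hcl
  set F : ℝ → ℝ := fun y => Cof_r B s y * ε y with hFdef
  have hFφ := Cl_int (Cl_mul hF hφ) (by linarith) (by linarith)
  have hεφ := Cl_int (Cl_mul hcl hφ) (by linarith) (by linarith)
  have hF2 : Integrable (fun y => F y ^ 2) := by
    have := Cl_int (Cl_mul hF hF) (by linarith) (by linarith)
    refine this.congr (Eventually.of_forall fun y => ?_)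
    show F y * F y = F y ^ 2
    ring
  set G : ℝ → ℝ := fun y => φ y * (1 - Cof_r B s 0 / Cof_r B s y) with hG
  have hGc : Continuous G := by
    refine (Cl_cont hφ).mul (continuous_const.sub (continuous_const.div ?_ ?_))
    · exact (Cof_smooth h).continuous
    · exact fun y => (Cof_r_pos B s y).ne'
  have hGle : ∀ y, G y ^ 2 ≤ (1 / B) ^ 2 * (A ^ 2 * (|y| * Real.exp (|y| / 16) * bd 1 1 y) ^ 2) := by
    intro y
    have h1 : |G y| ≤ 1 / B * (A * (|y| * Real.exp (|y| / 16) * bd 1 1 y)) := by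
      rw [hG]
      show |φ y * (1 - Cof_r B s 0 / Cof_r B s y)| ≤ _
      rw [abs_mul]
      calc |φ y| * |1 - Cof_r B s 0 / Cof_r B s y| ≤
            (A * bd 1 1 y) * (1 / B * (|y| * Real.exp (|y| / 16))) :=
            mul_le_mul (hA y) (Cof_ratio h y) (abs_nonneg _) (mul_nonneg hA0 (bd_pos _ _ _).le)
        _ = 1 / B * (A * (|y| * Real.exp (|y| / 16) * bd 1 1 y)) := by ring
    calc G y ^ 2 = |G y| ^ 2 := (sq_abs _).symm
      _ ≤ (1 / B * (A * (|y| * Real.exp (|y| / 16) * bd 1 1 y))) ^ 2 :=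
          pow_le_pow_left₀ (abs_nonneg _) h1 2
      _ = (1 / B) ^ 2 * (A ^ 2 * (|y| * Real.exp (|y| / 16) * bd 1 1 y) ^ 2) := by ring
  have hWi : Integrable (fun y : ℝ => (1 / B) ^ 2 *
      (A ^ 2 * (|y| * Real.exp (|y| / 16) * bd 1 1 y) ^ 2)) :=
    (Cos_w_int.const_mul (A ^ 2)).const_mul ((1 / B) ^ 2)
  have hG2 : Integrable (fun y => G y ^ 2) := by
    refine hWi.mono' (hGc.pow 2).aestronglyMeasurable (Eventually.of_forall fun y => ?_)
    rw [Real.norm_eq_abs, abs_of_nonneg (sq_nonneg _)]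
    exact hGle y
  have hG2le : ∫ y, G y ^ 2 ≤ (1 / B) ^ 2 *
      (A ^ 2 * ∫ y, (|y| * Real.exp (|y| / 16) * bd 1 1 y) ^ 2) := by
    refine (integral_mono hG2 hWi hGle).trans (le_of_eq ?_)
    rw [integral_const_mul, integral_const_mul]
  obtain ⟨-, hcs⟩ := cs_int (Cl_cont hF) hGc hF2 hG2
  have hdiff : ip F φ - Cof_r B s 0 * ip ε φ = ∫ y, F y * G y := by
    unfold ip
    rw [← integral_const_mul, ← integral_sub hFφ (hεφ.const_mul _)]
    refine integral_congr_ae (Eventually.of_forall fun y => ?_)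
    show F y * φ y - Cof_r B s 0 * (ε y * φ y) = F y * (φ y * (1 - Cof_r B s 0 / Cof_r B s y))
    rw [hFdef]
    have hr := (Cof_r_pos B s y).ne'
    show Cof_r B s y * ε y * φ y - Cof_r B s 0 * (ε y * φ y) =
      Cof_r B s y * ε y * (φ y * (1 - Cof_r B s 0 / Cof_r B s y))
    field_simp
  have hr0 : Cof_r B s 0 ^ 2 ≤ 1 / 2 := by
    rw [Cof_r_sq]
    unfold om4
    have e1 : Th B 0 = 1 / 2 := by
      unfold Th
      norm_num
    rw [e1]
    have := Zf_le_one (s * 0)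
    linarith
  have hsq : (ip F φ - Cof_r B s 0 * ip ε φ) ^ 2 ≤ (∫ y, F y ^ 2) * ∫ y, G y ^ 2 := by
    rw [hdiff, ← sq_abs]
    calc |∫ y, F y * G y| ^ 2 ≤ (√(∫ y, F y ^ 2) * √(∫ y, G y ^ 2)) ^ 2 :=
          pow_le_pow_left₀ (abs_nonneg _) hcs 2
      _ = (∫ y, F y ^ 2) * ∫ y, G y ^ 2 := by
          rw [mul_pow, Real.sq_sqrt (integral_nonneg fun y => sq_nonneg _),
            Real.sq_sqrt (integral_nonneg fun y => sq_nonneg _)]
  have hF0 : 0 ≤ ∫ y, F y ^ 2 := integral_nonneg fun y => sq_nonneg _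
  have hW0 : 0 ≤ A ^ 2 * ∫ y, (|y| * Real.exp (|y| / 16) * bd 1 1 y) ^ 2 :=
    mul_nonneg (sq_nonneg _) (integral_nonneg fun y => sq_nonneg _)
  set W := A ^ 2 * ∫ y, (|y| * Real.exp (|y| / 16) * bd 1 1 y) ^ 2 with hWdef
  have hB2 : (1 / B) ^ 2 ≤ 1 / B := by
    have : 1 / B ≤ 1 := by
      rw [div_le_one hB]
      linarith [h.1]
    nlinarith
  have h9 : (∫ y, F y ^ 2) * ∫ y, G y ^ 2 ≤ 1 / B * W * ∫ y, F y ^ 2 := by
    have : ∫ y, G y ^ 2 ≤ 1 / B * W := hG2le.trans (mul_le_mul_of_nonneg_right hB2 hW0)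
    nlinarith
  have h10 : (ip F φ) ^ 2 ≤ 2 * (Cof_r B s 0 * ip ε φ) ^ 2 +
      2 * (ip F φ - Cof_r B s 0 * ip ε φ) ^ 2 := by
    nlinarith [sq_nonneg (ip F φ - 2 * (Cof_r B s 0 * ip ε φ))]
  have h11 : (Cof_r B s 0 * ip ε φ) ^ 2 ≤ 1 / 2 * (ip ε φ) ^ 2 := by
    rw [mul_pow]
    exact mul_le_mul_of_nonneg_right hr0 (sq_nonneg _)
  have h12 : 2 * W / B * ∫ y, F y ^ 2 = 2 * (1 / B * W * ∫ y, F y ^ 2) := by ring
  show (ip F φ) ^ 2 ≤ (ip ε φ) ^ 2 + 2 * W / B * ∫ y, F y ^ 2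
  rw [h12]
  linarith

theorem Cof_pt {δ a u v : ℝ} (hδ : 0 < δ) (ha : |a| ≤ δ) (hδ1 : δ ≤ 1) :
    (1 - δ) * u ^ 2 - δ * v ^ 2 ≤ (u - a * v) ^ 2 := by
  rcases le_total 0 a with h | h
  · rw [abs_of_nonneg h] at ha
    exact Cos_pt hδ h ha hδ1
  · rw [abs_of_nonpos h] at ha
    have h1 := Cos_pt (u := u) (v := -v) hδ (by linarith : 0 ≤ -a) ha hδ1
    have e1 : u - -a * -v = u - a * v := by ring
    have e2 : (-v) ^ 2 = v ^ 2 := by ring
    rw [e1, e2] at h1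
    exact h1

theorem CO_E4 : ∃ ν c C B₁ : ℝ, 0 < ν ∧ ν ≤ 1 ∧ 0 < c ∧ 0 < C ∧ 16 ≤ B₁ ∧
    ∀ B s : ℝ, Slow4 B s → B₁ ≤ B → ∀ ε : ℝ → ℝ, Cl 0 0 ε → (∀ y, |ε y| ≤ ν) →
    c * G4 B s ε ≤ E4 B s ε
      + C * ((ip ε (Qf 4)) ^ 2 + (ip ε (deriv (Qf 4))) ^ 2 + (ip ε rho) ^ 2) := by
  obtain ⟨c0, C0', hc0, hC0', hco⟩ := L_coer4
  obtain ⟨C1, hC1, hcub⟩ := bF_cub 4 (by norm_num)
  have hk1 : 1 ≤ 4 := by norm_num
  have cQ : Cl 1 1 (Qf 4) := Cl_Qf hk1
  have crho : Cl 1 1 rho := Cl_mono rho_cl (by norm_num) (by norm_num)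
  obtain ⟨K1, hK1, hip1⟩ := Cof_ip cQ
  obtain ⟨K2, hK2, hip2⟩ := Cof_ip (Cl_der cQ)
  obtain ⟨K3, hK3, hip3⟩ := Cof_ip crho
  have hν0 : 0 < c0 / (8 * C1) := by positivity
  refine ⟨min 1 (c0 / (8 * C1)), c0 / 16, C0', 16 + 4 * C0' * (K1 + K2 + K3) / c0 + 4 / c0,
    lt_min one_pos hν0, min_le_left _ _, by positivity, hC0', ?_, ?_⟩
  · have : 0 ≤ 4 * C0' * (K1 + K2 + K3) / c0 := by positivity
    have : 0 ≤ 4 / c0 := by positivity
    linarith
  intro B s h hB1 ε hcl hεν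
  obtain ⟨hB, hs, hsB⟩ := Wza_s h
  have hBi : 0 < 1 / B := by positivity
  have hBi1 : 1 / B ≤ 1 := by
    rw [div_le_one hB]
    linarith [h.1]
  have hF := Cl_mul (Cof_Cl_r h) hcl
  have hs' : 0 < s + 0 := by linarith
  have hcoF := hco _ _ _ hs' hs' hF
  have hi1 := hip1 B s h ε hcl
  have hi2 := hip2 B s h ε hcl
  have hi3 := hip3 B s h ε hcl
  set F : ℝ → ℝ := fun y => Cof_r B s y * ε y with hFdef
  have hFd : ∀ y, deriv F y = Cof_r B s y * deriv ε y + Cof_h B s y * F y := by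
    intro y
    have := ((Cof_r_hd hB s y).mul (Cl_hd hcl y)).deriv
    have h' : deriv F y = Cof_h B s y * Cof_r B s y * ε y + Cof_r B s y * deriv ε y := this
    rw [h']
    show _ = Cof_r B s y * deriv ε y + Cof_h B s y * (Cof_r B s y * ε y)
    ring
  have hF2 : Integrable (fun y => F y ^ 2) := by
    refine (Cl_int (Cl_mul hF hF) (by linarith) (by linarith)).congr
      (Eventually.of_forall fun y => ?_)
    show F y * F y = F y ^ 2
    ring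
  have hFd2 : Integrable (fun y => deriv F y ^ 2) := by
    refine (Cl_int (Cl_mul (Cl_der hF) (Cl_der hF)) (by linarith) (by linarith)).congr
      (Eventually.of_forall fun y => ?_)
    show deriv F y * deriv F y = deriv F y ^ 2
    ring
  have hQF : Integrable (fun y => Qf 4 y ^ 4 * F y ^ 2) := by
    have hq := Cl_pow0 (Cl_mono cQ (p' := 0) (q' := 0) zero_le_one zero_le_one) 4
    refine (Cl_int (Cl_mul hq (Cl_mul hF hF)) (by linarith) (by linarith)).congr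
      (Eventually.of_forall fun y => ?_)
    show Qf 4 y ^ 4 * (F y * F y) = Qf 4 y ^ 4 * F y ^ 2
    ring
  have hL : Integrable (fun y => om4 B s y * ((deriv ε y) ^ 2 + (ε y) ^ 2 - 2 * bF 4 ε y)) := by
    have h1 := Cl_mul (Cl_der hcl) (Cl_der hcl)
    have h2 := Cl_mul hcl hcl
    have h3 : Cl (0 + 0) (0 + 0) (bF 4 ε) :=
      Cl_mono (Cl_bF hk1 le_rfl le_rfl zero_le_one zero_le_one hcl)
        (by linarith) (by linarith)
    have h4 := Cl_mul (Cl_om4 h) (Cl_sub (Cl_add h1 h2) (Cl_smul 2 h3))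
    refine (Cl_int h4 (by linarith) (by linarith)).congr (Eventually.of_forall fun y => ?_)
    show om4 B s y * (deriv ε y * deriv ε y + ε y * ε y - 2 * bF 4 ε y) = _
    ring
  have hGi : Integrable (fun y => om4 B s y * ((ε y) ^ 2 + (deriv ε y) ^ 2)) := by
    have h1 := Cl_mul (Cl_der hcl) (Cl_der hcl)
    have h2 := Cl_mul hcl hcl
    have h4 := Cl_mul (Cl_om4 h) (Cl_add h2 h1)
    refine (Cl_int h4 (by linarith) (by linarith)).congr (Eventually.of_forall fun y => ?_)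
    show om4 B s y * (ε y * ε y + deriv ε y * deriv ε y) = _
    ring
  set ν := min 1 (c0 / (8 * C1)) with hν
  have hν1 : ν ≤ 1 := min_le_left _ _
  have hν2 : C1 * ν ≤ c0 / 8 := by
    have : ν ≤ c0 / (8 * C1) := min_le_right _ _
    calc C1 * ν ≤ C1 * (c0 / (8 * C1)) := mul_le_mul_of_nonneg_left this hC1.le
      _ = c0 / 8 := by
        field_simp
  have hFsq : ∀ y, om4 B s y * (ε y) ^ 2 = F y ^ 2 := by
    intro y
    show om4 B s y * (ε y) ^ 2 = (Cof_r B s y * ε y) ^ 2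
    rw [mul_pow, Cof_r_sq]
  have hFdsq : ∀ y, om4 B s y * (deriv ε y) ^ 2 = (deriv F y - Cof_h B s y * F y) ^ 2 := by
    intro y
    rw [hFd y, ← Cof_r_sq]
    ring
  -- pointwise lower bound
  have hpt : ∀ y, (deriv F y) ^ 2 + (F y) ^ 2 - Qf 4 y ^ 4 * (F y) ^ 2
      - (1 / B * ((F y) ^ 2 + (deriv F y) ^ 2) + 2 * (C1 * ν) * (F y) ^ 2) ≤
      om4 B s y * ((deriv ε y) ^ 2 + (ε y) ^ 2 - 2 * bF 4 ε y) := by
    intro y
    have h1 := Cof_pt (δ := 1 / B) (a := Cof_h B s y) (u := deriv F y) (v := F y) hBi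
      (Cof_h_le h y) hBi1
    have h2 := hcub ε y ((hεν y).trans hν1)
    have h3 : |ε y| ^ 3 ≤ ν * (ε y) ^ 2 := by
      have : |ε y| ^ 3 = |ε y| * (ε y) ^ 2 := by
        rw [← sq_abs (ε y)]
        ring
      rw [this]
      exact mul_le_mul_of_nonneg_right (hεν y) (sq_nonneg _)
    have h4 : bF 4 ε y - 1 / 2 * (Qf 4 y ^ 4 * (ε y) ^ 2) ≤ C1 * ν * (ε y) ^ 2 := by
      refine (le_abs_self _).trans (h2.trans ?_)
      rw [mul_assoc]
      exact mul_le_mul_of_nonneg_left h3 hC1.le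
    have h5 := mul_le_mul_of_nonneg_left h4 (om4_pos B s y).le
    have e1 : om4 B s y * ((deriv ε y) ^ 2 + (ε y) ^ 2 - 2 * bF 4 ε y) =
        om4 B s y * (deriv ε y) ^ 2 + om4 B s y * (ε y) ^ 2
          - Qf 4 y ^ 4 * (om4 B s y * (ε y) ^ 2)
          - 2 * (om4 B s y * (bF 4 ε y - 1 / 2 * (Qf 4 y ^ 4 * (ε y) ^ 2))) := by ring
    have e2 : om4 B s y * (C1 * ν * (ε y) ^ 2) = C1 * ν * (om4 B s y * (ε y) ^ 2) := by ring
    rw [e2] at h5
    rw [e1, hFdsq, hFsq]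
    rw [hFsq] at h5
    linarith
  have hint := integral_mono (((hFd2.add hF2).sub hQF).sub
    (((hF2.add hFd2).const_mul (1 / B)).add (hF2.const_mul (2 * (C1 * ν))))) hL hpt
  have e3 : ∫ y, ((deriv F y) ^ 2 + (F y) ^ 2 - Qf 4 y ^ 4 * (F y) ^ 2
      - (1 / B * ((F y) ^ 2 + (deriv F y) ^ 2) + 2 * (C1 * ν) * (F y) ^ 2)) =
      (∫ y, ((deriv F y) ^ 2 + (F y) ^ 2 - Qf 4 y ^ 4 * (F y) ^ 2))
      - (1 / B * (∫ y, ((F y) ^ 2 + (deriv F y) ^ 2)) + 2 * (C1 * ν) * ∫ y, (F y) ^ 2) := by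
    have gA : Integrable (fun y => (deriv F y) ^ 2 + (F y) ^ 2 - Qf 4 y ^ 4 * (F y) ^ 2) :=
      (hFd2.add hF2).sub hQF
    have gB : Integrable (fun y => 1 / B * ((F y) ^ 2 + (deriv F y) ^ 2)) :=
      (hF2.add hFd2).const_mul (1 / B)
    have gC : Integrable (fun y => 2 * (C1 * ν) * (F y) ^ 2) := hF2.const_mul _
    have gS : Integrable (fun y => 1 / B * ((F y) ^ 2 + (deriv F y) ^ 2)
        + 2 * (C1 * ν) * (F y) ^ 2) := gB.add gC
    rw [integral_sub gA gS, integral_add gB gC, integral_const_mul, integral_const_mul]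
  have hint' : (∫ y, ((deriv F y) ^ 2 + (F y) ^ 2 - Qf 4 y ^ 4 * (F y) ^ 2))
      - (1 / B * (∫ y, ((F y) ^ 2 + (deriv F y) ^ 2)) + 2 * (C1 * ν) * ∫ y, (F y) ^ 2) ≤
      ∫ y, om4 B s y * ((deriv ε y) ^ 2 + (ε y) ^ 2 - 2 * bF 4 ε y) := by
    rw [← e3]
    exact hint
  have hN2 : ∫ y, (F y) ^ 2 ≤ ∫ y, ((F y) ^ 2 + (deriv F y) ^ 2) :=
    integral_mono hF2 (hF2.add hFd2) (fun y => by
      show F y ^ 2 ≤ F y ^ 2 + deriv F y ^ 2
      linarith [sq_nonneg (deriv F y)])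
  have hN20 : 0 ≤ ∫ y, (F y) ^ 2 := integral_nonneg fun y => sq_nonneg _
  have hG : G4 B s ε ≤ 2 * ∫ y, ((F y) ^ 2 + (deriv F y) ^ 2) := by
    unfold G4
    rw [← integral_const_mul]
    refine integral_mono hGi ((hF2.add hFd2).const_mul 2) (fun y => ?_)
    show om4 B s y * ((ε y) ^ 2 + (deriv ε y) ^ 2) ≤ 2 * (F y ^ 2 + deriv F y ^ 2)
    rw [mul_add, hFsq, hFdsq]
    have h2 : |Cof_h B s y| ≤ 1 / 16 :=
      (Cof_h_le h y).trans (one_div_le_one_div_of_le (by norm_num) h.1)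
    have h3 : Cof_h B s y ^ 2 ≤ 1 / 256 := by
      rw [← sq_abs]
      have := abs_nonneg (Cof_h B s y)
      (first | linarith only [h2, hBi1, hs, hsB, this] | nlinarith only [h2, hBi1, hs, hsB, this])
    have h4 : Cof_h B s y ^ 2 * F y ^ 2 ≤ 1 / 256 * F y ^ 2 :=
      mul_le_mul_of_nonneg_right h3 (sq_nonneg _)
    (first | linarith only [sq_nonneg (deriv F y + Cof_h B s y * F y), sq_nonneg (F y), h4] | nlinarith only [sq_nonneg (deriv F y + Cof_h B s y * F y), sq_nonneg (F y), h4])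
  set N := ∫ y, ((F y) ^ 2 + (deriv F y) ^ 2) with hNdef
  set N2 := ∫ y, (F y) ^ 2 with hN2def
  set I1 := (ip ε (Qf 4)) ^ 2 with hI1
  set I2 := (ip ε (deriv (Qf 4))) ^ 2 with hI2
  set I3 := (ip ε rho) ^ 2 with hI3
  have hE : E4 B s ε = 1 / 2 * ∫ y, om4 B s y * ((deriv ε y) ^ 2 + (ε y) ^ 2 - 2 * bF 4 ε y) := rfl
  have hI0 : 0 ≤ I1 + I2 + I3 := add_nonneg (add_nonneg (sq_nonneg _) (sq_nonneg _)) (sq_nonneg _)
  have hN0 : 0 ≤ N := hN20.trans hN2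
  -- smallness of the parameters
  have hb1 : C0' * ((K1 + K2 + K3) / B) ≤ c0 / 4 := by
    have h1 : 4 * C0' * (K1 + K2 + K3) / c0 ≤ B := by
      have : 0 ≤ 4 / c0 := by positivity
      linarith
    rw [div_le_iff₀ hc0] at h1
    rw [mul_div_assoc', div_le_iff₀ hB]
    linarith
  have hb2 : 1 / B ≤ c0 / 4 := by
    have h1 : 4 / c0 ≤ B := by
      have : 0 ≤ 4 * C0' * (K1 + K2 + K3) / c0 := by positivity
      linarith
    rw [div_le_iff₀ hc0] at h1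
    rw [div_le_iff₀ hB]
    linarith
  have hKN : (K1 + K2 + K3) / B * N2 ≤ (K1 + K2 + K3) / B * N :=
    mul_le_mul_of_nonneg_left hN2 (by positivity)
  have hs1 : C0' * ((K1 + K2 + K3) / B * N2) ≤ c0 / 4 * N := by
    calc C0' * ((K1 + K2 + K3) / B * N2) ≤ C0' * ((K1 + K2 + K3) / B * N) :=
          mul_le_mul_of_nonneg_left hKN hC0'.le
      _ = C0' * ((K1 + K2 + K3) / B) * N := by ring
      _ ≤ c0 / 4 * N := mul_le_mul_of_nonneg_right hb1 hN0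
  have hs2 : 1 / B * N ≤ c0 / 4 * N := mul_le_mul_of_nonneg_right hb2 hN0
  have hs3 : 2 * (C1 * ν) * N2 ≤ c0 / 4 * N := by
    have h1 : 2 * (C1 * ν) ≤ c0 / 4 := by linarith
    calc 2 * (C1 * ν) * N2 ≤ c0 / 4 * N2 := mul_le_mul_of_nonneg_right h1 hN20
      _ ≤ c0 / 4 * N := mul_le_mul_of_nonneg_left hN2 (by positivity)
  have hs4 : C0' * ((ip F (Qf 4)) ^ 2 + (ip F (deriv (Qf 4))) ^ 2 + (ip F rho) ^ 2) ≤
      C0' * (I1 + I2 + I3) + C0' * ((K1 + K2 + K3) / B * N2) := by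
    rw [← mul_add]
    refine mul_le_mul_of_nonneg_left ?_ hC0'.le
    have e5 : (K1 + K2 + K3) / B * N2 = K1 / B * N2 + K2 / B * N2 + K3 / B * N2 := by ring
    rw [e5]
    linarith
  have hC0I : 0 ≤ C0' * (I1 + I2 + I3) := mul_nonneg hC0'.le hI0
  rw [hE]
  have hfin : c0 / 16 * G4 B s ε ≤ c0 / 8 * N := by
    calc c0 / 16 * G4 B s ε ≤ c0 / 16 * (2 * N) := mul_le_mul_of_nonneg_left hG (by positivity)
      _ = c0 / 8 * N := by ring
  linarith

end H98KC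

end
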