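import Pool.Agent.H98.KC.Wzb
import Pool.Agent.H98.KB.Vie

/-!
# Cog (MP_95be7d_S4): upper bounds for `E4`, `Vf`, `ln` (variant of `KB/Cot`, `KB/Cov`, `LN_st`; uses the statements of `Wza`, `Wzb`)

* `CO_up4`: `|bF 4 ε| ≤ C(Q⁴+ε⁴)ε² ≤ Cε²` (`bF_le`), integrability: `om4` decays, `ε ∈ Cl 0 0`.
* `CV4`: `|Ψ| ≤ (1+η)ch ≤ 2ch` (`psi_abs`), `∫ch v² ≤ C_δ∫ch ε²` (`vf_wt0` with `W = ch B`, `p = q = 0`, `δ|ch''| ≤ ch/4` by `ch2_le`), `ch ≤ 120 om4` (`ch_le_om4`); `C_δ` does not depend on `B`.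
* `LN4`: `loc ≤ ch ≤ 120 om4` (`loc_le_ch`).   `sG_le`: `s om4 ≤ ta` (`ta_ge`).
-/

open MeasureTheory Filter Topology Set
open scoped ContDiff

noncomputable section

namespace H98KC

open H98KB H68KC

variable {B s : ℝ}

private theorem Cog_ch_pos (B y : ℝ) : 0 < ch B y := by
  rw [ch_eq']
  exact se2_pos _ _

private theorem Cog_bi (s y : ℝ) : 0 ≤ bi s y := by
  unfold bi
  apply indicator_nonneg
  intro z _
  have := Real.cosh_pos (s * z - 2)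
  positivity

private theorem Cog_cl (h : Slow4 B s) {w : ℝ → ℝ} (hw : Cl (2 * s) (2 * s + 1 / B) w)
    {f : ℝ → ℝ} (hf : Cl 0 0 f) : Integrable (fun y => w y * f y) := by
  have hB : 0 < B := by linarith [h.1]
  have hs := h.2.1
  have hB' : 0 < 1 / B := by positivity
  exact Cl_int (Cl_mul hw hf) (by linarith) (by linarith)

private theorem Cog_sq {f : ℝ → ℝ} (hf : Cl 0 0 f) : Cl 0 0 (fun y => f y ^ 2) := Cl_pow0 hf 2

private theorem Cog_ch {B : ℝ} (hB : 0 < B) {f : ℝ → ℝ} (hf : Cl 0 0 f) :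
    Integrable (fun y => ch B y * f y) := by
  have h2 : 0 < 2 / B := by positivity
  exact Cl_int (Cl_mul (Cl_ch hB) hf) (by linarith) (by linarith)

theorem G4_nonneg (B s : ℝ) (ε : ℝ → ℝ) : 0 ≤ G4 B s ε := by
  unfold G4
  refine integral_nonneg fun y => ?_
  have := (om4_pos B s y).le
  positivity

theorem T4_nonneg (h : Slow4 B s) (ε : ℝ → ℝ) : 0 ≤ T4 B s ε := by
  rw [T4_eq]
  refine integral_nonneg fun y => ?_
  have := (ta_pos h y).le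
  positivity

theorem Bad_nonneg (hs : 0 < s) (ε : ℝ → ℝ) : 0 ≤ Bad s ε := by
  rw [Bad_eq]
  refine mul_nonneg hs.le (integral_nonneg fun y => ?_)
  have := Cog_bi s y
  positivity

theorem ln_nonneg (γ B : ℝ) (ε : ℝ → ℝ) : 0 ≤ ln γ B ε := by
  unfold ln
  refine integral_nonneg fun y => ?_
  have h1 := (se2_pos γ y).le
  have h2 := (Cog_ch_pos B y).le
  have h3 : 0 ≤ loc γ B y := mul_nonneg h1 h2
  positivity

theorem ne2_nonneg (et : ℝ → ℝ) : 0 ≤ ne2 et := by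
  unfold ne2
  refine integral_nonneg fun y => ?_
  positivity

theorem sG_le (h : Slow4 B s) {ε : ℝ → ℝ} (hε : Cl 0 0 ε) : s * G4 B s ε ≤ T4 B s ε := by
  have c1 := Cl_der hε
  have c2 := Cl_der c1
  rw [T4_eq]
  unfold G4
  rw [← integral_const_mul]
  refine integral_mono ((Cog_cl h (Cl_om4 h) (Cl_add (Cog_sq hε) (Cog_sq c1))).const_mul s)
    (Cog_cl h (Cl_ta h) (Cl_add (Cl_add (Cog_sq hε) (Cog_sq c1)) (Cog_sq c2))) fun y => ?_
  show s * (om4 B s y * ((ε y) ^ 2 + (deriv ε y) ^ 2)) ≤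
    ta B s y * ((ε y) ^ 2 + (deriv ε y) ^ 2 + (deriv (deriv ε) y) ^ 2)
  have h1 := ta_ge h y
  have h2 : 0 ≤ (ε y) ^ 2 + (deriv ε y) ^ 2 := by positivity
  have h3 := mul_le_mul_of_nonneg_right h1 h2
  have h4 : 0 ≤ ta B s y * (deriv (deriv ε) y) ^ 2 := mul_nonneg (ta_pos h y).le (sq_nonneg _)
  linarith

theorem LN4 {γ : ℝ} (hγ : 0 < γ) (h : Slow4 B s) {ε : ℝ → ℝ} (hε : Cl 0 0 ε) :
    ln γ B ε ≤ 120 * G4 B s ε := by
  have hB : 0 < B := by linarith [h.1]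
  have c1 := Cl_der hε
  have hl : Cl (2 * γ + 2 / B) (2 * γ + 2 / B) (loc γ B) := Cl_mul (Cl_se2 hγ) (Cl_ch hB)
  have h2 : 0 < 2 / B := by positivity
  have i1 : Integrable (fun y => loc γ B y * ((ε y) ^ 2 + (deriv ε y) ^ 2)) :=
    Cl_int (Cl_mul hl (Cl_add (Cog_sq hε) (Cog_sq c1))) (by linarith) (by linarith)
  unfold ln G4
  rw [← integral_const_mul]
  refine integral_mono i1
    ((Cog_cl h (Cl_om4 h) (Cl_add (Cog_sq hε) (Cog_sq c1))).const_mul 120) fun y => ?_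
  show loc γ B y * ((ε y) ^ 2 + (deriv ε y) ^ 2) ≤
    120 * (om4 B s y * ((ε y) ^ 2 + (deriv ε y) ^ 2))
  have h3 := (loc_le_ch γ B y).trans (ch_le_om4 h y)
  have h4 : 0 ≤ (ε y) ^ 2 + (deriv ε y) ^ 2 := by positivity
  have h5 := mul_le_mul_of_nonneg_right h3 h4
  linarith

private theorem Cog_Qk : ∃ C : ℝ, 0 ≤ C ∧ ∀ y, Qf 4 y ^ 4 ≤ C := by
  obtain ⟨C, hC, hb⟩ := Cl_bnd (Cl_mono (Cl_Qk (k := 4) (by norm_num))
    (by norm_num : (0 : ℝ) ≤ ((4 : ℕ) : ℝ)) (by norm_num : (0 : ℝ) ≤ ((4 : ℕ) : ℝ)))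
  refine ⟨C, hC, fun y => ?_⟩
  have := hb y
  rw [bd_zero, mul_one] at this
  exact (le_abs_self _).trans this

theorem CO_up4 : ∃ C : ℝ, 0 < C ∧ ∀ B s : ℝ, Slow4 B s → ∀ ε : ℝ → ℝ, Cl 0 0 ε →
    (∀ y, |ε y| ≤ 1) → |E4 B s ε| ≤ C * G4 B s ε := by
  obtain ⟨C1, hC1, hb⟩ := bF_le 4 (by norm_num)
  obtain ⟨C2, hC2, hq⟩ := Cog_Qk
  refine ⟨1 + C1 * (C2 + 1), by positivity, ?_⟩
  intro B s h ε hε h1
  have c1 := Cl_der hε
  have iG : Integrable (fun y => (2 + 2 * (C1 * (C2 + 1))) *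
      (om4 B s y * ((ε y) ^ 2 + (deriv ε y) ^ 2))) :=
    (Cog_cl h (Cl_om4 h) (Cl_add (Cog_sq hε) (Cog_sq c1))).const_mul _
  have hbd : ∀ y, ‖om4 B s y * ((deriv ε y) ^ 2 + (ε y) ^ 2 - 2 * bF 4 ε y)‖ ≤
      (2 + 2 * (C1 * (C2 + 1))) * (om4 B s y * ((ε y) ^ 2 + (deriv ε y) ^ 2)) := by
    intro y
    have hom := (om4_pos B s y).le
    rw [Real.norm_eq_abs, abs_mul, abs_of_nonneg hom]
    have hε4 : |ε y| ^ 4 ≤ 1 := pow_le_one₀ (abs_nonneg _) (h1 y)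
    have hbF : |bF 4 ε y| ≤ C1 * (C2 + 1) * (ε y) ^ 2 := by
      refine (hb ε y).trans ?_
      apply mul_le_mul_of_nonneg_right _ (sq_nonneg _)
      exact mul_le_mul_of_nonneg_left (add_le_add (hq y) hε4) hC1.le
    have h3 : |(deriv ε y) ^ 2 + (ε y) ^ 2 - 2 * bF 4 ε y| ≤
        (2 + 2 * (C1 * (C2 + 1))) * ((ε y) ^ 2 + (deriv ε y) ^ 2) := by
      have h4 := abs_sub ((deriv ε y) ^ 2 + (ε y) ^ 2) (2 * bF 4 ε y)
      have h5 : |(deriv ε y) ^ 2 + (ε y) ^ 2| = (deriv ε y) ^ 2 + (ε y) ^ 2 :=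
        abs_of_nonneg (by positivity)
      have h6 : |2 * bF 4 ε y| = 2 * |bF 4 ε y| := by
        rw [abs_mul, abs_of_pos (by norm_num : (0 : ℝ) < 2)]
      rw [h5, h6] at h4
      have h7 : 0 ≤ C1 * (C2 + 1) * (deriv ε y) ^ 2 := by positivity
      have h8 := sq_nonneg (ε y)
      have h9 := sq_nonneg (deriv ε y)
      nlinarith
    have h4 := mul_le_mul_of_nonneg_left h3 hom
    linarith
  have hfin := norm_integral_le_of_norm_le iG (Eventually.of_forall hbd)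
  rw [integral_const_mul, Real.norm_eq_abs] at hfin
  unfold E4
  rw [abs_mul, abs_of_pos (by norm_num : (0 : ℝ) < 1 / 2)]
  unfold G4
  linarith

theorem CV4 (γ η δ : ℝ) (hη : 0 < η) (hη' : η ≤ 1) (hδ : 0 < δ) (hδ' : δ ≤ 1 / 16) :
    ∃ C : ℝ, 0 < C ∧ ∀ B s : ℝ, Slow4 B s → ∀ ε : ℝ → ℝ, Cl 0 0 ε →
    |Vf 4 η γ B δ ε| ≤ C * G4 B s ε := by
  obtain ⟨Cd, hCd, hW⟩ := vf_wt0 4 (by norm_num) δ hδ hδ'
  refine ⟨120 * Cd, by positivity, ?_⟩
  intro B s h ε hε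
  have hB16 := h.1
  have hB : 0 < B := by linarith
  have hB2 : 0 < 2 / B := by positivity
  have c1 := Cl_der hε
  have hab : |(0 : ℝ)| ≤ 2 := by norm_num
  have hch2 : ∀ y, δ * |deriv (deriv (ch B)) y| ≤ ch B y / 4 := by
    intro y
    have g1 := ch2_le (by linarith : (1 : ℝ) ≤ B) y
    have hc := (Cog_ch_pos B y).le
    have g2 : 8 / B ^ 2 ≤ 1 := by
      rw [div_le_one (by positivity)]
      nlinarith
    have g3 : |deriv (deriv (ch B)) y| ≤ ch B y := g1.trans (mul_le_of_le_one_left hc g2)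
    calc δ * |deriv (deriv (ch B)) y| ≤ 1 / 16 * ch B y :=
          mul_le_mul hδ' g3 (abs_nonneg _) (by norm_num)
      _ ≤ ch B y / 4 := by linarith
  have hv := Cl_vf (k := 4) (by norm_num) hδ hδ' hab hab hε
  have key := hW 0 0 (2 / B) (2 / B) ε (ch B) hab hab hε (Cl_ch hB) (fun y => Cog_ch_pos B y)
    hch2 (by linarith) (by linarith)
  have hchG : ∫ y, ch B y * (ε y) ^ 2 ≤ 120 * G4 B s ε := by
    unfold G4
    rw [← integral_const_mul]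
    refine integral_mono (Cog_ch hB (Cog_sq hε))
      ((Cog_cl h (Cl_om4 h) (Cl_add (Cog_sq hε) (Cog_sq c1))).const_mul 120) fun y => ?_
    show ch B y * (ε y) ^ 2 ≤ 120 * (om4 B s y * ((ε y) ^ 2 + (deriv ε y) ^ 2))
    have g3 := mul_le_mul_of_nonneg_right (ch_le_om4 h y) (sq_nonneg (ε y))
    have g4 : 0 ≤ om4 B s y * (deriv ε y) ^ 2 := mul_nonneg (om4_pos B s y).le (sq_nonneg _)
    linarith
  have hint : Integrable (fun y => ch B y * (vf 4 δ ε y) ^ 2) := Cog_ch hB (Cog_sq hv)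
  have hintP : Integrable (fun y => Psi 4 η γ B y * (vf 4 δ ε y) ^ 2) :=
    Cl_int (Cl_mul (Cl_Psi 4 η γ hB) (Cog_sq hv)) (by linarith) (by linarith)
  have h1 : |∫ y, Psi 4 η γ B y * (vf 4 δ ε y) ^ 2| ≤ 2 * ∫ y, ch B y * (vf 4 δ ε y) ^ 2 := by
    rw [← integral_const_mul]
    refine (abs_integral_le_integral_abs).trans ?_
    refine integral_mono hintP.abs (hint.const_mul 2) fun y => ?_
    have h2 := (Cog_ch_pos B y).le
    have h3 : |psi 4 η γ y| ≤ 2 := (psi_abs hη.le γ y).trans (by linarith)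
    show |Psi 4 η γ B y * (vf 4 δ ε y) ^ 2| ≤ 2 * (ch B y * (vf 4 δ ε y) ^ 2)
    rw [Psi, abs_mul, abs_mul, abs_of_nonneg h2, abs_of_nonneg (sq_nonneg (vf 4 δ ε y)), mul_assoc]
    exact mul_le_mul_of_nonneg_right h3 (by positivity)
  have h5 := mul_le_mul_of_nonneg_left hchG hCd.le
  unfold Vf
  rw [abs_mul, abs_of_pos (by norm_num : (0 : ℝ) < 1 / 2)]
  linarith

end H98KC

end
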