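import Pool.Agent.H98.KC.Dca

/-!
# Dcb (MP_95be7d_S4): bounds for the forcing `Sf` (uses the statements of `Dca`)

`h = hf P E b α`, `|b|, |α| ≤ C r⁴`: `|h| ≤ Cr⁴`, `|h'|+|h''| ≤ C r⁴ e^{-3|y|/4}`, `|y h'| ≤ C r⁴ e^{-|y|/2}`; `Q`, `P`, `E`, `ε` bounded; `|Q'| ≤ Ce^{-|y|}`;
`|P y| ≤ C bd (1/2) 0 y` (`Prof.P0` for `y ≥ 0`, bounded for `y ≤ 0`); `e^{-|y|/2} ≤ bd (1/2) 0 y`.
`(Kf h ε)' = [(Q+h+ε)⁴-(Q+ε)⁴]ε' + [(Q+h+ε)⁴-(Q+ε)⁴-4Q³h]Q' + [(Q+h+ε)⁴-Q⁴]h'` (`fl 4 u = u⁵/5`).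
* first: `|(a+h)⁴-a⁴| ≤ C|h|` for bounded `a, h`: `≤ C r⁴|ε'|`.
* second: `|(Q+ε+h)⁴-(Q+ε)⁴-4Q³h| ≤ C(|ε||h|+h²)` (`= 4[(Q+ε)³-Q³]h + O(h²)`): `≤ C(r⁴|ε|+r⁸)e^{-|y|}`.
* third: `≤ C(|h|+|ε|)·Cr⁴e^{-3|y|/4}`.
So `|(Kf h ε)'| ≤ C r⁴(|ε|+|ε'|) + C r⁸ bd (1/2) 0 y`.
Other terms of `Sf` (`l = r⁸ ≤ r⁴`, `r ≤ 1`, `0 ≤ w ≤ Cr⁴`): `|lQ''| ≤ C r⁸ bd`, `|lε''| ≤ r⁴|ε''|`, `|(1/2)w b P| ≤ C r⁸ bd`, `|w y h'| ≤ C r⁸ bd`, `|m h'| ≤ C|m|r⁴ bd`,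
`|l h''| ≤ C r⁸ bd`, `|bqD·P| ≤ C|bqD| bd`, `|alm·E| ≤ C|alm|`.
(`c0`, `f0` are fixed numbers; the constant may depend on `P`, `E`.)
-/

open MeasureTheory Filter Topology Set
open scoped ContDiff

noncomputable section

namespace H98KC

open H98KB H68KC

variable {P E : ℝ → ℝ}

theorem Dcb_Ed (hp : Prof P E) : Cl (3 / 4) (3 / 4) (deriv E) := by
  have h := Cl_der hp.E1
  have e : deriv (fun y => E y - 1) = deriv E := by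
    funext y
    have h1 : HasDerivAt E (deriv E y) y := Cl_hd (E_cl hp) y
    exact (h1.sub_const 1).deriv
  rwa [e] at h

theorem Dcb_B {f : ℝ → ℝ} {p q : ℝ} (h : Cl p q f) (hp : 1 / 2 ≤ p) (hq : 0 ≤ q) :
    ∃ C : ℝ, 0 ≤ C ∧ ∀ y, |f y| ≤ C * bd (1 / 2) 0 y :=
  Cl_bnd (Cl_mono h hp hq)

theorem Dcb_B0 {f : ℝ → ℝ} (h : Cl 0 0 f) : ∃ C : ℝ, 0 ≤ C ∧ ∀ y, |f y| ≤ C := by
  obtain ⟨C, hC, h1⟩ := Cl_bnd h
  refine ⟨C, hC, fun y => ?_⟩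
  have := h1 y
  rwa [bd_zero, mul_one] at this

theorem Dcb_bd1 (y : ℝ) : bd (1 / 2) 0 y ≤ 1 := by
  exact (bd_mono (by norm_num) le_rfl y).trans_eq (bd_zero y)

theorem Dcb_P (hp : Prof P E) : ∃ C : ℝ, 0 ≤ C ∧ ∀ y, |P y| ≤ C * bd (1 / 2) 0 y := by
  obtain ⟨C1, hC1, h1⟩ := Dcb_B0 hp.cP
  obtain ⟨C2, h2⟩ := hp.P0
  have hC2 : 0 ≤ C2 := by
    have := h2 0 le_rfl
    rw [mul_zero, Real.exp_zero, mul_one] at this
    exact (abs_nonneg _).trans this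
  refine ⟨C1 + C2, by linarith, fun y => ?_⟩
  rcases le_total 0 y with hy | hy
  · have h3 : Real.exp (-(3 / 4) * y) ≤ bd (1 / 2) 0 y := by
      rw [bd_of_nonneg hy]
      apply Real.exp_le_exp.2
      linarith
    have h4 := h2 y hy
    have h5 : C2 * Real.exp (-(3 / 4) * y) ≤ C2 * bd (1 / 2) 0 y := mul_le_mul_of_nonneg_left h3 hC2
    have h6 : 0 ≤ C1 * bd (1 / 2) 0 y := mul_nonneg hC1 (bd_pos _ _ _).le
    linarith
  · have h3 : bd (1 / 2) 0 y = 1 := by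
      rw [bd_of_nonpos hy, zero_mul, Real.exp_zero]
    rw [h3, mul_one]
    linarith [h1 y]

theorem Dcb_all (hp : Prof P E) : ∃ K : ℝ, 1 ≤ K ∧ ∀ y,
    |P y| ≤ K ∧ |E y| ≤ K ∧ |Qf 4 y| ≤ K ∧ |P y| ≤ K * bd (1 / 2) 0 y ∧
    |deriv P y| ≤ K * bd (1 / 2) 0 y ∧ |deriv E y| ≤ K * bd (1 / 2) 0 y ∧
    |deriv (deriv P) y| ≤ K * bd (1 / 2) 0 y ∧ |deriv (deriv E) y| ≤ K * bd (1 / 2) 0 y ∧
    |y * deriv P y| ≤ K * bd (1 / 2) 0 y ∧ |y * deriv E y| ≤ K * bd (1 / 2) 0 y ∧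
    |deriv (Qf 4) y| ≤ K * bd (1 / 2) 0 y ∧ |deriv (deriv (Qf 4)) y| ≤ K * bd (1 / 2) 0 y := by
  have hid := Cl_id (c := 1 / 4) (by norm_num)
  obtain ⟨k1, p1, h1⟩ := Dcb_B0 hp.cP
  obtain ⟨k2, p2, h2⟩ := Dcb_B0 (E_cl hp)
  obtain ⟨k3, p3, h3⟩ := Dcb_B0 (Nla_Q (k := 4) (by norm_num))
  obtain ⟨k4, p4, h4⟩ := Dcb_P hp
  obtain ⟨k5, p5, h5⟩ := Dcb_B hp.dP (by norm_num) (by norm_num)
  obtain ⟨k6, p6, h6⟩ := Dcb_B (Dcb_Ed hp) (by norm_num) (by norm_num)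
  obtain ⟨k7, p7, h7⟩ := Dcb_B (Cl_der hp.dP) (by norm_num) (by norm_num)
  obtain ⟨k8, p8, h8⟩ := Dcb_B (Cl_der (Dcb_Ed hp)) (by norm_num) (by norm_num)
  obtain ⟨k9, p9, h9⟩ := Dcb_B (Cl_mul hid hp.dP) (by norm_num) (by norm_num)
  obtain ⟨k10, p10, h10⟩ := Dcb_B (Cl_mul hid (Dcb_Ed hp)) (by norm_num) (by norm_num)
  obtain ⟨k11, p11, h11⟩ := Dcb_B (Sol2_Cd (k := 4) (by norm_num)) (by norm_num) (by norm_num)
  obtain ⟨k12, p12, h12⟩ := Dcb_B PRg_Qdd (by norm_num) (by norm_num)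
  refine ⟨1 + k1 + k2 + k3 + k4 + k5 + k6 + k7 + k8 + k9 + k10 + k11 + k12, by linarith,
    fun y => ?_⟩
  have hb := (bd_pos (1 / 2) 0 y).le
  have key : ∀ {k x : ℝ}, x ≤ k * bd (1 / 2) 0 y →
      k ≤ 1 + k1 + k2 + k3 + k4 + k5 + k6 + k7 + k8 + k9 + k10 + k11 + k12 →
      x ≤ (1 + k1 + k2 + k3 + k4 + k5 + k6 + k7 + k8 + k9 + k10 + k11 + k12) * bd (1 / 2) 0 y :=
    fun hx hk => hx.trans (mul_le_mul_of_nonneg_right hk hb)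
  exact ⟨(h1 y).trans (by linarith), (h2 y).trans (by linarith), (h3 y).trans (by linarith),
    key (h4 y) (by linarith), key (h5 y) (by linarith), key (h6 y) (by linarith),
    key (h7 y) (by linarith), key (h8 y) (by linarith), key (h9 y) (by linarith),
    key (h10 y) (by linarith), key (h11 y) (by linarith), key (h12 y) (by linarith)⟩

theorem Dcb_comb {b α x y A K r4 B : ℝ} (hb : |b| ≤ A * r4) (hα : |α| ≤ A * r4)
    (hx : |x| ≤ K * B) (hy : |y| ≤ K * B) (hK : 0 ≤ K * B) (hA : 0 ≤ A * r4) :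
    |b * x + α * y| ≤ 2 * A * K * r4 * B := by
  have h1 : |b * x| ≤ A * r4 * (K * B) := by
    rw [abs_mul]; exact mul_le_mul hb hx (abs_nonneg _) hA
  have h2 : |α * y| ≤ A * r4 * (K * B) := by
    rw [abs_mul]; exact mul_le_mul hα hy (abs_nonneg _) hA
  have h3 := abs_add_le (b * x) (α * y)
  nlinarith

theorem Dcb_Kf {h ε : ℝ → ℝ} (hh : Cl 0 0 h) (hε : Cl 0 0 ε) (y : ℝ) :
    deriv (Kf h ε) y =
      ((Qf 4 y + ε y + h y) ^ 4 - (Qf 4 y + ε y) ^ 4) * deriv ε y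
      + ((Qf 4 y + ε y + h y) ^ 4 - (Qf 4 y + ε y) ^ 4 - 4 * (Qf 4 y) ^ 3 * h y) * deriv (Qf 4) y
      + ((Qf 4 y + (h y + ε y)) ^ 4 - (Qf 4 y) ^ 4) * deriv h y := by
  have hQ : HasDerivAt (Qf 4) (deriv (Qf 4) y) y := Nlb_Qhd (by norm_num) y
  have h1 : HasDerivAt h (deriv h y) y := Cl_hd hh y
  have h2 : HasDerivAt ε (deriv ε y) y := Cl_hd hε y
  have h3 := Nlb_fl_hd 4 ((hQ.add h1).add h2)
  have h4 := Nlb_fl_hd 4 (hQ.add h2)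
  have h5 := (hQ.pow 4).mul h1
  have h6 := ((h3.sub h4).sub h5).deriv
  have e : Kf h ε = ((fun z => fl 4 (Qf 4 z + h z + ε z)) - fun z => fl 4 (Qf 4 z + ε z))
      - ((Qf 4) ^ 4 * h) := by
    funext z; rfl
  rw [e]
  refine h6.trans ?_
  simp only [Pi.add_apply, Pi.pow_apply]
  push_cast
  ring

theorem Dcb_alg {a x h a' x' h' K K2 r4 r8 B M : ℝ} (hK : 1 ≤ K) (hK2 : 0 ≤ K2) (hr4 : 0 ≤ r4)
    (hr41 : r4 ≤ 1) (hr8 : r8 = r4 * r4) (hB : 0 ≤ B) (hB1 : B ≤ 1) (hM : M = K + K2 + 1)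
    (ha : |a| ≤ K) (hx : |x| ≤ 1) (hh : |h| ≤ K2 * r4) (ha' : |a'| ≤ K * B)
    (hh' : |h'| ≤ K2 * r4 * B) :
    |((a + x + h) ^ 4 - (a + x) ^ 4) * x'
      + ((a + x + h) ^ 4 - (a + x) ^ 4 - 4 * a ^ 3 * h) * a'
      + ((a + (h + x)) ^ 4 - a ^ 4) * h'| ≤
    r4 * (4 * M ^ 3 * K2) * |x'| + r4 * (12 * M ^ 2 * K2 * K + 4 * M ^ 3 * K2) * |x|
      + r8 * (16 * M ^ 2 * K2 ^ 2 * K + 4 * M ^ 3 * K2 ^ 2) * B := by
  have hh1 : |h| ≤ K2 := hh.trans (by nlinarith)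
  have hM0 : 0 ≤ M := by linarith
  have hMa : |a| ≤ M := by linarith
  have hMax : |a + x| ≤ M := (abs_add_le a x).trans (by linarith)
  have hMaxh : |a + x + h| ≤ M := (abs_add_le (a + x) h).trans (by
    have := abs_add_le a x
    linarith)
  have hMahx : |a + (h + x)| ≤ M := by
    have : a + (h + x) = a + x + h := by ring
    rw [this]; exact hMaxh
  have t1 : |(a + x + h) ^ 4 - (a + x) ^ 4| ≤ 4 * M ^ 3 * |h| := by
    have := Nlb_T1 hMax hMaxh 3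
    norm_num at this
    exact this
  have t2 : |(a + x + h) ^ 4 - (a + x) ^ 4 - 4 * (a + x) ^ 3 * h| ≤ 16 * M ^ 2 * h ^ 2 := by
    have := Nlb_T2 hMax hMaxh 2
    norm_num at this
    exact this
  have t3 : |(a + x) ^ 3 - a ^ 3| ≤ 3 * M ^ 2 * |x| := by
    have := Nlb_T1 hMa hMax 2
    norm_num at this
    exact this
  have t4 : |(a + (h + x)) ^ 4 - a ^ 4| ≤ 4 * M ^ 3 * |h + x| := by
    have := Nlb_T1 hMa hMahx 3
    norm_num at this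
    exact this
  have t5 : |(a + x + h) ^ 4 - (a + x) ^ 4 - 4 * a ^ 3 * h| ≤
      16 * M ^ 2 * h ^ 2 + 12 * M ^ 2 * |x| * |h| := by
    have e : (a + x + h) ^ 4 - (a + x) ^ 4 - 4 * a ^ 3 * h =
        ((a + x + h) ^ 4 - (a + x) ^ 4 - 4 * (a + x) ^ 3 * h) + 4 * (((a + x) ^ 3 - a ^ 3) * h) := by
      ring
    rw [e]
    refine (abs_add_le _ _).trans ?_
    have h7 : |4 * (((a + x) ^ 3 - a ^ 3) * h)| ≤ 4 * (3 * M ^ 2 * |x| * |h|) := by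
      rw [abs_mul, abs_mul, abs_of_pos (by norm_num : (0:ℝ) < 4)]
      exact mul_le_mul_of_nonneg_left (mul_le_mul_of_nonneg_right t3 (abs_nonneg _)) (by norm_num)
    linarith
  have hh2 : h ^ 2 ≤ K2 ^ 2 * r8 := by
    rw [hr8, ← sq_abs h]
    have := mul_le_mul hh hh (abs_nonneg _) (by positivity)
    (first | linarith only [this] | nlinarith only [this])
  have u1 : |((a + x + h) ^ 4 - (a + x) ^ 4) * x'| ≤ r4 * (4 * M ^ 3 * K2) * |x'| := by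
    rw [abs_mul]
    refine mul_le_mul_of_nonneg_right (t1.trans ?_) (abs_nonneg _)
    have := mul_le_mul_of_nonneg_left hh (by positivity : 0 ≤ 4 * M ^ 3)
    linarith
  have u2 : |((a + x + h) ^ 4 - (a + x) ^ 4 - 4 * a ^ 3 * h) * a'| ≤
      r4 * (12 * M ^ 2 * K2 * K) * |x| + r8 * (16 * M ^ 2 * K2 ^ 2 * K) * B := by
    rw [abs_mul]
    have v1 : 16 * M ^ 2 * h ^ 2 + 12 * M ^ 2 * |x| * |h| ≤
        16 * M ^ 2 * (K2 ^ 2 * r8) + 12 * M ^ 2 * |x| * (K2 * r4) :=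
      add_le_add (mul_le_mul_of_nonneg_left hh2 (by positivity))
        (mul_le_mul_of_nonneg_left hh (by positivity))
    have hr80 : 0 ≤ r8 := by rw [hr8]; positivity
    have v2 := mul_le_mul (t5.trans v1) ha' (abs_nonneg _) (by positivity)
    refine v2.trans ?_
    have v3 : 12 * M ^ 2 * |x| * (K2 * r4) * (K * B) ≤ 12 * M ^ 2 * |x| * (K2 * r4) * (K * 1) := by
      refine mul_le_mul_of_nonneg_left (mul_le_mul_of_nonneg_left hB1 (by linarith)) (by positivity)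
    linarith
  have u3 : |((a + (h + x)) ^ 4 - a ^ 4) * h'| ≤
      r4 * (4 * M ^ 3 * K2) * |x| + r8 * (4 * M ^ 3 * K2 ^ 2) * B := by
    rw [abs_mul]
    have v0 : |h + x| ≤ K2 * r4 + |x| := (abs_add_le h x).trans (by linarith)
    have v1 : 4 * M ^ 3 * |h + x| ≤ 4 * M ^ 3 * (K2 * r4 + |x|) :=
      mul_le_mul_of_nonneg_left v0 (by positivity)
    have v2 := mul_le_mul (t4.trans v1) hh' (abs_nonneg _) (by positivity)
    refine v2.trans ?_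
    have v3 : 4 * M ^ 3 * |x| * (K2 * r4 * B) ≤ 4 * M ^ 3 * |x| * (K2 * r4 * 1) := by
      refine mul_le_mul_of_nonneg_left (mul_le_mul_of_nonneg_left hB1 (by positivity)) (by positivity)
    rw [hr8]
    linarith
  have w1 := abs_add_three (((a + x + h) ^ 4 - (a + x) ^ 4) * x')
    (((a + x + h) ^ 4 - (a + x) ^ 4 - 4 * a ^ 3 * h) * a') (((a + (h + x)) ^ 4 - a ^ 4) * h')
  refine w1.trans ?_
  linarith

theorem Dcb_fin {C c1 c2 c3 c4 c5 c6 r4 r8 e0 e1 e2 B m bb al : ℝ} (hr4 : 0 ≤ r4) (hr8 : 0 ≤ r8)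
    (h0 : 0 ≤ e0) (h1 : 0 ≤ e1) (h2 : 0 ≤ e2) (hB : 0 ≤ B) (hm : 0 ≤ m) (hb : 0 ≤ bb)
    (ha : 0 ≤ al) (k0 : 1 ≤ C) (k1 : c1 ≤ C) (k2 : c2 ≤ C) (k3 : c3 ≤ C) (k4 : c4 ≤ C)
    (k5 : c5 ≤ C) (k6 : c6 ≤ C) :
    r4 * c1 * e1 + r4 * c2 * e0 + r4 * e2 + (r8 * c3 + r4 * m * c4 + bb * c5) * B + al * c6 ≤
      C * r4 * (e0 + e1 + e2) + C * (r8 + r4 * m + bb) * B + C * al := by
  have a1 := mul_le_mul_of_nonneg_right k1 (mul_nonneg hr4 h1)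
  have a2 := mul_le_mul_of_nonneg_right k2 (mul_nonneg hr4 h0)
  have a3 := mul_le_mul_of_nonneg_right k0 (mul_nonneg hr4 h2)
  have a4 := mul_le_mul_of_nonneg_right k3 (mul_nonneg hr8 hB)
  have a5 := mul_le_mul_of_nonneg_right k4 (mul_nonneg (mul_nonneg hr4 hm) hB)
  have a6 := mul_le_mul_of_nonneg_right k5 (mul_nonneg hb hB)
  have a7 := mul_le_mul_of_nonneg_right k6 ha
  linarith

theorem Sf_le (hp : Prof P E) : ∃ C : ℝ, 0 < C ∧ ∀ (r w m p q : ℝ) (W et : ℝ → ℝ), 0 < r → r ≤ 1 →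
    0 < p → 0 < q → Cl p q (fun y => W y - Qf 4 y) → 0 ≤ w → w ≤ 5 * c0 * r ^ 4 →
    |bq (r ^ 2) W| ≤ 5 * c0 * r ^ 4 → |alf (r ^ 2) W| ≤ (|f0| + 1) * r ^ 4 →
    (∀ y, |ep P E (r ^ 2) W y| ≤ 1) →
    SB (C * r ^ 4)
      (C * (r ^ 8 + r ^ 4 * |m| + |bqD (r ^ 2) w W (ze w m (r ^ 8) W et)|))
      (C * |alm (r ^ 2) w W (ze w m (r ^ 8) W et)|)
      (ep P E (r ^ 2) W) (Sf P E (r ^ 2) w m (r ^ 8) W et) := by
  obtain ⟨K, hK, hall⟩ := Dcb_all hp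
  obtain ⟨A, hAdef⟩ : ∃ A : ℝ, A = 5 * |c0| + |f0| + 1 := ⟨_, rfl⟩
  obtain ⟨K2, hK2def⟩ : ∃ K2 : ℝ, K2 = 2 * A * K := ⟨_, rfl⟩
  obtain ⟨M, hMdef⟩ : ∃ M : ℝ, M = K + K2 + 1 := ⟨_, rfl⟩
  have hA : 1 ≤ A := by
    rw [hAdef]
    have := abs_nonneg c0
    have := abs_nonneg f0
    linarith
  have hK0 : 0 ≤ K := by linarith
  have hA0 : 0 ≤ A := by linarith
  have hK2 : 0 ≤ K2 := by rw [hK2def]; positivity
  have hM : 0 ≤ M := by rw [hMdef]; linarith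
  obtain ⟨C, hCdef⟩ : ∃ C : ℝ, C = 1 + 4 * M ^ 3 * K2 + (12 * M ^ 2 * K2 * K + 4 * M ^ 3 * K2) +
    (K + (16 * M ^ 2 * K2 ^ 2 * K + 4 * M ^ 3 * K2 ^ 2) + A ^ 2 * K + A * K2 + K2) + K2 + K + K :=
    ⟨_, rfl⟩
  have q1 : 0 ≤ 4 * M ^ 3 * K2 := by positivity
  have q2 : 0 ≤ 12 * M ^ 2 * K2 * K + 4 * M ^ 3 * K2 := by positivity
  have q3 : 0 ≤ K + (16 * M ^ 2 * K2 ^ 2 * K + 4 * M ^ 3 * K2 ^ 2) + A ^ 2 * K + A * K2 + K2 := by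
    positivity
  have hC1 : 1 ≤ C := by linarith
  refine ⟨C, by linarith, ?_⟩
  intro r w m p q W et hr hr1 hp0 hq0 hW hw0 hw1 hbq half hep y
  have hcl : Cl 0 0 (ep P E (r ^ 2) W) := ep_cl hp hp0.le hq0.le hW
  have hhcl := hf_cl hp (bq (r ^ 2) W) (alf (r ^ 2) W)
  obtain ⟨z1, z2, z3, z4, z5, z6, z7, z8, z9, z10, z11, z12⟩ := hall y
  have hB0 := (bd_pos (1 / 2) 0 y).le
  have hB1 := Dcb_bd1 y
  have hr4 : 0 ≤ r ^ 4 := by positivity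
  have hr41 : r ^ 4 ≤ 1 := pow_le_one₀ hr.le hr1
  have hr8 : r ^ 8 = r ^ 4 * r ^ 4 := by ring
  have hr80 : 0 ≤ r ^ 8 := by positivity
  have hr84 : r ^ 8 ≤ r ^ 4 := by rw [hr8]; (first | linarith only [hr4, hr41] | nlinarith only [hr4, hr41])
  have hc0A : 5 * c0 ≤ A := by
    rw [hAdef]
    have := le_abs_self c0
    have := abs_nonneg f0
    linarith
  have hfA : |f0| + 1 ≤ A := by
    rw [hAdef]
    have := abs_nonneg c0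
    linarith
  have hbA : |bq (r ^ 2) W| ≤ A * r ^ 4 := hbq.trans (mul_le_mul_of_nonneg_right hc0A hr4)
  have hαA : |alf (r ^ 2) W| ≤ A * r ^ 4 := half.trans (mul_le_mul_of_nonneg_right hfA hr4)
  have hwA : w ≤ A * r ^ 4 := hw1.trans (mul_le_mul_of_nonneg_right hc0A hr4)
  have hAr : 0 ≤ A * r ^ 4 := by positivity
  have hKB : 0 ≤ K * bd (1 / 2) 0 y := by positivity
  obtain ⟨-, hd1⟩ := hf_der hp (bq (r ^ 2) W) (alf (r ^ 2) W)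
  have hd2 : deriv (deriv (hf P E (bq (r ^ 2) W) (alf (r ^ 2) W))) y =
      bq (r ^ 2) W * deriv (deriv P) y + alf (r ^ 2) W * deriv (deriv E) y := by
    have e : deriv (hf P E (bq (r ^ 2) W) (alf (r ^ 2) W)) =
        fun y => bq (r ^ 2) W * deriv P y + alf (r ^ 2) W * deriv E y := funext hd1
    rw [e]
    have g1 : HasDerivAt (deriv P) (deriv (deriv P) y) y := Cl_hd hp.dP y
    have g2 : HasDerivAt (deriv E) (deriv (deriv E) y) y := Cl_hd (Dcb_Ed hp) y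
    exact ((g1.const_mul _).add (g2.const_mul _)).deriv
  -- bounds for `h`
  have b0 : |hf P E (bq (r ^ 2) W) (alf (r ^ 2) W) y| ≤ K2 * r ^ 4 := by
    have := Dcb_comb hbA hαA (x := P y) (y := E y) (K := K) (B := 1) (by rwa [mul_one])
      (by rwa [mul_one]) (by linarith) hAr
    rw [hK2def]
    unfold hf
    linarith
  have b1 : |deriv (hf P E (bq (r ^ 2) W) (alf (r ^ 2) W)) y| ≤ K2 * r ^ 4 * bd (1 / 2) 0 y := by
    rw [hd1, hK2def]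
    exact Dcb_comb hbA hαA z5 z6 hKB hAr
  have b2 : |deriv (deriv (hf P E (bq (r ^ 2) W) (alf (r ^ 2) W))) y| ≤
      K2 * r ^ 4 * bd (1 / 2) 0 y := by
    rw [hd2, hK2def]
    exact Dcb_comb hbA hαA z7 z8 hKB hAr
  have b3 : |y * deriv (hf P E (bq (r ^ 2) W) (alf (r ^ 2) W)) y| ≤ K2 * r ^ 4 * bd (1 / 2) 0 y := by
    have e : y * deriv (hf P E (bq (r ^ 2) W) (alf (r ^ 2) W)) y =
        bq (r ^ 2) W * (y * deriv P y) + alf (r ^ 2) W * (y * deriv E y) := by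
      rw [hd1]; ring
    rw [e, hK2def]
    exact Dcb_comb hbA hαA z9 z10 hKB hAr
  have bk : |deriv (Kf (hf P E (bq (r ^ 2) W) (alf (r ^ 2) W)) (ep P E (r ^ 2) W)) y| ≤
      r ^ 4 * (4 * M ^ 3 * K2) * |deriv (ep P E (r ^ 2) W) y|
      + r ^ 4 * (12 * M ^ 2 * K2 * K + 4 * M ^ 3 * K2) * |ep P E (r ^ 2) W y|
      + r ^ 8 * (16 * M ^ 2 * K2 ^ 2 * K + 4 * M ^ 3 * K2 ^ 2) * bd (1 / 2) 0 y := by
    rw [Dcb_Kf hhcl hcl y]
    exact Dcb_alg hK hK2 hr4 hr41 hr8 hB0 hB1 hMdef z3 (hep y) b0 z11 b1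
  -- the other terms
  have c1 : |r ^ 8 * deriv (deriv (Qf 4)) y| ≤ r ^ 8 * K * bd (1 / 2) 0 y := by
    rw [abs_mul, abs_of_nonneg hr80, mul_assoc]
    exact mul_le_mul_of_nonneg_left z12 hr80
  have c2 : |r ^ 8 * deriv (deriv (ep P E (r ^ 2) W)) y| ≤
      r ^ 4 * |deriv (deriv (ep P E (r ^ 2) W)) y| := by
    rw [abs_mul, abs_of_nonneg hr80]
    exact mul_le_mul_of_nonneg_right hr84 (abs_nonneg _)
  have c3 : |1 / 2 * w * bq (r ^ 2) W * P y| ≤ r ^ 8 * (A ^ 2 * K) * bd (1 / 2) 0 y := by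
    have g1 : |w * bq (r ^ 2) W| ≤ A * r ^ 4 * (A * r ^ 4) := by
      rw [abs_mul, abs_of_nonneg hw0]
      exact mul_le_mul hwA hbA (abs_nonneg _) hAr
    have g2 : |w * bq (r ^ 2) W * P y| ≤ A * r ^ 4 * (A * r ^ 4) * (K * bd (1 / 2) 0 y) := by
      rw [abs_mul]
      exact mul_le_mul g1 z4 (abs_nonneg _) (by positivity)
    have g3 : 1 / 2 * w * bq (r ^ 2) W * P y = 1 / 2 * (w * bq (r ^ 2) W * P y) := by ring
    rw [g3, abs_mul, abs_of_pos (by norm_num : (0:ℝ) < 1 / 2), hr8]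
    have g4 : 0 ≤ |w * bq (r ^ 2) W * P y| := abs_nonneg _
    have g5 : A * r ^ 4 * (A * r ^ 4) * (K * bd (1 / 2) 0 y) =
        r ^ 4 * r ^ 4 * (A ^ 2 * K) * bd (1 / 2) 0 y := by ring
    rw [← g5]
    linarith
  have c4 : |w * (y * deriv (hf P E (bq (r ^ 2) W) (alf (r ^ 2) W)) y)| ≤
      r ^ 8 * (A * K2) * bd (1 / 2) 0 y := by
    rw [abs_mul, abs_of_nonneg hw0]
    refine (mul_le_mul hwA b3 (abs_nonneg _) hAr).trans (le_of_eq ?_)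
    rw [hr8]; ring
  have c5 : |m * deriv (hf P E (bq (r ^ 2) W) (alf (r ^ 2) W)) y| ≤
      r ^ 4 * |m| * K2 * bd (1 / 2) 0 y := by
    rw [abs_mul]
    refine (mul_le_mul_of_nonneg_left b1 (abs_nonneg _)).trans (le_of_eq ?_)
    ring
  have c6 : |r ^ 8 * deriv (deriv (hf P E (bq (r ^ 2) W) (alf (r ^ 2) W))) y| ≤
      r ^ 8 * K2 * bd (1 / 2) 0 y := by
    rw [abs_mul, abs_of_nonneg hr80]
    refine (mul_le_mul_of_nonneg_left b2 hr80).trans ?_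
    have g1 : K2 * r ^ 4 * bd (1 / 2) 0 y ≤ K2 * 1 * bd (1 / 2) 0 y :=
      mul_le_mul_of_nonneg_right (mul_le_mul_of_nonneg_left hr41 hK2) hB0
    refine (mul_le_mul_of_nonneg_left g1 hr80).trans (le_of_eq ?_)
    ring
  have c7 : |bqD (r ^ 2) w W (ze w m (r ^ 8) W et) * P y| ≤
      |bqD (r ^ 2) w W (ze w m (r ^ 8) W et)| * K * bd (1 / 2) 0 y := by
    rw [abs_mul, mul_assoc]
    exact mul_le_mul_of_nonneg_left z4 (abs_nonneg _)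
  have c8 : |alm (r ^ 2) w W (ze w m (r ^ 8) W et) * E y| ≤
      |alm (r ^ 2) w W (ze w m (r ^ 8) W et)| * K := by
    rw [abs_mul]
    exact mul_le_mul_of_nonneg_left z2 (abs_nonneg _)
  have hsum : |Sf P E (r ^ 2) w m (r ^ 8) W et y| ≤
      |r ^ 8 * deriv (deriv (Qf 4)) y| + |r ^ 8 * deriv (deriv (ep P E (r ^ 2) W)) y|
      + |deriv (Kf (hf P E (bq (r ^ 2) W) (alf (r ^ 2) W)) (ep P E (r ^ 2) W)) y|
      + |1 / 2 * w * bq (r ^ 2) W * P y|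
      + |w * (y * deriv (hf P E (bq (r ^ 2) W) (alf (r ^ 2) W)) y)|
      + |m * deriv (hf P E (bq (r ^ 2) W) (alf (r ^ 2) W)) y|
      + |r ^ 8 * deriv (deriv (hf P E (bq (r ^ 2) W) (alf (r ^ 2) W))) y|
      + |bqD (r ^ 2) w W (ze w m (r ^ 8) W et) * P y|
      + |alm (r ^ 2) w W (ze w m (r ^ 8) W et) * E y| := by
    unfold Sf
    refine (abs_sub _ _).trans (add_le_add ?_ le_rfl)
    refine (abs_sub _ _).trans (add_le_add ?_ le_rfl)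
    refine (abs_add_le _ _).trans (add_le_add ?_ le_rfl)
    refine (abs_add_le _ _).trans (add_le_add ?_ le_rfl)
    refine (abs_sub _ _).trans (add_le_add ?_ le_rfl)
    refine (abs_sub _ _).trans (add_le_add ?_ le_rfl)
    refine (abs_sub _ _).trans (add_le_add ?_ le_rfl)
    exact abs_add_le _ _
  refine hsum.trans ?_
  have hfin := Dcb_fin (C := C) (c1 := 4 * M ^ 3 * K2) (c2 := 12 * M ^ 2 * K2 * K + 4 * M ^ 3 * K2)
    (c3 := K + (16 * M ^ 2 * K2 ^ 2 * K + 4 * M ^ 3 * K2 ^ 2) + A ^ 2 * K + A * K2 + K2)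
    (c4 := K2) (c5 := K) (c6 := K) hr4 hr80 (abs_nonneg (ep P E (r ^ 2) W y))
    (abs_nonneg (deriv (ep P E (r ^ 2) W) y)) (abs_nonneg (deriv (deriv (ep P E (r ^ 2) W)) y))
    hB0 (abs_nonneg m) (abs_nonneg (bqD (r ^ 2) w W (ze w m (r ^ 8) W et)))
    (abs_nonneg (alm (r ^ 2) w W (ze w m (r ^ 8) W et)))
    hC1 (by linarith) (by linarith) (by linarith) (by linarith) (by linarith) (by linarith)
  refine le_trans ?_ hfin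
  linarith

end H98KC

end
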