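import Pool.Agent.H98.KC.Base
import Pool.Agent.H68.KC.MOe

/-!
# Gof (MP_95be7d_S4): modulation bounds with constants independent of `γ`, `B` (uses the statements `m_le`, `bw_le`, `bw_eq`, `b_law` of `H68/KC`)

`loc γ B y = sech²(γy) sech²(y/B)` is nonincreasing in `γ` and nondecreasing in `B` (`cosh` is increasing in `|x|`: `Real.cosh_le_cosh`), so for `γ ≤ 1/8`, `16 ≤ B`:
`loc (1/8) 16 ≤ loc γ B`, hence `ln_mono` (integrability: `loc ∈ Cl`-decaying, `ε ∈ Cl 0 0`).  The structure `Sit P E γ B c ...` depends on `γ, B` only through `lnc`, so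
`Sit_mono`.  Apply `m_le`, `bw_le`, `bw_eq`, `b_law` with `γ = 1/8`, `B = 16` (`C` = sum of the constants, `r1`, `c1` = minima, `r1 ≤ 1`) and `ln (1/8) 16 ≤ ln γ B`.
Last bound: `|bqD| ≤ 2b²+(6/Iq)|αb|+cnu r⁸+(b_law) ≤ C r⁸ + ...` from `b1`, `a1` of `Sit`; `r¹² ≤ r⁸`.
-/

open MeasureTheory Filter Topology Set
open scoped ContDiff

noncomputable section

namespace H98KC

open H98KB H68KC

variable {P E : ℝ → ℝ}

theorem Gof_se2 {a b : ℝ} (ha : 0 < a) (hab : a ≤ b) (y : ℝ) : se2 b y ≤ se2 a y := by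
  unfold se2
  have h1 : Real.cosh (a * y) ≤ Real.cosh (b * y) := by
    rw [Real.cosh_le_cosh, abs_mul, abs_mul, abs_of_pos ha, abs_of_pos (ha.trans_le hab)]
    exact mul_le_mul_of_nonneg_right hab (abs_nonneg y)
  have h2 := Real.cosh_pos (a * y)
  have h3 := Real.cosh_pos (b * y)
  exact pow_le_pow_left₀ (by positivity) (one_div_le_one_div_of_le h2 h1) 2

theorem Gof_loc {γ B : ℝ} (hγ : 0 < γ) (hγ' : γ ≤ 1 / 8) (hB : 16 ≤ B) (y : ℝ) :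
    loc (1 / 8) 16 y ≤ loc γ B y := by
  unfold loc
  rw [ch_eq', ch_eq']
  have h1 := Gof_se2 hγ hγ' y
  have h2 : se2 (1 / 16) y ≤ se2 (1 / B) y :=
    Gof_se2 (by positivity) (one_div_le_one_div_of_le (by norm_num) hB) y
  exact mul_le_mul h1 h2 (se2_pos _ _).le (se2_pos _ _).le

theorem ln_mono {γ B : ℝ} (hγ : 0 < γ) (hγ' : γ ≤ 1 / 8) (hB : 16 ≤ B) {ε : ℝ → ℝ} (hε : Cl 0 0 ε) :
    ln (1 / 8) 16 ε ≤ ln γ B ε := by
  refine integral_mono (loc_int (by norm_num) le_rfl (Cl_add (MOb_sq hε) (MOb_sq (Cl_der hε))))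
    (loc_int hγ hB (Cl_add (MOb_sq hε) (MOb_sq (Cl_der hε)))) (fun y => ?_)
  exact mul_le_mul_of_nonneg_right (Gof_loc hγ hγ' hB y) (by positivity)

theorem Sit_mono {γ B c Ca r w m : ℝ} {W et : ℝ → ℝ} (hγ : 0 < γ) (hγ' : γ ≤ 1 / 8) (hB : 16 ≤ B)
    (h : Sit P E γ B c Ca r w m W et) : Sit P E (1 / 8) 16 c Ca r w m W et := by
  obtain ⟨p, q, hp0, hp2, hq0, hq2, hW, he⟩ := h.cl
  have hepc : Cl 0 0 (ep P E (r ^ 2) W) := ep_cl h.pr hp0.le hq0.le hW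
  exact ⟨h.pr, h.r0, ⟨p, q, hp0, hp2, hq0, hq2, hW, he⟩, h.or1, h.or2, h.w0, h.w1, h.b1, h.a1, h.sup, h.supe,
    (ln_mono hγ hγ' hB hepc).trans h.lnc, h.N1, h.X1, h.L1, h.e1⟩

theorem MOu (hp : Prof P E) : ∃ C r1 c1 : ℝ, 0 < C ∧ 0 < r1 ∧ r1 ≤ 1 ∧ 0 < c1 ∧ c1 ≤ 1 ∧
    ∀ γ B c Ca r w m W et, 0 < γ → γ ≤ 1 / 8 → 16 ≤ B → c ≤ c1 → r ≤ r1 →
    Sit P E γ B c Ca r w m W et →
    |m| ≤ C * (√(ln γ B (ep P E (r ^ 2) W)) + r ^ 8 + √(ne2 et)) ∧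
    |bq (r ^ 2) W - w| ≤ C * (√(ln γ B (ep P E (r ^ 2) W)) + r ^ 8 + √(ne2 et)) ∧
    |(bq (r ^ 2) W - w) * ip (Lam 4 (Qf 4)) rho - ip (Lop 4 (ep P E (r ^ 2) W)) (deriv rho)| ≤
      C * (r ^ 8 + r ^ 4 * √(ln γ B (ep P E (r ^ 2) W)) + ln γ B (ep P E (r ^ 2) W)
        + √(ne2 et)) ∧
    |bqD (r ^ 2) w W (ze w m (r ^ 8) W et)| ≤
      C * (r ^ 8 + r ^ 4 * √(ln γ B (ep P E (r ^ 2) W)) + ln γ B (ep P E (r ^ 2) W)
        + |alm (r ^ 2) w W (ze w m (r ^ 8) W et)| + |ip W (deriv (Qf 4))| + √(ne2 et)) := by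
  obtain ⟨C1, ra, ca, hC1, hra, hca, hca1, H1⟩ := m_le (γ := 1 / 8) (B := 16) hp (by norm_num) (by norm_num) le_rfl
  obtain ⟨C2, rb, cb, hC2, hrb, hcb, hcb1, H2⟩ := bw_le (γ := 1 / 8) (B := 16) hp (by norm_num) (by norm_num) le_rfl
  obtain ⟨C3, rc, cc, hC3, hrc, hcc, hcc1, H3⟩ := bw_eq (γ := 1 / 8) (B := 16) hp (by norm_num) (by norm_num) le_rfl
  obtain ⟨C4, rd, cd, hC4, hrd, hcd, hcd1, H4⟩ := b_law (γ := 1 / 8) (B := 16) hp (by norm_num) (by norm_num) le_rfl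
  have hI := Iq_pos
  have hcnu : 0 ≤ cnu := by
    unfold cnu
    have h1 : 0 ≤ ∫ y, (deriv (Qf 4) y) ^ 2 := integral_nonneg fun y => sq_nonneg _
    positivity
  have hc0 : 0 < c0 := by
    unfold c0
    linarith
  have hf0 := abs_nonneg f0
  obtain ⟨K, hK⟩ : ∃ K, K = 2 * (5 * c0) ^ 2 + 6 / Iq * ((|f0| + 1) * (5 * c0)) + cnu := ⟨_, rfl⟩
  have hK0 : 0 ≤ K := by
    rw [hK]
    positivity
  refine ⟨C1 + C2 + C3 + C4 + K, min (min 1 ra) (min (min rb rc) rd), min ca (min (min cb cc) cd),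
    by positivity, by positivity, ?_, by positivity, ?_, ?_⟩
  · exact (min_le_left _ _).trans (min_le_left _ _)
  · exact (min_le_left _ _).trans hca1
  intro γ B c Ca r w m W et hγ hγ' hB hc hr S
  have S' := Sit_mono hγ hγ' hB S
  have hr1 : r ≤ 1 := hr.trans ((min_le_left _ _).trans (min_le_left _ _))
  have b1 := H1 c Ca r w m W et (hc.trans (min_le_left _ _))
    (hr.trans ((min_le_left _ _).trans (min_le_right _ _))) S'
  have b2 := H2 c Ca r w m W et (hc.trans ((min_le_right _ _).trans ((min_le_left _ _).trans (min_le_left _ _))))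
    (hr.trans ((min_le_right _ _).trans ((min_le_left _ _).trans (min_le_left _ _)))) S'
  have b3 := H3 c Ca r w m W et (hc.trans ((min_le_right _ _).trans ((min_le_left _ _).trans (min_le_right _ _))))
    (hr.trans ((min_le_right _ _).trans ((min_le_left _ _).trans (min_le_right _ _)))) S'
  have b4 := H4 c Ca r w m W et (hc.trans ((min_le_right _ _).trans (min_le_right _ _)))
    (hr.trans ((min_le_right _ _).trans (min_le_right _ _))) S'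
  obtain ⟨p, q, hp0, hp2, hq0, hq2, hW, he⟩ := S.cl
  have hepc : Cl 0 0 (ep P E (r ^ 2) W) := ep_cl hp hp0.le hq0.le hW
  have hln := ln_mono hγ hγ' hB hepc
  have hln0 : 0 ≤ ln (1 / 8) 16 (ep P E (r ^ 2) W) :=
    integral_nonneg fun y => mul_nonneg (MOb_pos _ _ y).le (by positivity)
  have hsq := Real.sqrt_le_sqrt hln
  have hr0 := S.r0
  have hr8 : 0 < r ^ 8 := by positivity
  have hr4 : 0 < r ^ 4 := by positivity
  have hr128 : r ^ 12 ≤ r ^ 8 := pow_le_pow_of_le_one hr0.le hr1 (by norm_num)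
  have e1 := Real.sqrt_nonneg (ln (1 / 8) 16 (ep P E (r ^ 2) W))
  have e2 := Real.sqrt_nonneg (ne2 et)
  have e3 := abs_nonneg (alm (r ^ 2) w W (ze w m (r ^ 8) W et))
  have e4 := abs_nonneg (ip W (deriv (Qf 4)))
  have hrsq : r ^ 4 * √(ln (1 / 8) 16 (ep P E (r ^ 2) W)) ≤ r ^ 4 * √(ln γ B (ep P E (r ^ 2) W)) :=
    mul_le_mul_of_nonneg_left hsq hr4.le
  have hrsq0 : 0 ≤ r ^ 4 * √(ln (1 / 8) 16 (ep P E (r ^ 2) W)) := mul_nonneg hr4.le e1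
  refine ⟨?_, ?_, ?_, ?_⟩
  · refine b1.trans (mul_le_mul (by linarith) (by linarith) (by positivity) (by positivity))
  · refine b2.trans (mul_le_mul (by linarith) (by linarith) (by positivity) (by positivity))
  · refine b3.trans (mul_le_mul (by linarith) (by linarith) (by positivity) (by positivity))
  · have k1 : |2 * (bq (r ^ 2) W) ^ 2| ≤ 2 * (5 * c0) ^ 2 * r ^ 8 := by
      rw [abs_mul, abs_pow, abs_of_pos (by norm_num : (0 : ℝ) < 2)]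
      have h1 := pow_le_pow_left₀ (abs_nonneg _) S.b1 2
      calc 2 * |bq (r ^ 2) W| ^ 2 ≤ 2 * (5 * c0 * r ^ 4) ^ 2 := by linarith
        _ = 2 * (5 * c0) ^ 2 * r ^ 8 := by ring
    have k2 : |6 / Iq * alf (r ^ 2) W * bq (r ^ 2) W| ≤ 6 / Iq * ((|f0| + 1) * (5 * c0)) * r ^ 8 := by
      rw [abs_mul, abs_mul, abs_of_pos (by positivity : 0 < 6 / Iq)]
      have h1 := mul_le_mul S.a1 S.b1 (abs_nonneg _) (by positivity)
      have h2 := mul_le_mul_of_nonneg_left h1 (by positivity : 0 ≤ 6 / Iq)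
      calc 6 / Iq * |alf (r ^ 2) W| * |bq (r ^ 2) W| = 6 / Iq * (|alf (r ^ 2) W| * |bq (r ^ 2) W|) := by ring
        _ ≤ 6 / Iq * ((|f0| + 1) * r ^ 4 * (5 * c0 * r ^ 4)) := h2
        _ = 6 / Iq * ((|f0| + 1) * (5 * c0)) * r ^ 8 := by ring
    obtain ⟨S0, hS0⟩ : ∃ S0, S0 = r ^ 8 + r ^ 4 * √(ln γ B (ep P E (r ^ 2) W)) + ln γ B (ep P E (r ^ 2) W)
        + |alm (r ^ 2) w W (ze w m (r ^ 8) W et)| + |ip W (deriv (Qf 4))| + √(ne2 et) := ⟨_, rfl⟩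
    have hS8 : r ^ 8 ≤ S0 := by
      rw [hS0]
      linarith
    have k3 : C4 * (r ^ 12 + r ^ 4 * √(ln (1 / 8) 16 (ep P E (r ^ 2) W)) + ln (1 / 8) 16 (ep P E (r ^ 2) W)
        + |alm (r ^ 2) w W (ze w m (r ^ 8) W et)| + |ip W (deriv (Qf 4))| + √(ne2 et)) ≤ C4 * S0 := by
      rw [hS0]
      exact mul_le_mul_of_nonneg_left (by linarith) hC4.le
    have k4 : K * r ^ 8 ≤ K * S0 := mul_le_mul_of_nonneg_left hS8 hK0
    have k5 : K * r ^ 8 = 2 * (5 * c0) ^ 2 * r ^ 8 + 6 / Iq * ((|f0| + 1) * (5 * c0)) * r ^ 8 + cnu * r ^ 8 := by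
      rw [hK]
      ring
    have k6 : 0 ≤ cnu * r ^ 8 := mul_nonneg hcnu hr8.le
    have k7 : 0 ≤ (C1 + C2 + C3) * S0 := mul_nonneg (by positivity) (hr8.le.trans hS8)
    rw [← hS0]
    have k8 : (C1 + C2 + C3 + C4 + K) * S0 = (C1 + C2 + C3) * S0 + C4 * S0 + K * S0 := by ring
    rw [k8]
    have b5 := b4.trans k3
    rw [abs_le] at k1 k2 b5 ⊢
    constructor <;> linarith [k1.1, k1.2, k2.1, k2.2, b5.1, b5.2]

end H98KC

end
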