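import Pool.Agent.H98.KC.Base
import Pool.Agent.H98.KB.Vcu

/-!
# Vkc (MP_95be7d_S4): cut-off of the virial weight for functions of class `Cl 0 0` (variant of `cut_H` in `KB/Vcu.lean`)

The proof of `cut_H` (KB/Vcu.lean) uses `0 < p`, `0 < q` only for integrability; here `v ∈ Cl 0 0`, and every integrand contains a factor
`ch B ∈ Cl (2/B) (2/B)` or `(rh B)² `, so it is integrable as well.  (`Vcu_int` is for decaying functions: apply it to `rh B · v ∈ Cl (1/B) (1/B)` for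
`Hf 4 (psi 4 η γ) (rh v)`; for `Hf 4 (Psi 4 η γ B) v` use that `Psi ∈ Cl (2/B) (2/B)`.)  The pointwise lemma `Vcu_est` is reusable.
-/

open MeasureTheory Filter Topology Set
open scoped ContDiff

noncomputable section

namespace H98KC

open H98KB H68KC

theorem Vkc_int {k : ℕ} (hk : 1 ≤ k) {a b : ℝ} {W v : ℝ → ℝ} (hW : Cl a b W) (ha : 0 < a) (hb : 0 < b)
    (hv : Cl 0 0 v) :
    Integrable (fun y => 3 / 2 * deriv W y * (deriv v y) ^ 2
      + 1 / 2 * (deriv W y - deriv (deriv (deriv W)) y) * (v y) ^ 2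
      - 1 / 2 * deriv (fun z => W z * Qf k z ^ k) y * (v y) ^ 2) := by
  have hQ0 : Cl 0 0 (fun y => Qf k y ^ k) :=
    Cl_mono (Cl_Qk hk) (Nat.cast_nonneg k) (Nat.cast_nonneg k)
  have hWQ : Cl a b (fun z => W z * Qf k z ^ k) := by
    have h := Cl_mul hW hQ0
    rwa [add_zero, add_zero] at h
  have v2 : Cl 0 0 (fun y => v y * v y) := Cl_mul0 hv hv
  have dv2 : Cl 0 0 (fun y => deriv v y * deriv v y) := Cl_mul0 (Cl_der hv) (Cl_der hv)
  have h1 := Cl_mul0 dv2 (Cl_smul (3 / 2) (Cl_der hW))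
  have h2 := Cl_mul0 v2 (Cl_smul (1 / 2) (Cl_sub (Cl_der hW) (Cl_der (Cl_der (Cl_der hW)))))
  have h3 := Cl_mul0 v2 (Cl_smul (1 / 2) (Cl_der hWQ))
  have h4 := Cl_int (Cl_sub (Cl_add h1 h2) h3) ha hb
  refine h4.congr (Eventually.of_forall fun y => ?_)
  simp only
  ring

theorem cut_H0 (η γ : ℝ) : ∃ C : ℝ, 0 < C ∧ ∀ B : ℝ, 16 ≤ B → ∀ v : ℝ → ℝ, Cl 0 0 v →
    |Hf 4 (Psi 4 η γ B) v - Hf 4 (psi 4 η γ) (fun y => rh B y * v y)| ≤
      C / B * ∫ y, ch B y * ((v y) ^ 2 + (deriv v y) ^ 2) := by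
  have hk : 1 ≤ 4 := by norm_num
  set a := psi 4 η γ with ha
  have h0 : Cl 0 0 a := Cl_psi 4 η γ
  have h1 := Cl_der h0
  have h2 := Cl_der h1
  have h3 := Cl_der h2
  obtain ⟨K0, hK0, k0⟩ := Cl_bnd h0
  obtain ⟨K1, hK1, k1⟩ := Cl_bnd h1
  obtain ⟨K2, hK2, k2⟩ := Cl_bnd h2
  have hQ0 : Cl 0 0 (fun y => Qf 4 y ^ 4) :=
    Cl_mono (Cl_Qk hk) (Nat.cast_nonneg 4) (Nat.cast_nonneg 4)
  obtain ⟨KQ, hKQ, kQ⟩ := Cl_bnd hQ0
  simp only [bd_zero, mul_one] at k0 k1 k2 kQ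
  refine ⟨10 * (K0 + K1 + K2 + K0 * KQ) + 1, by positivity, ?_⟩
  intro B hB v hv
  have hB0 : 0 < B := by linarith
  have hB1 : 1 ≤ B := by linarith
  have c0 : Cl (2 / B) (2 / B) (ch B) := Cl_ch hB0
  have hPsi : Psi 4 η γ B = fun y => a y * ch B y := by
    funext y
    rfl
  have i1 := Vkc_int hk (Cl_Psi 4 η γ hB0) (by positivity) (by positivity) hv
  have r0 := Vcu_rh hB0
  have hw : Cl (1 / B + 0) (1 / B + 0) (fun y => rh B y * v y) := Cl_mul r0 hv
  have i2 := Vcu_int hk h0 hw (by positivity) (by positivity)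
  have i3 : Integrable (fun y => ch B y * ((v y) ^ 2 + (deriv v y) ^ 2)) := by
    have v2 : Cl 0 0 (fun y => v y * v y) := Cl_mul0 hv hv
    have dv2 : Cl 0 0 (fun y => deriv v y * deriv v y) :=
      Cl_mul0 (Cl_der hv) (Cl_der hv)
    have h4 := Cl_int (Cl_mul c0 (Cl_add v2 dv2)) (by positivity) (by positivity)
    refine h4.congr (Eventually.of_forall fun y => ?_)
    simp only
    ring
  unfold Hf
  rw [← integral_sub i1 i2, ← integral_const_mul]
  refine (abs_integral_le_integral_abs).trans (integral_mono (i1.sub i2).abs (i3.const_mul _) ?_)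
  intro y
  -- derivatives
  have d0 := fun y => Cl_hd h0 y
  have d1 := fun y => Cl_hd h1 y
  have d2 := fun y => Cl_hd h2 y
  have e0 := fun y => Cl_hd c0 y
  have e1 := fun y => Cl_hd (Cl_der c0) y
  have e2 := fun y => Cl_hd (Cl_der (Cl_der c0)) y
  have P1 : deriv (Psi 4 η γ B) = fun y => deriv a y * ch B y + a y * deriv (ch B) y := by
    rw [hPsi]
    funext y
    exact ((d0 y).mul (e0 y)).deriv
  have P2 : deriv (deriv (Psi 4 η γ B)) = fun y => (deriv (deriv a) y * ch B y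
      + deriv a y * deriv (ch B) y) + (deriv a y * deriv (ch B) y
      + a y * deriv (deriv (ch B)) y) := by
    rw [P1]
    funext y
    exact (((d1 y).mul (e0 y)).add ((d0 y).mul (e1 y))).deriv
  have P3 : deriv (deriv (deriv (Psi 4 η γ B))) y =
      ((deriv (deriv (deriv a)) y * ch B y + deriv (deriv a) y * deriv (ch B) y)
        + (deriv (deriv a) y * deriv (ch B) y + deriv a y * deriv (deriv (ch B)) y))
      + ((deriv (deriv a) y * deriv (ch B) y + deriv a y * deriv (deriv (ch B)) y)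
        + (deriv a y * deriv (deriv (ch B)) y + a y * deriv (deriv (deriv (ch B))) y)) := by
    rw [P2]
    exact ((((d2 y).mul (e0 y)).add ((d1 y).mul (e1 y))).add
      (((d1 y).mul (e1 y)).add ((d0 y).mul (e2 y)))).deriv
  have PQ : deriv (fun z => Psi 4 η γ B z * Qf 4 z ^ 4) y =
      deriv (fun z => a z * Qf 4 z ^ 4) y * ch B y + (a y * Qf 4 y ^ 4) * deriv (ch B) y := by
    have : (fun z => Psi 4 η γ B z * Qf 4 z ^ 4) = fun z => (a z * Qf 4 z ^ 4) * ch B z := by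
      funext z
      rw [hPsi]
      ring
    rw [this]
    exact ((Cl_hd (Cl_mul0 h0 hQ0) y).mul (e0 y)).deriv
  -- the cut-off function
  set R : ℝ := rh B y with hR
  set R1 : ℝ := -(1 / B) * Real.tanh (y / B) * rh B y with hR1
  have dR : HasDerivAt (rh B) R1 y := Vcu_rh_hd y
  have dv : HasDerivAt v (deriv v y) y := Cl_hd hv y
  have W1 : deriv (fun y => rh B y * v y) y = R1 * v y + R * deriv v y := (dR.mul dv).deriv
  have hc : ch B y = R * R := Vcu_rh_sq B y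
  have hc1 : deriv (ch B) y = 2 * R * R1 := by
    have : ch B = fun y => rh B y * rh B y := funext fun y => Vcu_rh_sq B y
    rw [this]
    have := (dR.mul dR).deriv
    refine this.trans ?_
    rw [← hR]
    ring
  have hR1' : R1 ^ 2 ≤ 1 / B * ch B y := by
    rw [hR1, hc, ← hR]
    have ht : (Real.tanh (y / B)) ^ 2 ≤ 1 := by
      have := (tanh_abs_lt (y / B)).le
      rw [← sq_abs]
      exact pow_le_one₀ (abs_nonneg _) this
    have hb : (1 / B) ^ 2 ≤ 1 / B := by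
      have h5 : 1 / B ≤ 1 := by
        rw [div_le_one hB0]
        exact hB1
      have h6 : 0 ≤ 1 / B := by positivity
      (first | linarith only [h5, h6] | nlinarith only [h5, h6])
    calc (-(1 / B) * Real.tanh (y / B) * R) ^ 2
        = (1 / B) ^ 2 * (Real.tanh (y / B)) ^ 2 * (R * R) := by ring
      _ ≤ (1 / B) * 1 * (R * R) := by
          have : 0 ≤ R * R := mul_self_nonneg R
          gcongr
      _ = _ := by ring
  have b1 : |deriv (ch B) y| ≤ 2 / B * ch B y := ch1_le hB1 y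
  have b2 : |deriv (deriv (ch B)) y| ≤ 1 / B * ch B y := by
    refine (ch2_le hB1 y).trans ?_
    have hc0 : 0 ≤ ch B y := by rw [hc]; exact mul_self_nonneg R
    refine mul_le_mul_of_nonneg_right ?_ hc0
    rw [div_le_div_iff₀ (by positivity) hB0]
    (first | linarith only [hB] | nlinarith only [hB])
  have b3 : |deriv (deriv (deriv (ch B))) y| ≤ 1 / B * ch B y := by
    refine (ch3_le hB1 y).trans ?_
    have hc0 : 0 ≤ ch B y := by rw [hc]; exact mul_self_nonneg R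
    refine mul_le_mul_of_nonneg_right ?_ hc0
    rw [div_le_div_iff₀ (by positivity) hB0]
    (first | linarith only [mul_pos hB0 hB0, hB] | nlinarith only [mul_pos hB0 hB0, hB])
  have hc0 : 0 ≤ ch B y := by rw [hc]; exact mul_self_nonneg R
  beta_reduce
  rw [P3, PQ, P1, W1]
  simp only
  set χ := ch B y with hχ
  set χ1 := deriv (ch B) y with hχ1
  set χ2 := deriv (deriv (ch B)) y with hχ2
  set χ3 := deriv (deriv (deriv (ch B))) y with hχ3
  set A0 := a y with hA0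
  set A1 := deriv a y with hA1
  set A2 := deriv (deriv a) y with hA2
  set A3 := deriv (deriv (deriv a)) y with hA3
  set q0 := Qf 4 y ^ 4 with hq0
  set D0 := deriv (fun z => a z * Qf 4 z ^ 4) y with hD0
  set v0 := v y with hv0
  set v1 := deriv v y with hv1
  have key : (3 / 2 * (A1 * χ + A0 * χ1) * v1 ^ 2
      + 1 / 2 * ((A1 * χ + A0 * χ1) - (((A3 * χ + A2 * χ1) + (A2 * χ1 + A1 * χ2))
        + ((A2 * χ1 + A1 * χ2) + (A1 * χ2 + A0 * χ3)))) * v0 ^ 2
      - 1 / 2 * (D0 * χ + A0 * q0 * χ1) * v0 ^ 2)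
      - (3 / 2 * A1 * (R1 * v0 + R * v1) ^ 2 + 1 / 2 * (A1 - A3) * (R * v0) ^ 2
        - 1 / 2 * D0 * (R * v0) ^ 2)
      = 3 / 2 * A0 * χ1 * v1 ^ 2 + 1 / 2 * A0 * χ1 * v0 ^ 2 - 3 / 2 * A2 * χ1 * v0 ^ 2
        - 3 / 2 * A1 * χ2 * v0 ^ 2 - 1 / 2 * A0 * χ3 * v0 ^ 2 - 1 / 2 * A0 * q0 * χ1 * v0 ^ 2
        - 3 / 2 * A1 * χ1 * (v0 * v1) - 3 / 2 * A1 * R1 ^ 2 * v0 ^ 2 := by
    rw [hc1, hc]
    ring
  rw [key]
  exact Vcu_est hB0 hc0 hK0 hK1 hK2 hKQ b1 b2 b3 hR1' (k0 y) (k1 y) (k2 y) (kQ y)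

end H98KC

end
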