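import Pool.Agent.H98.KC.Base
import Pool.Agent.H98.KB.Vcv

/-!
# Vke (MP_95be7d_S4): the commutator error, class `Cl 0 0`, `k = 4` (variant of `Ed_le` in `KB/Vcv.lean`)

`Ed = δ Sm((Q⁴)''v') - 2δ (Sm((Q⁴)'v'))'`.  First term: `δ|∫Ψ v Sm h| ≤ δ(1+η)(∫ wχ v²)^{1/2}(∫(χ/w)(Sm h)²)^{1/2}`
with `h=(Q⁴)''v'` and the weight `W=χ cosh²(γy)` (`Vcv_W`), `δ|W''| ≤ W/4` (`Vcv_W2`), so `∫W(Sm h)² ≤ (4/3)∫W h²` (`Sm_wt`) and
`∫W h² ≤ C∫ wχ v'²` because `|(Q⁴)''| cosh²(γy) ≤ C`.  Second term the same with `δ∫W((Sm h)')² ≤ ∫W h²`, which gives `2δ·δ^{-1/2} = 2√δ`.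
Only integrability changes: `v ∈ Cl 0 0`, all weights (`Psi`, `loc`, `W`) decay.  The auxiliary lemmas `Vcv_W`, `Vcv_E`, ... of `KB/Vcv.lean` are imported; the
lemmas `Vcv_pair`, `Vcv_h` there have hypotheses `0 < p`: copy them with `p = q = 0`.  In the original the hypothesis `5 ≤ k` is not essential.
-/

open MeasureTheory Filter Topology Set
open scoped ContDiff

noncomputable section

namespace H98KC

open H98KB H68KC

theorem Vke_pair {k : ℕ} {η γ M B p q : ℝ} {v S : ℝ → ℝ} (hγ : 0 < γ) (hγ' : γ ≤ 1 / 8)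
    (hB : 16 ≤ B) (hM : 0 ≤ M) (hpsi : ∀ y, |psi k η γ y| ≤ M) (hp : 0 ≤ p) (hq : 0 ≤ q)
    (hv : Cl p q v) (hS : Cl 2 2 S) :
    Integrable (fun y => Psi k η γ B y * (v y * S y)) ∧
    |∫ y, Psi k η γ B y * (v y * S y)| ≤
      M * √(∫ y, Vcv_W γ B y * (S y) ^ 2) * √(∫ y, loc γ B y * (v y) ^ 2) := by
  have hB0 : 0 < B := by linarith
  have hB1 : 0 < 2 / B := by positivity
  have hloc : Cl (2 * γ + 2 / B) (2 * γ + 2 / B) (loc γ B) := Cl_mul (Cl_se2 hγ) (Cl_ch hB0)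
  have hPsi := Cl_Psi k η γ hB0
  have hpsiC := Cl_psi k η γ
  have hlocp : ∀ y, 0 < loc γ B y := fun y => mul_pos (se2_pos γ y) (Vcv_ch_pos B y)
  have i1 : Integrable (fun y => loc γ B y * (v y) ^ 2) :=
    Cl_int (Cl_mul hloc (Cl_pow hv 2)) (by push_cast; linarith) (by push_cast; linarith)
  have i2 : Integrable (fun y => Vcv_W γ B y * (S y) ^ 2) :=
    Cl_int (Cl_mul (Vcv_Cl_W hγ hB0) (Cl_pow hS 2)) (by push_cast; linarith)
      (by push_cast; linarith)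
  have i3 : Integrable (fun y => (psi k η γ y) ^ 2 * (Vcv_W γ B y * (S y) ^ 2)) :=
    Cl_int (Cl_mul (Cl_pow0 hpsiC 2) (Cl_mul (Vcv_Cl_W hγ hB0) (Cl_pow hS 2)))
      (by push_cast; linarith) (by push_cast; linarith)
  have e : (fun y => (Psi k η γ B y * S y) ^ 2 / loc γ B y) =
      fun y => (psi k η γ y) ^ 2 * (Vcv_W γ B y * (S y) ^ 2) := by
    funext y
    rw [div_eq_iff (hlocp y).ne']
    have h1 := Vcv_E_se2 γ y
    change (psi k η γ y * ch B y * S y) ^ 2 =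
      (psi k η γ y) ^ 2 * (ch B y * Vcv_E γ y * (S y) ^ 2) * (se2 γ y * ch B y)
    linear_combination (-(psi k η γ y * ch B y * S y) ^ 2) * h1
  have key := cs_wt (F := v) (φ := fun y => Psi k η γ B y * S y) (W := loc γ B) (Cl_cont hv)
    ((Cl_cont hPsi).mul (Cl_cont hS)) (Cl_cont hloc) hlocp i1 (by rw [e]; exact i3)
  rw [e] at key
  have e2 : (fun y => v y * (Psi k η γ B y * S y)) = fun y => Psi k η γ B y * (v y * S y) := by
    funext y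
    ring
  rw [e2] at key
  refine ⟨key.1, key.2.trans (mul_le_mul_of_nonneg_right ?_ (Real.sqrt_nonneg _))⟩
  have h2 : ∫ y, (psi k η γ y) ^ 2 * (Vcv_W γ B y * (S y) ^ 2) ≤
      M ^ 2 * ∫ y, Vcv_W γ B y * (S y) ^ 2 := by
    rw [← integral_const_mul]
    refine integral_mono i3 (i2.const_mul _) fun y => ?_
    refine mul_le_mul_of_nonneg_right ?_ (mul_nonneg (Vcv_W_pos γ B y).le (sq_nonneg _))
    have := pow_le_pow_left₀ (abs_nonneg _) (hpsi y) 2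
    rwa [sq_abs] at this
  refine (Real.sqrt_le_sqrt h2).trans (le_of_eq ?_)
  rw [Real.sqrt_mul (sq_nonneg _), Real.sqrt_sq hM]

theorem Vke_h {γ B D p q : ℝ} {g v : ℝ → ℝ} (hγ : 0 < γ) (hγ' : γ ≤ 1 / 8)
    (hB : 16 ≤ B) (hD : 0 ≤ D) (hg : Cl 1 1 g) (hgD : ∀ y, |g y| ≤ D * bd 1 1 y)
    (hp : 0 ≤ p) (hq : 0 ≤ q) (hv : Cl p q v) :
    ∫ y, Vcv_W γ B y * (g y * deriv v y) ^ 2 ≤ D ^ 2 * ∫ y, loc γ B y * (deriv v y) ^ 2 := by
  have hB0 : 0 < B := by linarith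
  have hB1 : 0 < 2 / B := by positivity
  have hloc : Cl (2 * γ + 2 / B) (2 * γ + 2 / B) (loc γ B) := Cl_mul (Cl_se2 hγ) (Cl_ch hB0)
  have i1 : Integrable (fun y => loc γ B y * (deriv v y) ^ 2) :=
    Cl_int (Cl_mul hloc (Cl_pow (Cl_der hv) 2)) (by push_cast; linarith) (by push_cast; linarith)
  have i2 : Integrable (fun y => Vcv_W γ B y * (g y * deriv v y) ^ 2) :=
    Cl_int (Cl_mul (Vcv_Cl_W hγ hB0) (Cl_pow (Cl_mul hg (Cl_der hv)) 2)) (by push_cast; linarith)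
      (by push_cast; linarith)
  rw [← integral_const_mul]
  refine integral_mono i2 (i1.const_mul _) fun y => ?_
  change ch B y * Vcv_E γ y * (g y * deriv v y) ^ 2 ≤
    D ^ 2 * (se2 γ y * ch B y * (deriv v y) ^ 2)
  have hy := abs_nonneg y
  have hse := se2_pos γ y
  have h1 : Real.exp (-(|y| / 4)) ≤ se2 γ y := by
    refine le_trans (Real.exp_le_exp.2 ?_) (se2_lo γ y)
    rw [abs_mul, abs_of_pos hγ]
    nlinarith
  have h2 : (g y) ^ 2 ≤ D ^ 2 * Real.exp (-(2 * |y|)) := by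
    have a1 := hgD y
    rw [bd_abs] at a1
    have a2 := pow_le_pow_left₀ (abs_nonneg _) a1 2
    have e : (D * Real.exp (-(1 * |y|))) ^ 2 = D ^ 2 * Real.exp (-(2 * |y|)) := by
      rw [mul_pow, ← Real.exp_nat_mul]
      congr 2
      push_cast
      ring
    rw [sq_abs, e] at a2
    exact a2
  have h3 : Real.exp (-(2 * |y|)) ≤ se2 γ y * se2 γ y := by
    refine le_trans ?_ (mul_le_mul h1 h1 (Real.exp_pos _).le hse.le)
    rw [← Real.exp_add]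
    exact Real.exp_le_exp.2 (by linarith)
  have h4 : Vcv_E γ y * (g y) ^ 2 ≤ D ^ 2 * se2 γ y := by
    have hD2 : 0 ≤ D ^ 2 := sq_nonneg D
    have a1 : (g y) ^ 2 ≤ D ^ 2 * (se2 γ y * se2 γ y) :=
      h2.trans (mul_le_mul_of_nonneg_left h3 hD2)
    have a2 := mul_le_mul_of_nonneg_left a1 (Vcv_E_pos γ y).le
    refine a2.trans (le_of_eq ?_)
    have := Vcv_E_se2 γ y
    linear_combination (D ^ 2 * se2 γ y) * this
  have h5 : 0 ≤ ch B y * (deriv v y) ^ 2 := mul_nonneg (Vcv_ch_pos B y).le (sq_nonneg _)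
  have h6 := mul_le_mul_of_nonneg_right h4 h5
  calc ch B y * Vcv_E γ y * (g y * deriv v y) ^ 2 =
      Vcv_E γ y * (g y) ^ 2 * (ch B y * (deriv v y) ^ 2) := by ring
    _ ≤ D ^ 2 * se2 γ y * (ch B y * (deriv v y) ^ 2) := h6
    _ = _ := by ring

theorem Ed_le0 (η γ : ℝ) (hγ : 0 < γ) (hγ' : γ ≤ 1 / 8) : ∃ C : ℝ, 0 < C ∧
    ∀ B : ℝ, 16 ≤ B → ∀ δ : ℝ, 0 < δ → δ ≤ 1 / 16 → ∀ v : ℝ → ℝ, Cl 0 0 v →
    |∫ y, Psi 4 η γ B y * (v y * Ed 4 δ v y)| ≤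
      C * √δ * ∫ y, loc γ B y * ((v y) ^ 2 + (deriv v y) ^ 2) := by
  have hk1 : 1 ≤ 4 := by norm_num
  obtain ⟨M, hM, hM'⟩ := Cl_bnd (Cl_psi 4 η γ)
  have hpsi : ∀ y, |psi 4 η γ y| ≤ M := fun y => by
    have := hM' y
    rwa [bd_zero, mul_one] at this
  have hg1 : Cl (4 : ℕ) (4 : ℕ) (deriv (fun z => Qf 4 z ^ 4)) := Cl_der (Cl_Qk hk1)
  have hg2 : Cl (4 : ℕ) (4 : ℕ) (deriv (deriv (fun z => Qf 4 z ^ 4))) := Cl_der hg1
  have hg1' : Cl 1 1 (deriv (fun z => Qf 4 z ^ 4)) := Cl_mono hg1 (by norm_num) (by norm_num)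
  have hg2' : Cl 1 1 (deriv (deriv (fun z => Qf 4 z ^ 4))) :=
    Cl_mono hg2 (by norm_num) (by norm_num)
  obtain ⟨D1, hD1, hD1'⟩ := Cl_bnd hg1'
  obtain ⟨D2, hD2, hD2'⟩ := Cl_bnd hg2'
  refine ⟨M * (2 * D2 + 2 * D1) + 1, by positivity, ?_⟩
  intro B hB δ hδ hδ' v hv
  have hp : (0 : ℝ) ≤ 0 := le_rfl
  have hB0 : 0 < B := by linarith
  have hB1 : 0 < 2 / B := by positivity
  obtain ⟨g1, eg1⟩ : ∃ g : ℝ → ℝ, g = deriv (fun z => Qf 4 z ^ 4) := ⟨_, rfl⟩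
  obtain ⟨g2, eg2⟩ : ∃ g : ℝ → ℝ, g = deriv (deriv (fun z => Qf 4 z ^ 4)) := ⟨_, rfl⟩
  have hEd : ∀ y, Ed 4 δ v y = δ * Sm δ (fun z => g2 z * deriv v z) y -
      2 * δ * deriv (Sm δ (fun z => g1 z * deriv v z)) y := by
    intro y
    rw [eg1, eg2]
    rfl
  rw [← eg1] at hg1 hg1' hD1'
  rw [← eg2] at hg2 hg2' hD2'
  have hh1 : Cl 2 2 (fun z => g1 z * deriv v z) :=
    Cl_mono (Cl_mul hg1 (Cl_der hv)) (by norm_num) (by norm_num)
  have hh2 : Cl 2 2 (fun z => g2 z * deriv v z) :=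
    Cl_mono (Cl_mul hg2 (Cl_der hv)) (by norm_num) (by norm_num)
  have h22 : |(2 : ℝ)| ≤ 2 := by rw [abs_of_pos (by norm_num)]
  have hS1 := Cl_der (Cl_Sm hδ hδ' h22 h22 hh1)
  have hS2 := Cl_Sm hδ hδ' h22 h22 hh2
  obtain ⟨i1, p1⟩ := Vke_pair hγ hγ' hB hM hpsi hp hp hv hS1
  obtain ⟨i2, p2⟩ := Vke_pair hγ hγ' hB hM hpsi hp hp hv hS2
  have w1 := (Sm_wt hδ hδ' h22 h22 hh1 (Vcv_Cl_W hγ hB0) (Vcv_W_pos γ B)
    (Vcv_W2 hγ hγ' hB hδ hδ') (by linarith) (by linarith)).2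
  have w2 := (Sm_wt hδ hδ' h22 h22 hh2 (Vcv_Cl_W hγ hB0) (Vcv_W_pos γ B)
    (Vcv_W2 hγ hγ' hB hδ hδ') (by linarith) (by linarith)).1
  have z1 := Vke_h hγ hγ' hB hD1 hg1' hD1' hp hp hv
  have z2 := Vke_h hγ hγ' hB hD2 hg2' hD2' hp hp hv
  have hloc : Cl (2 * γ + 2 / B) (2 * γ + 2 / B) (loc γ B) := Cl_mul (Cl_se2 hγ) (Cl_ch hB0)
  have hlocp : ∀ y, 0 < loc γ B y := fun y => mul_pos (se2_pos γ y) (Vcv_ch_pos B y)
  have j1 : Integrable (fun y => loc γ B y * (v y) ^ 2) :=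
    Cl_int (Cl_mul hloc (Cl_pow hv 2)) (by push_cast; linarith) (by push_cast; linarith)
  have j2 : Integrable (fun y => loc γ B y * (deriv v y) ^ 2) :=
    Cl_int (Cl_mul hloc (Cl_pow (Cl_der hv) 2)) (by push_cast; linarith) (by push_cast; linarith)
  have eA : ∫ y, loc γ B y * ((v y) ^ 2 + (deriv v y) ^ 2) =
      (∫ y, loc γ B y * (v y) ^ 2) + ∫ y, loc γ B y * (deriv v y) ^ 2 := by
    rw [← integral_add j1 j2]
    congr 1
    funext y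
    ring
  obtain ⟨A, hA⟩ : ∃ A, A = ∫ y, loc γ B y * (v y) ^ 2 := ⟨_, rfl⟩
  obtain ⟨A', hA'⟩ : ∃ A, A = ∫ y, loc γ B y * (deriv v y) ^ 2 := ⟨_, rfl⟩
  have hA0 : 0 ≤ A := by
    rw [hA]
    exact integral_nonneg fun y => mul_nonneg (hlocp y).le (sq_nonneg _)
  have hA0' : 0 ≤ A' := by
    rw [hA']
    exact integral_nonneg fun y => mul_nonneg (hlocp y).le (sq_nonneg _)
  rw [eA, ← hA, ← hA']
  rw [← hA'] at z1 z2
  rw [← hA] at p1 p2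
  have eI : ∫ y, Psi 4 η γ B y * (v y * Ed 4 δ v y) =
      δ * (∫ y, Psi 4 η γ B y * (v y * Sm δ (fun z => g2 z * deriv v z) y)) -
      2 * δ * ∫ y, Psi 4 η γ B y * (v y * deriv (Sm δ (fun z => g1 z * deriv v z)) y) := by
    rw [← integral_const_mul, ← integral_const_mul, ← integral_sub (i2.const_mul _)
      (i1.const_mul _)]
    congr 1
    funext y
    rw [hEd]
    ring
  rw [eI]
  obtain ⟨I1, eI1⟩ : ∃ I, I = ∫ y, Psi 4 η γ B y *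
    (v y * deriv (Sm δ (fun z => g1 z * deriv v z)) y) := ⟨_, rfl⟩
  obtain ⟨I2, eI2⟩ : ∃ I, I = ∫ y, Psi 4 η γ B y *
    (v y * Sm δ (fun z => g2 z * deriv v z) y) := ⟨_, rfl⟩
  rw [← eI1] at p1 ⊢
  rw [← eI2] at p2 ⊢
  obtain ⟨s, hs⟩ : ∃ s, s = √δ := ⟨_, rfl⟩
  have hs0 : 0 < s := by rw [hs]; exact Real.sqrt_pos.2 hδ
  have hs2 : s ^ 2 = δ := by rw [hs]; exact Real.sq_sqrt hδ.le
  have hs1 : s ≤ 1 := by
    by_contra h
    push_neg at h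
    (first | linarith only [h, hs0, hs2, hδ, hδ'] | nlinarith only [h, hs0, hs2, hδ, hδ'])
  rw [← hs]
  have hAA : √A' * √A ≤ A + A' := by
    have a1 := Real.sq_sqrt hA0
    have a2 := Real.sq_sqrt hA0'
    (first | linarith only [sq_nonneg (√A' - √A), Real.sqrt_nonneg A, Real.sqrt_nonneg A', a1, a2, hA0, hA0'] | nlinarith only [sq_nonneg (√A' - √A), Real.sqrt_nonneg A, Real.sqrt_nonneg A', a1, a2, hA0, hA0'])
  have b2 : √(∫ y, Vcv_W γ B y * (Sm δ (fun z => g2 z * deriv v z) y) ^ 2) ≤ 2 * D2 * √A' := by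
    refine Real.sqrt_le_iff.2 ⟨by positivity, ?_⟩
    rw [mul_pow, mul_pow, Real.sq_sqrt hA0']
    have : 0 ≤ D2 ^ 2 * A' := by positivity
    linarith
  have b1 : s * √(∫ y, Vcv_W γ B y * (deriv (Sm δ (fun z => g1 z * deriv v z)) y) ^ 2) ≤
      D1 * √A' := by
    have e : s * √(∫ y, Vcv_W γ B y * (deriv (Sm δ (fun z => g1 z * deriv v z)) y) ^ 2) =
        √(δ * ∫ y, Vcv_W γ B y * (deriv (Sm δ (fun z => g1 z * deriv v z)) y) ^ 2) := by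
      rw [Real.sqrt_mul hδ.le, ← hs]
    rw [e]
    refine Real.sqrt_le_iff.2 ⟨by positivity, ?_⟩
    rw [mul_pow, Real.sq_sqrt hA0']
    exact w1.trans z1
  have q2 : |I2| ≤ M * (2 * D2) * (A + A') := by
    refine p2.trans ?_
    calc _ ≤ M * (2 * D2 * √A') * √A :=
          mul_le_mul_of_nonneg_right (mul_le_mul_of_nonneg_left b2 hM) (Real.sqrt_nonneg _)
      _ = M * (2 * D2) * (√A' * √A) := by ring
      _ ≤ _ := mul_le_mul_of_nonneg_left hAA (by positivity)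
  have q1 : s * |I1| ≤ M * D1 * (A + A') := by
    refine (mul_le_mul_of_nonneg_left p1 hs0.le).trans ?_
    calc _ = M * (s * √(∫ y, Vcv_W γ B y *
          (deriv (Sm δ (fun z => g1 z * deriv v z)) y) ^ 2)) * √A := by ring
      _ ≤ M * (D1 * √A') * √A :=
          mul_le_mul_of_nonneg_right (mul_le_mul_of_nonneg_left b1 hM) (Real.sqrt_nonneg _)
      _ = M * D1 * (√A' * √A) := by ring
      _ ≤ _ := mul_le_mul_of_nonneg_left hAA (by positivity)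
  have r : |δ * I2 - 2 * δ * I1| ≤ δ * |I2| + 2 * δ * |I1| := by
    refine (abs_sub _ _).trans (le_of_eq ?_)
    rw [abs_mul, abs_mul, abs_of_pos hδ, abs_of_pos (by positivity : (0:ℝ) < 2 * δ)]
  refine r.trans ?_
  have hAs : 0 ≤ A + A' := by linarith
  have t1 : 2 * δ * |I1| ≤ s * (2 * (M * D1 * (A + A'))) := by
    have : 2 * δ * |I1| = s * (2 * (s * |I1|)) := by rw [← hs2]; ring
    rw [this]
    exact mul_le_mul_of_nonneg_left (by linarith) hs0.le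
  have t2 : δ * |I2| ≤ s * (M * (2 * D2) * (A + A')) := by
    have a1 : δ ≤ s := by rw [← hs2]; (first | linarith only [hs0, hs1, hδ, hδ'] | nlinarith only [hs0, hs1, hδ, hδ'])
    exact mul_le_mul a1 q2 (abs_nonneg _) hs0.le
  have t3 : 0 ≤ s * (A + A') := mul_nonneg hs0.le hAs
  (first | linarith only [t1, t2, t3] | nlinarith only [t1, t2, t3])

end H98KC

end
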