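import Pool.Agent.H98.KC.Base
import Pool.Agent.H68.KC.PRg

/-!
# Vkf (MP_95be7d_S4): `(v, ρ')` is controlled by `Jn`

`t = th 4`, `Q' = -tQ`, `Q⁴ = 15(1-t²)`, `t' = 2(1-t²) = (2/15)Q⁴`, `Q'² = t²Q² = Q²-Q⁶/15`, so `ρ = Q³Q'² = Q⁵-Q⁹/15`.
Let `T = (5/6)Q⁵-(3/50)Q⁹`.  Then `T' - tT = ρ'`, i.e. (`Q' = -tQ`): `ρ' = 5Q⁴Q'-(3/5)Q⁸Q'`, `T' = (25/6)Q⁴Q'-(27/50)Q⁸Q'`,
`tT = -Q'((5/6)Q⁴-(3/50)Q⁸)`, and `25/6+5/6 = 5`, `27/50+3/50 = 3/5`.  Hence `(vT)' = v'T+v(ρ'+tT) = (v'+tv)T + vρ'`, so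
`(v,ρ') = -∫(v'+tv)T` (`Cl_int_deriv`), and Cauchy-Schwarz with weight `t'` (`cs_wt`): `|(v,ρ')| ≤ (∫T²/t')^{1/2} Jn^{1/2}`, `T²/t' ≤ C Q⁶` (`|T| ≤ C Q⁵`).
-/

open MeasureTheory Filter Topology Set
open scoped ContDiff

noncomputable section

namespace H98KC

open H98KB H68KC

def Vkf_T (y : ℝ) : ℝ := 5 / 6 * Qf 4 y ^ 5 - 3 / 50 * Qf 4 y ^ 9

theorem Vkf_k : 1 ≤ 4 := by norm_num

theorem Vkf_ClT : Cl 1 1 Vkf_T := by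
  have h5 := Cl_pow' (Cl_Qf Vkf_k) (by norm_num) (by norm_num) 5 (by norm_num)
  have h9 := Cl_pow' (Cl_Qf Vkf_k) (by norm_num) (by norm_num) 9 (by norm_num)
  exact Cl_sub (Cl_smul (5 / 6) h5) (Cl_smul (3 / 50) h9)

theorem Vkf_Q4 (y : ℝ) : Qf 4 y ^ 4 = 15 * (1 - th 4 y ^ 2) := by
  have h := Qf_pow Vkf_k y
  have hC : C0 4 = 15 := by
    unfold C0
    norm_num
  rw [hC] at h
  exact h

theorem Vkf_Qd (y : ℝ) : HasDerivAt (Qf 4) (-(th 4 y) * Qf 4 y) y := Qf_hd Vkf_k y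

theorem Vkf_rho (y : ℝ) : rho y = Qf 4 y ^ 5 - Qf 4 y ^ 9 / 15 := by
  have h := Vkf_Q4 y
  have h2 : deriv (Qf 4) y = -(th 4 y) * Qf 4 y := (Vkf_Qd y).deriv
  have h3 : th 4 y ^ 2 = 1 - Qf 4 y ^ 4 / 15 := by linarith
  unfold rho
  rw [h2]
  calc Qf 4 y ^ 3 * (-(th 4 y) * Qf 4 y) ^ 2 = Qf 4 y ^ 5 * th 4 y ^ 2 := by ring
    _ = Qf 4 y ^ 5 - Qf 4 y ^ 9 / 15 := by rw [h3]; ring

theorem Vkf_rhod (y : ℝ) : deriv rho y =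
    -(th 4 y) * Qf 4 y * (5 * Qf 4 y ^ 4 - 3 / 5 * Qf 4 y ^ 8) := by
  have h : rho = fun y => Qf 4 y ^ 5 - Qf 4 y ^ 9 / 15 := funext Vkf_rho
  rw [h]
  have h1 := ((Vkf_Qd y).pow 5).sub (((Vkf_Qd y).pow 9).div_const 15)
  refine h1.deriv.trans ?_
  push_cast
  ring

theorem Vkf_Td (y : ℝ) : deriv Vkf_T y =
    -(th 4 y) * Qf 4 y * (25 / 6 * Qf 4 y ^ 4 - 27 / 50 * Qf 4 y ^ 8) := by
  have h1 := (((Vkf_Qd y).pow 5).const_mul (5 / 6)).sub (((Vkf_Qd y).pow 9).const_mul (3 / 50))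
  refine h1.deriv.trans ?_
  push_cast
  ring

theorem Vkf_thd (y : ℝ) : deriv (th 4) y = 2 / 15 * Qf 4 y ^ 4 := by
  rw [(th_hd 4 y).deriv, Vkf_Q4]
  push_cast
  ring

theorem pairJ : ∃ C : ℝ, 0 < C ∧ ∀ (p q : ℝ) (v : ℝ → ℝ), 0 < p → 0 < q → Cl p q v →
    |ip v (deriv rho)| ≤ C * √(Jn v) := by
  refine ⟨√(∫ y, Vkf_T y ^ 2 / deriv (th 4) y) + 1, by positivity, ?_⟩
  intro p q v hp hq hv
  have hF : Cl p q (fun y => deriv v y + th 4 y * v y) := Cl_add (Cl_der hv) (Cl_mul0 (Cl_th 4) hv)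
  have hW : Cl 0 0 (deriv (th 4)) := Cl_der (Cl_th 4)
  have hWp : ∀ y, 0 < deriv (th 4) y := by
    intro y
    rw [Vkf_thd]
    have := Qf_pos 4 y
    positivity
  have hF2 : Integrable (fun y => deriv (th 4) y * (deriv v y + th 4 y * v y) ^ 2) := by
    have h1 := Cl_mul0 hW (Cl_pow hF 2)
    exact Cl_int h1 (by push_cast; positivity) (by push_cast; positivity)
  have hφ2 : Integrable (fun y => Vkf_T y ^ 2 / deriv (th 4) y) := by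
    have h3 := Cl_pow' (Cl_Qf Vkf_k) (by norm_num) (by norm_num) 3 (by norm_num)
    have h7 := Cl_pow' (Cl_Qf Vkf_k) (by norm_num) (by norm_num) 7 (by norm_num)
    have h1 : Cl 1 1 (fun y => 5 / 6 * Qf 4 y ^ 3 - 3 / 50 * Qf 4 y ^ 7) :=
      Cl_sub (Cl_smul (5 / 6) h3) (Cl_smul (3 / 50) h7)
    have h2 := Cl_smul (15 / 2) (Cl_pow h1 2)
    have h4 := Cl_int h2 (by norm_num) (by norm_num)
    refine h4.congr (Eventually.of_forall fun y => ?_)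
    show 15 / 2 * (5 / 6 * Qf 4 y ^ 3 - 3 / 50 * Qf 4 y ^ 7) ^ 2 = Vkf_T y ^ 2 / deriv (th 4) y
    rw [Vkf_thd]
    have hQ : Qf 4 y ≠ 0 := (Qf_pos 4 y).ne'
    unfold Vkf_T
    rw [eq_div_iff (by positivity)]
    ring
  obtain ⟨hi, hcs⟩ := cs_wt (Cl_cont hF) (Cl_cont Vkf_ClT) (Cl_cont hW) hWp hF2 hφ2
  have hvT : Cl (p + 1) (q + 1) (fun y => v y * Vkf_T y) := Cl_mul hv Vkf_ClT
  have h0 := Cl_int_deriv hvT (by linarith) (by linarith)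
  have hd : (fun y => deriv (fun z => v z * Vkf_T z) y) =
      fun y => (deriv v y + th 4 y * v y) * Vkf_T y + v y * deriv rho y := by
    funext y
    refine ((Cl_hd hv y).mul (Cl_hd Vkf_ClT y)).deriv.trans ?_
    rw [Vkf_Td, Vkf_rhod]
    unfold Vkf_T
    ring
  have hd0 : ∫ y, ((deriv v y + th 4 y * v y) * Vkf_T y + v y * deriv rho y) = 0 := by
    rw [← hd]; exact h0
  have hrho : Cl 3 3 (deriv rho) := Cl_der rho_cl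
  have hi2 : Integrable (fun y => v y * deriv rho y) :=
    Cl_int (Cl_mul hv hrho) (by linarith) (by linarith)
  rw [integral_add hi hi2] at hd0
  have h1 : ip v (deriv rho) = -∫ y, (deriv v y + th 4 y * v y) * Vkf_T y := by
    unfold ip
    linarith
  rw [h1, abs_neg]
  refine hcs.trans ?_
  unfold Jn
  have h2 : 0 ≤ √(∫ y, deriv (th 4) y * (deriv v y + th 4 y * v y) ^ 2) := Real.sqrt_nonneg _
  nlinarith [Real.sqrt_nonneg (∫ y, Vkf_T y ^ 2 / deriv (th 4) y)]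

end H98KC

end
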