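import Pool.Agent.H98.KC.Vkd
import Pool.Agent.H98.KC.Vkf

/-!
# Vkg (MP_95be7d_S4): the `ΛQ` term of the virial functional is small (uses the statements of `Vkd`, `Vkf`)

`v = vf 4 δ ε ∈ Cl 0 0` (`Cl_vf`), `F = rh B · v ∈ Cl (1/B) (1/B)`, `N = ∫ se2 γ F²`, `v-δv'' = Lε` (`vf_L`).
First statement: `vf 4 δ ΛQ = -2 Sm δ Q` (`vf_LamQ`), `Ψ v = ψ rh F`, `ψ = t + η tanh(γy)`, `t = th 4`.
* `Sm δ Q = Q + δ (Sm δ Q)''`, `(Sm δ Q)'' = Sm δ Q''` (`Sm_eq`, `Sm_deriv`), `|Sm δ φ| ≤ C e^{-3|y|/4}` uniformly in `δ ≤ 1/16` if `|φ| ≤ C'e^{-3|y|/4}` (the kernel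
  `e^{-|z|/√δ}/(2√δ)` has `∫kernel e^{3|z|/4} = 1/(1-9δ/16)`; or use `Sm_wt` with the weight `W = e^{...}`-type `cosh`: weighted `L²` bound of `Sm δ Q''` is enough:
  `δ|∫ψ rh F Sm δ Q''| ≤ 2δ (∫ se2 γ F²)^{1/2}(∫(Sm δ Q'')²/se2 γ)^{1/2}` and `Sm_wt` with `W = cosh²(γ y)`, `δ|W''| ≤ W/4`).  So this part is `≤ Cδ√N`.
* `∫ t χ v Q = -∫χ v Q'` (`χ = ch B = rh²`), `= -(v,Q') + ∫(1-χ) v Q'`; `(v,Q')=δ(v'',Q')=δ(v,Q''')` because `(v-δv'',Q')=(Lε,Q')=(ε,LQ')=0` (`Lop_symm`, `L_Qd`);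
  `(v,Q''') = (F,Q''')+O((1/B)√N)`, `|(F,Q''')| ≤ C√N` (`cut_ip0`).  `∫(1-χ)vQ' = (v,Q')-(rh F,Q')`, and `(1-rh²)/rh ≤ 2(1-rh)/rh = 2(cosh(y/B)-1)`: as in `cut_ip0`,
  or: `(v,Q')-(F,Q')` by `cut_ip0`, and `(F,Q')-(rh F,Q') = ∫(1-rh)F Q'`, `0 ≤ 1-rh ≤ cosh(y/B)-1`, `≤ (C/B)√N` by Cauchy-Schwarz.
* `|η∫tanh(γy)χ v Q| ≤ ηγ∫|y|rh|F|Q ≤ Cηγ√N` (`|tanh x| ≤ |x|`, third part of `cut_ip0` with a smooth majorant of `|y|Q`, e.g. `(1+y²)Q`).
Second statement: `(Lε,ρ')=(v-δv'',ρ')=(v,ρ')-δ(v,ρ''')`; `(v,ρ')=(F,ρ')+O((1/B)√N)`, `|(F,ρ')| ≤ C√(Jn F)` (`pairJ`), `(v,ρ''')` by `cut_ip0`.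
-/

open MeasureTheory Filter Topology Set
open scoped ContDiff

noncomputable section

namespace H98KC

open H98KB H68KC

theorem Vkg_E2 {γ δ : ℝ} (hγ : 0 < γ) (hγ' : γ ≤ 1 / 8) (hδ : 0 < δ) (hδ' : δ ≤ 1 / 16) (y : ℝ) :
    δ * |deriv (deriv (Vcv_E γ)) y| ≤ Vcv_E γ y / 4 := by
  have e1 : deriv (Vcv_E γ) = Vcv_E1 γ := funext fun y => (Vcv_E_hd γ y).deriv
  rw [e1, (Vcv_E1_hd γ y).deriv]
  have hE := Vcv_E_pos γ y
  have h1 := Vcv_E2_le hγ y
  have h2 : 4 * γ ^ 2 ≤ 1 / 16 := by nlinarith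
  have h3 : |Vcv_E2 γ y| ≤ 1 / 16 * Vcv_E γ y := h1.trans (mul_le_mul_of_nonneg_right h2 hE.le)
  have h4 : 0 ≤ |Vcv_E2 γ y| := abs_nonneg _
  nlinarith

theorem Vkg_E_le {γ : ℝ} (hγ : 0 < γ) (hγ' : γ ≤ 1 / 8) (y : ℝ) : Vcv_E γ y ≤ Real.exp (|y| / 4) := by
  have h1 := Vcv_E_se2 γ y
  have h2 := se2_lo γ y
  have h3 : Real.exp (-(|y| / 4)) ≤ se2 γ y := by
    refine le_trans (Real.exp_le_exp.2 ?_) h2
    rw [abs_mul, abs_of_pos hγ]
    have := abs_nonneg y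
    nlinarith
  have hE := Vcv_E_pos γ y
  have h4 : Vcv_E γ y * Real.exp (-(|y| / 4)) ≤ 1 := by
    rw [← h1]
    exact mul_le_mul_of_nonneg_left h3 hE.le
  have h5 : Real.exp (-(|y| / 4)) * Real.exp (|y| / 4) = 1 := by
    rw [← Real.exp_add]
    simp
  calc Vcv_E γ y = Vcv_E γ y * Real.exp (-(|y| / 4)) * Real.exp (|y| / 4) := by
        rw [mul_assoc, h5, mul_one]
    _ ≤ 1 * Real.exp (|y| / 4) := mul_le_mul_of_nonneg_right h4 (Real.exp_pos _).le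
    _ = _ := one_mul _

theorem Vkg_dom : ∃ C : ℝ, 0 < C ∧ ∀ γ : ℝ, 0 < γ → γ ≤ 1 / 8 → ∀ B : ℝ, 16 ≤ B → ∀ v : ℝ → ℝ,
    Cl 0 0 v → ∀ (K : ℝ) (g : ℝ → ℝ), 0 ≤ K → (∀ y, |g y| ≤ K * Real.exp (-(3 / 4 * |y|))) →
    |∫ y, g y * (rh B y * v y)| ≤ K * (C * √(∫ y, se2 γ y * (rh B y * v y) ^ 2)) := by
  have hφ : Cl (3 / 4) (3 / 4) (fun y : ℝ => 1 / Real.cosh (3 / 4 * y)) := Cl_sech (by norm_num)
  obtain ⟨C, hC, h⟩ := cut_ip0 hφ
  refine ⟨C, hC, fun γ hγ hγ' B hB v hv K g hK hg => ?_⟩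
  obtain ⟨-, -, h3⟩ := h γ hγ hγ' B hB v hv
  have hB0 : 0 < B := by linarith
  have hF : Cl (1 / B) (1 / B) (fun y => rh B y * v y) := Nla_mulr (Vcv_Cl_rh hB0) hv
  have hpos : ∀ y : ℝ, 0 < 1 / Real.cosh (3 / 4 * y) := fun y => one_div_pos.2 (Real.cosh_pos _)
  have hle : ∀ y : ℝ, Real.exp (-(3 / 4 * |y|)) ≤ |1 / Real.cosh (3 / 4 * y)| := by
    intro y
    rw [abs_of_pos (hpos y), le_one_div (Real.exp_pos _) (Real.cosh_pos _), one_div, ← Real.exp_neg,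
      neg_neg]
    have h1 := Tan_cosh_le (3 / 4 * y)
    rw [abs_mul, abs_of_pos (by norm_num : (0:ℝ) < 3 / 4)] at h1
    exact h1
  have hint : Integrable (fun y => K * (|1 / Real.cosh (3 / 4 * y)| * |rh B y * v y|)) := by
    have h1 := ((Cl_int (Cl_mul hφ hF) (by positivity) (by positivity)).abs).const_mul K
    refine h1.congr (Eventually.of_forall fun y => ?_)
    show K * |1 / Real.cosh (3 / 4 * y) * (rh B y * v y)| = _
    rw [abs_mul]
  calc |∫ y, g y * (rh B y * v y)| ≤ ∫ y, |g y * (rh B y * v y)| := abs_integral_le_integral_abs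
    _ ≤ ∫ y, K * (|1 / Real.cosh (3 / 4 * y)| * |rh B y * v y|) := by
        refine integral_mono_of_nonneg (Eventually.of_forall fun y => abs_nonneg _) hint
          (Eventually.of_forall fun y => ?_)
        show |g y * (rh B y * v y)| ≤ K * (|1 / Real.cosh (3 / 4 * y)| * |rh B y * v y|)
        rw [abs_mul, ← mul_assoc]
        refine mul_le_mul_of_nonneg_right ((hg y).trans ?_) (abs_nonneg _)
        exact mul_le_mul_of_nonneg_left (hle y) hK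
    _ = K * ∫ y, |1 / Real.cosh (3 / 4 * y)| * |rh B y * v y| := integral_const_mul _ _
    _ ≤ _ := mul_le_mul_of_nonneg_left h3 hK

theorem Vkg_ibp {v φ : ℝ → ℝ} (hv : Cl 0 0 v) (hφ : Cl 1 1 φ) :
    ip (deriv (deriv v)) φ = ip v (deriv (deriv φ)) := by
  unfold ip
  rw [Cl_ibp (Cl_der hv) hφ (by norm_num) (by norm_num), Cl_ibp hv (Cl_der hφ) (by norm_num) (by norm_num),
    neg_neg]

theorem Vkg_L {δ : ℝ} (hδ : 0 < δ) (hδ' : δ ≤ 1 / 16) {ε φ : ℝ → ℝ} (hε : Cl 0 0 ε) (hφ : Cl 1 1 φ) :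
    ip (Lop 4 ε) φ = ip (vf 4 δ ε) φ - δ * ip (vf 4 δ ε) (deriv (deriv φ)) := by
  have hv : Cl 0 0 (vf 4 δ ε) := Cl_vf (by norm_num) hδ hδ' (by norm_num) (by norm_num) hε
  rw [← Vkg_ibp hv hφ]
  unfold ip
  rw [← integral_const_mul, ← integral_sub (Cl_int (Cl_mul0 hv hφ) one_pos one_pos)
    ((Cl_int (Cl_mul0 (Cl_der (Cl_der hv)) hφ) one_pos one_pos).const_mul δ)]
  refine integral_congr_ae (Eventually.of_forall fun y => ?_)
  show Lop 4 ε y * φ y = vf 4 δ ε y * φ y - δ * (deriv (deriv (vf 4 δ ε)) y * φ y)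
  rw [← vf_L (by norm_num) hδ hδ' (by norm_num) (by norm_num) hε y]
  ring

theorem Vkg_Q : Cl 1 1 (Qf 4) := Cl_Qf (by norm_num)

theorem Vkg_rho : Cl 1 1 rho := by
  have h0 : Cl 0 0 (Qf 4) := Cl_mono Vkg_Q (by norm_num) (by norm_num)
  have h1 := Cl_mul (Cl_pow0 h0 3) (Cl_pow' (Cl_der Vkg_Q) (by norm_num) (by norm_num) 2 (by norm_num))
  exact Cl_mono h1 (by norm_num) (by norm_num)

theorem Vkg_ipv {C n B x y : ℝ} (hB : 16 ≤ B) (hn : 0 ≤ n) (hC : 0 < C) (h1 : |x - y| ≤ C / B * n)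
    (h2 : |x| ≤ C * n) : |y| ≤ 2 * C * n := by
  have h3 : C / B * n ≤ C * n := by
    apply mul_le_mul_of_nonneg_right _ hn
    rw [div_le_iff₀ (by linarith)]
    nlinarith
  have h4 : |y| ≤ |x| + |x - y| := by
    have := abs_sub_abs_le_abs_sub y x
    rw [abs_sub_comm y x] at this
    linarith
  linarith

/-- the smoothed part -/
theorem Vkg_sm : ∃ K : ℝ, 0 < K ∧ ∀ γ η δ B : ℝ, 0 < γ → γ ≤ 1 / 8 → 0 < η → η ≤ 1 → 0 < δ →
    δ ≤ 1 / 16 → 16 ≤ B → ∀ v : ℝ → ℝ, Cl 0 0 v →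
    |∫ y, Psi 4 η γ B y * (v y * Sm δ (deriv (deriv (Qf 4))) y)| ≤
      K * √(∫ y, se2 γ y * (rh B y * v y) ^ 2) := by
  have hQ2 : Cl 1 1 (deriv (deriv (Qf 4))) := Cl_der (Cl_der Vkg_Q)
  obtain ⟨C2, hC2, h2⟩ := Cl_bnd hQ2
  have ib : Integrable (bd 1 1) := bd_int one_pos one_pos
  set J : ℝ := ∫ y, bd 1 1 y with hJ
  have hJ0 : 0 ≤ J := integral_nonneg fun y => (bd_pos 1 1 y).le
  refine ⟨2 * √(4 / 3 * (C2 ^ 2 * J)) + 1, by positivity, ?_⟩
  intro γ η δ B hγ hγ' hη hη' hδ hδ' hB v hv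
  have hB0 : 0 < B := by linarith
  have hS : Cl 1 1 (Sm δ (deriv (deriv (Qf 4)))) := Cl_Sm hδ hδ' (by norm_num) (by norm_num) hQ2
  set S := Sm δ (deriv (deriv (Qf 4))) with hSd
  have hF : Cl (1 / B) (1 / B) (fun y => rh B y * v y) := Nla_mulr (Vcv_Cl_rh hB0) hv
  have hse : Cl (2 * γ) (2 * γ) (se2 γ) := Cl_se2 hγ
  have hsp : ∀ y, 0 < se2 γ y := by
    intro y
    unfold se2
    have := Real.cosh_pos (γ * y)
    positivity
  have hEinv : ∀ y, Vcv_E γ y = 1 / se2 γ y := by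
    intro y
    rw [eq_div_iff (hsp y).ne']
    exact Vcv_E_se2 γ y
  have i1 : Integrable (fun y => se2 γ y * (|rh B y * v y|) ^ 2) := by
    have h := Cl_int (Cl_mul hse (Cl_mul hF hF)) (by positivity) (by positivity)
    refine h.congr (Eventually.of_forall fun y => ?_)
    show se2 γ y * (rh B y * v y * (rh B y * v y)) = se2 γ y * (|rh B y * v y|) ^ 2
    rw [sq_abs]
    ring
  have i2' : Integrable (fun y => Vcv_E γ y * (S y) ^ 2) :=
    Smb_int hS (Vcv_Cl_E hγ) (by linarith) (by linarith)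
  have i2 : Integrable (fun y => (|S y|) ^ 2 / se2 γ y) := by
    refine i2'.congr (Eventually.of_forall fun y => ?_)
    show Vcv_E γ y * (S y) ^ 2 = (|S y|) ^ 2 / se2 γ y
    rw [hEinv y, sq_abs]
    ring
  obtain ⟨-, hcs⟩ := cs_wt (F := fun y => |rh B y * v y|) (φ := fun y => |S y|) (W := se2 γ)
    (Cl_cont hF).abs (Cl_cont hS).abs (Cl_cont hse) hsp i1 i2
  have e1 : (∫ y, (|S y|) ^ 2 / se2 γ y) = ∫ y, Vcv_E γ y * (S y) ^ 2 := by
    refine integral_congr_ae (Eventually.of_forall fun y => ?_)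
    show (|S y|) ^ 2 / se2 γ y = Vcv_E γ y * (S y) ^ 2
    rw [hEinv y, sq_abs]
    ring
  have e2 : (∫ y, se2 γ y * (|rh B y * v y|) ^ 2) = ∫ y, se2 γ y * (rh B y * v y) ^ 2 := by
    simp only [sq_abs]
  have h3 := (Sm_wt hδ hδ' (p := 1) (q := 1) (by norm_num) (by norm_num) hQ2 (Vcv_Cl_E hγ)
    (Vcv_E_pos γ) (Vkg_E2 hγ hγ' hδ hδ') (by linarith) (by linarith)).1
  have h4 : (∫ y, Vcv_E γ y * (deriv (deriv (Qf 4)) y) ^ 2) ≤ C2 ^ 2 * J := by
    rw [hJ, ← integral_const_mul]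
    refine integral_mono (Smb_int hQ2 (Vcv_Cl_E hγ) (by linarith) (by linarith)) (ib.const_mul _) fun y => ?_
    show Vcv_E γ y * (deriv (deriv (Qf 4)) y) ^ 2 ≤ C2 ^ 2 * bd 1 1 y
    have h5 : (deriv (deriv (Qf 4)) y) ^ 2 ≤ (C2 * bd 1 1 y) ^ 2 := by
      rw [← sq_abs]
      exact pow_le_pow_left₀ (abs_nonneg _) (h2 y) 2
    have h6 := Vkg_E_le hγ hγ' y
    have h7 : Real.exp (|y| / 4) * bd 1 1 y ≤ 1 := by
      rw [bd_abs, ← Real.exp_add, Real.exp_le_one_iff]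
      linarith [abs_nonneg y]
    have hb := bd_pos 1 1 y
    calc Vcv_E γ y * (deriv (deriv (Qf 4)) y) ^ 2 ≤ Real.exp (|y| / 4) * (C2 * bd 1 1 y) ^ 2 :=
          mul_le_mul h6 h5 (sq_nonneg _) (Real.exp_pos _).le
      _ = C2 ^ 2 * bd 1 1 y * (Real.exp (|y| / 4) * bd 1 1 y) := by ring
      _ ≤ C2 ^ 2 * bd 1 1 y * 1 := mul_le_mul_of_nonneg_left h7 (by positivity)
      _ = _ := mul_one _
  have h8 : (∫ y, Vcv_E γ y * (S y) ^ 2) ≤ 4 / 3 * (C2 ^ 2 * J) := by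
    refine h3.trans ?_
    exact mul_le_mul_of_nonneg_left h4 (by norm_num)
  set n : ℝ := √(∫ y, se2 γ y * (rh B y * v y) ^ 2) with hn
  have hn0 : 0 ≤ n := Real.sqrt_nonneg _
  have iFS : Integrable (fun y => 2 * (|rh B y * v y| * |S y|)) := by
    have h := ((Cl_int (Cl_mul hF hS) (by positivity) (by positivity)).abs).const_mul 2
    refine h.congr (Eventually.of_forall fun y => ?_)
    show 2 * |rh B y * v y * S y| = _
    rw [abs_mul]
  have h9 : |∫ y, Psi 4 η γ B y * (v y * S y)| ≤ 2 * ∫ y, |rh B y * v y| * |S y| := by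
    rw [← integral_const_mul]
    refine abs_integral_le_integral_abs.trans ?_
    refine integral_mono_of_nonneg (Eventually.of_forall fun y => abs_nonneg _) iFS
      (Eventually.of_forall fun y => ?_)
    show |Psi 4 η γ B y * (v y * S y)| ≤ 2 * (|rh B y * v y| * |S y|)
    have e3 : Psi 4 η γ B y * (v y * S y) = psi 4 η γ y * rh B y * ((rh B y * v y) * S y) := by
      unfold Psi
      rw [Vcu_rh_sq]
      ring
    rw [e3, abs_mul, abs_mul (rh B y * v y)]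
    refine mul_le_mul_of_nonneg_right ?_ (by positivity)
    rw [abs_mul, abs_of_pos (Vcv_rh_pos B y)]
    have h10 := psi_abs (k := 4) hη.le γ y
    have h11 := Vcv_rh_le B y
    have h12 := (Vcv_rh_pos B y).le
    have h13 := abs_nonneg (psi 4 η γ y)
    (first | linarith only [h10, h11, h12, hδ, hδ', hη, hη'] | nlinarith only [h10, h11, h12, hδ, hδ', hη, hη'])
  have h10 : (∫ y, |rh B y * v y| * |S y|) ≤ √(4 / 3 * (C2 ^ 2 * J)) * n := by
    refine (le_abs_self _).trans (hcs.trans ?_)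
    rw [e1, e2]
    exact mul_le_mul_of_nonneg_right (Real.sqrt_le_sqrt h8) hn0
  calc |∫ y, Psi 4 η γ B y * (v y * S y)| ≤ 2 * (√(4 / 3 * (C2 ^ 2 * J)) * n) :=
        h9.trans (mul_le_mul_of_nonneg_left h10 (by norm_num))
    _ ≤ (2 * √(4 / 3 * (C2 ^ 2 * J)) + 1) * n := by (first | linarith only [hn0] | nlinarith only [hn0])

theorem Vkg_tanh (x : ℝ) : |Real.tanh x| ≤ |x| := by
  have key : ∀ t : ℝ, 0 ≤ t → Real.tanh t ≤ t := by
    intro t ht
    rw [Real.tanh_eq_sinh_div_cosh, div_le_iff₀ (Real.cosh_pos t)]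
    have h1 : MonotoneOn (fun t : ℝ => t * Real.cosh t - Real.sinh t) (Ici 0) := by
      apply monotoneOn_of_deriv_nonneg (convex_Ici 0)
      · exact ((continuous_id.mul Real.continuous_cosh).sub Real.continuous_sinh).continuousOn
      · exact ((differentiable_id.mul Real.differentiable_cosh).sub Real.differentiable_sinh).differentiableOn
      · intro u hu
        rw [interior_Ici, mem_Ioi] at hu
        have h2 : HasDerivAt (fun t : ℝ => t * Real.cosh t - Real.sinh t)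
            (1 * Real.cosh u + u * Real.sinh u - Real.cosh u) u :=
          ((hasDerivAt_id u).mul (Real.hasDerivAt_cosh u)).sub (Real.hasDerivAt_sinh u)
        rw [h2.deriv]
        have h3 : 0 ≤ Real.sinh u := Real.sinh_nonneg_iff.2 hu.le
        nlinarith
    have h2 := h1 (mem_Ici.2 le_rfl) (mem_Ici.2 ht) ht
    simp only [zero_mul, Real.sinh_zero, sub_zero] at h2
    linarith
  rcases le_total 0 x with h | h
  · have h0 : 0 ≤ Real.tanh x := by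
      rw [Real.tanh_eq_sinh_div_cosh]
      exact div_nonneg (Real.sinh_nonneg_iff.2 h) (Real.cosh_pos x).le
    rw [abs_of_nonneg h0, abs_of_nonneg h]
    exact key x h
  · have h0 : 0 ≤ Real.tanh (-x) := by
      rw [Real.tanh_eq_sinh_div_cosh]
      exact div_nonneg (Real.sinh_nonneg_iff.2 (by linarith)) (Real.cosh_pos _).le
    have h1 := key (-x) (by linarith)
    rw [Real.tanh_neg] at h0 h1
    rw [abs_of_nonpos (by linarith), abs_of_nonpos h]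
    exact h1

/-- the main part -/
theorem Vkg_main : ∃ K : ℝ, 0 < K ∧ ∀ γ η δ B : ℝ, 0 < γ → γ ≤ 1 / 8 → 0 < η → η ≤ 1 → 0 < δ →
    δ ≤ 1 / 16 → 16 ≤ B → ∀ ε : ℝ → ℝ, Cl 0 0 ε →
    |∫ y, Psi 4 η γ B y * (vf 4 δ ε y * Qf 4 y)| ≤
      K * (η * γ + δ + 1 / B) * √(∫ y, se2 γ y * (rh B y * vf 4 δ ε y) ^ 2) := by
  have hQ1 : Cl 1 1 (deriv (Qf 4)) := Cl_der Vkg_Q
  have hQ3 : Cl 1 1 (deriv (deriv (deriv (Qf 4)))) := Cl_der (Cl_der hQ1)
  obtain ⟨Ca, hCa, ha⟩ := cut_ip0 (Cl_mono hQ1 (by norm_num) (by norm_num) : Cl (3 / 4) (3 / 4) (deriv (Qf 4)))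
  obtain ⟨Cb, hCb, hb⟩ := cut_ip0
    (Cl_mono hQ3 (by norm_num) (by norm_num) : Cl (3 / 4) (3 / 4) (deriv (deriv (deriv (Qf 4)))))
  obtain ⟨C0, hC0, h0⟩ := Vkg_dom
  obtain ⟨C1, hC1, h1⟩ := Cl_bnd hQ1
  obtain ⟨C2, hC2, h2⟩ := Cl_bnd Vkg_Q
  refine ⟨Ca + 2 * Cb + 4 * C1 * C0 + 4 * C2 * C0, by positivity, ?_⟩
  intro γ η δ B hγ hγ' hη hη' hδ hδ' hB ε hε
  have hB0 : 0 < B := by linarith
  have hv : Cl 0 0 (vf 4 δ ε) := Cl_vf (by norm_num) hδ hδ' (by norm_num) (by norm_num) hε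
  set v := vf 4 δ ε with hvd
  set n : ℝ := √(∫ y, se2 γ y * (rh B y * v y) ^ 2) with hn
  have hn0 : 0 ≤ n := Real.sqrt_nonneg _
  obtain ⟨a1, a2, -⟩ := ha γ hγ hγ' B hB v hv
  obtain ⟨b1, b2, -⟩ := hb γ hγ hγ' B hB v hv
  have hF : Cl (1 / B) (1 / B) (fun y => rh B y * v y) := Nla_mulr (Vcv_Cl_rh hB0) hv
  -- pairing with the first derivative
  have hL : ip v (deriv (Qf 4)) = δ * ip v (deriv (deriv (deriv (Qf 4)))) := by
    have e1 := Vkg_L hδ hδ' hε hQ1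
    have e2 : ip (Lop 4 ε) (deriv (Qf 4)) = 0 := by
      rw [Lop_symm (by norm_num) hε hQ1 (by norm_num) (by norm_num)]
      have e3 : Lop 4 (deriv (Qf 4)) = fun _ => 0 := funext (fun z => L_Qd (by norm_num) z)
      rw [e3]
      unfold ip
      simp
    rw [e2] at e1
    linarith
  have hvQ3 : |ip v (deriv (deriv (deriv (Qf 4))))| ≤ 2 * Cb * n := Vkg_ipv hB hn0 hCb b1 b2
  have hFQ : |ip (fun y => rh B y * v y) (deriv (Qf 4))| ≤ Ca / B * n + δ * (2 * Cb * n) := by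
    have e1 : ip (fun y => rh B y * v y) (deriv (Qf 4)) =
        (ip (fun y => rh B y * v y) (deriv (Qf 4)) - ip v (deriv (Qf 4)))
          + δ * ip v (deriv (deriv (deriv (Qf 4)))) := by
      rw [← hL]
      ring
    rw [e1]
    refine (abs_add_le _ _).trans (add_le_add a1 ?_)
    rw [abs_mul, abs_of_pos hδ]
    exact mul_le_mul_of_nonneg_left hvQ3 hδ.le
  -- remainder
  set g : ℝ → ℝ := fun y => (1 - rh B y) * deriv (Qf 4) y
    + η * (Real.tanh (γ * y) * (rh B y * Qf 4 y)) with hg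
  have hrQ : Cl (1 / B) (1 / B) (rh B) := Vcv_Cl_rh hB0
  have hr0 : Cl 0 0 (rh B) := Cl_mono hrQ (by positivity) (by positivity)
  have hgc : Cl 1 1 g :=
    Cl_add (Cl_mul0 (Cl_sub (Cl_const 1) hr0) hQ1)
      (Cl_smul η (Cl_mul0 (Cl_tanh γ) (Cl_mul0 hr0 Vkg_Q)))
  have hgb : ∀ y, |g y| ≤ (4 * C1 / B + 4 * C2 * (η * γ)) * Real.exp (-(3 / 4 * |y|)) := by
    intro y
    have hr1 := Vcv_rh_pos B y
    have hr2 := Vcv_rh_le B y
    have hr3 : |1 - rh B y| ≤ 4 / B * Real.exp (|y| / 4) := by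
      refine le_trans ?_ (Vcv_one hB y)
      have hc := Real.one_le_cosh (y / B)
      have hc0 := Real.cosh_pos (y / B)
      rw [abs_of_nonneg (by linarith), abs_of_nonpos (by linarith)]
      have e1 : 1 - rh B y = rh B y * (Real.cosh (y / B) - 1) := by
        unfold rh
        field_simp
      rw [e1]
      (first | linarith only [e1, hr1, hr2] | nlinarith only [e1, hr1, hr2])
    have t1 : |(1 - rh B y) * deriv (Qf 4) y| ≤ 4 * C1 / B * Real.exp (-(3 / 4 * |y|)) := by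
      rw [abs_mul]
      have h3 := h1 y
      rw [bd_abs] at h3
      calc |1 - rh B y| * |deriv (Qf 4) y| ≤ (4 / B * Real.exp (|y| / 4)) * (C1 * Real.exp (-(1 * |y|))) :=
            mul_le_mul hr3 h3 (abs_nonneg _) (by positivity)
        _ = 4 * C1 / B * (Real.exp (|y| / 4) * Real.exp (-(1 * |y|))) := by ring
        _ = _ := by
            rw [← Real.exp_add]
            congr 2
            ring
    have t2 : |η * (Real.tanh (γ * y) * (rh B y * Qf 4 y))| ≤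
        4 * C2 * (η * γ) * Real.exp (-(3 / 4 * |y|)) := by
      have h3 := h2 y
      rw [bd_abs] at h3
      have h4 : |Real.tanh (γ * y)| ≤ γ * |y| := by
        have h5 := Vkg_tanh (γ * y)
        rwa [abs_mul, abs_of_pos hγ] at h5
      have h5 : |y| * Real.exp (-(|y| / 4)) ≤ 4 := by
        have h6 := Real.add_one_le_exp (|y| / 4)
        have h7 : Real.exp (-(|y| / 4)) * Real.exp (|y| / 4) = 1 := by
          rw [← Real.exp_add]
          simp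
        have h8 := Real.exp_pos (-(|y| / 4))
        (first | linarith only [h6, h7, h8, hδ, hδ'] | nlinarith only [h6, h7, h8, hδ, hδ'])
      rw [abs_mul, abs_of_pos hη, abs_mul, abs_mul, abs_of_pos hr1]
      have h6 : rh B y * |Qf 4 y| ≤ C2 * Real.exp (-(1 * |y|)) := by
        have := abs_nonneg (Qf 4 y)
        (first | linarith only [h3, hr2, hδ, hδ', this] | nlinarith only [h3, hr2, hδ, hδ', this])
      calc η * (|Real.tanh (γ * y)| * (rh B y * |Qf 4 y|)) ≤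
            η * ((γ * |y|) * (C2 * Real.exp (-(1 * |y|)))) := by
            refine mul_le_mul_of_nonneg_left ?_ hη.le
            exact mul_le_mul h4 h6 (by positivity) (by positivity)
        _ = C2 * (η * γ) * ((|y| * Real.exp (-(|y| / 4))) * Real.exp (-(3 / 4 * |y|))) := by
            have e1 : Real.exp (-(1 * |y|)) = Real.exp (-(|y| / 4)) * Real.exp (-(3 / 4 * |y|)) := by
              rw [← Real.exp_add]
              congr 1
              ring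
            rw [e1]
            ring
        _ ≤ C2 * (η * γ) * (4 * Real.exp (-(3 / 4 * |y|))) := by
            refine mul_le_mul_of_nonneg_left ?_ (by positivity)
            exact mul_le_mul_of_nonneg_right h5 (Real.exp_pos _).le
        _ = _ := by ring
    refine (abs_add_le _ _).trans ((add_le_add t1 t2).trans (le_of_eq ?_))
    ring
  have hgF := h0 γ hγ hγ' B hB v hv _ g (by positivity) hgb
  have hsplit : (∫ y, Psi 4 η γ B y * (v y * Qf 4 y)) =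
      -ip (fun y => rh B y * v y) (deriv (Qf 4)) + ∫ y, g y * (rh B y * v y) := by
    unfold ip
    rw [← integral_neg, ← integral_add]
    · refine integral_congr_ae (Eventually.of_forall fun y => ?_)
      show Psi 4 η γ B y * (v y * Qf 4 y) =
        -(rh B y * v y * deriv (Qf 4) y) + g y * (rh B y * v y)
      have e1 : deriv (Qf 4) y = -(th 4 y) * Qf 4 y := by
        rw [Qf_deriv (by norm_num)]
      simp only [hg, e1]
      unfold Psi psi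
      rw [Vcu_rh_sq]
      ring
    · exact (Cl_int (Cl_mul hF hQ1) (by positivity) (by positivity)).neg
    · exact Cl_int (Cl_mul hgc hF) (by positivity) (by positivity)
  rw [hsplit]
  refine (abs_add_le _ _).trans ?_
  rw [abs_neg]
  have hx : 0 ≤ η * γ := by positivity
  have hy : 0 ≤ 1 / B := by positivity
  have hz : Ca / B * n = Ca * (1 / B) * n := by ring
  have hw : (4 * C1 / B + 4 * C2 * (η * γ)) * (C0 * n) =
      4 * C1 * C0 * (1 / B) * n + 4 * C2 * C0 * (η * γ) * n := by ring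
  rw [hz] at hFQ
  rw [hw] at hgF
  have k1 : 0 ≤ C1 * C0 := by positivity
  have k2 : 0 ≤ C2 * C0 := by positivity
  have p1 : 0 ≤ Ca * (η * γ) * n := by positivity
  have p2 : 0 ≤ Ca * δ * n := by positivity
  have p3 : 0 ≤ Cb * (η * γ) * n := by positivity
  have p4 : 0 ≤ Cb * (1 / B) * n := by positivity
  have p5 : 0 ≤ C1 * C0 * (η * γ) * n := by positivity
  have p6 : 0 ≤ C1 * C0 * δ * n := by positivity
  have p7 : 0 ≤ C2 * C0 * δ * n := by positivity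
  have p8 : 0 ≤ C2 * C0 * (1 / B) * n := by positivity
  have e9 : (Ca + 2 * Cb + 4 * C1 * C0 + 4 * C2 * C0) * (η * γ + δ + 1 / B) * n =
      Ca * (η * γ) * n + Ca * δ * n + Ca * (1 / B) * n
      + 2 * (Cb * (η * γ) * n) + δ * (2 * Cb * n) + 2 * (Cb * (1 / B) * n)
      + 4 * (C1 * C0 * (η * γ) * n) + 4 * (C1 * C0 * δ * n) + 4 * C1 * C0 * (1 / B) * n
      + 4 * C2 * C0 * (η * γ) * n + 4 * (C2 * C0 * δ * n) + 4 * (C2 * C0 * (1 / B) * n) := by ring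
  rw [e9]
  linarith

theorem vir_ext : ∃ C : ℝ, 0 < C ∧ ∀ γ η δ B : ℝ, 0 < γ → γ ≤ 1 / 8 → 0 < η → η ≤ 1 → 0 < δ →
    δ ≤ 1 / 16 → 16 ≤ B → ∀ ε : ℝ → ℝ, Cl 0 0 ε →
    |∫ y, Psi 4 η γ B y * (vf 4 δ ε y * vf 4 δ (Lam 4 (Qf 4)) y)| ≤
      C * (η * γ + δ + 1 / B) * √(∫ y, se2 γ y * (rh B y * vf 4 δ ε y) ^ 2) ∧
    |ip (Lop 4 ε) (deriv rho)| ≤ C * (√(Jn (fun y => rh B y * vf 4 δ ε y))
      + (δ + 1 / B) * √(∫ y, se2 γ y * (rh B y * vf 4 δ ε y) ^ 2)) := by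
  obtain ⟨K1, hK1, k1⟩ := Vkg_sm
  obtain ⟨K2, hK2, k2⟩ := Vkg_main
  have hr1 : Cl 1 1 (deriv rho) := Cl_der Vkg_rho
  have hr3 : Cl 1 1 (deriv (deriv (deriv rho))) := Cl_der (Cl_der hr1)
  obtain ⟨Cc, hCc, hc⟩ := cut_ip0 (Cl_mono hr1 (by norm_num) (by norm_num) : Cl (3 / 4) (3 / 4) (deriv rho))
  obtain ⟨Cd, hCd, hd⟩ := cut_ip0
    (Cl_mono hr3 (by norm_num) (by norm_num) : Cl (3 / 4) (3 / 4) (deriv (deriv (deriv rho))))
  obtain ⟨CJ, hCJ, hJ⟩ := pairJ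
  refine ⟨2 * K1 + 2 * K2 + CJ + Cc + 2 * Cd, by positivity, ?_⟩
  intro γ η δ B hγ hγ' hη hη' hδ hδ' hB ε hε
  have hB0 : 0 < B := by linarith
  have hv : Cl 0 0 (vf 4 δ ε) := Cl_vf (by norm_num) hδ hδ' (by norm_num) (by norm_num) hε
  have h1 := k1 γ η δ B hγ hγ' hη hη' hδ hδ' hB (vf 4 δ ε) hv
  have h2 := k2 γ η δ B hγ hγ' hη hη' hδ hδ' hB ε hε
  set v := vf 4 δ ε with hvd
  set n : ℝ := √(∫ y, se2 γ y * (rh B y * v y) ^ 2) with hn
  have hn0 : 0 ≤ n := Real.sqrt_nonneg _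
  have hF : Cl (1 / B) (1 / B) (fun y => rh B y * v y) := Nla_mulr (Vcv_Cl_rh hB0) hv
  have hx : 0 ≤ η * γ := by positivity
  have hy : 0 ≤ 1 / B := by positivity
  constructor
  · have hS : Cl 1 1 (Sm δ (deriv (deriv (Qf 4)))) :=
      Cl_Sm hδ hδ' (by norm_num) (by norm_num) (Cl_der (Cl_der Vkg_Q))
    have hP : Cl (2 / B) (2 / B) (Psi 4 η γ B) := Cl_Psi 4 η γ hB0
    have e1 : ∀ y, vf 4 δ (Lam 4 (Qf 4)) y = -2 * Qf 4 y + -2 * (δ * Sm δ (deriv (deriv (Qf 4))) y) := by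
      intro y
      rw [vf_LamQ (by norm_num)]
      have e2 := Sm_eq hδ hδ' (p := 1) (q := 1) (by norm_num) (by norm_num) Vkg_Q y
      rw [Sm_deriv hδ hδ' (p := 1) (q := 1) (by norm_num) (by norm_num) Vkg_Q,
        Sm_deriv hδ hδ' (p := 1) (q := 1) (by norm_num) (by norm_num) (Cl_der Vkg_Q)] at e2
      linarith
    have i1 : Integrable (fun y => Psi 4 η γ B y * (v y * Qf 4 y)) :=
      Cl_int (Cl_mul hP (Cl_mul0 hv Vkg_Q)) (by positivity) (by positivity)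
    have i2 : Integrable (fun y => Psi 4 η γ B y * (v y * Sm δ (deriv (deriv (Qf 4))) y)) :=
      Cl_int (Cl_mul hP (Cl_mul0 hv hS)) (by positivity) (by positivity)
    have e3 : (∫ y, Psi 4 η γ B y * (v y * vf 4 δ (Lam 4 (Qf 4)) y)) =
        -2 * (∫ y, Psi 4 η γ B y * (v y * Qf 4 y))
          + -2 * δ * ∫ y, Psi 4 η γ B y * (v y * Sm δ (deriv (deriv (Qf 4))) y) := by
      rw [← integral_const_mul, ← integral_const_mul, ← integral_add (i1.const_mul _) (i2.const_mul _)]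
      refine integral_congr_ae (Eventually.of_forall fun y => ?_)
      show Psi 4 η γ B y * (v y * vf 4 δ (Lam 4 (Qf 4)) y) =
        -2 * (Psi 4 η γ B y * (v y * Qf 4 y))
          + -2 * δ * (Psi 4 η γ B y * (v y * Sm δ (deriv (deriv (Qf 4))) y))
      rw [e1]
      ring
    rw [e3]
    refine (abs_add_le _ _).trans ?_
    rw [abs_mul, abs_mul (-2 * δ), abs_mul (-2) δ, abs_of_pos hδ]
    have e4 : |(-2 : ℝ)| = 2 := by norm_num
    rw [e4]
    have h3 : 2 * |∫ y, Psi 4 η γ B y * (v y * Qf 4 y)| ≤ 2 * (K2 * (η * γ + δ + 1 / B) * n) :=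
      mul_le_mul_of_nonneg_left h2 (by norm_num)
    have h4 : 2 * δ * |∫ y, Psi 4 η γ B y * (v y * Sm δ (deriv (deriv (Qf 4))) y)| ≤
        2 * δ * (K1 * n) := mul_le_mul_of_nonneg_left h1 (by positivity)
    have q1 : 0 ≤ (2 * K1) * (η * γ + 1 / B) * n := by positivity
    have q2 : 0 ≤ (CJ + Cc + 2 * Cd) * (η * γ + δ + 1 / B) * n := by positivity
    have e5 : (2 * K1 + 2 * K2 + CJ + Cc + 2 * Cd) * (η * γ + δ + 1 / B) * n =
        2 * (K2 * (η * γ + δ + 1 / B) * n) + 2 * δ * (K1 * n) + (2 * K1) * (η * γ + 1 / B) * n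
          + (CJ + Cc + 2 * Cd) * (η * γ + δ + 1 / B) * n := by ring
    rw [e5]
    linarith
  · obtain ⟨c1, -, -⟩ := hc γ hγ hγ' B hB v hv
    obtain ⟨d1, d2, -⟩ := hd γ hγ hγ' B hB v hv
    have hj := hJ (1 / B) (1 / B) _ (by positivity) (by positivity) hF
    have hvr3 : |ip v (deriv (deriv (deriv rho)))| ≤ 2 * Cd * n := Vkg_ipv hB hn0 hCd d1 d2
    rw [Vkg_L hδ hδ' hε hr1]
    have h3 : |ip v (deriv rho)| ≤ CJ * √(Jn (fun y => rh B y * v y)) + Cc / B * n := by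
      have h4 : |ip v (deriv rho)| ≤ |ip (fun y => rh B y * v y) (deriv rho)|
          + |ip (fun y => rh B y * v y) (deriv rho) - ip v (deriv rho)| := by
        have := abs_sub_abs_le_abs_sub (ip v (deriv rho)) (ip (fun y => rh B y * v y) (deriv rho))
        rw [abs_sub_comm] at this
        linarith
      linarith
    have h5 : |ip v (deriv rho) - δ * ip v (deriv (deriv (deriv rho)))| ≤
        |ip v (deriv rho)| + δ * |ip v (deriv (deriv (deriv rho)))| := by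
      refine (abs_sub _ _).trans ?_
      rw [abs_mul, abs_of_pos hδ]
    have h6 : δ * |ip v (deriv (deriv (deriv rho)))| ≤ δ * (2 * Cd * n) :=
      mul_le_mul_of_nonneg_left hvr3 hδ.le
    refine h5.trans ?_
    have hsJ := Real.sqrt_nonneg (Jn (fun y => rh B y * v y))
    set sJ := √(Jn (fun y => rh B y * v y)) with hsJd
    have q1 : 0 ≤ (2 * K1 + 2 * K2 + Cc + 2 * Cd) * sJ := by positivity
    have q2 : 0 ≤ (2 * K1 + 2 * K2 + CJ) * ((δ + 1 / B) * n) := by positivity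
    have q3 : 0 ≤ Cc * δ * n := by positivity
    have q4 : 0 ≤ 2 * Cd * (1 / B) * n := by positivity
    have e5 : (2 * K1 + 2 * K2 + CJ + Cc + 2 * Cd) * (sJ + (δ + 1 / B) * n) =
        CJ * sJ + Cc / B * n + δ * (2 * Cd * n) + (2 * K1 + 2 * K2 + Cc + 2 * Cd) * sJ
          + (2 * K1 + 2 * K2 + CJ) * ((δ + 1 / B) * n) + Cc * δ * n + 2 * Cd * (1 / B) * n := by ring
    rw [e5]
    linarith

end H98KC

end
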