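import Pool.Agent.H98.KC.Vkb
import Pool.Agent.H98.KC.Vkc
import Pool.Agent.H98.KC.Vke
import Pool.Agent.H98.KC.Vkg

/-!
# Vkh (MP_95be7d_S4): the linear virial estimate with the `ΛQ` term (variant of `vir_lin` in `KB/Vli.lean`; uses the statements of `Vkb`..`Vkg`)

`v = vf 4 δ ε`, `F = rh B · v ∈ Cl (1/B) (1/B)`, `σ = ηγ`, `N = ∫ se2 γ (F²+F'²)`, `κ₀ = ip (ΛQ) ρ > 0` (`ip_LamQrho` of `H68/KC/PRg`), `X = β κ₀ - (Lε,ρ')`.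
As in `KB/Vli.lean`: `∫Ψ v vf(Lε)' = -Hf 4 Ψ v + ∫Ψ v Ed ≤ -Hf 4 ψ F + (C₂/B)∫χ(v²+v'²) + C₄√δ·3N` (`vir_id` with `W = Psi ∈ Cl (2/B)(2/B)`, `p = q = 0`; `vir_split`; `cut_H0`;
`Ed_le0`; `cut_loc0`) and `-Hf 4 ψ F ≤ -(σ/4)N - Jn F + C(F,G_δ)²` (`vir_coer4`), `(F,G_δ)² ≤ 2(v,G_δ)²+C/B²·∫se2 γ F²` (`cut_ip0` for `Q''` and `Q''''`),
`(v,G_δ) = (v-δv'',Q'') = (Lε,Q'') = (ε,LQ'') = 4(ε,ρ)` (`L_Qdd`, `Lop_symm`), `∫se2 γ F² = ∫loc v² ≤ ∫χ(v²+v'²)`.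
New term: `C₁` from `vir_ext`, `θ = σ+δ+1/B`.  `|β| ≤ (|X| + C₁(√Jn + (δ+1/B)√N))/κ₀`, so
`|β ∫Ψ v vf(ΛQ)| ≤ (C₁/κ₀)θ√N(|X| + C₁√Jn + C₁(δ+1/B)√N) ≤ Jn + X² + [ (1/4)(C₁²/κ₀)²θ² + (1/4)(C₁/κ₀)²θ² + (C₁²/κ₀)θ(δ+1/B) ] N`.
Choose `K ≥ 1` (before `η`) with `K ≥ 100((C₁²/κ₀)²+(C₁/κ₀)²)` and `K ≥ 400 C₁²/κ₀`; `η, δ₀` from `vir_coer4 γ K`; so `σ ≤ η ≤ 1/K`, `δ ≤ δ₀ ≤ σ/K ≤ σ`; `B₀ ≥ K/σ`, `16 ≤ B₀`:
`1/B ≤ σ/K`; `θ ≤ 3σ`: the bracket is `≤ (9/4)σ²·K/100 + 3σ(C₁²/κ₀)·2σ/K ≤ σ/16`.  `δ = min δ₀ (small)` with `3C₄√δ ≤ σ/16`.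
Total: `-(σ/4-σ/16-σ/16)N ≤ -(σ/24)∫loc(v²+v'²)` (`cut_loc0`).
-/

open MeasureTheory Filter Topology Set
open scoped ContDiff

noncomputable section

namespace H98KC

open H98KB H68KC

theorem Vkh_rh {B : ℝ} (hB : 0 < B) : Cl (1 / B) (1 / B) (rh B) := by
  have h := Cl_sech (c := 1 / B) (by positivity)
  have e : rh B = fun y => 1 / Real.cosh (1 / B * y) := by
    funext y
    unfold rh
    congr 2
    ring
  rw [e]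
  exact h

theorem Vkh_sq {p q : ℝ} {f : ℝ → ℝ} (hf : Cl p q f) : Cl (2 * p) (2 * q) (fun y => f y ^ 2) := by
  have h := Cl_pow hf 2
  exact_mod_cast h

theorem Vkh_Q2 : Cl 1 1 (deriv (deriv (Qf 4))) := Cl_der (Cl_der (Cl_Qf (by norm_num)))

theorem Vkh_Q4 : Cl 1 1 (deriv (deriv (deriv (deriv (Qf 4))))) := Cl_der (Cl_der Vkh_Q2)

/-- `(v, G_δ) = 4 (ε, ρ)` -/
theorem Vkh_ip {δ : ℝ} {ε : ℝ → ℝ} (hδ : 0 < δ) (hδ' : δ ≤ 1 / 16) (hε : Cl 0 0 ε) :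
    ip (vf 4 δ ε) (Gd4 δ) = 4 * ip ε rho := by
  have h0 : |(0 : ℝ)| ≤ 2 := by norm_num
  have hv : Cl 0 0 (vf 4 δ ε) := Cl_vf (by norm_num) hδ hδ' h0 h0 hε
  have hL : ∀ y, vf 4 δ ε y - δ * deriv (deriv (vf 4 δ ε)) y = Lop 4 ε y :=
    fun y => vf_L (by norm_num) hδ hδ' h0 h0 hε y
  set v := vf 4 δ ε with hvd
  have hQ2 := Vkh_Q2
  have hQ3 : Cl 1 1 (deriv (deriv (deriv (Qf 4)))) := Cl_der hQ2
  have hQ4 := Vkh_Q4
  rw [PRg_rho hε]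
  have hG : Cl 1 1 (Gd4 δ) := Cl_sub hQ2 (Cl_smul δ hQ4)
  have hH : Cl 1 1 (fun y => (-δ) * (v y * deriv (deriv (deriv (Qf 4))) y
      - deriv v y * deriv (deriv (Qf 4)) y)) :=
    Cl_smul (-δ) (Cl_sub (Cl_mul0 hv hQ3) (Cl_mul0 (Cl_der hv) hQ2))
  unfold ip
  refine Cl_int_eq (Cl_int (Cl_mul0 hv hG) one_pos one_pos)
    (Cl_int (Cl_mul0 (Cl_Lop (by norm_num) hε) hQ2) one_pos one_pos) hH one_pos one_pos ?_
  intro y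
  have d1 : HasDerivAt (fun y => (-δ) * (v y * deriv (deriv (deriv (Qf 4))) y
      - deriv v y * deriv (deriv (Qf 4)) y))
      ((-δ) * ((deriv v y * deriv (deriv (deriv (Qf 4))) y + v y * deriv (deriv (deriv (deriv (Qf 4)))) y)
      - (deriv (deriv v) y * deriv (deriv (Qf 4)) y + deriv v y * deriv (deriv (deriv (Qf 4))) y))) y :=
    (((Cl_hd hv y).mul (Cl_hd hQ3 y)).sub ((Cl_hd (Cl_der hv) y).mul (Cl_hd hQ2 y))).const_mul (-δ)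
  rw [d1.deriv, ← hL y]
  unfold Gd4
  ring

theorem Vkh_num1 {κ C₁ K σ δ b θ a : ℝ} (hκ : 0 < κ) (hC₁ : 0 < C₁)
    (hK1 : 100 * ((C₁ ^ 2 / κ) ^ 2 + (C₁ / κ) ^ 2) ≤ K) (hK2 : 400 * (C₁ ^ 2 / κ) ≤ K) (hK : 1 ≤ K)
    (hσ : 0 < σ) (hσK : 8 * (K * σ) ≤ 1) (hδ : 0 ≤ δ) (hδK : K * δ ≤ σ) (hb : 0 ≤ b) (hbK : K * b ≤ σ)
    (hθ : θ = σ + δ + b) (ha : a = C₁ * θ / κ) :
    a ^ 2 / 4 + (a * C₁) ^ 2 / 4 + a * C₁ * (δ + b) ≤ σ / 16 := by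
  have hK0 : 0 < K := by linarith
  have hδσ : δ ≤ σ := by nlinarith
  have hbσ : b ≤ σ := by nlinarith
  have hθ0 : 0 ≤ θ := by rw [hθ]; linarith
  have hθ3 : θ ≤ 3 * σ := by rw [hθ]; linarith
  set u := C₁ / κ with hu
  set w := C₁ ^ 2 / κ with hw
  have hu0 : 0 < u := by positivity
  have hw0 : 0 < w := by positivity
  have e1 : a = u * θ := by rw [ha, hu]; ring
  have e2 : a * C₁ = w * θ := by rw [ha, hw]; field_simp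
  have hθ2 : θ ^ 2 ≤ 9 * σ ^ 2 := by nlinarith
  have f1 : a ^ 2 / 4 + (a * C₁) ^ 2 / 4 = (u ^ 2 + w ^ 2) * θ ^ 2 / 4 := by
    rw [e2, e1]; ring
  have f2 : (u ^ 2 + w ^ 2) * θ ^ 2 ≤ K / 100 * (9 * σ ^ 2) := by
    apply mul_le_mul (by linarith) hθ2 (by positivity) (by positivity)
  have f3 : K / 100 * (9 * σ ^ 2) ≤ 9 / 800 * σ := by nlinarith
  have f4 : a * C₁ * (δ + b) ≤ w * (3 * σ) * (δ + b) := by
    rw [e2]
    apply mul_le_mul_of_nonneg_right _ (by linarith)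
    exact mul_le_mul_of_nonneg_left hθ3 hw0.le
  have f5 : w * (δ + b) ≤ σ / 200 := by
    have h1 : w ≤ K / 400 := by linarith
    have h2 : w * (δ + b) ≤ K / 400 * (δ + b) := mul_le_mul_of_nonneg_right h1 (by linarith)
    nlinarith
  have hσ8 : 8 * σ ≤ 1 := by nlinarith
  have f6 : w * (3 * σ) * (δ + b) ≤ σ / 200 * (3 * σ) := by
    calc w * (3 * σ) * (δ + b) = w * (δ + b) * (3 * σ) := by ring
      _ ≤ σ / 200 * (3 * σ) := mul_le_mul_of_nonneg_right f5 (by positivity)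
  have f7 : σ / 200 * (3 * σ) ≤ 3 / 1600 * σ := by nlinarith
  rw [f1]
  linarith

theorem Vkh_num2 {κ C₁ θ d β x T n j r : ℝ} (hκ : 0 < κ) (hC₁ : 0 < C₁) (hθ : 0 ≤ θ) (hd : 0 ≤ d)
    (hn : 0 ≤ n) (hj : 0 ≤ j) (hT : |T| ≤ C₁ * θ * n) (hr : |r| ≤ C₁ * (j + d * n))
    (hx : x = β * κ - r) :
    β * T ≤ j ^ 2 + x ^ 2 + ((C₁ * θ / κ) ^ 2 / 4 + (C₁ * θ / κ * C₁) ^ 2 / 4 + C₁ * θ / κ * C₁ * d) * n ^ 2 := by
  have h1 : |β| * κ ≤ |x| + C₁ * (j + d * n) := by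
    have e : β * κ = x + r := by rw [hx]; ring
    have h2 : |β * κ| ≤ |x| + |r| := by rw [e]; exact abs_add_le _ _
    rw [abs_mul, abs_of_pos hκ] at h2
    linarith
  have h2 : |β| ≤ (|x| + C₁ * (j + d * n)) / κ := by
    rw [le_div_iff₀ hκ]; exact h1
  have h3 : β * T ≤ |β| * |T| := by
    rw [← abs_mul]; exact le_abs_self _
  have h4 : |β| * |T| ≤ (|x| + C₁ * (j + d * n)) / κ * (C₁ * θ * n) :=
    mul_le_mul h2 hT (abs_nonneg _) (by positivity)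
  set a := C₁ * θ / κ with ha
  have h5 : (|x| + C₁ * (j + d * n)) / κ * (C₁ * θ * n) = a * n * |x| + a * C₁ * n * j + a * C₁ * d * n ^ 2 := by
    rw [ha]; field_simp; ring
  have h6 : a * n * |x| ≤ x ^ 2 + a ^ 2 / 4 * n ^ 2 := by
    have := sq_nonneg (|x| - a * n / 2)
    have e := sq_abs x
    nlinarith
  have h7 : a * C₁ * n * j ≤ j ^ 2 + (a * C₁) ^ 2 / 4 * n ^ 2 := by
    nlinarith [sq_nonneg (j - a * C₁ * n / 2)]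
  nlinarith

theorem Vkh_sq2 (a b : ℝ) : a ^ 2 ≤ 2 * b ^ 2 + 2 * (a - b) ^ 2 := by
  nlinarith [sq_nonneg (2 * b - a)]

theorem Vkh_thpos (y : ℝ) : 0 ≤ deriv (th 4) y := by
  rw [(th_hd 4 y).deriv]
  have h := (abs_lt.1 (th_abs_lt 4 y))
  push_cast
  nlinarith [h.1, h.2]

theorem vir_lin4 (γ : ℝ) (hγ : 0 < γ) (hγ' : γ ≤ 1 / 8) :
    ∃ η δ c₀ C B₀ : ℝ, 0 < η ∧ η ≤ 1 ∧ 0 < δ ∧ δ ≤ 1 / 16 ∧ 0 < c₀ ∧ 0 < C ∧ 16 ≤ B₀ ∧
    ∀ B : ℝ, B₀ ≤ B → ∀ ε : ℝ → ℝ, Cl 0 0 ε → ∀ β : ℝ,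
    (∫ y, Psi 4 η γ B y * (vf 4 δ ε y * vf 4 δ (deriv (Lop 4 ε)) y))
      + β * (∫ y, Psi 4 η γ B y * (vf 4 δ ε y * vf 4 δ (Lam 4 (Qf 4)) y)) ≤
      -c₀ * (∫ y, loc γ B y * ((vf 4 δ ε y) ^ 2 + (deriv (vf 4 δ ε) y) ^ 2))
        + C / B * (∫ y, ch B y * ((vf 4 δ ε y) ^ 2 + (deriv (vf 4 δ ε) y) ^ 2))
        + C * (ip ε rho) ^ 2
        + C * (β * ip (Lam 4 (Qf 4)) rho - ip (Lop 4 ε) (deriv rho)) ^ 2 := by
  obtain ⟨κ, hκd⟩ : ∃ κ, κ = ip (Lam 4 (Qf 4)) rho := ⟨_, rfl⟩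
  have hκ : 0 < κ := by
    rw [hκd, ip_LamQrho]
    have := Qd2_pos (k := 4) (by norm_num)
    linarith
  obtain ⟨C₁, hC₁, hext⟩ := vir_ext
  obtain ⟨K, hKd⟩ : ∃ K, K = 1 + 100 * ((C₁ ^ 2 / κ) ^ 2 + (C₁ / κ) ^ 2) + 400 * (C₁ ^ 2 / κ) := ⟨_, rfl⟩
  have hw0 : 0 < C₁ ^ 2 / κ := by positivity
  have hu0 : 0 < C₁ / κ := by positivity
  have hK : 1 ≤ K := by rw [hKd]; nlinarith [sq_nonneg (C₁ ^ 2 / κ), sq_nonneg (C₁ / κ)]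
  have hK1 : 100 * ((C₁ ^ 2 / κ) ^ 2 + (C₁ / κ) ^ 2) ≤ K := by rw [hKd]; linarith
  have hK2 : 400 * (C₁ ^ 2 / κ) ≤ K := by
    rw [hKd]; nlinarith [sq_nonneg (C₁ ^ 2 / κ), sq_nonneg (C₁ / κ)]
  obtain ⟨η, δ₀, Cc, hη, hKη, hδ₀, hδ₀', hKδ, hCc, hcoer⟩ := vir_coer4 γ hγ hγ' K hK
  have hη1 : η ≤ 1 := by nlinarith
  obtain ⟨σ, hσd⟩ : ∃ σ, σ = η * γ := ⟨_, rfl⟩
  have hσ : 0 < σ := by rw [hσd]; positivity
  have hσK : 8 * (K * σ) ≤ 1 := by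
    rw [hσd]
    have : K * η * γ ≤ 1 * (1 / 8) := mul_le_mul hKη hγ' hγ.le zero_le_one
    linarith
  obtain ⟨C₂, hC₂, hcut⟩ := cut_H0 η γ
  obtain ⟨C₄, hC₄, hEd⟩ := Ed_le0 η γ hγ hγ'
  obtain ⟨C₅, hC₅, hip5⟩ := cut_ip0 (Cl_mono Vkh_Q2 (by norm_num) (by norm_num))
  obtain ⟨C₆, hC₆, hip6⟩ := cut_ip0 (Cl_mono Vkh_Q4 (by norm_num) (by norm_num))
  obtain ⟨r, hrd⟩ : ∃ r, r = σ / (48 * C₄) := ⟨_, rfl⟩
  have hr0 : 0 < r := by rw [hrd]; positivity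
  obtain ⟨δ, hδd⟩ : ∃ δ, δ = min δ₀ (r ^ 2) := ⟨_, rfl⟩
  have hδ : 0 < δ := by rw [hδd]; exact lt_min hδ₀ (by positivity)
  have hδδ₀ : δ ≤ δ₀ := by rw [hδd]; exact min_le_left _ _
  have hδ' : δ ≤ 1 / 16 := hδδ₀.trans hδ₀'
  have hsq : √δ ≤ r := by
    have h1 : √δ ≤ √(r ^ 2) := Real.sqrt_le_sqrt (by rw [hδd]; exact min_le_right _ _)
    rwa [Real.sqrt_sq hr0.le] at h1
  have hC4r : C₄ * √δ ≤ σ / 48 := by
    have h1 : C₄ * √δ ≤ C₄ * r := mul_le_mul_of_nonneg_left hsq hC₄.le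
    have h2 : C₄ * r = σ / 48 := by
      rw [hrd]
      field_simp
    linarith
  have hKδ' : K * δ ≤ σ := by
    rw [hσd]
    exact (mul_le_mul_of_nonneg_left hδδ₀ (by linarith)).trans hKδ
  refine ⟨η, δ, σ / 24, C₂ + 2 * Cc * (C₅ + C₆) ^ 2 + 32 * Cc + 1, max 16 (K / σ), hη, hη1, hδ, hδ',
    by positivity, by positivity, le_max_left _ _, ?_⟩
  intro B hB ε hε β
  have hB16 : 16 ≤ B := (le_max_left _ _).trans hB
  have hBK : K / σ ≤ B := (le_max_right _ _).trans hB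
  have hB0 : 0 < B := by linarith
  have hBb : K * (1 / B) ≤ σ := by
    rw [div_le_iff₀ hσ] at hBK
    rw [mul_one_div, div_le_iff₀ hB0]
    linarith
  have h0 : |(0 : ℝ)| ≤ 2 := by norm_num
  have hv : Cl 0 0 (vf 4 δ ε) := Cl_vf (by norm_num) hδ hδ' h0 h0 hε
  have e6 := Vkh_ip hδ hδ' hε
  obtain ⟨eT, eR⟩ := hext γ η δ B hγ hγ' hη hη1 hδ hδ' hB16 ε hε
  have hsp := fun y => vir_split (k := 4) (by norm_num) hδ hδ' h0 h0 hε y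
  set v := vf 4 δ ε with hvd
  have h1B : 0 < 1 / B := by positivity
  have h2B : 0 < 2 / B := by positivity
  have hPsi : Cl (2 / B) (2 / B) (Psi 4 η γ B) := Cl_Psi 4 η γ hB0
  have hrh : Cl (1 / B) (1 / B) (rh B) := Vkh_rh hB0
  set F := fun y => rh B y * v y with hF
  have hFC : Cl (1 / B) (1 / B) F := by
    have h := Cl_mul hrh hv
    simpa only [add_zero] using h
  -- splitting
  have hI1 : Integrable (fun y => Psi 4 η γ B y * (v y * Lop 4 (deriv v) y)) :=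
    Cl_int (Cl_mul hPsi (Cl_mul0 hv (Cl_Lop (by norm_num) (Cl_der hv)))) (by linarith) (by linarith)
  have hI2 : Integrable (fun y => Psi 4 η γ B y * (v y * Ed 4 δ v y)) :=
    Cl_int (Cl_mul hPsi (Cl_mul0 hv (Cl_Ed (by norm_num) hδ hδ' h0 h0 hv))) (by linarith) (by linarith)
  have hsplit : ∫ y, Psi 4 η γ B y * (v y * vf 4 δ (deriv (Lop 4 ε)) y) =
      -Hf 4 (Psi 4 η γ B) v + ∫ y, Psi 4 η γ B y * (v y * Ed 4 δ v y) := by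
    rw [← vir_id (by norm_num) hPsi hv (by linarith) (by linarith), ← integral_add hI1 hI2]
    congr 1
    funext y
    rw [hsp y]
    ring
  have e1 := hcut B hB16 v hv
  have e2 := hcoer δ hδ hδδ₀ (1 / B) (1 / B) F h1B h1B hFC
  have e3 := (hip5 γ hγ hγ' B hB16 v hv).1
  have e3' := (hip6 γ hγ hγ' B hB16 v hv).1
  have e4 := hEd B hB16 δ hδ hδ' v hv
  have e5 := cut_loc0 hγ hB16 hv
  obtain ⟨M, hMd⟩ : ∃ M, M = ∫ y, se2 γ y * (rh B y * v y) ^ 2 := ⟨_, rfl⟩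
  obtain ⟨A, hAd⟩ : ∃ A, A = ∫ y, loc γ B y * ((v y) ^ 2 + (deriv v y) ^ 2) := ⟨_, rfl⟩
  obtain ⟨Y, hYd⟩ : ∃ Y, Y = ∫ y, ch B y * ((v y) ^ 2 + (deriv v y) ^ 2) := ⟨_, rfl⟩
  obtain ⟨N, hNd⟩ : ∃ N, N = ∫ y, se2 γ y * ((F y) ^ 2 + (deriv F y) ^ 2) := ⟨_, rfl⟩
  obtain ⟨T, hTd⟩ : ∃ T, T = ∫ y, Psi 4 η γ B y * (v y * vf 4 δ (Lam 4 (Qf 4)) y) := ⟨_, rfl⟩
  obtain ⟨R, hRd⟩ : ∃ R, R = ip (Lop 4 ε) (deriv rho) := ⟨_, rfl⟩
  obtain ⟨J, hJd⟩ : ∃ J, J = Jn F := ⟨_, rfl⟩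
  have hchpos : ∀ y, 0 ≤ ch B y := fun y => by unfold ch; positivity
  have hA0 : 0 ≤ A := by
    rw [hAd]; exact integral_nonneg fun y => mul_nonneg (loc_pos γ B y).le (by positivity)
  have hY0 : 0 ≤ Y := by
    rw [hYd]; exact integral_nonneg fun y => mul_nonneg (hchpos y) (by positivity)
  have hN0 : 0 ≤ N := by
    rw [hNd]; exact integral_nonneg fun y => mul_nonneg (se2_pos γ y).le (by positivity)
  have hM0 : 0 ≤ M := by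
    rw [hMd]; exact integral_nonneg fun y => mul_nonneg (se2_pos γ y).le (sq_nonneg _)
  have hJ0 : 0 ≤ J := by
    rw [hJd]
    unfold Jn
    refine integral_nonneg fun y => mul_nonneg ?_ (sq_nonneg _)
    exact Vkh_thpos y
  have hrhsq : ∀ y, rh B y ^ 2 = ch B y := fun y => rfl
  have hse : Cl (2 * γ) (2 * γ) (se2 γ) := Cl_se2 hγ
  have iM : Integrable (fun y => se2 γ y * (rh B y * v y) ^ 2) := by
    have h := Cl_int (Cl_mul hse (Vkh_sq hFC)) (by positivity) (by positivity)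
    exact h
  have hMN : M ≤ N := by
    rw [hMd, hNd]
    have iN : Integrable (fun y => se2 γ y * ((F y) ^ 2 + (deriv F y) ^ 2)) :=
      Cl_int (Cl_mul hse (Cl_add (Vkh_sq hFC) (Vkh_sq (Cl_der hFC)))) (by positivity) (by positivity)
    refine integral_mono iM iN fun y => ?_
    show se2 γ y * (F y) ^ 2 ≤ se2 γ y * ((F y) ^ 2 + (deriv F y) ^ 2)
    exact mul_le_mul_of_nonneg_left (le_add_of_nonneg_right (sq_nonneg _)) (se2_pos γ y).le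
  have hMY : M ≤ Y := by
    rw [hMd, hYd]
    have hv2 : Cl 0 0 (fun y => v y ^ 2) := by
      have h := Vkh_sq hv
      simpa only [mul_zero] using h
    have hd2 : Cl 0 0 (fun y => deriv v y ^ 2) := by
      have h := Vkh_sq (Cl_der hv)
      simpa only [mul_zero] using h
    have i2 : Integrable (fun y => ch B y * ((v y) ^ 2 + (deriv v y) ^ 2)) := by
      have h := Cl_mul (Cl_ch hB0) (Cl_add hv2 hd2)
      exact Cl_int h (by linarith) (by linarith)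
    refine integral_mono iM i2 fun y => ?_
    show se2 γ y * (rh B y * v y) ^ 2 ≤ ch B y * ((v y) ^ 2 + (deriv v y) ^ 2)
    rw [mul_pow, hrhsq]
    have h1 : 0 ≤ ch B y * v y ^ 2 := mul_nonneg (hchpos y) (sq_nonneg _)
    have h2 : 0 ≤ ch B y * deriv v y ^ 2 := mul_nonneg (hchpos y) (sq_nonneg _)
    have h3 : se2 γ y * (ch B y * v y ^ 2) ≤ 1 * (ch B y * v y ^ 2) :=
      mul_le_mul_of_nonneg_right (se2_le_one γ y) h1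
    linarith
  -- the square of the pairing
  have hipF : ip F (Gd4 δ) = ip F (deriv (deriv (Qf 4))) - δ * ip F (deriv (deriv (deriv (deriv (Qf 4))))) := by
    unfold ip Gd4
    rw [← integral_const_mul, ← integral_sub]
    · congr 1
      funext y
      ring
    · exact Cl_int (Cl_mul hFC Vkh_Q2) (by linarith) (by linarith)
    · exact (Cl_int (Cl_mul hFC Vkh_Q4) (by linarith) (by linarith)).const_mul δ
  have hipv : ip v (Gd4 δ) = ip v (deriv (deriv (Qf 4))) - δ * ip v (deriv (deriv (deriv (deriv (Qf 4))))) := by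
    unfold ip Gd4
    rw [← integral_const_mul, ← integral_sub]
    · congr 1
      funext y
      ring
    · exact Cl_int (Cl_mul0 hv Vkh_Q2) (by linarith) (by linarith)
    · exact (Cl_int (Cl_mul0 hv Vkh_Q4) (by linarith) (by linarith)).const_mul δ
  rw [← hMd] at e3 e3' eT eR
  have hdiff : |ip F (Gd4 δ) - ip v (Gd4 δ)| ≤ (C₅ + C₆) / B * √M := by
    have e : ip F (Gd4 δ) - ip v (Gd4 δ) = (ip F (deriv (deriv (Qf 4))) - ip v (deriv (deriv (Qf 4))))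
        - δ * (ip F (deriv (deriv (deriv (deriv (Qf 4))))) - ip v (deriv (deriv (deriv (deriv (Qf 4)))))) := by
      rw [hipF, hipv]; ring
    rw [e]
    refine (abs_sub _ _).trans ?_
    rw [abs_mul, abs_of_pos hδ]
    have h1 : δ * |ip F (deriv (deriv (deriv (deriv (Qf 4))))) - ip v (deriv (deriv (deriv (deriv (Qf 4)))))| ≤
        1 * (C₆ / B * √M) := mul_le_mul (by linarith) e3' (abs_nonneg _) zero_le_one
    have h2 : (C₅ + C₆) / B * √M = C₅ / B * √M + C₆ / B * √M := by ring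
    rw [h2]
    linarith
  have e8 : (ip F (Gd4 δ)) ^ 2 ≤ 32 * (ip ε rho) ^ 2 + 2 * ((C₅ + C₆) ^ 2 / B * Y) := by
    have h1 : (ip F (Gd4 δ) - ip v (Gd4 δ)) ^ 2 ≤ ((C₅ + C₆) / B) ^ 2 * M := by
      have h2 : |ip F (Gd4 δ) - ip v (Gd4 δ)| ^ 2 ≤ ((C₅ + C₆) / B * √M) ^ 2 :=
        pow_le_pow_left₀ (abs_nonneg _) hdiff 2
      rw [sq_abs, mul_pow, Real.sq_sqrt hM0] at h2
      exact h2
    have h3 : ((C₅ + C₆) / B) ^ 2 * M ≤ (C₅ + C₆) ^ 2 / B * Y := by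
      apply mul_le_mul _ hMY hM0 (by positivity)
      rw [div_pow]
      exact div_le_div_of_nonneg_left (by positivity) hB0 (le_self_pow₀ (by linarith) (by norm_num))
    have h4 : (ip F (Gd4 δ)) ^ 2 ≤ 2 * (ip v (Gd4 δ)) ^ 2 + 2 * (ip F (Gd4 δ) - ip v (Gd4 δ)) ^ 2 :=
      Vkh_sq2 _ _
    rw [e6] at h4
    rw [e6] at h1
    have h5 : 2 * (4 * ip ε rho) ^ 2 = 32 * (ip ε rho) ^ 2 := by ring
    rw [h5] at h4
    linarith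
  -- the term with `β`
  have e9 := Vkh_num2 (κ := κ) (C₁ := C₁) (θ := η * γ + δ + 1 / B) (d := δ + 1 / B) (β := β)
    (x := β * κ - R) (T := T) (n := √M) (j := √J) (r := R) hκ hC₁ (by positivity) (by positivity)
    (Real.sqrt_nonneg _) (Real.sqrt_nonneg _) (by rw [hTd]; exact eT) (by rw [hRd, hJd]; exact eR) rfl
  rw [Real.sq_sqrt hJ0, Real.sq_sqrt hM0] at e9
  have e10 := Vkh_num1 (κ := κ) (C₁ := C₁) (K := K) (σ := σ) (δ := δ) (b := 1 / B)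
    (θ := η * γ + δ + 1 / B) (a := C₁ * (η * γ + δ + 1 / B) / κ) hκ hC₁ hK1 hK2 hK hσ hσK hδ.le hKδ'
    h1B.le hBb (by rw [hσd]) rfl
  have e11 := mul_le_mul e10 hMN hM0 (by positivity)
  rw [hsplit, ← hTd, ← hAd, ← hYd, ← hκd, ← hRd]
  rw [← hYd] at e1
  rw [← hNd, ← hJd, ← hσd] at e2
  rw [← hAd] at e4 e5
  have e5' : A ≤ 3 * N := by rw [hNd]; exact e5
  have e1' := (abs_le.1 e1).1
  have e4' := (abs_le.1 e4).2
  have e12 : C₄ * √δ * A ≤ σ / 48 * A := mul_le_mul_of_nonneg_right hC4r hA0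
  have e13 : σ / 48 * A ≤ σ / 16 * N := by
    have := mul_le_mul_of_nonneg_left e5' (show 0 ≤ σ / 48 by positivity)
    linarith
  have e14 : σ / 24 * A ≤ σ / 8 * N := by
    have := mul_le_mul_of_nonneg_left e5' (show 0 ≤ σ / 24 by positivity)
    linarith
  have e15 : Cc * (ip F (Gd4 δ)) ^ 2 ≤ Cc * (32 * (ip ε rho) ^ 2 + 2 * ((C₅ + C₆) ^ 2 / B * Y)) :=
    mul_le_mul_of_nonneg_left e8 hCc.le
  have hfin : -(σ / 24) * A + (C₂ + 2 * Cc * (C₅ + C₆) ^ 2 + 32 * Cc + 1) / B * Y +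
      (C₂ + 2 * Cc * (C₅ + C₆) ^ 2 + 32 * Cc + 1) * (ip ε rho) ^ 2 +
      (C₂ + 2 * Cc * (C₅ + C₆) ^ 2 + 32 * Cc + 1) * (β * κ - R) ^ 2 =
      -(σ / 24) * A + C₂ / B * Y + Cc * (2 * ((C₅ + C₆) ^ 2 / B * Y)) + (32 * Cc + 1) / B * Y +
      (C₂ + 2 * Cc * (C₅ + C₆) ^ 2 + 1) * (ip ε rho) ^ 2 + Cc * (32 * (ip ε rho) ^ 2)
      + (C₂ + 2 * Cc * (C₅ + C₆) ^ 2 + 32 * Cc) * (β * κ - R) ^ 2 + (β * κ - R) ^ 2 := by ring
  rw [hfin]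
  have p1 : 0 ≤ (32 * Cc + 1) / B * Y := by positivity
  have p2 : 0 ≤ (C₂ + 2 * Cc * (C₅ + C₆) ^ 2 + 1) * (ip ε rho) ^ 2 := by positivity
  have p3 : 0 ≤ (C₂ + 2 * Cc * (C₅ + C₆) ^ 2 + 32 * Cc) * (β * κ - R) ^ 2 := by positivity
  have e1'' : -Hf 4 (Psi 4 η γ B) v ≤ -Hf 4 (psi 4 η γ) F + C₂ / B * Y := by linarith
  linarith

end H98KC

end
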