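import Pool.Agent.H98.KC.Base
import Pool.Agent.H98.KB.Vie

/-!
# Vki (MP_95be7d_S4): generic forcing in the virial functional

`|Ψ| ≤ (1+η)ch B ≤ 2 ch B` (`psi_abs`).  Cauchy-Schwarz: `|∫Ψ v u| ≤ 2(∫ch v²)^{1/2}(∫ch u²)^{1/2}` with `v = vf 4 δ ε`, `u = vf 4 δ S`;
`vf_wt0` (KB/Smb) with `W = ch B ∈ Cl (2/B) (2/B)`: `∫ch (vf ε)² ≤ C∫ch ε²` (`p = q = 0`), `∫ch (vf S)² ≤ C∫ch S²` (`p = q = -1/(2B)`, `2p+2/B > 0`);
`δ|ch''| ≤ ch/4` (`ch2_le`: `|ch''| ≤ (8/B²)ch`).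
-/

open MeasureTheory Filter Topology Set
open scoped ContDiff

noncomputable section

namespace H98KC

open H98KB H68KC

private lemma Vki_int {a b c d : ℝ} {W f : ℝ → ℝ} (hW : Cl c d W) (hf : Cl a b f)
    (h1 : 0 < 2 * a + c) (h2 : 0 < 2 * b + d) : Integrable (fun y => W y * (f y) ^ 2) := by
  refine Cl_int (Cl_mul hW (Cl_pow hf 2)) ?_ ?_
  · push_cast
    linarith
  · push_cast
    linarith

private lemma Vki_chpos (B y : ℝ) : 0 < ch B y := by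
  rw [ch_eq']
  exact se2_pos _ _

private lemma Vki_ch2 {δ B : ℝ} (hδ : 0 < δ) (hδ' : δ ≤ 1 / 16) (hB : 16 ≤ B) (y : ℝ) :
    δ * |deriv (deriv (ch B)) y| ≤ ch B y / 4 := by
  have h1 := ch2_le (B := B) (by linarith) y
  have h2 : 0 < ch B y := Vki_chpos B y
  have h3 : 8 / B ^ 2 ≤ 1 := by
    rw [div_le_one (by positivity)]
    nlinarith
  have h4 : |deriv (deriv (ch B)) y| ≤ ch B y :=
    h1.trans (by nlinarith)
  have h5 := mul_le_mul hδ' h4 (abs_nonneg _) (by norm_num)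
  linarith

theorem VF0 (γ η δ : ℝ) (hη : 0 < η) (hη' : η ≤ 1) (hδ : 0 < δ) (hδ' : δ ≤ 1 / 16) :
    ∃ C : ℝ, 0 < C ∧ ∀ B : ℝ, 16 ≤ B → ∀ ε S : ℝ → ℝ, Cl 0 0 ε →
    Cl (-(1 / (2 * B))) (-(1 / (2 * B))) S →
    |∫ y, Psi 4 η γ B y * (vf 4 δ ε y * vf 4 δ S y)| ≤
      C * √(∫ y, ch B y * (ε y) ^ 2) * √(∫ y, ch B y * (S y) ^ 2) := by
  have hk1 : 1 ≤ 4 := by norm_num
  obtain ⟨Cv, hCv0, hCv⟩ := vf_wt0 4 hk1 δ hδ hδ'
  refine ⟨(1 + η) * Cv, by positivity, ?_⟩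
  intro B hB ε S hε hS
  have hB0 : 0 < B := by linarith
  have h00 : |(0 : ℝ)| ≤ 2 := by rw [abs_zero]; norm_num
  have h1B : 0 < 1 / (2 * B) := by positivity
  have h1B' : 1 / (2 * B) ≤ 1 := by
    rw [div_le_one (by linarith)]
    linarith
  have hpS : |(-(1 / (2 * B)) : ℝ)| ≤ 2 := by
    rw [abs_neg, abs_of_pos h1B]
    linarith
  have h2B : 2 / B = 4 * (1 / (2 * B)) := by
    field_simp
    norm_num
  have w1 : 0 < 2 * (0 : ℝ) + 2 / B := by rw [h2B]; linarith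
  have w2 : 0 < 2 * (-(1 / (2 * B))) + 2 / B := by rw [h2B]; linarith
  have hχ := Cl_ch hB0
  have hchw := Vki_ch2 hδ hδ' hB
  obtain ⟨v, hv⟩ : ∃ v, v = vf 4 δ ε := ⟨_, rfl⟩
  obtain ⟨u, hu⟩ : ∃ u, u = vf 4 δ S := ⟨_, rfl⟩
  have hvC : Cl 0 0 v := by rw [hv]; exact Cl_vf hk1 hδ hδ' h00 h00 hε
  have huC : Cl (-(1 / (2 * B))) (-(1 / (2 * B))) u := by
    rw [hu]; exact Cl_vf hk1 hδ hδ' hpS hpS hS
  have iv := Vki_int hχ hvC w1 w1
  have iu := Vki_int hχ huC w2 w2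
  have e1 : ∫ y, ch B y * (v y) ^ 2 ≤ Cv * ∫ y, ch B y * (ε y) ^ 2 := by
    rw [hv]
    exact hCv 0 0 (2 / B) (2 / B) ε (ch B) h00 h00 hε hχ (Vki_chpos B) hchw w1 w1
  have e2 : ∫ y, ch B y * (u y) ^ 2 ≤ Cv * ∫ y, ch B y * (S y) ^ 2 := by
    rw [hu]
    exact hCv _ _ (2 / B) (2 / B) S (ch B) hpS hpS hS hχ (Vki_chpos B) hchw w2 w2
  have hρ : Continuous (fun y : ℝ => 1 / Real.cosh (y / B)) := by
    apply Continuous.div continuous_const (Real.continuous_cosh.comp (continuous_id.div_const B))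
    intro y
    exact (Real.cosh_pos _).ne'
  have hρ2 : ∀ y, (1 / Real.cosh (y / B)) ^ 2 = ch B y := fun y => rfl
  have hψc : Continuous (psi 4 η γ) := Cl_cont (Cl_psi 4 η γ)
  have a1 : (fun y => (1 / Real.cosh (y / B) * v y) ^ 2) = fun y => ch B y * (v y) ^ 2 := by
    funext y
    rw [mul_pow, hρ2]
  have a2 : (fun y => (psi 4 η γ y * (1 / Real.cosh (y / B) * u y)) ^ 2) =
      fun y => (psi 4 η γ y) ^ 2 * (ch B y * (u y) ^ 2) := by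
    funext y
    rw [mul_pow, mul_pow, hρ2]
  have hψ2 : ∀ y, (psi 4 η γ y) ^ 2 ≤ (1 + η) ^ 2 := by
    intro y
    rw [← sq_abs]
    exact pow_le_pow_left₀ (abs_nonneg _) (psi_abs hη.le γ y) 2
  have iG : Integrable (fun y => (psi 4 η γ y) ^ 2 * (ch B y * (u y) ^ 2)) :=
    Cl_int (Cl_mul0 (Cl_pow0 (Cl_psi 4 η γ) 2) (Cl_mul hχ (Cl_pow huC 2)))
      (by push_cast; linarith) (by push_cast; linarith)
  have hcs := (cs_int (F := fun y => 1 / Real.cosh (y / B) * v y)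
    (G := fun y => psi 4 η γ y * (1 / Real.cosh (y / B) * u y))
    (hρ.mul (Cl_cont hvC)) (hψc.mul (hρ.mul (Cl_cont huC)))
    (by rw [a1]; exact iv) (by rw [a2]; exact iG)).2
  have a3 : (fun y => Psi 4 η γ B y * (v y * u y)) = fun y =>
      (1 / Real.cosh (y / B) * v y) * (psi 4 η γ y * (1 / Real.cosh (y / B) * u y)) := by
    funext y
    unfold Psi
    rw [← hρ2]
    ring
  rw [← hv, ← hu, a3]
  refine hcs.trans ?_
  rw [a1, a2]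
  have b1 : ∫ y, (psi 4 η γ y) ^ 2 * (ch B y * (u y) ^ 2) ≤
      (1 + η) ^ 2 * ∫ y, ch B y * (u y) ^ 2 := by
    rw [← integral_const_mul]
    apply integral_mono iG (iu.const_mul _)
    intro y
    exact mul_le_mul_of_nonneg_right (hψ2 y) (mul_nonneg (Vki_chpos B y).le (sq_nonneg _))
  have c1 : √(∫ y, ch B y * (v y) ^ 2) ≤ √Cv * √(∫ y, ch B y * (ε y) ^ 2) := by
    rw [← Real.sqrt_mul hCv0.le]
    exact Real.sqrt_le_sqrt e1
  have c2 : √(∫ y, (psi 4 η γ y) ^ 2 * (ch B y * (u y) ^ 2)) ≤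
      (1 + η) * (√Cv * √(∫ y, ch B y * (S y) ^ 2)) := by
    have b2 : ∫ y, (psi 4 η γ y) ^ 2 * (ch B y * (u y) ^ 2) ≤
        (1 + η) ^ 2 * (Cv * ∫ y, ch B y * (S y) ^ 2) :=
      b1.trans (mul_le_mul_of_nonneg_left e2 (sq_nonneg _))
    refine (Real.sqrt_le_sqrt b2).trans (le_of_eq ?_)
    rw [Real.sqrt_mul (sq_nonneg _), Real.sqrt_sq (by linarith), Real.sqrt_mul hCv0.le]
  refine (mul_le_mul c1 c2 (Real.sqrt_nonneg _) (by positivity)).trans (le_of_eq ?_)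
  have c3 : √Cv * √Cv = Cv := Real.mul_self_sqrt hCv0.le
  calc √Cv * √(∫ y, ch B y * (ε y) ^ 2) * ((1 + η) * (√Cv * √(∫ y, ch B y * (S y) ^ 2)))
      = (1 + η) * (√Cv * √Cv) * √(∫ y, ch B y * (ε y) ^ 2) *
          √(∫ y, ch B y * (S y) ^ 2) := by ring
    _ = (1 + η) * Cv * √(∫ y, ch B y * (ε y) ^ 2) * √(∫ y, ch B y * (S y) ^ 2) := by
        rw [c3]

end H98KC

end
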