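import Pool.Agent.H98.KC.Base
import Pool.Agent.H98.KB.Inv

/-!
# Vkj (MP_95be7d_S4): weighted inversion estimate for `ε ∈ Cl 0 0`, `k = 4` (variant of `inv_loc` in `KB/Inv.lean`)

Same proof: `h = ε-δv` satisfies `L h=(1-δ+δQ⁴)v` (`v = vf 4 δ ε`, `v-δv''=Lε`), `F = √loc·h = Inv_r γ B · h` decays (`Inv_r ∈ Cl (γ+1/B) (γ+1/B)`), `L_inv` for `F`
(class `Cl (γ+1/B)(γ+1/B)` or smaller positive exponents), commutators `O(γ+1/B)`, `(F,Q')` versus `(h,Q')`, `(h,Q') = (ε,Q')-δ(v,Q')`.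
In `KB/Inv.lean` the hypotheses `0 < p ≤ 1`, `0 < q ≤ 1` are used only for integrability/decay: copy the proof with `p = q = 0` (all auxiliary lemmas `Inv_*` are imported),
the class of `F` now coming from the weight.
-/

open MeasureTheory Filter Topology Set
open scoped ContDiff

noncomputable section

namespace H98KC

open H98KB H68KC

theorem Vkj_a1 {r L s t F F' A v g : ℝ} (h1 : L ^ 2 ≤ A ^ 2 * v ^ 2) (hs : |s| ≤ g)
    (t0 : 0 ≤ t) (t1 : t ≤ g ^ 2) (g0 : 0 < g) (g1 : g ≤ 1 / 4) :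
    (r * L + 2 * s * F' + (s ^ 2 + t) * F) ^ 2 ≤
      3 * A ^ 2 * (r * v) ^ 2 + 12 * g ^ 2 * (F ^ 2 + F' ^ 2) := by
  refine (Inv_sq3 _ _ _).trans ?_
  have b1 : (r * L) ^ 2 ≤ A ^ 2 * (r * v) ^ 2 := by
    have := mul_le_mul_of_nonneg_left h1 (sq_nonneg r)
    nlinarith
  have hs2 : s ^ 2 ≤ g ^ 2 := by
    rw [← sq_abs s]
    exact pow_le_pow_left₀ (abs_nonneg _) hs 2
  have b2 : (2 * s * F') ^ 2 ≤ 4 * g ^ 2 * F' ^ 2 := by
    nlinarith [mul_le_mul_of_nonneg_right hs2 (sq_nonneg F')]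
  have b3 : ((s ^ 2 + t) * F) ^ 2 ≤ 4 * g ^ 2 * F ^ 2 := by
    have h5 : 0 ≤ s ^ 2 + t := add_nonneg (sq_nonneg _) t0
    have h6 : s ^ 2 + t ≤ 2 * g := by nlinarith
    have h8 : (s ^ 2 + t) ^ 2 ≤ (2 * g) ^ 2 := pow_le_pow_left₀ h5 h6 2
    rw [mul_pow]
    nlinarith [mul_le_mul_of_nonneg_right h8 (sq_nonneg F)]
  linarith

theorem Vkj_a2 {F F' s δ rv rv' : ℝ} (hs : s ^ 2 ≤ 1) (hd : δ ^ 2 ≤ 1) :
    (F + δ * rv) ^ 2 + (F' + s * F + δ * rv') ^ 2 ≤
      5 * (F ^ 2 + F' ^ 2) + 3 * (rv ^ 2 + rv' ^ 2) := by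
  have a1 : (F + δ * rv) ^ 2 ≤ 2 * F ^ 2 + 2 * (δ * rv) ^ 2 := by
    nlinarith [sq_nonneg (F - δ * rv)]
  have a2 := Inv_sq3 F' (s * F) (δ * rv')
  have a3 : (δ * rv) ^ 2 ≤ rv ^ 2 := by
    rw [mul_pow]
    exact mul_le_of_le_one_left (sq_nonneg _) hd
  have a4 : (δ * rv') ^ 2 ≤ rv' ^ 2 := by
    rw [mul_pow]
    exact mul_le_of_le_one_left (sq_nonneg _) hd
  have a5 : (s * F) ^ 2 ≤ F ^ 2 := by
    rw [mul_pow]
    exact mul_le_of_le_one_left (sq_nonneg _) hs
  nlinarith [sq_nonneg rv, sq_nonneg F', a1, a2, a3, a4, a5]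

theorem Vkj_a3 {CL A V P N : ℝ} (hCL : 0 < CL) (hA : 0 ≤ A) (hV : 0 ≤ V)
    (hN : N ≤ 2 * CL * (A * V + 3 * P ^ 2)) :
    5 * N + 3 * V ≤ (5 * (2 * CL * (A + 3)) + 3) * (V + P ^ 2) := by
  have h2 : 0 ≤ CL * V := mul_nonneg hCL.le hV
  have h3 : 0 ≤ CL * A * P ^ 2 := by positivity
  have hP2 := sq_nonneg P
  nlinarith [h2, h3, hV, hP2]

theorem Vkj_a4 {CL A V P N K g : ℝ} (h1 : N ≤ CL * (A * V + 3 * P ^ 2) + (g ^ 2 * K) * N)
    (h2 : 2 * (g ^ 2 * K) ≤ 1) (hN : 0 ≤ N) : N ≤ 2 * CL * (A * V + 3 * P ^ 2) := by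
  have h3 := mul_le_mul_of_nonneg_right h2 hN
  nlinarith

theorem inv_loc0 : ∃ γ₀ C : ℝ, 0 < γ₀ ∧ γ₀ ≤ 1 / 8 ∧ 0 < C ∧
    ∀ γ B δ : ℝ, 0 < γ → γ ≤ γ₀ → 16 ≤ B → 1 / γ ≤ B → 0 < δ → δ ≤ 1 / 16 →
    ∀ ε : ℝ → ℝ, Cl 0 0 ε →
    ln γ B ε ≤ C * ((∫ y, loc γ B y * ((vf 4 δ ε y) ^ 2 + (deriv (vf 4 δ ε) y) ^ 2))
      + (ip ε (deriv (Qf 4))) ^ 2) := by
  have hk1 : 1 ≤ 4 := by norm_num
  obtain ⟨CL, hCL, hL⟩ := L_inv 4 (by norm_num)
  obtain ⟨Q, hQ, hQh⟩ := Qf_hi hk1
  set D : ℝ := ∫ y, Inv_ph Q y ^ 2 with hD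
  have hD0 : 0 ≤ D := integral_nonneg fun y => sq_nonneg _
  set K : ℝ := CL * (12 + 3 * D) with hK
  have hK0 : 0 < K := by positivity
  set A : ℝ := 3 * (1 + C0 4) ^ 2 + 3 * D with hA
  have hA0 : 0 ≤ A := by positivity
  have hC00 : 0 ≤ C0 4 := by unfold C0; positivity
  -- the choice of `γ₀`
  set γ₀ : ℝ := min (1 / 8) (1 / (8 * (K + 1))) with hγ₀
  have hγ₀p : 0 < γ₀ := lt_min (by norm_num) (by positivity)
  refine ⟨γ₀, 5 * (2 * CL * (A + 3)) + 3, hγ₀p, min_le_left _ _, by positivity, ?_⟩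
  intro γ B δ hγ hγ' hB hγB hδ hδ' ε hε
  have hB0 : 0 < B := by linarith
  have hp2 : |(0 : ℝ)| ≤ 2 := by norm_num
  set g : ℝ := γ + 1 / B with hg
  have hB1 : 0 < 1 / B := by positivity
  have hg0 : 0 < g := by positivity
  have hg1 : g ≤ 2 * γ := by
    have h1 : 1 / B ≤ γ := by
      rw [div_le_iff₀ hB0]
      rw [div_le_iff₀ hγ] at hγB
      linarith
    linarith
  have hg2 : g ≤ 1 / 4 := by
    have h1 : γ ≤ 1 / 8 := hγ'.trans (min_le_left _ _)
    linarith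
  have hgK : 2 * (g ^ 2 * K) ≤ 1 := by
    have h1 : γ ≤ 1 / (8 * (K + 1)) := hγ'.trans (min_le_right _ _)
    have h2 : g ≤ 1 / (4 * (K + 1)) := by
      refine hg1.trans ((mul_le_mul_of_nonneg_left h1 (by norm_num)).trans (le_of_eq ?_))
      field_simp
      norm_num
    have h3 : g * (4 * (K + 1)) ≤ 1 := by
      rw [le_div_iff₀ (by positivity)] at h2
      exact h2
    (first | linarith only [mul_pos hg0 hK0, mul_nonneg hg0.le hK0.le, h3, hB1, hg2, hγ, hδ, hδ'] | nlinarith only [mul_pos hg0 hK0, mul_nonneg hg0.le hK0.le, h3, hB1, hg2, hγ, hδ, hδ'])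
  -- the functions
  set v : ℝ → ℝ := vf 4 δ ε with hv
  have hvC : Cl 0 0 v := Cl_vf hk1 hδ hδ' hp2 hp2 hε
  set h : ℝ → ℝ := fun y => ε y - δ * v y with hh
  have hhC : Cl 0 0 h := Cl_sub hε (Cl_smul δ hvC)
  have hr : Cl g g (Inv_r γ B) := by
    have h1 := Cl_mul (Cl_sech hγ) (Cl_sech hB1)
    exact h1
  set F : ℝ → ℝ := fun y => Inv_r γ B y * h y with hF
  have hFC : Cl g g F := Cl_mono (Cl_mul hr hhC) (by linarith) (by linarith)
  have hrv : Cl g g (fun y => Inv_r γ B y * v y) :=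
    Cl_mono (Cl_mul hr hvC) (by linarith) (by linarith)
  have hrv' : Cl g g (fun y => Inv_r γ B y * deriv v y) :=
    Cl_mono (Cl_mul hr (Cl_der hvC)) (by linarith) (by linarith)
  have sqi : ∀ {G : ℝ → ℝ}, Cl g g G → Integrable (fun y => G y ^ 2) := fun hG =>
    Cl_int (Cl_pow' hG hg0.le hg0.le 2 (by norm_num)) hg0 hg0
  have iF := sqi hFC
  have iF' := sqi (Cl_der hFC)
  have irv := sqi hrv
  have irv' := sqi hrv'
  set N : ℝ := ∫ y, ((F y) ^ 2 + (deriv F y) ^ 2) with hN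
  set V0 : ℝ := ∫ y, (Inv_r γ B y * v y) ^ 2 with hV0
  set V : ℝ := ∫ y, loc γ B y * ((v y) ^ 2 + (deriv v y) ^ 2) with hV
  have hV0' : V0 ≤ V := by
    have e : (fun y => loc γ B y * ((v y) ^ 2 + (deriv v y) ^ 2)) = fun y =>
        (Inv_r γ B y * v y) ^ 2 + (Inv_r γ B y * deriv v y) ^ 2 := by
      funext y
      rw [Inv_loc]
      ring
    rw [hV, e, hV0]
    refine integral_mono irv (irv.add irv') fun y => ?_
    simp only
    (first | linarith only [sq_nonneg (Inv_r γ B y * deriv v y)] | nlinarith only [sq_nonneg (Inv_r γ B y * deriv v y)])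
  have hV00 : 0 ≤ V0 := integral_nonneg fun y => sq_nonneg _
  have hN0 : ∫ y, F y ^ 2 ≤ N := by
    refine integral_mono iF (iF.add iF') fun y => ?_
    simp only
    (first | linarith only [sq_nonneg (deriv F y)] | nlinarith only [sq_nonneg (deriv F y)])
  have hF20 : 0 ≤ ∫ y, F y ^ 2 := integral_nonneg fun y => sq_nonneg _
  have hN00 : 0 ≤ N := hF20.trans hN0
  -- `L h`
  have hLh : ∀ y, Lop 4 h y = (1 - δ + δ * Qf 4 y ^ 4) * v y := by
    intro y
    have e1 : deriv h = fun z => deriv ε z - δ * deriv v z := funext fun z =>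
      ((Cl_hd hε z).sub ((Cl_hd hvC z).const_mul δ)).deriv
    have e2 : deriv (deriv h) y = deriv (deriv ε) y - δ * deriv (deriv v) y := by
      rw [e1]
      exact ((Cl_hd (Cl_der hε) y).sub ((Cl_hd (Cl_der hvC) y).const_mul δ)).deriv
    have e3 := vf_L hk1 hδ hδ' hp2 hp2 hε y
    rw [← hv] at e3
    unfold Lop at e3 ⊢
    rw [e2]
    simp only [hh]
    linear_combination -e3
  have hQk : ∀ y, 0 ≤ Qf 4 y ^ 4 ∧ Qf 4 y ^ 4 ≤ C0 4 := by
    intro y
    have h1 := Qf_pow hk1 y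
    have h2 := sq_nonneg (th 4 y)
    refine ⟨pow_nonneg (Qf_pos 4 y).le 4, ?_⟩
    rw [h1]
    (first | linarith only [mul_nonneg hC00 h2, h2, hC00] | nlinarith only [mul_nonneg hC00 h2, h2, hC00])
  have hLhb : ∀ y, |Lop 4 h y| ≤ (1 + C0 4) * |v y| := by
    intro y
    rw [hLh, abs_mul]
    refine mul_le_mul_of_nonneg_right ?_ (abs_nonneg _)
    obtain ⟨h1, h2⟩ := hQk y
    have h3 : 0 ≤ δ * Qf 4 y ^ 4 := mul_nonneg hδ.le h1
    have h4 : δ * Qf 4 y ^ 4 ≤ 1 * C0 4 := mul_le_mul (by linarith) h2 h1 zero_le_one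
    rw [abs_of_nonneg (by linarith)]
    linarith
  -- `L F`
  have hLF : ∀ y, (Lop 4 F y) ^ 2 ≤ 3 * (1 + C0 4) ^ 2 * (Inv_r γ B y * v y) ^ 2 +
      12 * g ^ 2 * ((F y) ^ 2 + (deriv F y) ^ 2) := by
    intro y
    obtain ⟨-, h2⟩ := Inv_Lop 4 (γ := γ) (B := B) hhC y
    have h2' : Lop 4 F y = Inv_r γ B y * Lop 4 h y + 2 * Inv_s γ B y * deriv F y +
      (Inv_s γ B y ^ 2 + Inv_t γ B y) * F y := h2
    rw [h2']
    obtain ⟨t1, t2⟩ := Inv_tle hγ hB0 y
    refine Vkj_a1 ?_ (Inv_sle hγ hB0 y) t1 t2 hg0 hg2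
    rw [← sq_abs (Lop 4 h y), ← sq_abs (v y), ← mul_pow]
    exact pow_le_pow_left₀ (abs_nonneg _) (hLhb y) 2
  have hLF2 : ∫ y, (Lop 4 F y) ^ 2 ≤ 3 * (1 + C0 4) ^ 2 * V0 + 12 * g ^ 2 * N := by
    have e := integral_add (irv.const_mul (3 * (1 + C0 4) ^ 2))
      ((iF.add iF').const_mul (12 * g ^ 2))
    rw [integral_const_mul, integral_const_mul] at e
    exact (integral_mono_of_nonneg (Eventually.of_forall fun y => sq_nonneg _)
      ((irv.const_mul _).add ((iF.add iF').const_mul _)) (Eventually.of_forall hLF)).trans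
        (le_of_eq e)
  -- the scalar products
  have hQd : Cl 1 1 (deriv (Qf 4)) := Cl_der (Cl_Qf hk1)
  have hQdb : ∀ y, |deriv (Qf 4) y| ≤ Q * Real.exp (-|y|) := by
    intro y
    rw [Qf_deriv hk1]
    simp only
    rw [abs_mul, abs_neg, abs_of_pos (Qf_pos 4 y)]
    have h1 := (th_abs_lt 4 y).le
    have h2 := mul_le_mul_of_nonneg_right h1 (Qf_pos 4 y).le
    rw [one_mul] at h2
    exact h2.trans (hQh y)
  have hRle : ∀ y, 1 / Inv_r γ B y ≤ Real.exp (|y| / 4) := by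
    intro y
    refine (Inv_Rle hγ hB0 y).2.trans (Real.exp_le_exp.2 ?_)
    have := mul_le_mul_of_nonneg_right hg2 (abs_nonneg y)
    rw [← hg]
    linarith
  have hipv : (ip v (deriv (Qf 4))) ^ 2 ≤ V0 * D := by
    have h1 := Inv_cs (Q := Q) (c := 1) (F := fun y => Inv_r γ B y * v y)
      (G := fun y => v y * deriv (Qf 4) y) zero_le_one (Cl_cont hrv) irv (by
        intro y
        have r0 := Inv_rpos γ B y
        have e1 : |v y * deriv (Qf 4) y| = |Inv_r γ B y * v y| *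
            (1 / Inv_r γ B y * |deriv (Qf 4) y|) := by
          rw [abs_mul, abs_mul, abs_of_pos r0]
          field_simp
        rw [e1, one_mul]
        refine mul_le_mul_of_nonneg_left ?_ (abs_nonneg _)
        have h3 : 1 / Inv_r γ B y * |deriv (Qf 4) y| ≤
            Real.exp (|y| / 4) * (Q * Real.exp (-|y|)) :=
          mul_le_mul (hRle y) (hQdb y) (abs_nonneg _) (Real.exp_pos _).le
        refine h3.trans ?_
        have h4 : Real.exp (|y| / 4) * (Q * Real.exp (-|y|)) =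
            Q * (1 * Real.exp (-(3 / 4 * |y|))) := by
          rw [one_mul, mul_left_comm, ← Real.exp_add]
          congr 2
          ring
        rw [h4]
        unfold Inv_ph
        refine mul_le_mul_of_nonneg_left ?_ hQ.le
        refine mul_le_mul_of_nonneg_right ?_ (Real.exp_pos _).le
        linarith [abs_nonneg y])
    rw [one_pow, one_mul] at h1
    exact h1
  have iFQ : Integrable (fun y => F y * deriv (Qf 4) y) :=
    Cl_int (Cl_mul hFC hQd) (by linarith) (by linarith)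
  have ihQ : Integrable (fun y => h y * deriv (Qf 4) y) :=
    Cl_int (Cl_mul hhC hQd) (by linarith) (by linarith)
  have ieQ : Integrable (fun y => ε y * deriv (Qf 4) y) :=
    Cl_int (Cl_mul hε hQd) (by linarith) (by linarith)
  have ivQ : Integrable (fun y => v y * deriv (Qf 4) y) :=
    Cl_int (Cl_mul hvC hQd) (by linarith) (by linarith)
  have hipF : (ip F (deriv (Qf 4)) - ip h (deriv (Qf 4))) ^ 2 ≤ g ^ 2 * (N * D) := by
    have e0 : ip F (deriv (Qf 4)) - ip h (deriv (Qf 4)) =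
        ∫ y, (F y - h y) * deriv (Qf 4) y := by
      unfold ip
      rw [← integral_sub iFQ ihQ]
      refine integral_congr_ae (Eventually.of_forall fun y => ?_)
      simp only
      ring
    rw [e0]
    have h1 := Inv_cs (Q := Q) (c := g) (F := F)
      (G := fun y => (F y - h y) * deriv (Qf 4) y) hg0.le (Cl_cont hFC) iF (by
        intro y
        have r0 := Inv_rpos γ B y
        obtain ⟨R1, R2⟩ := Inv_Rle hγ hB0 y
        have e1 : F y - h y = -((1 / Inv_r γ B y - 1) * F y) := by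
          simp only [hF]
          field_simp
          ring
        rw [e1, neg_mul, abs_neg, abs_mul, abs_mul, abs_of_nonneg (by linarith)]
        have h3 : 1 / Inv_r γ B y - 1 ≤ g * |y| * Real.exp (|y| / 4) := by
          have hx0 : 0 ≤ g * |y| := by positivity
          have h4 := Real.add_one_le_exp (-(g * |y|))
          have h5 : Real.exp (g * |y|) - 1 ≤ g * |y| * Real.exp (g * |y|) := by
            have h6 := mul_le_mul_of_nonneg_right h4 (Real.exp_pos (g * |y|)).le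
            rw [← Real.exp_add, neg_add_cancel, Real.exp_zero] at h6
            linarith
          have h7 : Real.exp (g * |y|) ≤ Real.exp (|y| / 4) := by
            refine Real.exp_le_exp.2 ?_
            have := mul_le_mul_of_nonneg_right hg2 (abs_nonneg y)
            linarith
          have h8 := mul_le_mul_of_nonneg_left h7 hx0
          have R2' : 1 / Inv_r γ B y ≤ Real.exp (g * |y|) := R2
          linarith
        have h9 : (1 / Inv_r γ B y - 1) * |deriv (Qf 4) y| ≤ g * Inv_ph Q y := by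
          have h10 : (1 / Inv_r γ B y - 1) * |deriv (Qf 4) y| ≤
              (g * |y| * Real.exp (|y| / 4)) * (Q * Real.exp (-|y|)) :=
            mul_le_mul h3 (hQdb y) (abs_nonneg _) (by positivity)
          refine h10.trans ?_
          have h11 : (g * |y| * Real.exp (|y| / 4)) * (Q * Real.exp (-|y|)) =
              g * (Q * (|y| * Real.exp (-(3 / 4 * |y|)))) := by
            have h12 : Real.exp (-(3 / 4 * |y|)) = Real.exp (|y| / 4) * Real.exp (-|y|) := by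
              rw [← Real.exp_add]
              congr 1
              ring
            rw [h12]
            ring
          rw [h11]
          unfold Inv_ph
          refine mul_le_mul_of_nonneg_left ?_ hg0.le
          refine mul_le_mul_of_nonneg_left ?_ hQ.le
          refine mul_le_mul_of_nonneg_right ?_ (Real.exp_pos _).le
          linarith
        have h13 := mul_le_mul_of_nonneg_right h9 (abs_nonneg (F y))
        calc (1 / Inv_r γ B y - 1) * |F y| * |deriv (Qf 4) y|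
            = (1 / Inv_r γ B y - 1) * |deriv (Qf 4) y| * |F y| := by ring
          _ ≤ g * Inv_ph Q y * |F y| := h13
          _ = g * (|F y| * Inv_ph Q y) := by ring)
    refine h1.trans ?_
    refine mul_le_mul_of_nonneg_left ?_ (sq_nonneg _)
    exact mul_le_mul_of_nonneg_right hN0 hD0
  have hiph : ip h (deriv (Qf 4)) = ip ε (deriv (Qf 4)) - δ * ip v (deriv (Qf 4)) := by
    unfold ip
    rw [← integral_const_mul, ← integral_sub ieQ (ivQ.const_mul δ)]
    refine integral_congr_ae (Eventually.of_forall fun y => ?_)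
    simp only [hh]
    ring
  set P : ℝ := ip ε (deriv (Qf 4)) with hP
  have hipF2 : (ip F (deriv (Qf 4))) ^ 2 ≤ 3 * P ^ 2 + 3 * (V0 * D) + 3 * (g ^ 2 * (N * D)) := by
    have e : ip F (deriv (Qf 4)) = P + (-(δ * ip v (deriv (Qf 4)))) +
        (ip F (deriv (Qf 4)) - ip h (deriv (Qf 4))) := by
      rw [hiph]
      ring
    rw [e]
    refine (Inv_sq3 _ _ _).trans ?_
    have h1 : (-(δ * ip v (deriv (Qf 4)))) ^ 2 ≤ V0 * D := by
      have h2 : δ ^ 2 ≤ 1 := by (first | linarith only [hB1, hg2, hγ, hδ, hδ'] | nlinarith only [hB1, hg2, hγ, hδ, hδ'])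
      have h3 : (-(δ * ip v (deriv (Qf 4)))) ^ 2 = δ ^ 2 * (ip v (deriv (Qf 4))) ^ 2 := by ring
      rw [h3]
      have h4 := mul_le_mul_of_nonneg_right h2 (sq_nonneg (ip v (deriv (Qf 4))))
      linarith
    linarith
  -- absorb
  have hmain := hL g g F hg0 hg0 hFC
  rw [← hN] at hmain
  have hNle : N ≤ 2 * CL * (A * V0 + 3 * P ^ 2) := by
    have h1 : N ≤ CL * ((3 * (1 + C0 4) ^ 2 * V0 + 12 * g ^ 2 * N) +
        (3 * P ^ 2 + 3 * (V0 * D) + 3 * (g ^ 2 * (N * D)))) :=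
      hmain.trans (mul_le_mul_of_nonneg_left (add_le_add hLF2 hipF2) hCL.le)
    have h2 : CL * ((3 * (1 + C0 4) ^ 2 * V0 + 12 * g ^ 2 * N) +
        (3 * P ^ 2 + 3 * (V0 * D) + 3 * (g ^ 2 * (N * D)))) =
        CL * (A * V0 + 3 * P ^ 2) + (g ^ 2 * K) * N := by
      rw [hA, hK]
      ring
    rw [h2] at h1
    exact Vkj_a4 h1 hgK hN00
  -- the conclusion
  have hpt : ∀ y, loc γ B y * ((ε y) ^ 2 + (deriv ε y) ^ 2) ≤
      5 * ((F y) ^ 2 + (deriv F y) ^ 2) + 3 * (loc γ B y * ((v y) ^ 2 + (deriv v y) ^ 2)) := by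
    intro y
    obtain ⟨h1, -⟩ := Inv_Lop 4 (γ := γ) (B := B) hhC y
    have h1' : deriv F y = -(Inv_s γ B y) * F y + Inv_r γ B y * deriv h y := h1
    have e1 : deriv h y = deriv ε y - δ * deriv v y :=
      ((Cl_hd hε y).sub ((Cl_hd hvC y).const_mul δ)).deriv
    have e2 : Inv_r γ B y * ε y = F y + δ * (Inv_r γ B y * v y) := by
      simp only [hF, hh]
      ring
    have e3 : Inv_r γ B y * deriv ε y = deriv F y + Inv_s γ B y * F y +
        δ * (Inv_r γ B y * deriv v y) := by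
      rw [h1', e1]
      ring
    have hs := Inv_sle hγ hB0 y
    have hs2 : Inv_s γ B y ^ 2 ≤ 1 := by
      rw [← sq_abs (Inv_s γ B y)]
      have h4 : |Inv_s γ B y| ≤ 1 := hs.trans (le_trans hg2 (by norm_num))
      exact pow_le_one₀ (abs_nonneg _) h4
    have hd2 : δ ^ 2 ≤ 1 := pow_le_one₀ hδ.le (hδ'.trans (by norm_num))
    rw [Inv_loc]
    have e4 : Inv_r γ B y ^ 2 * ((ε y) ^ 2 + (deriv ε y) ^ 2) =
        (Inv_r γ B y * ε y) ^ 2 + (Inv_r γ B y * deriv ε y) ^ 2 := by ring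
    have e5 : Inv_r γ B y ^ 2 * ((v y) ^ 2 + (deriv v y) ^ 2) =
        (Inv_r γ B y * v y) ^ 2 + (Inv_r γ B y * deriv v y) ^ 2 := by ring
    rw [e4, e5, e2, e3]
    exact Vkj_a2 hs2 hd2
  have iV : Integrable (fun y => loc γ B y * ((v y) ^ 2 + (deriv v y) ^ 2)) := by
    refine (irv.add irv').congr (Eventually.of_forall fun y => ?_)
    simp only [Pi.add_apply]
    rw [Inv_loc]
    ring
  have hfin : ln γ B ε ≤ 5 * N + 3 * V := by
    unfold ln
    have e := integral_add ((iF.add iF').const_mul 5) (iV.const_mul 3)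
    rw [integral_const_mul, integral_const_mul] at e
    refine (integral_mono_of_nonneg (Eventually.of_forall fun y => ?_)
      (((iF.add iF').const_mul 5).add (iV.const_mul 3)) (Eventually.of_forall hpt)).trans
        (le_of_eq e)
    have := loc_pos γ B y
    positivity
  have hVV : 0 ≤ V := hV00.trans hV0'
  have hAV : A * V0 ≤ A * V := mul_le_mul_of_nonneg_left hV0' hA0
  refine hfin.trans (Vkj_a3 hCL hA0 hVV (hNle.trans ?_))
  exact mul_le_mul_of_nonneg_left (by linarith) (by positivity)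

end H98KC

end
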