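import Pool.Agent.H98.KC.Wzb
import Pool.Agent.H98.KC.Vkh
import Pool.Agent.H98.KC.Vki
import Pool.Agent.H98.KC.Vkj

/-!
# Vkk (MP_95be7d_S4): differential inequality for the virial functional (variant of `KB/Vfi.lean`; uses the statements of `Vkh`, `Vki`, `Vkj`, `Wzb`)

`γ := γ₀` from `inv_loc0` (`C_I`), `(η,δ,c₀,C₀,B₁)` from `vir_lin4 γ`, `B₀ = max B₁ (1/γ)`.
`DV 4 η γ B δ ε ζ = ∫ Psi (vf ε)(vf ζ)`.  `ζ = Dz β w m ε S et = (Lε)' - (Rf 4 ε)' + βΛQ + mQ' - wΛε + mε' - et' + S` (`gf_eq`), `vf` is linear (`vf_add`, `vf_smul`; all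
pieces of class `Cl (-c) (-c)`, `c = 1/(2B)`), `vf 4 δ Q' = 0` (`vf_Qd`).  With `G = -(Rf 4 ε)' - wΛε + mε' - et' + S`:
`DV = [∫Ψ v vf((Lε)') + β∫Ψ v vf(ΛQ)] + ∫Ψ v vf(G)`.
Bracket: `vir_lin4`; `(C₀/B)∫ch(v²+v'²) ≤ (C₀/B)C_δ∫ch(ε²+ε'²) ≤ C₀C_δ·240·T4` (`vf_wt`, `ch_le_ta`), `-c₀∫loc(v²+v'²) ≤ -(c₀/C_I)ln + c₀(ε,Q')²` (`inv_loc0`); `c₁ = c₀/C_I`.
`∫Ψ v vf(G)`: `VF0`.  `∫ch ε² ≤ 240B T4`;  `∫ch G² ≤ 5(∫ch R'²+w²∫ch(Λε)²+m²∫chε'²+∫ch et'²+∫ch S²)`: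
`|R'| ≤ C|ε|(|ε|+|ε'|) ≤ Cτ(|ε|+|ε'|)` (`Rd_le`); `(Λε)² ≤ (1+|y|)²(ε²+ε'²)` and `ych_le_ta`; `∫ch et'² ≤ ne2 et`;
`S² ≤ 3(3τ₀²(ε²+ε'²+ε''²)+τ₁²+τ₂²)` (`bd (1/2) 0 y ≤ 1`), `∫ch = 2B`.  So `(∫ch G²)^{1/2} ≤ C_B((τ+w+|m|+τ₀)√T4+√ne2+τ₁+τ₂)` and
`|∫Ψ v vf G| ≤ C_B(τ+w+|m|+τ₀)T4 + T4 + C_B(ne2+τ₁²+τ₂²)`.
-/

open MeasureTheory Filter Topology Set
open scoped ContDiff

noncomputable section

namespace H98KC

open H98KB H68KC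

/-- pairing integrable -/
theorem Vkk_Jint {η γ B δ c : ℝ} {v h : ℝ → ℝ} (hB : 0 < B) (hδ : 0 < δ) (hδ' : δ ≤ 1 / 16)
    (hc : 0 < c) (hc2 : c ≤ 2) (hcB : c < 2 / B) (hv : Cl 0 0 v) (hh : Cl (-c) (-c) h) :
    Integrable (fun y => Psi 4 η γ B y * (v y * vf 4 δ h y)) := by
  have ha : |(-c)| ≤ 2 := by
    rw [abs_neg, abs_of_pos hc]
    exact hc2
  have h1 : Cl (-c) (-c) (vf 4 δ h) := Cl_vf (by norm_num) hδ hδ' ha ha hh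
  exact Cl_int (Cl_mul (Cl_Psi 4 η γ hB) (Cl_mul0 hv h1)) (by linarith) (by linarith)

theorem Vkk_Jlin {η γ B δ c : ℝ} {v f g : ℝ → ℝ} (a : ℝ) (hB : 0 < B) (hδ : 0 < δ)
    (hδ' : δ ≤ 1 / 16) (hc : 0 < c) (hc2 : c ≤ 2) (hcB : c < 2 / B) (hv : Cl 0 0 v)
    (hf : Cl (-c) (-c) f) (hg : Cl (-c) (-c) g) :
    (∫ y, Psi 4 η γ B y * (v y * vf 4 δ (fun y => f y + a * g y) y)) =
      (∫ y, Psi 4 η γ B y * (v y * vf 4 δ f y)) + a * ∫ y, Psi 4 η γ B y * (v y * vf 4 δ g y) := by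
  rw [← integral_const_mul, ← integral_add
    (Vkk_Jint hB hδ hδ' hc hc2 hcB hv hf)
    ((Vkk_Jint hB hδ hδ' hc hc2 hcB hv hg).const_mul a)]
  refine integral_congr_ae (Eventually.of_forall fun y => ?_)
  have ha : |(-c)| ≤ 2 := by
    rw [abs_neg, abs_of_pos hc]
    exact hc2
  have e1 := vf_add (k := 4) (by norm_num) hδ hδ' ha ha hf (Cl_smul a hg) y
  have e2 := vf_smul (k := 4) (δ := δ) (by norm_num) a hg y
  simp only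
  rw [e1, e2]
  ring

/-- the generic part -/
def Vkk_G (w m : ℝ) (ε S et : ℝ → ℝ) (y : ℝ) : ℝ :=
  (((-1) * deriv (Rf 4 ε) y + (-w) * Lam 4 ε y) + m * deriv ε y) + ((-1) * deriv et y + S y)

theorem Vkk_Gcl {w m c : ℝ} {ε S et : ℝ → ℝ} (hc : 0 < c) (hε : Cl 0 0 ε) (hS : Cl 0 0 S)
    (het : Cl 0 0 et) : Cl (-c) (-c) (Vkk_G w m ε S et) := by
  have m0 : ∀ {f : ℝ → ℝ}, Cl 0 0 f → Cl (-c) (-c) f := fun hf =>
    Cl_mono hf (by linarith) (by linarith)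
  have c1 : Cl (-c) (-c) (deriv (Rf 4 ε)) :=
    m0 (Cl_der (Cl_Rf (by norm_num) le_rfl le_rfl hε))
  have c2 : Cl (-c) (-c) (Lam 4 ε) := Cl_mono (Cl_Lam 4 hε hc) (by linarith) (by linarith)
  exact Cl_add (Cl_add (Cl_add (Cl_smul (-1) c1) (Cl_smul (-w) c2)) (Cl_smul m (m0 (Cl_der hε))))
    (Cl_add (Cl_smul (-1) (m0 (Cl_der het))) (m0 hS))

theorem Vkk_Dz (β w m : ℝ) {ε : ℝ → ℝ} (S et : ℝ → ℝ) (hε : Cl 0 0 ε) :
    Dz β w m ε S et = fun y => (((deriv (Lop 4 ε) y + β * Lam 4 (Qf 4) y) + m * deriv (Qf 4) y)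
      + 1 * Vkk_G w m ε S et y) := by
  funext y
  have e1 : gf 4 ε = fun y => Lop 4 ε y - Rf 4 ε y := by
    funext z
    exact gf_eq 4 ε z
  have e2 : deriv (gf 4 ε) y = deriv (Lop 4 ε) y - deriv (Rf 4 ε) y := by
    rw [e1]
    exact ((Cl_hd (Cl_Lop (by norm_num) hε) y).sub
      (Cl_hd (Cl_Rf (by norm_num) le_rfl le_rfl hε) y)).deriv
  unfold Dz Vkk_G
  rw [e2]
  ring

theorem Vkk_DV {η γ B δ β w m : ℝ} {ε S et : ℝ → ℝ} (hB : 16 ≤ B) (hδ : 0 < δ)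
    (hδ' : δ ≤ 1 / 16) (hε : Cl 0 0 ε) (hS : Cl 0 0 S) (het : Cl 0 0 et) :
    DV 4 η γ B δ ε (Dz β w m ε S et) =
      ((∫ y, Psi 4 η γ B y * (vf 4 δ ε y * vf 4 δ (deriv (Lop 4 ε)) y))
        + β * (∫ y, Psi 4 η γ B y * (vf 4 δ ε y * vf 4 δ (Lam 4 (Qf 4)) y)))
      + ∫ y, Psi 4 η γ B y * (vf 4 δ ε y * vf 4 δ (Vkk_G w m ε S et) y) := by
  have hB0 : 0 < B := by linarith
  obtain ⟨c, hcd⟩ : ∃ c, c = 1 / (2 * B) := ⟨_, rfl⟩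
  have hc : 0 < c := by
    rw [hcd]
    positivity
  have hcB : c < 2 / B := by
    rw [hcd, div_lt_div_iff₀ (by positivity) hB0]
    linarith
  have hc2 : c ≤ 2 := by
    have : 2 / B ≤ 2 := by
      rw [div_le_iff₀ hB0]
      linarith
    linarith
  have m0 : ∀ {f : ℝ → ℝ}, Cl 0 0 f → Cl (-c) (-c) f := fun hf =>
    Cl_mono hf (by linarith) (by linarith)
  have hv : Cl 0 0 (vf 4 δ ε) := Cl_vf (by norm_num) hδ hδ' (by norm_num) (by norm_num) hε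
  have c1 : Cl (-c) (-c) (deriv (Lop 4 ε)) := m0 (Cl_der (Cl_Lop (by norm_num) hε))
  have c2 : Cl (-c) (-c) (Lam 4 (Qf 4)) :=
    Cl_mono (Cl_LamQ (by norm_num) (c := 1 / 2) (by norm_num)) (by linarith) (by linarith)
  have c3 : Cl (-c) (-c) (deriv (Qf 4)) :=
    Cl_mono (Cl_der (Cl_Qf (by norm_num))) (by linarith) (by linarith)
  have c4 := Vkk_Gcl (w := w) (m := m) hc hε hS het
  have d2 := Cl_add c1 (Cl_smul β c2)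
  have d3 := Cl_add d2 (Cl_smul m c3)
  have hz : (∫ y, Psi 4 η γ B y * (vf 4 δ ε y * vf 4 δ (deriv (Qf 4)) y)) = 0 := by
    have : (fun y => Psi 4 η γ B y * (vf 4 δ ε y * vf 4 δ (deriv (Qf 4)) y)) =
        fun _ => (0 : ℝ) := by
      funext y
      rw [vf_Qd (by norm_num) δ y]
      ring
    rw [this, integral_zero]
  unfold DV
  rw [Vkk_Dz β w m S et hε, Vkk_Jlin 1 hB0 hδ hδ' hc hc2 hcB hv d3 c4,
    Vkk_Jlin m hB0 hδ hδ' hc hc2 hcB hv d2 c3, Vkk_Jlin β hB0 hδ hδ' hc hc2 hcB hv c1 c2, hz]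
  ring

theorem Vkk_sq5 (a b c d e : ℝ) :
    (((a + b) + c) + (d + e)) ^ 2 ≤ 5 * (a ^ 2 + b ^ 2 + c ^ 2 + d ^ 2 + e ^ 2) := by
  nlinarith [sq_nonneg (a - b), sq_nonneg (a - c), sq_nonneg (a - d), sq_nonneg (a - e),
    sq_nonneg (b - c), sq_nonneg (b - d), sq_nonneg (b - e), sq_nonneg (c - d), sq_nonneg (c - e),
    sq_nonneg (d - e)]

theorem Vkk_chp (B y : ℝ) : 0 < ch B y := by
  rw [ch_eq']
  exact se2_pos _ _

theorem Vkk_ch1 (B y : ℝ) : ch B y ≤ 1 := by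
  unfold ch
  have h1 := Real.one_le_cosh (y / B)
  have h2 : 1 / Real.cosh (y / B) ≤ 1 := by
    rw [div_le_one (by linarith)]
    exact h1
  have h3 : 0 ≤ 1 / Real.cosh (y / B) := by positivity
  exact pow_le_one₀ h3 h2

theorem Vkk_bd1 (y : ℝ) : bd (1 / 2) 0 y ≤ 1 := by
  have h := bd_mono (p := 1 / 2) (q := 0) (p' := 0) (q' := 0) (by norm_num) le_rfl y
  rwa [bd_zero] at h

/-- pointwise bound for `G²` -/
theorem Vkk_pt {B s C w m τ τ₀ τ₁ τ₂ : ℝ} {ε S et : ℝ → ℝ} (h : Slow4 B s) (hC : 0 < C)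
    (hR : ∀ y, |deriv (Rf 4 ε) y| ≤ C * |ε y| * (|ε y| + |deriv ε y|)) (hτ : ∀ y, |ε y| ≤ τ)
    (hτ₀ : 0 ≤ τ₀) (hτ₁ : 0 ≤ τ₁) (hτ₂ : 0 ≤ τ₂) (hSB : SB τ₀ τ₁ τ₂ ε S) (y : ℝ) :
    ch B y * (Vkk_G w m ε S et y) ^ 2 ≤
      (5 * (2 * C ^ 2 * 240 * B + 4000 * B ^ 3 + 240 * B + 9 * 240 * B)
        * (τ ^ 2 + w ^ 2 + m ^ 2 + τ₀ ^ 2))
        * (ta B s y * ((ε y) ^ 2 + (deriv ε y) ^ 2 + (deriv (deriv ε) y) ^ 2))
      + 5 * ((et y) ^ 2 + (deriv et y) ^ 2) + (15 * (τ₁ ^ 2 + τ₂ ^ 2)) * ch B y := by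
  obtain ⟨hB, hB16, hs, h4⟩ := Wzb_h h
  have hch := Vkk_chp B y
  have hch1 := Vkk_ch1 B y
  have hta := ta_pos h y
  have hτ0 : 0 ≤ τ := (abs_nonneg _).trans (hτ y)
  set a := ε y
  set b := deriv ε y
  set d := deriv (deriv ε) y
  have hA : 0 ≤ ta B s y * (a ^ 2 + b ^ 2 + d ^ 2) := by positivity
  have hab : ch B y * (a ^ 2 + b ^ 2 + d ^ 2) ≤ 240 * B * (ta B s y * (a ^ 2 + b ^ 2 + d ^ 2)) := by
    have h1 := mul_le_mul_of_nonneg_right (ch_le_ta h y) (by positivity : 0 ≤ a ^ 2 + b ^ 2 + d ^ 2)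
    linarith
  -- the pieces
  have p1 : ch B y * (deriv (Rf 4 ε) y) ^ 2 ≤
      2 * C ^ 2 * 240 * B * τ ^ 2 * (ta B s y * (a ^ 2 + b ^ 2 + d ^ 2)) := by
    have h1 : |deriv (Rf 4 ε) y| ≤ C * τ * (|a| + |b|) := by
      refine (hR y).trans ?_
      have := mul_le_mul_of_nonneg_left (hτ y) hC.le
      exact mul_le_mul_of_nonneg_right this (by positivity)
    have h2 : (deriv (Rf 4 ε) y) ^ 2 ≤ (C * τ * (|a| + |b|)) ^ 2 := by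
      rw [← sq_abs (deriv (Rf 4 ε) y)]
      exact pow_le_pow_left₀ (abs_nonneg _) h1 2
    have h3 : (|a| + |b|) ^ 2 ≤ 2 * (a ^ 2 + b ^ 2 + d ^ 2) := by
      have h5 := sq_abs a
      have h6 := sq_abs b
      nlinarith [sq_nonneg (|a| - |b|), sq_nonneg d]
    have h5 : (deriv (Rf 4 ε) y) ^ 2 ≤ C ^ 2 * τ ^ 2 * (2 * (a ^ 2 + b ^ 2 + d ^ 2)) := by
      refine h2.trans ?_
      have h6 := mul_le_mul_of_nonneg_left h3 (by positivity : 0 ≤ C ^ 2 * τ ^ 2)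
      have h7 : (C * τ * (|a| + |b|)) ^ 2 = C ^ 2 * τ ^ 2 * (|a| + |b|) ^ 2 := by ring
      rw [h7]
      exact h6
    have h6 := mul_le_mul_of_nonneg_left h5 hch.le
    have h7 := mul_le_mul_of_nonneg_left hab (by positivity : 0 ≤ 2 * C ^ 2 * τ ^ 2)
    have h8 : ch B y * (C ^ 2 * τ ^ 2 * (2 * (a ^ 2 + b ^ 2 + d ^ 2))) =
        2 * C ^ 2 * τ ^ 2 * (ch B y * (a ^ 2 + b ^ 2 + d ^ 2)) := by ring
    rw [h8] at h6
    refine h6.trans (h7.trans (le_of_eq ?_))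
    ring
  have p2 : ch B y * (Lam 4 ε y) ^ 2 ≤
      4000 * B ^ 3 * (ta B s y * (a ^ 2 + b ^ 2 + d ^ 2)) := by
    have h1 : (Lam 4 ε y) ^ 2 ≤ (1 + |y|) ^ 2 * (a ^ 2 + b ^ 2 + d ^ 2) := by
      have h2 : Lam 4 ε y = 1 / 2 * a + y * b := by
        unfold Lam
        push_cast
        ring
      rw [h2]
      have h3 : (1 / 2 * a + y * b) ^ 2 ≤ (1 / 4 + y ^ 2) * (a ^ 2 + b ^ 2) := by
        nlinarith [sq_nonneg (1 / 2 * b - y * a)]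
      have h5 : 1 / 4 + y ^ 2 ≤ (1 + |y|) ^ 2 := by
        have := sq_abs y
        nlinarith [abs_nonneg y]
      have h6 := mul_le_mul_of_nonneg_right h5 (by positivity : 0 ≤ a ^ 2 + b ^ 2)
      have h7 : 0 ≤ (1 + |y|) ^ 2 * d ^ 2 := by positivity
      nlinarith
    have h2 := mul_le_mul_of_nonneg_left h1 hch.le
    have h3 := mul_le_mul_of_nonneg_right (ych_le_ta h y)
      (by positivity : 0 ≤ a ^ 2 + b ^ 2 + d ^ 2)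
    have h5 : ch B y * ((1 + |y|) ^ 2 * (a ^ 2 + b ^ 2 + d ^ 2)) =
        (1 + |y|) ^ 2 * ch B y * (a ^ 2 + b ^ 2 + d ^ 2) := by ring
    rw [h5] at h2
    refine h2.trans (h3.trans (le_of_eq ?_))
    ring
  have p3 : ch B y * b ^ 2 ≤ 240 * B * (ta B s y * (a ^ 2 + b ^ 2 + d ^ 2)) := by
    refine le_trans ?_ hab
    apply mul_le_mul_of_nonneg_left _ hch.le
    nlinarith [sq_nonneg a, sq_nonneg d]
  have p4 : ch B y * (deriv et y) ^ 2 ≤ (et y) ^ 2 + (deriv et y) ^ 2 := by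
    have h1 := mul_le_mul_of_nonneg_right hch1 (sq_nonneg (deriv et y))
    nlinarith [sq_nonneg (et y)]
  have p5 : ch B y * (S y) ^ 2 ≤ 9 * 240 * B * τ₀ ^ 2 * (ta B s y * (a ^ 2 + b ^ 2 + d ^ 2))
      + 3 * (τ₁ ^ 2 + τ₂ ^ 2) * ch B y := by
    have h1 : |S y| ≤ τ₀ * (|a| + |b| + |d|) + τ₁ + τ₂ := by
      have h2 := hSB y
      have h3 := mul_le_mul_of_nonneg_left (Vkk_bd1 y) hτ₁
      linarith
    have h2 : (S y) ^ 2 ≤ (τ₀ * (|a| + |b| + |d|) + τ₁ + τ₂) ^ 2 := by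
      rw [← sq_abs (S y)]
      exact pow_le_pow_left₀ (abs_nonneg _) h1 2
    have h3 : ∀ x z u : ℝ, (x + z + u) ^ 2 ≤ 3 * (x ^ 2 + z ^ 2 + u ^ 2) := by
      intro x z u
      nlinarith [sq_nonneg (x - z), sq_nonneg (x - u), sq_nonneg (z - u)]
    have h5 := h3 (τ₀ * (|a| + |b| + |d|)) τ₁ τ₂
    have h6 := h3 |a| |b| |d|
    rw [sq_abs, sq_abs, sq_abs] at h6
    have h7 : (S y) ^ 2 ≤ 9 * τ₀ ^ 2 * (a ^ 2 + b ^ 2 + d ^ 2) + 3 * (τ₁ ^ 2 + τ₂ ^ 2) := by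
      have h8 := mul_le_mul_of_nonneg_left h6 (by positivity : 0 ≤ 3 * τ₀ ^ 2)
      have h9 : (τ₀ * (|a| + |b| + |d|)) ^ 2 = τ₀ ^ 2 * (|a| + |b| + |d|) ^ 2 := by ring
      rw [h9] at h5
      linarith
    have h8 := mul_le_mul_of_nonneg_left h7 hch.le
    have h9 := mul_le_mul_of_nonneg_left hab (by positivity : 0 ≤ 9 * τ₀ ^ 2)
    have h10 : ch B y * (9 * τ₀ ^ 2 * (a ^ 2 + b ^ 2 + d ^ 2) + 3 * (τ₁ ^ 2 + τ₂ ^ 2)) =
        9 * τ₀ ^ 2 * (ch B y * (a ^ 2 + b ^ 2 + d ^ 2)) + 3 * (τ₁ ^ 2 + τ₂ ^ 2) * ch B y := by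
      ring
    rw [h10] at h8
    have h11 : 9 * τ₀ ^ 2 * (240 * B * (ta B s y * (a ^ 2 + b ^ 2 + d ^ 2))) =
        9 * 240 * B * τ₀ ^ 2 * (ta B s y * (a ^ 2 + b ^ 2 + d ^ 2)) := by ring
    linarith
  set A := ta B s y * (a ^ 2 + b ^ 2 + d ^ 2)
  have q := Vkk_sq5 ((-1) * deriv (Rf 4 ε) y) ((-w) * Lam 4 ε y) (m * b) ((-1) * deriv et y) (S y)
  have q' := mul_le_mul_of_nonneg_left q hch.le
  have e0 : ch B y * (Vkk_G w m ε S et y) ^ 2 = ch B y * ((((-1) * deriv (Rf 4 ε) y +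
      (-w) * Lam 4 ε y) + m * b) + ((-1) * deriv et y + S y)) ^ 2 := rfl
  rw [e0]
  refine q'.trans ?_
  have e1 : ch B y * (5 * (((-1) * deriv (Rf 4 ε) y) ^ 2 + ((-w) * Lam 4 ε y) ^ 2 + (m * b) ^ 2 +
      ((-1) * deriv et y) ^ 2 + (S y) ^ 2)) = 5 * (ch B y * (deriv (Rf 4 ε) y) ^ 2) +
      5 * (w ^ 2 * (ch B y * (Lam 4 ε y) ^ 2)) + 5 * (m ^ 2 * (ch B y * b ^ 2)) +
      5 * (ch B y * (deriv et y) ^ 2) + 5 * (ch B y * (S y) ^ 2) := by ring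
  rw [e1]
  have r2 := mul_le_mul_of_nonneg_left p2 (sq_nonneg w)
  have r3 := mul_le_mul_of_nonneg_left p3 (sq_nonneg m)
  obtain ⟨K, hK⟩ : ∃ K, K = 2 * C ^ 2 * 240 * B + 4000 * B ^ 3 + 240 * B + 9 * 240 * B :=
    ⟨_, rfl⟩
  rw [← hK]
  have k1 : 2 * C ^ 2 * 240 * B ≤ K := by
    rw [hK]
    have : 0 < 4000 * B ^ 3 := by positivity
    linarith
  have k2 : 4000 * B ^ 3 ≤ K := by
    rw [hK]
    have : 0 < 2 * C ^ 2 * 240 * B := by positivity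
    linarith
  have k3 : 240 * B ≤ K := by
    rw [hK]
    have : 0 < 4000 * B ^ 3 := by positivity
    have : 0 < 2 * C ^ 2 * 240 * B := by positivity
    linarith
  have k4 : 9 * 240 * B ≤ K := by
    rw [hK]
    have : 0 < 4000 * B ^ 3 := by positivity
    have : 0 < 2 * C ^ 2 * 240 * B := by positivity
    linarith
  have g1 := mul_le_mul_of_nonneg_right k1 (by positivity : 0 ≤ τ ^ 2 * A)
  have g2 := mul_le_mul_of_nonneg_right k2 (by positivity : 0 ≤ w ^ 2 * A)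
  have g3 := mul_le_mul_of_nonneg_right k3 (by positivity : 0 ≤ m ^ 2 * A)
  have g4 := mul_le_mul_of_nonneg_right k4 (by positivity : 0 ≤ τ₀ ^ 2 * A)
  have e2 : 5 * K * (τ ^ 2 + w ^ 2 + m ^ 2 + τ₀ ^ 2) * A = 5 * (K * (τ ^ 2 * A)) +
      5 * (K * (w ^ 2 * A)) + 5 * (K * (m ^ 2 * A)) + 5 * (K * (τ₀ ^ 2 * A)) := by ring
  rw [e2]
  linarith

/-- the arithmetic for the generic part -/
theorem Vkk_ar {C B K T θ g X Y Z : ℝ} (hC : 0 < C) (hB : 0 < B) (hK : 0 ≤ K) (hT : 0 ≤ T)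
    (hθ : 0 ≤ θ) (hg : 0 ≤ g) (hX : X ≤ 240 * B * T) (hY : Y ≤ K * (θ ^ 2 * T + g))
    (hZ : |Z| ≤ C * √X * √Y) :
    Z ≤ (C * √(240 * B) * √K) * θ * T + T + (C * √(240 * B) * √K) ^ 2 / 4 * g := by
  have h1 : √X ≤ √(240 * B) * √T := by
    rw [← Real.sqrt_mul (by positivity)]
    exact Real.sqrt_le_sqrt hX
  have h2 : √Y ≤ √K * (θ * √T + √g) := by
    have h3 : √(θ ^ 2 * T + g) ≤ θ * √T + √g := by
      rw [Real.sqrt_le_iff]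
      refine ⟨by positivity, ?_⟩
      have h4 : (√T) ^ 2 = T := Real.sq_sqrt hT
      have h5 : (√g) ^ 2 = g := Real.sq_sqrt hg
      have h6 : 0 ≤ 2 * (θ * √T) * √g := by positivity
      nlinarith
    calc √Y ≤ √(K * (θ ^ 2 * T + g)) := Real.sqrt_le_sqrt hY
      _ = √K * √(θ ^ 2 * T + g) := Real.sqrt_mul hK _
      _ ≤ √K * (θ * √T + √g) := mul_le_mul_of_nonneg_left h3 (Real.sqrt_nonneg _)
  have h3 : Z ≤ C * (√(240 * B) * √T) * (√K * (θ * √T + √g)) := by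
    refine (le_abs_self Z).trans (hZ.trans ?_)
    refine mul_le_mul (mul_le_mul_of_nonneg_left h1 hC.le) h2 (Real.sqrt_nonneg _) ?_
    positivity
  obtain ⟨A, hA⟩ : ∃ A, A = C * √(240 * B) * √K := ⟨_, rfl⟩
  rw [← hA]
  have h4 : C * (√(240 * B) * √T) * (√K * (θ * √T + √g)) = A * θ * √T ^ 2 + A * √T * √g := by
    rw [hA]
    ring
  rw [h4, Real.sq_sqrt hT] at h3
  have h5 : A * √T * √g ≤ T + A ^ 2 / 4 * g := by
    have e1 : (√T) ^ 2 = T := Real.sq_sqrt hT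
    have e2 : (√g) ^ 2 = g := Real.sq_sqrt hg
    have e3 : 0 ≤ (√T - A / 2 * √g) ^ 2 := sq_nonneg _
    have e4 : (√T - A / 2 * √g) ^ 2 = √T ^ 2 + A ^ 2 / 4 * √g ^ 2 - A * √T * √g := by ring
    rw [e4, e1, e2] at e3
    linarith
  linarith

theorem DV4_le : ∃ γ η δ c₁ C₁ B₀ : ℝ, 0 < γ ∧ γ ≤ 1 / 8 ∧ 0 < η ∧ η ≤ 1 ∧ 0 < δ ∧
    δ ≤ 1 / 16 ∧ 0 < c₁ ∧ 0 < C₁ ∧ 16 ≤ B₀ ∧ ∀ B : ℝ, B₀ ≤ B → ∃ C₂ : ℝ, 0 < C₂ ∧
    ∀ s, Slow4 B s → ∀ (τ : ℝ) (ε S et : ℝ → ℝ), Cl 0 0 ε → Cl 0 0 S →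
    (∃ p q : ℝ, 0 < p ∧ 0 < q ∧ Cl p q et) → τ ≤ 1 → (∀ y, |ε y| ≤ τ) →
    ∀ β w m τ₀ τ₁ τ₂ : ℝ, 0 ≤ w → 0 ≤ τ₀ → 0 ≤ τ₁ → 0 ≤ τ₂ → SB τ₀ τ₁ τ₂ ε S →
    DV 4 η γ B δ ε (Dz β w m ε S et) ≤ -c₁ * ln γ B ε + C₁ * T4 B s ε
      + C₁ * ((ip ε rho) ^ 2 + (ip ε (deriv (Qf 4))) ^ 2)
      + C₁ * (β * ip (Lam 4 (Qf 4)) rho - ip (Lop 4 ε) (deriv rho)) ^ 2
      + C₂ * (τ + w + |m| + τ₀) * T4 B s ε + C₂ * (ne2 et + τ₁ ^ 2 + τ₂ ^ 2) := by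
  obtain ⟨γ, Ci, hγ, hγ8, hCi, hinv⟩ := inv_loc0
  obtain ⟨η, δ, c₀, Cv, B₁, hη, hη1, hδ, hδ', hc₀, hCv, hB₁, hvl⟩ := vir_lin4 γ hγ hγ8
  obtain ⟨Cw, hCw, hwt⟩ := vf_wt 4 (by norm_num) δ hδ hδ'
  obtain ⟨CF, hCF, hVF⟩ := VF0 γ η δ hη hη1 hδ hδ'
  obtain ⟨CR, hCR, hRd⟩ := Rd_le 4 (by norm_num)
  refine ⟨γ, η, δ, c₀ / Ci, 240 * Cv * Cw + Cv + c₀ + 1, max B₁ (1 / γ), hγ, hγ8,
    hη, hη1, hδ, hδ', by positivity, by positivity, hB₁.trans (le_max_left _ _), ?_⟩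
  intro B hB
  have hBB : B₁ ≤ B := (le_max_left _ _).trans hB
  have hB16 : 16 ≤ B := hB₁.trans hBB
  have hBγ : 1 / γ ≤ B := (le_max_right _ _).trans hB
  have hB0 : 0 < B := by linarith
  have h2B : 0 < 2 / B := by positivity
  have hch : Cl (2 / B) (2 / B) (ch B) := Cl_ch hB0
  have hchi : Integrable (ch B) := Cl_int hch h2B h2B
  have hI0 : 0 ≤ ∫ y, ch B y := integral_nonneg fun y => (Vkk_chp B y).le
  obtain ⟨K, hKd⟩ : ∃ K, K = 5 * (2 * CR ^ 2 * 240 * B + 4000 * B ^ 3 + 240 * B + 9 * 240 * B)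
      + 5 + 15 * ∫ y, ch B y := ⟨_, rfl⟩
  have hK : 0 ≤ K := by
    rw [hKd]
    positivity
  obtain ⟨A, hA⟩ : ∃ A, A = CF * √(240 * B) * √K := ⟨_, rfl⟩
  have hA0 : 0 ≤ A := by
    rw [hA]
    positivity
  refine ⟨A + A ^ 2 / 4 + 1, by positivity, ?_⟩
  intro s hs τ ε S et hε hS het hτ1 hτ β w m τ₀ τ₁ τ₂ hw hτ₀ hτ₁ hτ₂ hSB
  obtain ⟨p, q, hp, hq, hetc⟩ := het
  have het0 : Cl 0 0 et := Cl_mono hetc hp.le hq.le
  have hτ0 : 0 ≤ τ := (abs_nonneg _).trans (hτ 0)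
  have hε1 : Cl 0 0 (deriv ε) := Cl_der hε
  have hε2 : Cl 0 0 (deriv (deriv ε)) := Cl_der hε1
  have hz2 : |(0 : ℝ)| ≤ 2 := by norm_num
  -- integrability
  have sqc : ∀ {f : ℝ → ℝ}, Cl 0 0 f → Cl 0 0 (fun y => f y ^ 2) := fun hf => Cl_pow0 hf 2
  have i1 : Integrable (fun y => ch B y * ((ε y) ^ 2 + (deriv ε y) ^ 2)) := by
    have h1 := Cl_mul0 (Cl_add (sqc hε) (sqc hε1)) hch
    refine (Cl_int h1 h2B h2B).congr (Eventually.of_forall fun y => ?_)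
    simp only
    ring
  have i0 : Integrable (fun y => ch B y * (ε y) ^ 2) := by
    have h1 := Cl_mul0 (sqc hε) hch
    refine (Cl_int h1 h2B h2B).congr (Eventually.of_forall fun y => ?_)
    simp only
    ring
  obtain ⟨pt, qt, hpt, hqt, htac⟩ : ∃ p q : ℝ, 0 < p ∧ 0 < q ∧ Cl p q (ta B s) := by
    obtain ⟨h1, h2, h3, h4⟩ := Wzb_h hs
    exact ⟨_, _, by positivity, by positivity, Cl_ta hs⟩
  have iT : Integrable (fun y => ta B s y * ((ε y) ^ 2 + (deriv ε y) ^ 2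
      + (deriv (deriv ε) y) ^ 2)) := by
    have h1 := Cl_mul0 (Cl_add (Cl_add (sqc hε) (sqc hε1)) (sqc hε2)) htac
    refine (Cl_int h1 hpt hqt).congr (Eventually.of_forall fun y => ?_)
    simp only
    ring
  have iE : Integrable (fun y => (et y) ^ 2 + (deriv et y) ^ 2) := by
    have h1 := Cl_add (Cl_mul hetc hetc) (Cl_mul (Cl_der hetc) (Cl_der hetc))
    refine (Cl_int h1 (by linarith) (by linarith)).congr (Eventually.of_forall fun y => ?_)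
    simp only
    ring
  have hT0 : 0 ≤ T4 B s ε := by
    rw [T4_eq]
    refine integral_nonneg fun y => ?_
    have := ta_pos hs y
    positivity
  have hE0 : 0 ≤ ne2 et := by
    unfold ne2
    exact integral_nonneg fun y => by positivity
  have hXT : (∫ y, ch B y * ((ε y) ^ 2 + (deriv ε y) ^ 2)) ≤ 240 * B * T4 B s ε := by
    rw [T4_eq, ← integral_const_mul]
    refine integral_mono i1 (iT.const_mul _) fun y => ?_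
    have h1 := ch_le_ta hs y
    have h2 : 0 ≤ (ε y) ^ 2 + (deriv ε y) ^ 2 := by positivity
    have h3 := mul_le_mul_of_nonneg_right h1 h2
    have h4 : 0 ≤ 240 * B * ta B s y * (deriv (deriv ε) y) ^ 2 := by
      have := ta_pos hs y
      positivity
    simp only
    linarith
  have hX0T : (∫ y, ch B y * (ε y) ^ 2) ≤ 240 * B * T4 B s ε := by
    refine le_trans (integral_mono i0 i1 fun y => ?_) hXT
    have h4 : 0 ≤ ch B y * (deriv ε y) ^ 2 := by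
      have := Vkk_chp B y
      positivity
    simp only
    linarith
  have hY : (∫ y, ch B y * ((vf 4 δ ε y) ^ 2 + (deriv (vf 4 δ ε) y) ^ 2)) ≤
      Cw * ∫ y, ch B y * ((ε y) ^ 2 + (deriv ε y) ^ 2) := by
    refine hwt 0 0 (2 / B) (2 / B) ε (ch B) hz2 hz2 hε hch (fun y => Vkk_chp B y) ?_
      (by linarith) (by linarith)
    intro y
    have h1 := ch2_le (B := B) (by linarith) y
    have h2 := Vkk_chp B y
    have h3 : 8 / B ^ 2 ≤ 1 := by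
      rw [div_le_one (by positivity)]
      nlinarith
    have h4 : |deriv (deriv (ch B)) y| ≤ 1 * ch B y :=
      h1.trans (mul_le_mul_of_nonneg_right h3 h2.le)
    have h5 : δ * |deriv (deriv (ch B)) y| ≤ 1 / 16 * (1 * ch B y) :=
      mul_le_mul hδ' h4 (abs_nonneg _) (by norm_num)
    linarith
  -- the generic part
  obtain ⟨θ, hθ⟩ : ∃ θ, θ = τ + w + |m| + τ₀ := ⟨_, rfl⟩
  have hm0 := abs_nonneg m
  have hθ0 : 0 ≤ θ := by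
    rw [hθ]
    positivity
  have hθ2 : τ ^ 2 + w ^ 2 + m ^ 2 + τ₀ ^ 2 ≤ θ ^ 2 := by
    rw [hθ, ← sq_abs m]
    have e : (τ + w + |m| + τ₀) ^ 2 = τ ^ 2 + w ^ 2 + |m| ^ 2 + τ₀ ^ 2 + 2 * (τ * w + τ * |m| +
      τ * τ₀ + w * |m| + w * τ₀ + |m| * τ₀) := by ring
    have : 0 ≤ τ * w + τ * |m| + τ * τ₀ + w * |m| + w * τ₀ + |m| * τ₀ := by positivity
    linarith
  obtain ⟨c, hcd⟩ : ∃ c, c = 1 / (2 * B) := ⟨_, rfl⟩
  have hc : 0 < c := by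
    rw [hcd]
    positivity
  have hcB : c + c < 2 / B := by
    rw [hcd, lt_div_iff₀ hB0]
    have : (1 / (2 * B) + 1 / (2 * B)) * B = 1 := by
      field_simp
      norm_num
    linarith
  have hG := Vkk_Gcl (w := w) (m := m) hc hε hS het0
  have iG : Integrable (fun y => ch B y * (Vkk_G w m ε S et y) ^ 2) := by
    have h1 := Cl_mul hch (Cl_mul hG hG)
    refine (Cl_int h1 (by linarith) (by linarith)).congr (Eventually.of_forall fun y => ?_)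
    simp only
    ring
  obtain ⟨K1, hK1⟩ : ∃ K1, K1 = 5 * (2 * CR ^ 2 * 240 * B + 4000 * B ^ 3 + 240 * B + 9 * 240 * B) :=
    ⟨_, rfl⟩
  have hK10 : 0 ≤ K1 := by
    rw [hK1]
    positivity
  have hGle : (∫ y, ch B y * (Vkk_G w m ε S et y) ^ 2) ≤
      K * (θ ^ 2 * T4 B s ε + (ne2 et + τ₁ ^ 2 + τ₂ ^ 2)) := by
    have h1 : (∫ y, ch B y * (Vkk_G w m ε S et y) ^ 2) ≤
        ∫ y, ((K1 * (τ ^ 2 + w ^ 2 + m ^ 2 + τ₀ ^ 2))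
        * (ta B s y * ((ε y) ^ 2 + (deriv ε y) ^ 2 + (deriv (deriv ε) y) ^ 2))
      + 5 * ((et y) ^ 2 + (deriv et y) ^ 2) + (15 * (τ₁ ^ 2 + τ₂ ^ 2)) * ch B y) := by
      refine integral_mono iG (((iT.const_mul _).add (iE.const_mul _)).add (hchi.const_mul _))
        fun y => ?_
      rw [hK1]
      exact Vkk_pt hs hCR (fun z => hRd 0 0 ε hε z ((hτ z).trans hτ1)) hτ hτ₀ hτ₁ hτ₂ hSB y
    have i12 : Integrable (fun y => (K1 * (τ ^ 2 + w ^ 2 + m ^ 2 + τ₀ ^ 2))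
        * (ta B s y * ((ε y) ^ 2 + (deriv ε y) ^ 2 + (deriv (deriv ε) y) ^ 2))
      + 5 * ((et y) ^ 2 + (deriv et y) ^ 2)) := (iT.const_mul _).add (iE.const_mul _)
    rw [integral_add i12 (hchi.const_mul _),
      integral_add (iT.const_mul _) (iE.const_mul _), integral_const_mul, integral_const_mul,
      integral_const_mul, ← T4_eq] at h1
    have e1 : (∫ y, ((et y) ^ 2 + (deriv et y) ^ 2)) = ne2 et := rfl
    rw [e1] at h1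
    have h2 : K1 * (τ ^ 2 + w ^ 2 + m ^ 2 + τ₀ ^ 2) * T4 B s ε ≤ K * (θ ^ 2 * T4 B s ε) := by
      have h3 : K1 ≤ K := by
        rw [hK1, hKd]
        linarith
      have h4 : K1 * (τ ^ 2 + w ^ 2 + m ^ 2 + τ₀ ^ 2) ≤ K * θ ^ 2 :=
        mul_le_mul h3 hθ2 (by positivity) hK
      have h5 := mul_le_mul_of_nonneg_right h4 hT0
      linarith
    have h3 : 5 * ne2 et ≤ K * ne2 et := by
      apply mul_le_mul_of_nonneg_right _ hE0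
      rw [hKd, ← hK1]
      linarith
    have h4 : 15 * (τ₁ ^ 2 + τ₂ ^ 2) * (∫ y, ch B y) ≤ K * (τ₁ ^ 2 + τ₂ ^ 2) := by
      have h5 : 15 * (∫ y, ch B y) ≤ K := by
        rw [hKd, ← hK1]
        linarith
      have h6 := mul_le_mul_of_nonneg_right h5 (by positivity : 0 ≤ τ₁ ^ 2 + τ₂ ^ 2)
      linarith
    have e2 : K * (θ ^ 2 * T4 B s ε + (ne2 et + τ₁ ^ 2 + τ₂ ^ 2)) = K * (θ ^ 2 * T4 B s ε) +
        K * ne2 et + K * (τ₁ ^ 2 + τ₂ ^ 2) := by ring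
    rw [e2]
    linarith
  have hGc : Cl (-(1 / (2 * B))) (-(1 / (2 * B))) (Vkk_G w m ε S et) := by
    rw [← hcd]
    exact hG
  have hZ := Vkk_ar (θ := θ) (g := ne2 et + τ₁ ^ 2 + τ₂ ^ 2) hCF hB0 hK hT0 hθ0 (by positivity)
    hX0T hGle (hVF B hB16 ε (Vkk_G w m ε S et) hε hGc)
  rw [← hA] at hZ
  rw [Vkk_DV hB16 hδ hδ' hε hS het0]
  have hb := hvl B hBB ε hε β
  have hi := hinv γ B δ hγ le_rfl hB16 hBγ hδ hδ' ε hε
  obtain ⟨A1, hA1⟩ : ∃ A1, A1 = ∫ y, loc γ B y * ((vf 4 δ ε y) ^ 2 + (deriv (vf 4 δ ε) y) ^ 2) :=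
    ⟨_, rfl⟩
  rw [← hA1] at hb hi
  have t0 : Cv / B * (∫ y, ch B y * ((vf 4 δ ε y) ^ 2 + (deriv (vf 4 δ ε) y) ^ 2)) ≤
      240 * Cv * Cw * T4 B s ε := by
    have e1 := mul_le_mul_of_nonneg_left (hY.trans (mul_le_mul_of_nonneg_left hXT hCw.le))
      (by positivity : 0 ≤ Cv / B)
    have e2 : Cv / B * (Cw * (240 * B * T4 B s ε)) = 240 * Cv * Cw * T4 B s ε := by
      field_simp
    linarith
  have t1 : -c₀ * A1 ≤ -(c₀ / Ci) * ln γ B ε + c₀ * (ip ε (deriv (Qf 4))) ^ 2 := by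
    have h1 : c₀ / Ci * ln γ B ε ≤ c₀ / Ci * (Ci * (A1 + (ip ε (deriv (Qf 4))) ^ 2)) :=
      mul_le_mul_of_nonneg_left hi (by positivity)
    have h2 : c₀ / Ci * (Ci * (A1 + (ip ε (deriv (Qf 4))) ^ 2)) =
        c₀ * (A1 + (ip ε (deriv (Qf 4))) ^ 2) := by
      field_simp
    linarith
  obtain ⟨X, hX⟩ : ∃ X, X = β * ip (Lam 4 (Qf 4)) rho - ip (Lop 4 ε) (deriv rho) := ⟨_, rfl⟩
  rw [← hX] at hb ⊢
  obtain ⟨C₁, hC₁⟩ : ∃ C₁, C₁ = 240 * Cv * Cw + Cv + c₀ + 1 := ⟨_, rfl⟩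
  obtain ⟨C₂, hC₂⟩ : ∃ C₂, C₂ = A + A ^ 2 / 4 + 1 := ⟨_, rfl⟩
  rw [← hC₁, ← hC₂, ← hθ]
  have v0 : 0 < 240 * Cv * Cw := by positivity
  have u1 : 240 * Cv * Cw * T4 B s ε + T4 B s ε ≤ C₁ * T4 B s ε := by
    have : 240 * Cv * Cw + 1 ≤ C₁ := by
      rw [hC₁]
      linarith
    have := mul_le_mul_of_nonneg_right this hT0
    linarith
  have u2 : Cv * (ip ε rho) ^ 2 ≤ C₁ * (ip ε rho) ^ 2 := by
    apply mul_le_mul_of_nonneg_right _ (sq_nonneg _)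
    rw [hC₁]
    linarith
  have u3 : c₀ * (ip ε (deriv (Qf 4))) ^ 2 ≤ C₁ * (ip ε (deriv (Qf 4))) ^ 2 := by
    apply mul_le_mul_of_nonneg_right _ (sq_nonneg _)
    rw [hC₁]
    linarith
  have u4 : Cv * X ^ 2 ≤ C₁ * X ^ 2 := by
    apply mul_le_mul_of_nonneg_right _ (sq_nonneg _)
    rw [hC₁]
    linarith
  have u5 : A * θ * T4 B s ε ≤ C₂ * θ * T4 B s ε := by
    have h1 : A ≤ C₂ := by
      rw [hC₂]
      have := sq_nonneg A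
      linarith
    exact mul_le_mul_of_nonneg_right (mul_le_mul_of_nonneg_right h1 hθ0) hT0
  have u6 : A ^ 2 / 4 * (ne2 et + τ₁ ^ 2 + τ₂ ^ 2) ≤ C₂ * (ne2 et + τ₁ ^ 2 + τ₂ ^ 2) := by
    apply mul_le_mul_of_nonneg_right _ (by positivity)
    rw [hC₂]
    linarith
  linarith

end H98KC

end
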