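import Pool.Agent.H98.KC.Fmf
import Pool.Agent.H98.KC.Vkk
import Pool.Agent.H98.KC.Dcb
import Pool.Agent.H98.KC.Cof
import Pool.Agent.H98.KC.Cog
import Pool.Agent.H98.KC.Gof

/-!
# Gog (MP_95be7d_S4): assembly of `GoodA` (variant of `KB/Goo.lean`; uses only the STATEMENTS of the imported rows)

Notation: `s = r²`, `l = r⁸`, `ε = ep P E s W`, `Λn = ln γ B ε`, `n = √Λn`, `ν₂ = ne2 et`, `A = alm`, `q₀ = ip W Q' = ip ε Q'` (`ep_Qd`), `p₀ = ip (W-Q) ρ = ip ε ρ` (`ep_rho`), `ip ε Q = 0` (`ep_Q`),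
`ε ∈ Cl 0 0` (`ep_cl`), `epD = Dz (b-w) w m ε S et` (`epD_eq`), `S = Sf ...` of class `Cl 0 0` (`Sf_cl`), `SB τ₀ τ₁ τ₂ ε S` (`Sf_le`, `C_S`) with
`τ₀ = C_S r⁴`, `τ₁ = C_S(r⁸+r⁴|m|+|bqD|)`, `τ₂ = C_S|A|`; `τ = c` (bound for `|ε|`).
Constants: `(γ,η,δ,c₁,C₁,B₀)` from `DV4_le`; `(ν,C_E)` from `DE4_le`; `(C_m,r_m,c_m)` from `MOu`; `(ν',c_L,C_L,B₁)` from `CO_E4`; `C_V` from `CV4`; `C_u` from `CO_up4`.
`M := max (64C₁) (4C_V/c_L)`.  `B ≥ B₀, B₁` so large that `M C_E/B ≤ c₁/16` and `8M C_E C_m/B ≤ c₁/16`.  `C₂ = C₂(B)` = max of the constants of `DE4_le`, `DV4_le` for this `B`.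
Then `c₁' ≤ ν, ν', c_m, 1/10` small, then for `c ≤ c₁'` and `Ca` the number `r1` small (`16 r1² B ≤ 1`, so `Slow4 B (r²)`).

ML: `M DE4 + DV ≤ (-M/8+C₁)T4 + (M C_E/B - c₁)Λn + M C_E(1+w/s)Bad + M C_E(|b-w|+|m|)(1/B+c)n + C₂'(|m|+w/s+τ₀/s+c+w+τ₀)(T4+Λn) + (M C_E/s+C₂)ν₂ + C₂'(τ₁²+τ₂²/s²) + C₁(p₀²+q₀²) + C₁X²`
(`C₂' = (M+1)C₂`, `X = (b-w)(ΛQ,ρ)-(Lε,ρ')`, `τ₂² ≤ τ₂²/s²`).  By `MOu`:
* `|m|+|b-w| ≤ 2C_m(n+r⁸+√ν₂)`, `2M C_E C_m(1/B+c)(n+r⁸+√ν₂)n ≤ 2M C_E C_m(1/B+c)(2Λn+r¹⁶+ν₂)`, with `4M C_E C_m(1/B+c) ≤ c₁/16` (`c` small).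
* `|m| ≤ C_m(√c+r⁸+√c)` (`lnc`, `e1`), `w/s ≤ 5c0 r²`, `τ₀/s = C_S r²`: the factor `C₂'(...)` is `≤ min(M/64, c₁/16)` for `c`, `r` small.
* `X² ≤ 4C_m²(r¹⁶+r⁸Λn+Λn²+ν₂)`, `Λn² ≤ cΛn`: `4C₁C_m²(r⁸+c) ≤ c₁/16`.
* `τ₁² ≤ C(r¹⁶+r⁸m²+bqD²)`, `m² ≤ 3C_m²(Λn+r¹⁶+ν₂)`, `bqD² ≤ 6C_m²(r¹⁶+r⁸Λn+Λn²+A²+q₀²+ν₂)`: coefficient of `Λn` is `≤ C(r⁸+c) ≤ c₁/16`; `A² ≤ A²/r⁴`; `τ₂²/s² = C_S²A²/r⁴`.
* `M/8-C₁-M/64 ≥ M/16`; `c₁-5c₁/16 ≥ c₁/2`; `(1+w/s) ≤ 2`; `M C_E/s+C₂ + ... ≤ C/r²`.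
So `≤ -(M/16)T4 - (c₁/2)Λn + C Bad + C(r¹⁶+A²/r⁴+q₀²+p₀²) + (C/r²)ν₂`, and `c ≤ M/16, c₁/2`.
CO: `r1` with `Slow4 B (r²)`: `c_L G4 ≤ E4+C_L(0+q₀²+p₀²)`, `|Vf| ≤ C_V G4`, `M c_L - C_V ≥ (M/2)c_L·(3/2)`: `(M c_L/2) G4 ≤ M E4+Vf+M C_L(q₀²+p₀²)`; upper bound `CO_up4`, `CV4`; `LN4`.
`C₁` of the conclusion = maximum of all constants (and `≥ M C_L`, `≥ 2/(M c_L)`, `≥ 1`); all inequalities are monotone in `C` (for `CO` use `0 ≤ G4` so the bracket is `≥ 0`).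
`hc1 : c ≤ 1/10`.
-/

open MeasureTheory Filter Topology Set
open scoped ContDiff

noncomputable section

namespace H98KC

open H98KB H68KC

variable {P E : ℝ → ℝ}

theorem Gog_min (l : List ℝ) (h : ∀ x ∈ l, 0 < x) : ∃ c : ℝ, 0 < c ∧ ∀ x ∈ l, c ≤ x := by
  induction l with
  | nil => exact ⟨1, one_pos, by simp⟩
  | cons a l ih =>
    obtain ⟨c, hc, h2⟩ := ih fun x hx => h x (List.mem_cons_of_mem _ hx)
    refine ⟨min a c, lt_min (h a List.mem_cons_self) hc, fun x hx => ?_⟩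
    rcases List.mem_cons.1 hx with rfl | hx
    · exact min_le_left _ _
    · exact (min_le_right _ _).trans (h2 x hx)

theorem Gog_max (l : List ℝ) : ∃ c : ℝ, 1 ≤ c ∧ ∀ x ∈ l, x ≤ c := by
  induction l with
  | nil => exact ⟨1, le_rfl, by simp⟩
  | cons a l ih =>
    obtain ⟨c, hc, h2⟩ := ih
    refine ⟨max a c, hc.trans (le_max_right _ _), fun x hx => ?_⟩
    rcases List.mem_cons.1 hx with rfl | hx
    · exact le_max_left _ _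
    · exact (h2 x hx).trans (le_max_right _ _)

theorem Gog_small {a b : ℝ} (ha : 0 ≤ a) (hb : 0 < b) :
    ∃ c₀ : ℝ, 0 < c₀ ∧ ∀ c, c ≤ c₀ → a * √c ≤ b := by
  have ha1 : 0 < a + 1 := by linarith
  refine ⟨(b / (a + 1)) ^ 2, by positivity, fun c hc => ?_⟩
  have h1 : √c ≤ b / (a + 1) := by
    rw [Real.sqrt_le_left (by positivity)]
    exact hc
  have h2 : a * √c ≤ (a + 1) * √c :=
    mul_le_mul_of_nonneg_right (by linarith) (Real.sqrt_nonneg c)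
  have h3 := mul_le_mul_of_nonneg_left h1 ha1.le
  have h4 : (a + 1) * (b / (a + 1)) = b := by field_simp
  linarith

theorem Gog_CO {M cL CL CV' Cup C G E V x : ℝ} (hM : 0 < M) (hcL : 0 < cL) (hG : 0 ≤ G)
    (hx : 0 ≤ x) (hC0 : 0 ≤ C) (h1 : cL * G ≤ E + CL * x) (hV : |V| ≤ CV' * G)
    (hE : |E| ≤ Cup * G) (hM3 : 4 * CV' ≤ M * cL) (hCa : 2 / (M * cL) ≤ C) (hCb : M * CL ≤ C)
    (hCc : M * Cup + CV' ≤ C) :
    G ≤ C * (M * E + V + C * x) ∧ |M * E + V| ≤ C * G := by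
  have hMc : 0 < M * cL := mul_pos hM hcL
  constructor
  · have h2 := mul_le_mul_of_nonneg_left h1 hM.le
    have h3 : 4 * CV' * G ≤ M * cL * G := mul_le_mul_of_nonneg_right hM3 hG
    have h4 := (abs_le.1 hV).1
    have h5 : 0 ≤ M * cL * G := mul_nonneg hMc.le hG
    have h6 : M * cL / 2 * G ≤ M * E + V + M * CL * x := by
      have e1 : M * (cL * G) = M * cL * G := by ring
      have e2 : M * (E + CL * x) = M * E + M * CL * x := by ring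
      rw [e1, e2] at h2
      linarith
    have h7 : 0 ≤ M * E + V + M * CL * x := by
      have : 0 ≤ M * cL / 2 * G := by positivity
      linarith
    have h8 : M * E + V + M * CL * x ≤ M * E + V + C * x := by
      have := mul_le_mul_of_nonneg_right hCb hx
      linarith
    calc G = 2 / (M * cL) * (M * cL / 2 * G) := by field_simp
      _ ≤ 2 / (M * cL) * (M * E + V + M * CL * x) :=
        mul_le_mul_of_nonneg_left h6 (by positivity)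
      _ ≤ C * (M * E + V + M * CL * x) := mul_le_mul_of_nonneg_right hCa h7
      _ ≤ C * (M * E + V + C * x) := mul_le_mul_of_nonneg_left h8 hC0
  · have h2 := mul_le_mul_of_nonneg_right hCc hG
    have h3 : |M * E| ≤ M * (Cup * G) := by
      rw [abs_mul, abs_of_pos hM]
      exact mul_le_mul_of_nonneg_left hE hM.le
    have h4 := abs_add_le (M * E) V
    have e : (M * Cup + CV') * G = M * (Cup * G) + CV' * G := by ring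
    rw [e] at h2
    linarith

theorem Gog_c {A Cm c₁ t x y R β m : ℝ} (hA : 0 < A) (hCm : 0 < Cm) (ht : 0 ≤ t)
    (hx : 0 ≤ x) (hβ : |β| ≤ Cm * (x + R + y)) (hm : |m| ≤ Cm * (x + R + y))
    (h1 : 4 * (A * Cm) * t ≤ c₁ / 8) :
    A * |β| * (t * x) + A * |m| * (t * x) ≤ c₁ / 8 * x ^ 2 + c₁ / 32 * (R ^ 2 + y ^ 2) := by
  have h2 : (|β| + |m|) * x ≤ 2 * (Cm * (x + R + y)) * x :=
    mul_le_mul_of_nonneg_right (by linarith) hx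
  have h3 : 2 * ((x + R + y) * x) ≤ 4 * x ^ 2 + R ^ 2 + y ^ 2 := by
    have a1 := sq_nonneg (x - R)
    have a2 := sq_nonneg (x - y)
    have e1 : (x - R) ^ 2 = x ^ 2 - 2 * (x * R) + R ^ 2 := by ring
    have e2 : (x - y) ^ 2 = x ^ 2 - 2 * (x * y) + y ^ 2 := by ring
    have e3 : 2 * ((x + R + y) * x) = 2 * x ^ 2 + 2 * (x * R) + 2 * (x * y) := by ring
    rw [e3]
    rw [e1] at a1
    rw [e2] at a2
    linarith
  have h4 := mul_le_mul_of_nonneg_left h3 hCm.le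
  have h5 : (|β| + |m|) * x ≤ Cm * (4 * x ^ 2 + R ^ 2 + y ^ 2) := by
    have e1 : 2 * (Cm * (x + R + y)) * x = Cm * (2 * ((x + R + y) * x)) := by ring
    linarith
  have h6 := mul_le_mul_of_nonneg_left h5 (mul_nonneg hA.le ht)
  have h7 : 0 ≤ 4 * x ^ 2 + R ^ 2 + y ^ 2 := by positivity
  have h8 := mul_le_mul_of_nonneg_right h1 h7
  have e1 : A * |β| * (t * x) + A * |m| * (t * x) = A * t * ((|β| + |m|) * x) := by ring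
  have e2 : A * t * (Cm * (4 * x ^ 2 + R ^ 2 + y ^ 2)) =
    1 / 4 * (4 * (A * Cm) * t * (4 * x ^ 2 + R ^ 2 + y ^ 2)) := by ring
  rw [e1]
  rw [e2] at h6
  linarith

theorem Gog_d {M C₂ c₁ σ₁ σ₂ σ T L : ℝ} (hM : 0 < M) (hC₂ : 0 < C₂) (hT : 0 ≤ T) (hL : 0 ≤ L)
    (hσ0 : 0 ≤ σ) (h1 : σ₁ ≤ σ) (h2 : σ₂ ≤ σ) (hσ1 : (M + 1) * C₂ * σ ≤ M / 64)
    (hσ2 : (M + 1) * C₂ * σ ≤ c₁ / 16) :
    M * (C₂ * σ₁ * (T + L)) + C₂ * σ₂ * T ≤ M / 64 * T + c₁ / 16 * L := by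
  have a1 : C₂ * σ₁ * (T + L) ≤ C₂ * σ * (T + L) :=
    mul_le_mul_of_nonneg_right (mul_le_mul_of_nonneg_left h1 hC₂.le) (add_nonneg hT hL)
  have a2 := mul_le_mul_of_nonneg_left a1 hM.le
  have a3 : C₂ * σ₂ * T ≤ C₂ * σ * T :=
    mul_le_mul_of_nonneg_right (mul_le_mul_of_nonneg_left h2 hC₂.le) hT
  have a4 := mul_le_mul_of_nonneg_right hσ1 hT
  have a5 := mul_le_mul_of_nonneg_right hσ2 hL
  have a6 : 0 ≤ C₂ * σ * L := mul_nonneg (mul_nonneg hC₂.le hσ0) hL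
  have e1 : M * (C₂ * σ * (T + L)) + C₂ * σ * T = (M + 1) * C₂ * σ * T + (M + 1) * C₂ * σ * L
    - C₂ * σ * L := by ring
  linarith

theorem Gog_sq3 (a b c : ℝ) : (a + b + c) ^ 2 ≤ 3 * (a ^ 2 + b ^ 2 + c ^ 2) := by
  have a1 := sq_nonneg (a - b)
  have a2 := sq_nonneg (a - c)
  have a3 := sq_nonneg (b - c)
  nlinarith only [a1, a2, a3]

theorem Gog_sq4 (a b c d : ℝ) : (a + b + c + d) ^ 2 ≤ 4 * (a ^ 2 + b ^ 2 + c ^ 2 + d ^ 2) := by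
  have a1 := sq_nonneg (a - b)
  have a2 := sq_nonneg (a - c)
  have a3 := sq_nonneg (b - c)
  have a4 := sq_nonneg (a - d)
  have a5 := sq_nonneg (b - d)
  have a6 := sq_nonneg (c - d)
  nlinarith only [a1, a2, a3, a4, a5, a6]

theorem Gog_sq6 (a b c d e f : ℝ) : (a + b + c + d + e + f) ^ 2 ≤
    6 * (a ^ 2 + b ^ 2 + c ^ 2 + d ^ 2 + e ^ 2 + f ^ 2) := by
  have h1 := Gog_sq3 (a + b) (c + d) (e + f)
  have h2 := sq_nonneg (a - b)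
  have h3 := sq_nonneg (c - d)
  have h4 := sq_nonneg (e - f)
  have e1 : (a + b + c + d + e + f) = (a + b) + (c + d) + (e + f) := by ring
  rw [e1]
  nlinarith only [h1, h2, h3, h4]

/-- the bound for `τ₁²` -/
theorem Gog_f {CS Cm c r4 R x y L e m D A q : ℝ} (hCS : 0 < CS) (hCm : 0 < Cm) (hr4 : 0 ≤ r4)
    (hR : R = r4 ^ 2) (hR1 : R ≤ 1) (hxx : x ^ 2 = L) (hyy : y ^ 2 = e)
    (hL0 : 0 ≤ L) (hLc : L ≤ c)
    (hm : |m| ≤ Cm * (x + R + y)) (hD : |D| ≤ Cm * (R + r4 * x + L + |A| + |q| + y)) :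
    (CS * (R + r4 * |m| + |D|)) ^ 2 ≤ 3 * CS ^ 2 * ((1 + 9 * Cm ^ 2) * R ^ 2
      + (9 * Cm ^ 2 * R + 6 * Cm ^ 2 * c) * L + 9 * Cm ^ 2 * e + 6 * Cm ^ 2 * (A ^ 2 + q ^ 2)) := by
  have hR0 : 0 ≤ R := by rw [hR]; positivity
  have he0 : 0 ≤ e := by rw [← hyy]; positivity
  have h1 := Gog_sq3 R (r4 * |m|) |D|
  have hmm : |m| ^ 2 ≤ (Cm * (x + R + y)) ^ 2 := pow_le_pow_left₀ (abs_nonneg m) hm 2
  have hDD : |D| ^ 2 ≤ (Cm * (R + r4 * x + L + |A| + |q| + y)) ^ 2 :=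
    pow_le_pow_left₀ (abs_nonneg D) hD 2
  have h2 := Gog_sq3 x R y
  have h3 := Gog_sq6 R (r4 * x) L |A| |q| y
  rw [mul_pow] at hmm hDD
  have hC2 : 0 < Cm ^ 2 := by positivity
  have h4 := mul_le_mul_of_nonneg_left h2 hC2.le
  have h5 := mul_le_mul_of_nonneg_left h3 hC2.le
  have h6 : R * |m| ^ 2 ≤ 3 * Cm ^ 2 * (R * L + R ^ 2 + e) := by
    have a1 : R * |m| ^ 2 ≤ R * (Cm ^ 2 * (3 * (L + R ^ 2 + e))) := by
      rw [← hxx, ← hyy]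
      exact mul_le_mul_of_nonneg_left (hmm.trans h4) hR0
    have a2 : R * R ^ 2 ≤ R ^ 2 := mul_le_of_le_one_left (sq_nonneg R) hR1
    have a3 : R * e ≤ e := mul_le_of_le_one_left he0 hR1
    have a4 : R * (Cm ^ 2 * (3 * (L + R ^ 2 + e))) =
      3 * Cm ^ 2 * (R * L + R * R ^ 2 + R * e) := by ring
    have a5 : 3 * Cm ^ 2 * (R * L + R * R ^ 2 + R * e) ≤ 3 * Cm ^ 2 * (R * L + R ^ 2 + e) :=
      mul_le_mul_of_nonneg_left (by linarith only [a2, a3]) (by positivity)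
    linarith only [a1, a4, a5]
  have h7 : |D| ^ 2 ≤ 6 * Cm ^ 2 * (R ^ 2 + R * L + c * L + A ^ 2 + q ^ 2 + e) := by
    have a1 : L ^ 2 ≤ c * L := by
      rw [pow_two]
      exact mul_le_mul_of_nonneg_right hLc hL0
    have a2 : (r4 * x) ^ 2 = R * L := by rw [mul_pow, hR, hxx]
    rw [a2, sq_abs, sq_abs, hyy] at h5
    have a3 : Cm ^ 2 * (6 * (R ^ 2 + R * L + L ^ 2 + A ^ 2 + q ^ 2 + e)) ≤
        6 * Cm ^ 2 * (R ^ 2 + R * L + c * L + A ^ 2 + q ^ 2 + e) := by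
      have : Cm ^ 2 * (6 * (R ^ 2 + R * L + L ^ 2 + A ^ 2 + q ^ 2 + e)) =
        6 * Cm ^ 2 * (R ^ 2 + R * L + L ^ 2 + A ^ 2 + q ^ 2 + e) := by ring
      rw [this]
      exact mul_le_mul_of_nonneg_left (by linarith only [a1]) (by positivity)
    linarith only [hDD, h5, a3]
  have h8 : (r4 * |m|) ^ 2 = R * |m| ^ 2 := by rw [mul_pow, hR]
  rw [h8] at h1
  have h9 : (R + r4 * |m| + |D|) ^ 2 ≤ 3 * (R ^ 2 + 3 * Cm ^ 2 * (R * L + R ^ 2 + e)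
      + 6 * Cm ^ 2 * (R ^ 2 + R * L + c * L + A ^ 2 + q ^ 2 + e)) := by linarith only [h1, h6, h7]
  rw [mul_pow]
  have h10 := mul_le_mul_of_nonneg_left h9 (sq_nonneg CS)
  refine h10.trans (le_of_eq ?_)
  ring

/-- the bound for `X²` -/
theorem Gog_g {Cm c r4 R x y L e X : ℝ} (hCm : 0 < Cm)
    (hR : R = r4 ^ 2) (hxx : x ^ 2 = L) (hyy : y ^ 2 = e) (hL0 : 0 ≤ L) (hLc : L ≤ c)
    (hX : |X| ≤ Cm * (R + r4 * x + L + y)) :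
    X ^ 2 ≤ 4 * Cm ^ 2 * (R ^ 2 + (R + c) * L + e) := by
  have h1 : |X| ^ 2 ≤ (Cm * (R + r4 * x + L + y)) ^ 2 := pow_le_pow_left₀ (abs_nonneg X) hX 2
  rw [sq_abs, mul_pow] at h1
  have h2 := mul_le_mul_of_nonneg_left (Gog_sq4 R (r4 * x) L y) (sq_nonneg Cm)
  have a1 : L ^ 2 ≤ c * L := by
    rw [pow_two]
    exact mul_le_mul_of_nonneg_right hLc hL0
  have a2 : (r4 * x) ^ 2 = R * L := by rw [mul_pow, hR, hxx]
  rw [a2, hyy] at h2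
  have h3 : Cm ^ 2 * (4 * (R ^ 2 + R * L + L ^ 2 + e)) ≤
      4 * Cm ^ 2 * (R ^ 2 + (R + c) * L + e) := by
    have : Cm ^ 2 * (4 * (R ^ 2 + R * L + L ^ 2 + e)) =
      4 * Cm ^ 2 * (R ^ 2 + R * L + L ^ 2 + e) := by ring
    rw [this]
    refine mul_le_mul_of_nonneg_left ?_ (by positivity)
    have e1 : (R + c) * L = R * L + c * L := by ring
    rw [e1]
    linarith only [a1]
  linarith only [h1, h2, h3]

/-- the main inequality in real numbers -/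
theorem Gog_num {M CE C₁ C₂ Cm CS c₁ B r w m β c σ T L Bd e A q p X D DE' DV' : ℝ}
    (hM0 : 0 < M) (hCE : 0 < CE) (hC₁ : 0 < C₁) (hC₂ : 0 < C₂) (hCm : 0 < Cm) (hCS : 0 < CS)
    (hc₁ : 0 < c₁) (hB : 0 < B) (hr : 0 < r) (hr1 : r ≤ 1) (hc0 : 0 < c)
    (hw1 : w / r ^ 2 ≤ 1)
    (hT : 0 ≤ T) (hL : 0 ≤ L) (hLc : L ≤ c) (hBd : 0 ≤ Bd) (he : 0 ≤ e)
    (hDE : DE' ≤ -(1 / 8) * T + CE / B * L + CE * (1 + w / r ^ 2) * Bd
      + CE * |β| * (0 + (1 / B + c) * √L) + CE * |m| * ((1 / B + c) * √L)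
      + C₂ * (|m| + w / r ^ 2 + CS * r ^ 4 / r ^ 2) * (T + L)
      + CE / r ^ 2 * e + C₂ * ((CS * (r ^ 8 + r ^ 4 * |m| + |D|)) ^ 2
        + (CS * |A|) ^ 2 / (r ^ 2) ^ 2))
    (hDV : DV' ≤ -c₁ * L + C₁ * T + C₁ * (p ^ 2 + q ^ 2) + C₁ * X ^ 2
      + C₂ * (c + w + |m| + CS * r ^ 4) * T + C₂ * (e + (CS * (r ^ 8 + r ^ 4 * |m| + |D|)) ^ 2
        + (CS * |A|) ^ 2))
    (hm : |m| ≤ Cm * (√L + r ^ 8 + √e)) (hβ : |β| ≤ Cm * (√L + r ^ 8 + √e))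
    (hX : |X| ≤ Cm * (r ^ 8 + r ^ 4 * √L + L + √e))
    (hD : |D| ≤ Cm * (r ^ 8 + r ^ 4 * √L + L + |A| + |q| + √e))
    (hσ0 : 0 ≤ σ) (hs1 : |m| + w / r ^ 2 + CS * r ^ 4 / r ^ 2 ≤ σ)
    (hs2 : c + w + |m| + CS * r ^ 4 ≤ σ)
    (hσ1 : (M + 1) * C₂ * σ ≤ M / 64) (hσ2 : (M + 1) * C₂ * σ ≤ c₁ / 16)
    (hMC : 64 * C₁ ≤ M) (hB1 : M * CE / B ≤ c₁ / 16)
    (hB2 : 4 * (M * CE * Cm) * (1 / B + c) ≤ c₁ / 8)
    (hf1 : (M + 1) * C₂ * (3 * CS ^ 2 * (9 * Cm ^ 2 * r ^ 8 + 6 * Cm ^ 2 * c)) ≤ c₁ / 16)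
    (hg1 : C₁ * (4 * Cm ^ 2 * (r ^ 8 + c)) ≤ c₁ / 16) :
    M * DE' + DV' ≤ -(M / 16) * T - c₁ / 2 * L
      + (3 * M * CE + c₁ + C₁ + C₂ + 4 * C₁ * Cm ^ 2
          + (M + 1) * C₂ * CS ^ 2 * (4 + 72 * Cm ^ 2)) *
        (Bd + (r ^ 16 + A ^ 2 / r ^ 4 + q ^ 2 + p ^ 2) + e / r ^ 2) := by
  have hx := Real.sqrt_nonneg L
  have hxx : √L ^ 2 = L := Real.sq_sqrt hL
  have hyy : √e ^ 2 = e := Real.sq_sqrt he
  have hr4 : 0 < r ^ 4 := by positivity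
  have hR0 : 0 < r ^ 8 := by positivity
  have hR1 : r ^ 8 ≤ 1 := pow_le_one₀ hr.le hr1
  have hr41 : r ^ 4 ≤ 1 := pow_le_one₀ hr.le hr1
  have hr21 : r ^ 2 ≤ 1 := pow_le_one₀ hr.le hr1
  have hr2 : 0 < r ^ 2 := by positivity
  have hR : r ^ 8 = (r ^ 4) ^ 2 := by ring
  have hR2 : (r ^ 8) ^ 2 = r ^ 16 := by ring
  have hMCE : 0 < M * CE := mul_pos hM0 hCE
  have hBs : 0 ≤ 1 / B + c := by positivity
  obtain ⟨N, hN⟩ : ∃ N, N = (M + 1) * C₂ := ⟨_, rfl⟩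
  have hN0 : 0 < N := by rw [hN]; positivity
  -- the pieces
  have sc := Gog_c (R := r ^ 8) (y := √e) hMCE hCm hBs hx hβ hm hB2
  have sd := Gog_d hM0 hC₂ hT hL hσ0 hs1 hs2 hσ1 hσ2
  have sf := Gog_f hCS hCm hr4.le hR hR1 hxx hyy hL hLc hm hD
  have sg := Gog_g hCm hR hxx hyy hL hLc hX
  rw [hxx, hyy, hR2] at sc
  rw [hR2] at sf sg
  obtain ⟨t, ht⟩ : ∃ t, t = (CS * (r ^ 8 + r ^ 4 * |m| + |D|)) ^ 2 := ⟨_, rfl⟩
  rw [← ht] at hDE hDV sf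
  have ht0 : 0 ≤ t := by rw [ht]; positivity
  -- `A² ≤ A²/r⁴`, `e ≤ e/r²`
  have hA2 : A ^ 2 ≤ A ^ 2 / r ^ 4 := by
    rw [le_div_iff₀ hr4]
    exact mul_le_of_le_one_right (sq_nonneg A) hr41
  have he2 : e ≤ e / r ^ 2 := by
    rw [le_div_iff₀ hr2]
    exact mul_le_of_le_one_right he hr21
  have hA3 : (CS * |A|) ^ 2 / (r ^ 2) ^ 2 = CS ^ 2 * (A ^ 2 / r ^ 4) := by
    rw [mul_pow, sq_abs, ← pow_mul, mul_div_assoc]
  have hA4 : (CS * |A|) ^ 2 ≤ CS ^ 2 * (A ^ 2 / r ^ 4) := by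
    rw [mul_pow, sq_abs]
    exact mul_le_mul_of_nonneg_left hA2 (sq_nonneg CS)
  rw [hA3] at hDE
  have hq0 := sq_nonneg q
  have hp0 := sq_nonneg p
  have hAr0 : 0 ≤ A ^ 2 / r ^ 4 := by positivity
  have her0 : 0 ≤ e / r ^ 2 := by positivity
  have hr16 : 0 < r ^ 16 := by positivity
  -- f
  have sf2 := mul_le_mul_of_nonneg_left sf hN0.le
  rw [← hN] at hf1
  have sf3 := mul_le_mul_of_nonneg_right hf1 hL
  have sf4 : N * t ≤ c₁ / 16 * L + N * CS ^ 2 * (3 + 27 * Cm ^ 2) * r ^ 16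
      + 27 * N * CS ^ 2 * Cm ^ 2 * (e / r ^ 2)
      + 18 * N * CS ^ 2 * Cm ^ 2 * (A ^ 2 / r ^ 4 + q ^ 2) := by
    have k1 : 27 * N * CS ^ 2 * Cm ^ 2 * e ≤ 27 * N * CS ^ 2 * Cm ^ 2 * (e / r ^ 2) :=
      mul_le_mul_of_nonneg_left he2 (by positivity)
    have k2 : 18 * N * CS ^ 2 * Cm ^ 2 * (A ^ 2 + q ^ 2) ≤
        18 * N * CS ^ 2 * Cm ^ 2 * (A ^ 2 / r ^ 4 + q ^ 2) :=
      mul_le_mul_of_nonneg_left (by linarith only [hA2]) (by positivity)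
    have k3 : N * (3 * CS ^ 2 * ((1 + 9 * Cm ^ 2) * r ^ 16
      + (9 * Cm ^ 2 * r ^ 8 + 6 * Cm ^ 2 * c) * L + 9 * Cm ^ 2 * e + 6 * Cm ^ 2 * (A ^ 2 + q ^ 2))) =
      N * (3 * CS ^ 2 * (9 * Cm ^ 2 * r ^ 8 + 6 * Cm ^ 2 * c)) * L
      + N * CS ^ 2 * (3 + 27 * Cm ^ 2) * r ^ 16 + 27 * N * CS ^ 2 * Cm ^ 2 * e
      + 18 * N * CS ^ 2 * Cm ^ 2 * (A ^ 2 + q ^ 2) := by ring
    linarith only [sf2, sf3, k1, k2, k3]
  -- g
  have sg2 := mul_le_mul_of_nonneg_left sg hC₁.le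
  have sg3 := mul_le_mul_of_nonneg_right hg1 hL
  have sg4 : C₁ * X ^ 2 ≤ c₁ / 16 * L + 4 * C₁ * Cm ^ 2 * (r ^ 16 + e / r ^ 2) := by
    have k1 : 4 * C₁ * Cm ^ 2 * (r ^ 16 + e) ≤ 4 * C₁ * Cm ^ 2 * (r ^ 16 + e / r ^ 2) :=
      mul_le_mul_of_nonneg_left (by linarith only [he2]) (by positivity)
    have k2 : C₁ * (4 * Cm ^ 2 * (r ^ 16 + (r ^ 8 + c) * L + e)) =
      C₁ * (4 * Cm ^ 2 * (r ^ 8 + c)) * L + 4 * C₁ * Cm ^ 2 * (r ^ 16 + e) := by ring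
    linarith only [sg2, sg3, k1, k2]
  -- the others
  have s7 := mul_le_mul_of_nonneg_right hB1 hL
  have s8 : C₁ * T ≤ M / 64 * T := mul_le_mul_of_nonneg_right (by linarith only [hMC]) hT
  have s9 : M * (CE * (1 + w / r ^ 2) * Bd) ≤ 2 * (M * CE) * Bd := by
    have k1 : (1 + w / r ^ 2) * Bd ≤ 2 * Bd :=
      mul_le_mul_of_nonneg_right (by linarith only [hw1]) hBd
    have k2 := mul_le_mul_of_nonneg_left k1 hMCE.le
    have k3 : M * (CE * (1 + w / r ^ 2) * Bd) = M * CE * ((1 + w / r ^ 2) * Bd) := by ring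
    have k4 : M * CE * (2 * Bd) = 2 * (M * CE) * Bd := by ring
    linarith only [k2, k3, k4]
  have s10 : C₂ * (CS * |A|) ^ 2 + M * (C₂ * (CS ^ 2 * (A ^ 2 / r ^ 4))) ≤
      N * CS ^ 2 * (A ^ 2 / r ^ 4) := by
    have k1 := mul_le_mul_of_nonneg_left hA4 hC₂.le
    have k2 : N * CS ^ 2 * (A ^ 2 / r ^ 4) = M * (C₂ * (CS ^ 2 * (A ^ 2 / r ^ 4)))
      + C₂ * (CS ^ 2 * (A ^ 2 / r ^ 4)) := by rw [hN]; ring
    linarith only [k1, k2]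
  have s11 : C₂ * e ≤ C₂ * (e / r ^ 2) := mul_le_mul_of_nonneg_left he2 hC₂.le
  have s12 : c₁ / 32 * e ≤ c₁ / 32 * (e / r ^ 2) :=
    mul_le_mul_of_nonneg_left he2 (by positivity)
  have hME := mul_le_mul_of_nonneg_left hDE hM0.le
  have e1 : M * (-(1 / 8) * T + CE / B * L + CE * (1 + w / r ^ 2) * Bd
      + CE * |β| * (0 + (1 / B + c) * √L) + CE * |m| * ((1 / B + c) * √L)
      + C₂ * (|m| + w / r ^ 2 + CS * r ^ 4 / r ^ 2) * (T + L)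
      + CE / r ^ 2 * e + C₂ * (t + CS ^ 2 * (A ^ 2 / r ^ 4))) =
      -(M / 8) * T + M * CE / B * L + M * (CE * (1 + w / r ^ 2) * Bd)
      + (M * CE * |β| * ((1 / B + c) * √L) + M * CE * |m| * ((1 / B + c) * √L))
      + M * (C₂ * (|m| + w / r ^ 2 + CS * r ^ 4 / r ^ 2) * (T + L))
      + M * CE * (e / r ^ 2) + M * C₂ * t + M * (C₂ * (CS ^ 2 * (A ^ 2 / r ^ 4))) := by
    ring
  have e2 : C₂ * (e + t + (CS * |A|) ^ 2) = C₂ * e + C₂ * t + C₂ * (CS * |A|) ^ 2 := by ring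
  have e3 : N * t = M * C₂ * t + C₂ * t := by rw [hN]; ring
  rw [e1] at hME
  rw [e2] at hDV
  have hMT : 0 ≤ M * T := mul_nonneg hM0.le hT
  have hcL : 0 ≤ c₁ * L := mul_nonneg hc₁.le hL
  have step : M * DE' + DV' ≤ -(M / 16) * T - c₁ / 2 * L + 2 * (M * CE) * Bd
      + (c₁ / 32 + N * CS ^ 2 * (3 + 27 * Cm ^ 2) + 4 * C₁ * Cm ^ 2) * r ^ 16
      + (N * CS ^ 2 + 18 * N * CS ^ 2 * Cm ^ 2) * (A ^ 2 / r ^ 4)
      + (C₁ + 18 * N * CS ^ 2 * Cm ^ 2) * q ^ 2 + C₁ * p ^ 2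
      + (M * CE + C₂ + c₁ / 32 + 27 * N * CS ^ 2 * Cm ^ 2 + 4 * C₁ * Cm ^ 2) * (e / r ^ 2) := by
    linarith only [hME, hDV, sc, sd, sf4, sg4, s7, s8, s9, s10, s11, s12, e3, hMT, hcL]
  refine step.trans ?_
  rw [← hN]
  obtain ⟨K, hK⟩ : ∃ K, K = 3 * M * CE + c₁ + C₁ + C₂ + 4 * C₁ * Cm ^ 2
    + N * CS ^ 2 * (4 + 72 * Cm ^ 2) := ⟨_, rfl⟩
  rw [← hK]
  have n1 : 0 < N * CS ^ 2 := by positivity
  have n2 : 0 < N * CS ^ 2 * Cm ^ 2 := by positivity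
  have n3 : 0 < C₁ * Cm ^ 2 := by positivity
  have hK' : K = 3 * (M * CE) + c₁ + C₁ + C₂ + 4 * (C₁ * Cm ^ 2)
    + 4 * (N * CS ^ 2) + 72 * (N * CS ^ 2 * Cm ^ 2) := by rw [hK]; ring
  have q1 : 2 * (M * CE) ≤ K := by linarith only [hK', n1, n2, n3, hMCE, hC₁, hC₂, hc₁]
  have q2 : c₁ / 32 + N * CS ^ 2 * (3 + 27 * Cm ^ 2) + 4 * C₁ * Cm ^ 2 ≤ K := by
    have : c₁ / 32 + N * CS ^ 2 * (3 + 27 * Cm ^ 2) + 4 * C₁ * Cm ^ 2 =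
      c₁ / 32 + 3 * (N * CS ^ 2) + 27 * (N * CS ^ 2 * Cm ^ 2) + 4 * (C₁ * Cm ^ 2) := by ring
    linarith only [this, hK', n1, n2, n3, hMCE, hC₁, hC₂, hc₁]
  have q3 : N * CS ^ 2 + 18 * N * CS ^ 2 * Cm ^ 2 ≤ K := by
    have : N * CS ^ 2 + 18 * N * CS ^ 2 * Cm ^ 2 =
      N * CS ^ 2 + 18 * (N * CS ^ 2 * Cm ^ 2) := by ring
    linarith only [this, hK', n1, n2, n3, hMCE, hC₁, hC₂, hc₁]
  have q4 : C₁ + 18 * N * CS ^ 2 * Cm ^ 2 ≤ K := by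
    have : C₁ + 18 * N * CS ^ 2 * Cm ^ 2 =
      C₁ + 18 * (N * CS ^ 2 * Cm ^ 2) := by ring
    linarith only [this, hK', n1, n2, n3, hMCE, hC₁, hC₂, hc₁]
  have q5 : C₁ ≤ K := by linarith only [hK', n1, n2, n3, hMCE, hC₁, hC₂, hc₁]
  have q6 : M * CE + C₂ + c₁ / 32 + 27 * N * CS ^ 2 * Cm ^ 2 + 4 * C₁ * Cm ^ 2 ≤ K := by
    have : M * CE + C₂ + c₁ / 32 + 27 * N * CS ^ 2 * Cm ^ 2 + 4 * C₁ * Cm ^ 2 =
      M * CE + C₂ + c₁ / 32 + 27 * (N * CS ^ 2 * Cm ^ 2) + 4 * (C₁ * Cm ^ 2) := by ring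
    linarith only [this, hK', n1, n2, n3, hMCE, hC₁, hC₂, hc₁]
  have w1 := mul_le_mul_of_nonneg_right q1 hBd
  have w2 := mul_le_mul_of_nonneg_right q2 hr16.le
  have w3 := mul_le_mul_of_nonneg_right q3 hAr0
  have w4 := mul_le_mul_of_nonneg_right q4 hq0
  have w5 := mul_le_mul_of_nonneg_right q5 hp0
  have w6 := mul_le_mul_of_nonneg_right q6 her0
  have e4 : K * (Bd + (r ^ 16 + A ^ 2 / r ^ 4 + q ^ 2 + p ^ 2) + e / r ^ 2) =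
    K * Bd + K * r ^ 16 + K * (A ^ 2 / r ^ 4) + K * q ^ 2 + K * p ^ 2 + K * (e / r ^ 2) := by ring
  rw [e4]
  linarith only [w1, w2, w3, w4, w5, w6]

/-- smallness of `σ` -/
theorem Gog_tau {N Cm CS K c r w m θ x y : ℝ} (hN : 0 < N) (hCm : 0 < Cm) (hCS : 0 < CS)
    (hr : 0 < r) (hr1 : r ≤ 1) (hw : w ≤ K * r ^ 4) (hK : 0 < K)
    (hm : |m| ≤ Cm * (x + r ^ 8 + y)) (hx : x ≤ √c) (hy : y ≤ √c)
    (h1 : N * (2 * Cm) * √c ≤ θ / 4) (h2 : N * c ≤ θ / 4)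
    (h3 : N * (Cm + 2 * K + 2 * CS) * r ≤ θ / 2) :
    N * (|m| + w / r ^ 2 + CS * r ^ 4 / r ^ 2 + c + w + CS * r ^ 4) ≤ θ := by
  have hr2 : 0 < r ^ 2 := by positivity
  have p8 : r ^ 8 ≤ r := pow_le_of_le_one hr.le hr1 (by norm_num)
  have p4 : r ^ 4 ≤ r := pow_le_of_le_one hr.le hr1 (by norm_num)
  have p2 : r ^ 2 ≤ r := pow_le_of_le_one hr.le hr1 (by norm_num)
  have e1 : CS * r ^ 4 / r ^ 2 = CS * r ^ 2 := by field_simp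
  have h4 : w / r ^ 2 ≤ K * r ^ 2 := by
    rw [div_le_iff₀ hr2]
    linarith
  have h5 : |m| ≤ 2 * Cm * √c + Cm * r := by
    have : Cm * (x + r ^ 8 + y) ≤ Cm * (√c + r + √c) :=
      mul_le_mul_of_nonneg_left (by linarith) hCm.le
    linarith
  have h6 : K * r ^ 2 ≤ K * r := mul_le_mul_of_nonneg_left p2 hK.le
  have h7 : K * r ^ 4 ≤ K * r := mul_le_mul_of_nonneg_left p4 hK.le
  have h8 : CS * r ^ 2 ≤ CS * r := mul_le_mul_of_nonneg_left p2 hCS.le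
  have h9 : CS * r ^ 4 ≤ CS * r := mul_le_mul_of_nonneg_left p4 hCS.le
  have h10 : |m| + w / r ^ 2 + CS * r ^ 4 / r ^ 2 + c + w + CS * r ^ 4 ≤
      2 * Cm * √c + (Cm + 2 * K + 2 * CS) * r + c := by
    rw [e1]
    linarith
  have h11 := mul_le_mul_of_nonneg_left h10 hN.le
  have e2 : N * (2 * Cm * √c + (Cm + 2 * K + 2 * CS) * r + c) =
    N * (2 * Cm) * √c + N * (Cm + 2 * K + 2 * CS) * r + N * c := by ring
  linarith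

theorem goodA (hp : Prof P E) : ∃ γ η δ M B c₁ : ℝ, 0 < γ ∧ γ ≤ 1 / 8 ∧ 0 < η ∧ η ≤ 1 ∧ 0 < δ ∧
    δ ≤ 1 / 16 ∧ 0 < M ∧ 16 ≤ B ∧ 0 < c₁ ∧ c₁ ≤ 1 / 10 ∧
    ∀ c, 0 < c → c ≤ c₁ → ∃ C₁ : ℝ, 1 ≤ C₁ ∧ ∀ C, C₁ ≤ C → GoodA P E γ η δ M B c C := by
  obtain ⟨γ, η, δ, c₁, C₁, B₀, hγ, hγ8, hη, hη1, hδ, hδ16, hc₁, hC₁, hB₀, hDV0⟩ := DV4_le
  obtain ⟨ν, CE, hν, hν1, hCE, hDE0⟩ := DE4_le
  obtain ⟨Cm, rm, cm, hCm, hrm, hrm1, hcm, hcm1, hMO⟩ := MOu hp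
  obtain ⟨ν', cL, CL, B₁, hν', hν'1, hcL, hCL, hB₁, hCO0⟩ := CO_E4
  obtain ⟨Cup, hCup, hUp0⟩ := CO_up4
  obtain ⟨CV', hCV, hCV0⟩ := CV4 γ η δ hη hη1 hδ hδ16
  obtain ⟨CS, hCS, hSf⟩ := Sf_le hp
  have hc0 : 1 ≤ c0 := by
    unfold c0 cnu
    have : 0 ≤ 16 * (∫ y, (deriv (Qf 4) y) ^ 2) / Iq ^ 2 :=
      div_nonneg (mul_nonneg (by norm_num) (integral_nonneg fun y => sq_nonneg _)) (sq_nonneg _)
    linarith
  obtain ⟨M, hM1, hMl⟩ := Gog_max [64 * C₁, 4 * CV' / cL]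
  have hM : 0 < M := by linarith
  have hM2 : 64 * C₁ ≤ M := hMl _ (by simp)
  have hM3 : 4 * CV' ≤ M * cL := by
    have := hMl (4 * CV' / cL) (by simp)
    rwa [div_le_iff₀ hcL] at this
  obtain ⟨B, -, hBl⟩ := Gog_max [16, B₀, B₁, M * CE * 16 / c₁, 4 * (M * CE * Cm) * 16 / c₁]
  have hB16 : 16 ≤ B := hBl _ (by simp)
  have hB : 0 < B := by linarith
  have hBB₀ : B₀ ≤ B := hBl _ (by simp)
  have hBB₁ : B₁ ≤ B := hBl _ (by simp)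
  have hB1 : M * CE / B ≤ c₁ / 16 := by
    have := hBl (M * CE * 16 / c₁) (by simp)
    rw [div_le_iff₀ hc₁] at this
    rw [div_le_div_iff₀ hB (by norm_num)]
    linarith
  have hB2 : 4 * (M * CE * Cm) * (1 / B) ≤ c₁ / 16 := by
    have := hBl (4 * (M * CE * Cm) * 16 / c₁) (by simp)
    rw [div_le_iff₀ hc₁] at this
    rw [mul_one_div, div_le_div_iff₀ hB (by norm_num)]
    linarith
  obtain ⟨C₂E, hC₂E, hDE⟩ := hDE0 γ hγ hγ8 B hB16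
  obtain ⟨C₂V, hC₂V, hDV⟩ := hDV0 B hBB₀
  obtain ⟨C₂, hC₂1, hC₂l⟩ := Gog_max [C₂E, C₂V]
  have hC₂ : 0 < C₂ := by linarith
  have hC₂a : C₂E ≤ C₂ := hC₂l _ (by simp)
  have hC₂b : C₂V ≤ C₂ := hC₂l _ (by simp)
  obtain ⟨N, hNd⟩ : ∃ N, N = (M + 1) * C₂ := ⟨_, rfl⟩
  have hN : 0 < N := by rw [hNd]; positivity
  obtain ⟨θ, hθ, hθl⟩ := Gog_min [M / 64, c₁ / 16] (by
    intro x hx
    simp only [List.mem_cons, List.not_mem_nil, or_false] at hx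
    rcases hx with rfl | rfl <;> positivity)
  have hθ1 : θ ≤ M / 64 := hθl _ (by simp)
  have hθ2 : θ ≤ c₁ / 16 := hθl _ (by simp)
  obtain ⟨d₁, hd₁, hd₁'⟩ := Gog_small (a := N * (2 * Cm)) (b := θ / 4)
    (by positivity) (by positivity)
  obtain ⟨cc, hcc, hccl⟩ := Gog_min [1 / 10, ν, ν', cm, M / 16, c₁ / 2, d₁,
    θ / 4 / N, c₁ / 16 / (4 * (M * CE * Cm)), c₁ / 32 / (N * (18 * CS ^ 2 * Cm ^ 2)),
    c₁ / 32 / (4 * C₁ * Cm ^ 2)] (by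
    intro x hx
    simp only [List.mem_cons, List.not_mem_nil, or_false] at hx
    rcases hx with rfl | rfl | rfl | rfl | rfl | rfl | rfl | rfl | rfl | rfl | rfl <;> positivity)
  refine ⟨γ, η, δ, M, B, cc, hγ, hγ8, hη, hη1, hδ, hδ16, hM, hB16, hcc, hccl _ (by simp), ?_⟩
  intro c hc hcl
  have hc10 : c ≤ 1 / 10 := hcl.trans (hccl _ (by simp))
  have hc1 : c ≤ 1 := by linarith
  have hcν : c ≤ ν := hcl.trans (hccl _ (by simp))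
  have hcν' : c ≤ ν' := hcl.trans (hccl _ (by simp))
  have hccm : c ≤ cm := hcl.trans (hccl _ (by simp))
  have hcM : c ≤ M / 16 := hcl.trans (hccl _ (by simp))
  have hcc₁ : c ≤ c₁ / 2 := hcl.trans (hccl _ (by simp))
  have hcd₁ := hd₁' c (hcl.trans (hccl _ (by simp)))
  have hcN : N * c ≤ θ / 4 := by
    have := hcl.trans (hccl (θ / 4 / N) (by simp))
    rw [le_div_iff₀ hN] at this
    linarith
  have hcB : 4 * (M * CE * Cm) * c ≤ c₁ / 16 := by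
    have := hcl.trans (hccl (c₁ / 16 / (4 * (M * CE * Cm))) (by simp))
    rw [le_div_iff₀ (by positivity)] at this
    linarith
  have hcf : N * (18 * CS ^ 2 * Cm ^ 2) * c ≤ c₁ / 32 := by
    have := hcl.trans (hccl (c₁ / 32 / (N * (18 * CS ^ 2 * Cm ^ 2))) (by simp))
    rw [le_div_iff₀ (by positivity)] at this
    linarith
  have hcg : 4 * C₁ * Cm ^ 2 * c ≤ c₁ / 32 := by
    have := hcl.trans (hccl (c₁ / 32 / (4 * C₁ * Cm ^ 2)) (by simp))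
    rw [le_div_iff₀ (by positivity)] at this
    linarith
  obtain ⟨K, hKd⟩ : ∃ K, K = 3 * M * CE + c₁ + C₁ + C₂ + 4 * C₁ * Cm ^ 2
    + (M + 1) * C₂ * CS ^ 2 * (4 + 72 * Cm ^ 2) := ⟨_, rfl⟩
  obtain ⟨C₃, hC₃, hC₃l⟩ := Gog_max [K, 2 / (M * cL), M * CL, M * Cup + CV', 120]
  refine ⟨C₃, hC₃, fun C hC => ?_⟩
  have hCK : K ≤ C := (hC₃l _ (by simp)).trans hC
  have hCf : 2 / (M * cL) ≤ C := (hC₃l _ (by simp)).trans hC
  have hCg : M * CL ≤ C := (hC₃l _ (by simp)).trans hC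
  have hCh : M * Cup + CV' ≤ C := (hC₃l _ (by simp)).trans hC
  have hCi : 120 ≤ C := (hC₃l _ (by simp)).trans hC
  have hC1 : 1 ≤ C := hC₃.trans hC
  have hC0 : 0 ≤ C := by linarith
  refine ⟨hγ, by linarith, hη, hδ, hM, hB16, hc, hc10, hC1, ?_, ?_⟩
  · -- ML
    intro Ca
    obtain ⟨r₁, hr₁, hr₁l⟩ := Gog_min [1, rm, 1 / (16 * B), 1 / (5 * c0),
      θ / 2 / (N * (Cm + 2 * (5 * c0) + 2 * CS)), c₁ / 32 / (N * (27 * CS ^ 2 * Cm ^ 2)),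
      c₁ / 32 / (4 * C₁ * Cm ^ 2)] (by
      intro x hx
      have : 0 < c0 := by linarith
      simp only [List.mem_cons, List.not_mem_nil, or_false] at hx
      rcases hx with rfl | rfl | rfl | rfl | rfl | rfl | rfl <;> positivity)
    refine ⟨r₁, hr₁, ?_⟩
    intro r w m W et hrr hS
    have hr := hS.r0
    have hr1 : r ≤ 1 := hrr.trans (hr₁l _ (by simp))
    have hrrm : r ≤ rm := hrr.trans (hr₁l _ (by simp))
    have p8 : r ^ 8 ≤ r := pow_le_of_le_one hr.le hr1 (by norm_num)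
    have p2 : r ^ 2 ≤ r := pow_le_of_le_one hr.le hr1 (by norm_num)
    have hr2 : 0 < r ^ 2 := by positivity
    have hSl : Slow4 B (r ^ 2) := by
      refine ⟨hB16, hr2, ?_⟩
      have h1 := hrr.trans (hr₁l (1 / (16 * B)) (by simp))
      rw [le_div_iff₀ (by positivity)] at h1
      have h2 : r ^ 2 * (16 * B) ≤ r * (16 * B) := mul_le_mul_of_nonneg_right p2 (by positivity)
      linarith
    have hc05 : 0 < 5 * c0 := by linarith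
    have hw2 : w / r ^ 2 ≤ 1 := by
      have h1 := hrr.trans (hr₁l (1 / (5 * c0)) (by simp))
      rw [le_div_iff₀ hc05] at h1
      rw [div_le_one hr2]
      have h2 : 5 * c0 * r ^ 4 = 5 * c0 * r ^ 2 * r ^ 2 := by ring
      have h3 : 5 * c0 * r ^ 2 ≤ 1 := by
        have := mul_le_mul_of_nonneg_left p2 hc05.le
        linarith
      calc w ≤ 5 * c0 * r ^ 4 := hS.w1
        _ = 5 * c0 * r ^ 2 * r ^ 2 := h2
        _ ≤ 1 * r ^ 2 := mul_le_mul_of_nonneg_right h3 hr2.le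
        _ = r ^ 2 := one_mul _
    have hr3 : N * (Cm + 2 * (5 * c0) + 2 * CS) * r ≤ θ / 2 := by
      have h1 := hrr.trans (hr₁l (θ / 2 / (N * (Cm + 2 * (5 * c0) + 2 * CS))) (by simp))
      rw [le_div_iff₀ (by positivity)] at h1
      linarith
    have hrf : N * (27 * CS ^ 2 * Cm ^ 2) * r ^ 8 ≤ c₁ / 32 := by
      have h1 := hrr.trans (hr₁l (c₁ / 32 / (N * (27 * CS ^ 2 * Cm ^ 2))) (by simp))
      rw [le_div_iff₀ (by positivity)] at h1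
      have h2 : N * (27 * CS ^ 2 * Cm ^ 2) * r ^ 8 ≤ N * (27 * CS ^ 2 * Cm ^ 2) * r :=
        mul_le_mul_of_nonneg_left p8 (by positivity)
      linarith
    have hrg : 4 * C₁ * Cm ^ 2 * r ^ 8 ≤ c₁ / 32 := by
      have h1 := hrr.trans (hr₁l (c₁ / 32 / (4 * C₁ * Cm ^ 2)) (by simp))
      rw [le_div_iff₀ (by positivity)] at h1
      have h2 : 4 * C₁ * Cm ^ 2 * r ^ 8 ≤ 4 * C₁ * Cm ^ 2 * r :=
        mul_le_mul_of_nonneg_left p8 (by positivity)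
      linarith
    obtain ⟨p, q, hp0, hp1, hq0, hq1, hW, het⟩ := hS.cl
    have hε0 : Cl 0 0 (ep P E (r ^ 2) W) := ep_cl hp hp0.le hq0.le hW
    have hS0 : Cl 0 0 (Sf P E (r ^ 2) w m (r ^ 8) W et) := Sf_cl hp hp0 hq0 hW
    have hSB := hSf r w m p q W et hr hr1 hp0 hq0 hW hS.w0 hS.w1 hS.b1 hS.a1
      (fun y => (hS.supe y).trans hc1)
    obtain ⟨hMm, hMβ, hMX, hMD⟩ := hMO γ B c Ca r w m W et hγ hγ8 hB16 hccm hrrm hS
    rw [epD_eq hp hp0 hq0 hW het]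
    have hQ0 := ep_Q (s := r ^ 2) hp hp0 hq0 hW
    have hρ0 := ep_rho (s := r ^ 2) hp hp0 hq0 hW
    have hQd0 := (ep_Qd (s := r ^ 2) hp hp0 hq0 hW).1
    have hr4 : 0 < r ^ 4 := by positivity
    have hr8 : 0 < r ^ 8 := by positivity
    have DE := hDE (r ^ 2) hSl c _ _ _ hε0 hS0 ⟨p, q, hp0, hq0, het⟩ hcν hS.supe
      (bq (r ^ 2) W - w) w m _ _ _ hS.w0 (by positivity) (by positivity) (by positivity) hSB
    have DV' := hDV (r ^ 2) hSl c _ _ _ hε0 hS0 ⟨p, q, hp0, hq0, het⟩ hc1 hS.supe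
      (bq (r ^ 2) W - w) w m _ _ _ hS.w0 (by positivity) (by positivity) (by positivity) hSB
    rw [hQ0, abs_zero] at DE
    rw [hρ0, hQd0] at DV'
    have nT := T4_nonneg hSl (ep P E (r ^ 2) W)
    have nL := ln_nonneg γ B (ep P E (r ^ 2) W)
    have nB := Bad_nonneg hr2 (ep P E (r ^ 2) W)
    have ne := ne2_nonneg et
    have hw20 : 0 ≤ w / r ^ 2 := div_nonneg hS.w0 hr2.le
    have am := abs_nonneg m
    generalize hTd : T4 B (r ^ 2) (ep P E (r ^ 2) W) = T at DE DV' nT ⊢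
    generalize hLd : ln γ B (ep P E (r ^ 2) W) = L at DE DV' nL hMm hMβ hMX hMD ⊢
    generalize hBd : Bad (r ^ 2) (ep P E (r ^ 2) W) = Bd at DE nB ⊢
    have hLc : L ≤ c := hLd ▸ hS.lnc
    have hec : ne2 et ≤ c := hS.e1
    generalize hAd : alm (r ^ 2) w W (ze w m (r ^ 8) W et) = A at DE DV' hMD ⊢
    generalize hDd : bqD (r ^ 2) w W (ze w m (r ^ 8) W et) = D at DE DV' hMD
    generalize hed : ne2 et = e at DE DV' ne hMm hMβ hMX hMD hec ⊢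
    generalize hXd : (bq (r ^ 2) W - w) * ip (Lam 4 (Qf 4)) rho
      - ip (Lop 4 (ep P E (r ^ 2) W)) (deriv rho) = X at DV' hMX
    generalize hqd : ip W (deriv (Qf 4)) = q' at DV' hMD ⊢
    generalize hpd : ip (fun y => W y - Qf 4 y) rho = p' at DV' ⊢
    have hxc : √L ≤ √c := Real.sqrt_le_sqrt hLc
    have hyc : √e ≤ √c := Real.sqrt_le_sqrt hec
    have hσ := Gog_tau hN hCm hCS hr hr1 hS.w1 hc05 hMm hxc hyc hcd₁ hcN hr3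
    -- enlarge `C₂`
    have nt1 : 0 ≤ CS * r ^ 4 := by positivity
    have nt2 : 0 ≤ CS * r ^ 4 / r ^ 2 := by positivity
    have DE2 := DE.trans (c := -(1 / 8) * T + CE / B * L + CE * (1 + w / r ^ 2) * Bd
      + CE * |bq (r ^ 2) W - w| * (0 + (1 / B + c) * √L) + CE * |m| * ((1 / B + c) * √L)
      + C₂ * (|m| + w / r ^ 2 + CS * r ^ 4 / r ^ 2) * (T + L)
      + CE / r ^ 2 * e + C₂ * ((CS * (r ^ 8 + r ^ 4 * |m| + |D|)) ^ 2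
        + (CS * |A|) ^ 2 / (r ^ 2) ^ 2)) (by
      have k1 : C₂E * (|m| + w / r ^ 2 + CS * r ^ 4 / r ^ 2) * (T + L) ≤
          C₂ * (|m| + w / r ^ 2 + CS * r ^ 4 / r ^ 2) * (T + L) :=
        mul_le_mul_of_nonneg_right (mul_le_mul_of_nonneg_right hC₂a (by linarith)) (by linarith)
      have k2 : C₂E * ((CS * (r ^ 8 + r ^ 4 * |m| + |D|)) ^ 2
          + (CS * |A|) ^ 2 / (r ^ 2) ^ 2) ≤ C₂ * ((CS * (r ^ 8 + r ^ 4 * |m| + |D|)) ^ 2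
          + (CS * |A|) ^ 2 / (r ^ 2) ^ 2) := mul_le_mul_of_nonneg_right hC₂a (by positivity)
      linarith only [k1, k2])
    have DV2 := DV'.trans (c := -c₁ * L + C₁ * T + C₁ * (p' ^ 2 + q' ^ 2) + C₁ * X ^ 2
      + C₂ * (c + w + |m| + CS * r ^ 4) * T + C₂ * (e + (CS * (r ^ 8 + r ^ 4 * |m| + |D|)) ^ 2
        + (CS * |A|) ^ 2)) (by
      have k1 : C₂V * (c + w + |m| + CS * r ^ 4) * T ≤ C₂ * (c + w + |m| + CS * r ^ 4) * T :=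
        mul_le_mul_of_nonneg_right (mul_le_mul_of_nonneg_right hC₂b
          (by linarith [hS.w0])) nT
      have k2 : C₂V * (e + (CS * (r ^ 8 + r ^ 4 * |m| + |D|)) ^ 2 + (CS * |A|) ^ 2) ≤
          C₂ * (e + (CS * (r ^ 8 + r ^ 4 * |m| + |D|)) ^ 2 + (CS * |A|) ^ 2) :=
        mul_le_mul_of_nonneg_right hC₂b (by positivity)
      linarith only [k1, k2])
    have key := Gog_num (σ := |m| + w / r ^ 2 + CS * r ^ 4 / r ^ 2 + c + w + CS * r ^ 4)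
      hM hCE hC₁ hC₂ hCm hCS hc₁ hB hr hr1 hc hw2 nT nL hLc nB ne DE2 DV2 hMm hMβ hMX hMD
      (by linarith [hS.w0]) (by linarith [hS.w0]) (by linarith) (by rw [← hNd]; exact hσ.trans hθ1)
      (by rw [← hNd]; exact hσ.trans hθ2) hM2 hB1
      (by rw [mul_add]; linarith)
      (by
        rw [← hNd]
        have : N * (3 * CS ^ 2 * (9 * Cm ^ 2 * r ^ 8 + 6 * Cm ^ 2 * c)) =
          N * (27 * CS ^ 2 * Cm ^ 2) * r ^ 8 + N * (18 * CS ^ 2 * Cm ^ 2) * c := by ring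
        rw [this]
        linarith)
      (by
        have : C₁ * (4 * Cm ^ 2 * (r ^ 8 + c)) =
          4 * C₁ * Cm ^ 2 * r ^ 8 + 4 * C₁ * Cm ^ 2 * c := by ring
        rw [this]
        linarith)
    rw [← hKd] at key
    refine key.trans ?_
    have nZ : 0 ≤ Bd + (r ^ 16 + A ^ 2 / r ^ 4 + q' ^ 2 + p' ^ 2) + e / r ^ 2 := by positivity
    have k1 := mul_le_mul_of_nonneg_right hCK nZ
    have k2 := mul_le_mul_of_nonneg_right hcM nT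
    have k3 := mul_le_mul_of_nonneg_right hcc₁ nL
    have e1 : C * (Bd + (r ^ 16 + A ^ 2 / r ^ 4 + q' ^ 2 + p' ^ 2) + e / r ^ 2) =
      C * Bd + C * (r ^ 16 + A ^ 2 / r ^ 4 + q' ^ 2 + p' ^ 2) + C / r ^ 2 * e := by ring
    have e2 : -c * (T + L) = -(c * T) - c * L := by ring
    rw [e2]
    linarith only [k1, k2, k3, e1]
  · -- CO
    refine ⟨min 1 (1 / (16 * B)), lt_min one_pos (by positivity), ?_⟩
    intro r W hr hrr hcl' hε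
    obtain ⟨p, q, hp0, hp1, hq0, hq1, hW⟩ := hcl'
    have hr1 : r ≤ 1 := hrr.trans (min_le_left _ _)
    have p2 : r ^ 2 ≤ r := pow_le_of_le_one hr.le hr1 (by norm_num)
    have hr2 : 0 < r ^ 2 := by positivity
    have hSl : Slow4 B (r ^ 2) := by
      refine ⟨hB16, hr2, ?_⟩
      have h1 := hrr.trans (min_le_right _ _)
      rw [le_div_iff₀ (by positivity)] at h1
      have h2 : r ^ 2 * (16 * B) ≤ r * (16 * B) := mul_le_mul_of_nonneg_right p2 (by positivity)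
      linarith
    have hε0 : Cl 0 0 (ep P E (r ^ 2) W) := ep_cl hp hp0.le hq0.le hW
    have hG := G4_nonneg B (r ^ 2) (ep P E (r ^ 2) W)
    have h1 := hCO0 B (r ^ 2) hSl hBB₁ _ hε0 (fun y => (hε y).trans hcν')
    rw [ep_Q (s := r ^ 2) hp hp0 hq0 hW, (ep_Qd (s := r ^ 2) hp hp0 hq0 hW).1,
      ep_rho (s := r ^ 2) hp hp0 hq0 hW] at h1
    have h2 : cL * G4 B (r ^ 2) (ep P E (r ^ 2) W) ≤ E4 B (r ^ 2) (ep P E (r ^ 2) W)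
        + CL * ((ip W (deriv (Qf 4))) ^ 2 + (ip (fun y => W y - Qf 4 y) rho) ^ 2) := by
      refine h1.trans (le_of_eq ?_)
      ring
    have h3 := Gog_CO (C := C) hM hcL hG (by positivity) hC0 h2 (hCV0 B (r ^ 2) hSl _ hε0)
      (hUp0 B (r ^ 2) hSl _ hε0 fun y => (hε y).trans hc1) hM3 hCf hCg hCh
    refine ⟨h3.1, h3.2, (LN4 hγ hSl hε0).trans (mul_le_mul_of_nonneg_right hCi hG)⟩

end H98KC

end
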