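import Pool.Agent.H68.KC.If4
import Pool.Agent.H98.KB.Wts
import Pool.Agent.H98.KB.Nlb
import Pool.Agent.H98.KB.Sol2

/-!
# MP_95be7d, `k = 4`: static part (`GoodA` of `Pool/Agent/H68/KC/If4.lean`), definitions

Everything here is a variant of `Pool/Agent/H98/KB/*` with
* `k = 4`, weight `om4 B s y = Th B y * Zf (s * y)` (decaying at both ends, class `Cl (2s) (2s+1/B)`) instead of `om B ρ`,
* functions `ε` of class `Cl 0 0` (bounded with all derivatives) instead of decaying ones,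
* orthogonality to `Q, Q', ρ`, `ρ = Q³Q'² = (1/4) L Q''`.
-/

open MeasureTheory Filter Topology Set
open scoped ContDiff

noncomputable section

namespace H98KC

open H98KB H68KC

/-- slowness of the weight `om4` -/
def Slow4 (B s : ℝ) : Prop := 16 ≤ B ∧ 0 < s ∧ 16 * s * B ≤ 1

/-- the weight of `T4` -/
def ta (B s y : ℝ) : ℝ := (deriv (Th B) y + s * Th B y) * Zf (s * y)

/-- the weight of `Bad` -/
def bi (s y : ℝ) : ℝ := (Ici (1 / s)).indicator (fun z => 1 / Real.cosh (s * z - 2)) y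

/-- the energy pairing -/
def EE4 (B s : ℝ) (ε ζ : ℝ → ℝ) : ℝ :=
  ∫ y, om4 B s y * (deriv ε y * deriv ζ y + (ε y - Df 4 ε y) * ζ y)

/-- `G_δ = (1 - δ ∂²) Q''` -/
def Gd4 (δ y : ℝ) : ℝ :=
  deriv (deriv (Qf 4)) y - δ * deriv (deriv (deriv (deriv (Qf 4)))) y

/-- `J(v) = ∫ t' (v' + t v)²`, `t = tanh (2y)` -/
def Jn (v : ℝ → ℝ) : ℝ := ∫ y, deriv (th 4) y * (deriv v y + th 4 y * v y) ^ 2

/-- `g' + β ΛQ + m Q' - w Λε + m ε' - et' + S` -/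
def Dz (β w m : ℝ) (ε S et : ℝ → ℝ) (y : ℝ) : ℝ :=
  deriv (gf 4 ε) y + β * Lam 4 (Qf 4) y + m * deriv (Qf 4) y - w * Lam 4 ε y + m * deriv ε y
    - deriv et y + S y

/-- bound for the forcing `S` -/
def SB (τ₀ τ₁ τ₂ : ℝ) (ε S : ℝ → ℝ) : Prop :=
  ∀ y, |S y| ≤ τ₀ * (|ε y| + |deriv ε y| + |deriv (deriv ε) y|) + τ₁ * bd (1 / 2) 0 y + τ₂

/-- `KK = f(Q+h+ε) - f(Q+ε) - Q⁴ h` -/
def Kf (h ε : ℝ → ℝ) (y : ℝ) : ℝ :=
  fl 4 (Qf 4 y + h y + ε y) - fl 4 (Qf 4 y + ε y) - (Qf 4 y) ^ 4 * h y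

/-- the forcing `S` in `λ³ ε_t = Dz (b-w) w m ε S et` -/
def Sf (P E : ℝ → ℝ) (s w m l : ℝ) (W et : ℝ → ℝ) (y : ℝ) : ℝ :=
  l * deriv (deriv (Qf 4)) y + l * deriv (deriv (ep P E s W)) y
    - deriv (Kf (hf P E (bq s W) (alf s W)) (ep P E s W)) y
    - 1 / 2 * w * bq s W * P y - w * (y * deriv (hf P E (bq s W) (alf s W)) y)
    + m * deriv (hf P E (bq s W) (alf s W)) y
    + l * deriv (deriv (hf P E (bq s W) (alf s W))) y
    - bqD s w W (ze w m l W et) * P y - alm s w W (ze w m l W et) * E y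

theorem Bad_eq {s : ℝ} (ε : ℝ → ℝ) : Bad s ε =
    s * ∫ y, bi s y * ((ε y) ^ 2 + (deriv ε y) ^ 2 + (deriv (deriv ε) y) ^ 2) := by
  unfold Bad bi
  congr 1
  rw [← integral_indicator measurableSet_Ici]
  congr 1
  funext y
  by_cases h : y ∈ Ici (1 / s)
  · simp only [indicator_of_mem h]
  · simp only [indicator_of_notMem h, zero_mul]

theorem T4_eq (B s : ℝ) (ε : ℝ → ℝ) : T4 B s ε =
    ∫ y, ta B s y * ((ε y) ^ 2 + (deriv ε y) ^ 2 + (deriv (deriv ε) y) ^ 2) := rfl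

end H98KC

end
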