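import Pool.Agent.H98.KC.Base
import Pool.Agent.H98.KB.Coc
import Pool.Agent.H68.KC.PRg

/-!
# Coe (MP_95be7d_S4): coercivity of `L` with the constraints `Q, Q', ρ` (uses `L_coer`, `ip_L` of `KB/Coc`, `KB/Cob`)

`n₀ = ΛQ` (class `Cl c c` for `c < 1`), `φ₀ = ph0 4`.  `L ΛQ = -2Q`, `Lφ₀ = -μφ₀`, `μ = 8` (`L_ph0`), so `μ(ΛQ,φ₀) = -(ΛQ,Lφ₀) = -(LΛQ,φ₀) = 2(Q,φ₀) > 0`;
`(LΛQ,ΛQ) = -2(Q,ΛQ) = 0` (`ip_LamQ_Q`, `sc 4 = 0`); `(ΛQ,Q') = 0`; `(ΛQ,ρ) ≠ 0` (`ip_LamQrho`).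
For `f ∈ Cl p q` put `c = -(f,φ₀)/(ΛQ,φ₀)`, `g = f + cΛQ` (class `Cl (min p (1/2)) (min q (1/2))`).  Then `(g,φ₀) = 0`, `(g,Q') = (f,Q')`,
`(Lg,g) = (Lf,f)+2c(f,LΛQ)+c²(LΛQ,ΛQ) = (Lf,f)-4c(f,Q)`.  `L_coer`: `c₀|g|²_{H¹} ≤ (Lf,f)-4c(f,Q)+C(f,Q')²`.
`c(ΛQ,ρ) = (g,ρ)-(f,ρ)`, so `|c| ≤ C(|g|_{L²}+|(f,ρ)|)` and `|f|_{H¹} ≤ |g|_{H¹}+|c||ΛQ|_{H¹} ≤ C(|g|_{H¹}+|(f,ρ)|)`, also `|c| ≤ C|f|_{L²}`.
`|f|²_{H¹} ≤ C(|g|²_{H¹}+(f,ρ)²) ≤ C((Lf,f) + |c||(f,Q)| + (f,Q')²+(f,ρ)²)`, `C|c||(f,Q)| ≤ C|f||(f,Q)| ≤ (1/2)|f|²+C(f,Q)²`.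
(`(Lf,f) = ∫(f'²+f²-Q⁴f²)`: `ip_L`.)  Use the auxiliary lemmas `Coc_*` of `KB/Coc.lean`.
-/

open MeasureTheory Filter Topology Set
open scoped ContDiff

noncomputable section

namespace H98KC

open H98KB H68KC

theorem Coe_k : 1 ≤ 4 := by norm_num

theorem Coe_Cn : Cl (1 / 2) (1 / 2) (Lam 4 (Qf 4)) := Cl_LamQ Coe_k (by norm_num)

theorem Coe_Cph : Cl 3 3 (ph0 4) := Cl_mono (Cl_ph0 Coe_k) (by norm_num) (by norm_num)

/-- Cauchy-Schwarz, squared -/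
theorem Coe_cs {p q p' q' : ℝ} {f g : ℝ → ℝ} (hp : 0 < p) (hq : 0 < q) (hf : Cl p q f)
    (hp' : 0 < p') (hq' : 0 < q') (hg : Cl p' q' g) :
    (ip f g) ^ 2 ≤ (∫ y, (f y) ^ 2) * ∫ y, (g y) ^ 2 := by
  have h6 := (cs_int (Cl_cont hf) (Cl_cont hg) (Coc_X hp hq hf) (Coc_X hp' hq' hg)).2
  have h7 : |ip f g| ≤ √(∫ y, (f y) ^ 2) * √(∫ y, (g y) ^ 2) := h6
  have h9 := pow_le_pow_left₀ (abs_nonneg _) h7 2
  rw [sq_abs, mul_pow, Real.sq_sqrt (integral_nonneg fun y => sq_nonneg _),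
    Real.sq_sqrt (integral_nonneg fun y => sq_nonneg _)] at h9
  exact h9

theorem Coe_Qph : 0 < ip (Qf 4) (ph0 4) := by
  unfold ip
  have hi : Integrable (fun y => Qf 4 y * ph0 4 y) :=
    Cl_int (Cl_mul (Cl_Qf Coe_k) Coe_Cph) (by norm_num) (by norm_num)
  have h0 : (0 : ℝ → ℝ) ≤ fun y => Qf 4 y * ph0 4 y := fun y =>
    (mul_pos (Qf_pos 4 y) (ph0_pos 4 y)).le
  rw [integral_pos_iff_support_of_nonneg h0 hi]
  have hs : Function.support (fun y => Qf 4 y * ph0 4 y) = univ := by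
    ext y
    simp only [Function.mem_support, mem_univ, iff_true]
    exact (mul_pos (Qf_pos 4 y) (ph0_pos 4 y)).ne'
  rw [hs]
  simp

theorem Coe_nph : 0 < ip (Lam 4 (Qf 4)) (ph0 4) := by
  have h1 := Lop_symm Coe_k Coe_Cn Coe_Cph (by norm_num) (by norm_num)
  have e1 : ip (Lop 4 (Lam 4 (Qf 4))) (ph0 4) = -2 * ip (Qf 4) (ph0 4) := by
    unfold ip
    rw [← integral_const_mul]
    congr 1
    funext y
    rw [L_LamQ Coe_k]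
    ring
  have e2 : ip (Lam 4 (Qf 4)) (Lop 4 (ph0 4)) = -8 * ip (Lam 4 (Qf 4)) (ph0 4) := by
    unfold ip
    rw [← integral_const_mul]
    congr 1
    funext y
    rw [L_ph0 Coe_k]
    push_cast
    ring
  rw [e1, e2] at h1
  have := Coe_Qph
  linarith

theorem Coe_nQ : ip (Lam 4 (Qf 4)) (Qf 4) = 0 := by
  rw [ip_LamQ_Q Coe_k]
  have : sc 4 = 0 := by unfold sc; norm_num
  rw [this]
  simp

/-- the elementary inequalities -/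
theorem Coe_arith {c₀ C₀ A K s B F G v w z c : ℝ} (hc₀ : 0 < c₀) (hC₀ : 0 < C₀) (hA : 0 < A)
    (hK : 0 < K) (hs : s = c₀ / (2 * A * K)) (hv : 0 ≤ v) (hz : 0 ≤ z)
    (h1 : c₀ * G ≤ B - 4 * c * w + C₀ * v) (h2 : F ≤ A * (G + z)) (h3 : c ^ 2 ≤ K * F) :
    c₀ / (2 * A) * F ≤ B + (4 / s + C₀ + c₀) * (w ^ 2 + v + z) := by
  have hs0 : 0 < s := by rw [hs]; positivity
  have e1 : s * K = c₀ / (2 * A) := by
    rw [hs]
    field_simp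
  have e2 : c₀ / A * F ≤ c₀ * G + c₀ * z := by
    rw [div_mul_eq_mul_div, div_le_iff₀ hA]
    nlinarith
  have e3 : -4 * c * w ≤ s * c ^ 2 + 4 / s * w ^ 2 := by
    have h5 : s * c ^ 2 + 4 / s * w ^ 2 + 4 * c * w = 1 / s * (s * c + 2 * w) ^ 2 := by
      field_simp
      ring
    have h6 : 0 ≤ 1 / s * (s * c + 2 * w) ^ 2 := by positivity
    linarith
  have e4 : s * c ^ 2 ≤ c₀ / (2 * A) * F := by
    rw [← e1, mul_assoc]
    exact mul_le_mul_of_nonneg_left h3 hs0.le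
  have e5 : c₀ / A * F = c₀ / (2 * A) * F + c₀ / (2 * A) * F := by
    field_simp
    ring
  have h4s : 0 < 4 / s := by positivity
  have hw : 0 ≤ w ^ 2 := sq_nonneg w
  have e6 : 4 / s * w ^ 2 + C₀ * v + c₀ * z ≤ (4 / s + C₀ + c₀) * (w ^ 2 + v + z) := by
    nlinarith [mul_nonneg h4s.le hv, mul_nonneg h4s.le hz, mul_nonneg hC₀.le hw,
      mul_nonneg hC₀.le hz, mul_nonneg hc₀.le hw, mul_nonneg hc₀.le hv]
  linarith

theorem L_coer4 : ∃ c C : ℝ, 0 < c ∧ 0 < C ∧ ∀ (p q : ℝ) (f : ℝ → ℝ), 0 < p → 0 < q → Cl p q f →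
    c * ∫ y, ((f y) ^ 2 + (deriv f y) ^ 2) ≤
      (∫ y, ((deriv f y) ^ 2 + (f y) ^ 2 - Qf 4 y ^ 4 * (f y) ^ 2))
        + C * ((ip f (Qf 4)) ^ 2 + (ip f (deriv (Qf 4))) ^ 2 + (ip f rho) ^ 2) := by
  obtain ⟨c₀, C₀, hc₀, hC₀, hco⟩ := L_coer 4 (by norm_num)
  have hk := Coe_k
  have hn := Coe_Cn
  have hd := Coe_nph
  have hr : 0 < ip (Lam 4 (Qf 4)) rho := by
    rw [ip_LamQrho]
    have := Qd2_pos Coe_k
    positivity
  obtain ⟨n, hne⟩ : ∃ n : ℝ → ℝ, n = Lam 4 (Qf 4) := ⟨_, rfl⟩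
  have hnQ := Coe_nQ
  have hnQd := ip_LamQ_Qd Coe_k
  have hLn : Lop 4 n = fun y => -2 * Qf 4 y := by
    funext y
    rw [hne, L_LamQ Coe_k]
  rw [← hne] at hn hd hr hnQ hnQd
  obtain ⟨d, hde⟩ : ∃ d : ℝ, d = ip n (ph0 4) := ⟨_, rfl⟩
  obtain ⟨r, hre⟩ : ∃ r : ℝ, r = ip n rho := ⟨_, rfl⟩
  obtain ⟨N, hNe⟩ : ∃ N : ℝ, N = ∫ y, ((n y) ^ 2 + (deriv n y) ^ 2) := ⟨_, rfl⟩
  obtain ⟨R, hRe⟩ : ∃ R : ℝ, R = ∫ y, (rho y) ^ 2 := ⟨_, rfl⟩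
  obtain ⟨Φ, hΦe⟩ : ∃ Φ : ℝ, Φ = ∫ y, (ph0 4 y) ^ 2 := ⟨_, rfl⟩
  have hN : 0 ≤ N := by
    rw [hNe]
    exact integral_nonneg fun y => by positivity
  have hR : 0 ≤ R := by
    rw [hRe]
    exact integral_nonneg fun y => by positivity
  have hΦ : 0 < Φ := by
    have := Coc_N0 (k := 4) (by norm_num)
    rwa [Coc_sq, ← hΦe] at this
  rw [← hde] at hd
  rw [← hre] at hr
  obtain ⟨A, hAe⟩ : ∃ A : ℝ, A = 2 + 4 * N * (R + 1) / r ^ 2 := ⟨_, rfl⟩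
  have hA : 0 < A := by rw [hAe]; positivity
  obtain ⟨K, hKe⟩ : ∃ K : ℝ, K = Φ / d ^ 2 := ⟨_, rfl⟩
  have hK : 0 < K := by rw [hKe]; positivity
  obtain ⟨s, hse⟩ : ∃ s : ℝ, s = c₀ / (2 * A * K) := ⟨_, rfl⟩
  have hs : 0 < s := by rw [hse]; positivity
  refine ⟨c₀ / (2 * A), 4 / s + C₀ + c₀, by positivity, by positivity, ?_⟩
  intro p₀ q₀ f hp₀ hq₀ hf₀
  obtain ⟨p, hpe⟩ : ∃ p : ℝ, p = min p₀ (1 / 2) := ⟨_, rfl⟩
  obtain ⟨q, hqe⟩ : ∃ q : ℝ, q = min q₀ (1 / 2) := ⟨_, rfl⟩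
  have hp : 0 < p := by rw [hpe]; exact lt_min hp₀ (by norm_num)
  have hq : 0 < q := by rw [hqe]; exact lt_min hq₀ (by norm_num)
  have hp2 : p ≤ 1 / 2 := by rw [hpe]; exact min_le_right _ _
  have hq2 : q ≤ 1 / 2 := by rw [hqe]; exact min_le_right _ _
  have hf : Cl p q f := Cl_mono hf₀ (by rw [hpe]; exact min_le_left _ _)
    (by rw [hqe]; exact min_le_left _ _)
  have hn' : Cl p q n := Cl_mono hn hp2 hq2
  have hφ : Cl p q (ph0 4) := Cl_mono Coe_Cph (by linarith) (by linarith)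
  have hψ : Cl p q (deriv (Qf 4)) := Cl_mono (Cl_der (Cl_Qf hk)) (by linarith) (by linarith)
  have hQ : Cl p q (Qf 4) := Cl_mono (Cl_Qf hk) (by linarith) (by linarith)
  have hρ : Cl p q rho := Cl_mono rho_cl (by linarith) (by linarith)
  obtain ⟨c, hce⟩ : ∃ c : ℝ, c = -(ip f (ph0 4)) / d := ⟨_, rfl⟩
  obtain ⟨g, hge⟩ : ∃ g : ℝ → ℝ, g = fun y => f y + c * n y := ⟨_, rfl⟩
  have hg : Cl p q g := by rw [hge]; exact Cl_add hf (Cl_smul c hn')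
  have hip : ∀ h : ℝ → ℝ, Cl p q h → ip g h = ip f h + c * ip n h := by
    intro h hh
    rw [hge]
    exact Coc_add c hp hq hf hn' hh
  have g1 : ip g (ph0 4) = 0 := by
    rw [hip _ hφ, ← hde, hce]
    field_simp
    ring
  have g2 : ip g (deriv (Qf 4)) = ip f (deriv (Qf 4)) := by
    rw [hip _ hψ, hnQd]
    ring
  have g3 : ip g rho = ip f rho + c * r := by rw [hip _ hρ, hre]
  have g4 : ip g (Qf 4) = ip f (Qf 4) := by
    rw [hip _ hQ, hnQ]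
    ring
  have hLf := Cl_Lop hk hf
  have g5 : ip (Lop 4 g) g = ip (Lop 4 f) f - 4 * c * ip f (Qf 4) := by
    have e1 : Lop 4 g = fun y => Lop 4 f y + (-2 * c) * Qf 4 y := by
      rw [hge, Coc_lop c hf hn', hLn]
      funext y
      ring
    have e2 : ip (Lop 4 f) g = ip (Lop 4 f) f - 2 * c * ip f (Qf 4) := by
      rw [Coc_comm, hip _ hLf, Coc_comm f (Lop 4 f), ← Lop_symm hk hn' hf (by linarith) (by linarith),
        hLn]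
      have e3 : ip (fun y => -2 * Qf 4 y) f = -2 * ip f (Qf 4) := by
        unfold ip
        rw [← integral_const_mul]
        congr 1
        funext y
        ring
      rw [e3]
      ring
    rw [e1, Coc_add (-2 * c) hp hq hLf hQ hg, e2, Coc_comm (Qf 4) g, g4]
    ring
  have h1 := hco p q g hp hq hg
  rw [← ip_L hk hp hq hg, g5, g1, g2] at h1
  rw [← ip_L hk hp hq hf]
  have iX : ∀ h : ℝ → ℝ, Cl p q h → Integrable (fun y => (h y) ^ 2 + (deriv h y) ^ 2) :=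
    fun h hh => (Coc_X hp hq hh).add (Coc_X hp hq (Cl_der hh))
  -- `F ≤ 2 G + 2 c² N`
  have h2 : ∫ y, ((f y) ^ 2 + (deriv f y) ^ 2) ≤
      2 * (∫ y, ((g y) ^ 2 + (deriv g y) ^ 2)) + 2 * c ^ 2 * N := by
    rw [hNe, ← integral_const_mul, ← integral_const_mul, ← integral_add
      ((iX g hg).const_mul _) ((iX n hn').const_mul _)]
    refine integral_mono (iX f hf) (((iX g hg).const_mul _).add ((iX n hn').const_mul _)) fun y => ?_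
    have d1 : deriv g y = deriv f y + c * deriv n y := by
      rw [hge]
      exact ((Cl_hd hf y).add ((Cl_hd hn' y).const_mul c)).deriv
    have d2 : g y = f y + c * n y := by rw [hge]
    show f y ^ 2 + deriv f y ^ 2 ≤ 2 * (g y ^ 2 + deriv g y ^ 2) +
      2 * c ^ 2 * (n y ^ 2 + deriv n y ^ 2)
    rw [d1, d2]
    nlinarith [sq_nonneg (f y + 2 * (c * n y)), sq_nonneg (deriv f y + 2 * (c * deriv n y))]
  have hgG : ∫ y, (g y) ^ 2 ≤ ∫ y, ((g y) ^ 2 + (deriv g y) ^ 2) :=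
    integral_mono (Coc_X hp hq hg) (iX g hg) fun y => by
      show g y ^ 2 ≤ g y ^ 2 + deriv g y ^ 2
      nlinarith [sq_nonneg (deriv g y)]
  have hfF : ∫ y, (f y) ^ 2 ≤ ∫ y, ((f y) ^ 2 + (deriv f y) ^ 2) :=
    integral_mono (Coc_X hp hq hf) (iX f hf) fun y => by
      show f y ^ 2 ≤ f y ^ 2 + deriv f y ^ 2
      nlinarith [sq_nonneg (deriv f y)]
  have h3 := Coe_cs hp hq hg hp hq hρ
  have h4 := Coe_cs hp hq hf hp hq hφ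
  rw [← hRe] at h3
  rw [← hΦe] at h4
  rw [g3] at h3
  have hG0 : 0 ≤ ∫ y, ((g y) ^ 2 + (deriv g y) ^ 2) := integral_nonneg fun y => by positivity
  have hcd : c * d = -(ip f (ph0 4)) := by
    rw [hce]
    field_simp
  generalize (∫ y, ((f y) ^ 2 + (deriv f y) ^ 2)) = F at *
  generalize (∫ y, ((g y) ^ 2 + (deriv g y) ^ 2)) = G at *
  generalize (∫ y, (g y) ^ 2) = g0 at *
  generalize (∫ y, (f y) ^ 2) = f0 at *
  have h5 : c ^ 2 * r ^ 2 ≤ 2 * R * G + 2 * (ip f rho) ^ 2 := by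
    have h6 : (ip f rho + c * r) ^ 2 ≤ G * R :=
      h3.trans (mul_le_mul_of_nonneg_right hgG hR)
    nlinarith [sq_nonneg (2 * ip f rho + c * r)]
  have h7 : F ≤ A * (G + (ip f rho) ^ 2) := by
    have hz : 0 ≤ (ip f rho) ^ 2 := sq_nonneg _
    have h8 : c ^ 2 ≤ (2 * R * G + 2 * (ip f rho) ^ 2) / r ^ 2 := by
      rw [le_div_iff₀ (by positivity)]
      exact h5
    have h9 : (2 * R * G + 2 * (ip f rho) ^ 2) / r ^ 2 ≤ 2 * (R + 1) / r ^ 2 * (G + (ip f rho) ^ 2) := by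
      rw [div_mul_eq_mul_div]
      refine div_le_div_of_nonneg_right ?_ (by positivity)
      nlinarith [mul_nonneg hR hz]
    have h10 : 2 * c ^ 2 * N ≤ 2 * (2 * (R + 1) / r ^ 2 * (G + (ip f rho) ^ 2)) * N := by
      refine mul_le_mul_of_nonneg_right ?_ hN
      linarith [h8.trans h9]
    have h11 : A * (G + (ip f rho) ^ 2) = 2 * (G + (ip f rho) ^ 2) +
        2 * (2 * (R + 1) / r ^ 2 * (G + (ip f rho) ^ 2)) * N := by
      rw [hAe]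
      ring
    rw [h11]
    linarith
  have h12 : c ^ 2 ≤ K * F := by
    have h13 : c ^ 2 * d ^ 2 ≤ Φ * F := by
      have h14 : c ^ 2 * d ^ 2 = (ip f (ph0 4)) ^ 2 := by
        rw [← mul_pow, hcd]
        ring
      rw [h14, mul_comm Φ F]
      exact h4.trans (mul_le_mul_of_nonneg_right hfF hΦ.le)
    rw [hKe, div_mul_eq_mul_div, le_div_iff₀ (by positivity)]
    exact h13
  have h1' : c₀ * G ≤ ip (Lop 4 f) f - 4 * c * ip f (Qf 4) + C₀ * (ip f (deriv (Qf 4))) ^ 2 := by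
    nlinarith
  exact Coe_arith hc₀ hC₀ hA hK hse (sq_nonneg _) (sq_nonneg _) h1' h7 h12

end H98KC

end
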