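import Pool.Agent.H98.KC.Base
import Pool.Agent.H68.KC.MOa

/-!
# Dca (MP_95be7d_S4): decomposition of the velocity of `ε` (uses the statements of `H68/KC/PRe, PRg, MOa`)

`h = hf P E b α`, `b = bq s W`, `α = alf s W`, `ε = ep P E s W`, `e = W - Q = h + ε` (`ep_split`), `Z = ze w m l W et = zeta 4 w m l e et = (gf 4 e)' + Nf - et'`.
* `gf 4 (h+ε) = gf 4 ε + Lop 4 h - Kf h ε` pointwise (`Df 4 (h+ε) - Df 4 ε = fl(Q+h+ε)-fl(Q+ε) = Kf h ε + Q⁴h`; `(h+ε)'' = h''+ε''`).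
* `Lop 4 h = -b Jf + α` (`Prof.LP`, `Prof.LE`, linearity), so `(Lop 4 h)' = b ΛQ` (`Jf_hd`).  Hence `(gf 4 e)' = (gf 4 ε)' + bΛQ - (Kf h ε)'`.
* `Nf 4 w m l e = -wΛQ+mQ'+lQ'' - wΛh - wΛε + mh'+mε' + lh''+lε''`, `Λh = (1/2)h+yh'` (`2/(4:ℝ) = 1/2`), and
  `-w(1/2)h + (1/2)wαE = -(1/2)wbP`.
* `epD = Z - bqD·P - alD·E`, `alm = alD + (1/2)wα` (definition), so `-alD·E = -alm·E + (1/2)wαE`.
Sum: `epD = (gf 4 ε)' + (b-w)ΛQ + mQ' - wΛε + mε' - et' + Sf`.
`Kf_cl`: `Cl 0 0` (polynomial in functions of class `Cl 0 0`).  `Sf_cl`: all terms are of class `Cl 0 0`; `y h'`: `h' ∈ Cl (3/4) (3/4)` (`Prof.dP`, `Prof.E1`), `Cl_id`.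
-/

open MeasureTheory Filter Topology Set
open scoped ContDiff

noncomputable section

namespace H98KC

open H98KB H68KC

variable {P E : ℝ → ℝ}

theorem Dca_dE (hp : Prof P E) : Cl (3 / 4) (3 / 4) (deriv E) := by
  have h1 := Cl_der hp.E1
  have h2 : deriv (fun y => E y - 1) = deriv E := by
    funext y
    rw [deriv_sub_const]
  rwa [h2] at h1

theorem Dca_hd (hp : Prof P E) (b α y : ℝ) :
    HasDerivAt (hf P E b α) (b * deriv P y + α * deriv E y) y :=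
  ((Cl_hd hp.cP y).const_mul b).add ((Cl_hd (E_cl hp) y).const_mul α)

theorem hf_der (hp : Prof P E) (b α : ℝ) : Cl (3 / 4) (3 / 4) (deriv (hf P E b α)) ∧
    ∀ y, deriv (hf P E b α) y = b * deriv P y + α * deriv E y := by
  have h1 : ∀ y, deriv (hf P E b α) y = b * deriv P y + α * deriv E y := fun y =>
    (Dca_hd hp b α y).deriv
  refine ⟨?_, h1⟩
  have h2 : deriv (hf P E b α) = fun y => b * deriv P y + α * deriv E y := funext h1
  rw [h2]
  exact Cl_add (Cl_smul b hp.dP) (Cl_smul α (Dca_dE hp))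

theorem Dca_Q : Cl 0 0 (Qf 4) := Cl_mono (Cl_Qf (k := 4) (by norm_num)) (by norm_num) (by norm_num)

theorem Dca_fl {f : ℝ → ℝ} (hf : Cl 0 0 f) : Cl 0 0 (fun y => fl 4 (f y)) := by
  have h1 := Cl_smul (1 / 5) (Cl_pow0 hf 5)
  have h2 : (fun y => fl 4 (f y)) = fun y => 1 / 5 * f y ^ 5 := by
    funext y
    unfold fl
    norm_num
    ring
  rwa [h2]

theorem Kf_cl {h ε : ℝ → ℝ} (hh : Cl 0 0 h) (hε : Cl 0 0 ε) : Cl 0 0 (Kf h ε) := by
  have h1 := Dca_fl (Cl_add (Cl_add Dca_Q hh) hε)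
  have h2 := Dca_fl (Cl_add Dca_Q hε)
  have h3 := Cl_mul0 (Cl_pow0 Dca_Q 4) hh
  exact Cl_sub (Cl_sub h1 h2) h3

theorem Sf_cl (hp : Prof P E) {p q s w m l : ℝ} {W et : ℝ → ℝ} (hp0 : 0 < p) (hq0 : 0 < q)
    (hW : Cl p q (fun y => W y - Qf 4 y)) : Cl 0 0 (Sf P E s w m l W et) := by
  have hh : Cl 0 0 (hf P E (bq s W) (alf s W)) := hf_cl hp _ _
  have hε : Cl 0 0 (ep P E s W) := ep_cl hp hp0.le hq0.le hW
  have hQ2 := Cl_der (Cl_der Dca_Q)
  have hε2 := Cl_der (Cl_der hε)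
  have hK := Cl_der (Kf_cl hh hε)
  have hd := (hf_der hp (bq s W) (alf s W)).1
  have hd0 : Cl 0 0 (deriv (hf P E (bq s W) (alf s W))) := Cl_mono hd (by norm_num) (by norm_num)
  have hdd := Cl_der hd0
  have hy : Cl 0 0 (fun y => y * deriv (hf P E (bq s W) (alf s W)) y) :=
    Cl_mono (Cl_mul (Cl_id (c := 3 / 4) (by norm_num)) hd) (by norm_num) (by norm_num)
  have hE := E_cl hp
  exact Cl_sub (Cl_sub (Cl_add (Cl_add (Cl_sub (Cl_sub (Cl_sub (Cl_add (Cl_smul l hQ2)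
    (Cl_smul l hε2)) hK) (Cl_smul (1 / 2 * w * bq s W) hp.cP)) (Cl_smul w hy)) (Cl_smul m hd0))
    (Cl_smul l hdd)) (Cl_smul (bqD s w W (ze w m l W et)) hp.cP))
    (Cl_smul (alm s w W (ze w m l W et)) hE)

theorem Dca_add1 {f g : ℝ → ℝ} (hf : Cl 0 0 f) (hg : Cl 0 0 g) :
    deriv (fun y => f y + g y) = fun y => deriv f y + deriv g y := by
  funext y
  exact ((Cl_hd hf y).add (Cl_hd hg y)).deriv

theorem Dca_Lop (hp : Prof P E) (b α y : ℝ) : Lop 4 (hf P E b α) y = -b * Jf y + α := by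
  have h1 : deriv (hf P E b α) = fun y => b * deriv P y + α * deriv E y :=
    funext (hf_der hp b α).2
  have h2 : deriv (deriv (hf P E b α)) y = b * deriv (deriv P) y + α * deriv (deriv E) y := by
    rw [h1]
    exact (((Cl_hd hp.dP y).const_mul b).add ((Cl_hd (Dca_dE hp) y).const_mul α)).deriv
  have h3 := hp.LP y
  have h4 := hp.LE y
  unfold Lop at h3 h4 ⊢
  rw [h2]
  unfold hf
  linear_combination b * h3 + α * h4

theorem Dca_gf {h ε : ℝ → ℝ} (hh : Cl 0 0 h) (hε : Cl 0 0 ε) (y : ℝ) :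
    gf 4 (fun z => h z + ε z) y = gf 4 ε y + Lop 4 h y - Kf h ε y := by
  have h1 := Dca_add1 hh hε
  have h2 : deriv (deriv (fun z => h z + ε z)) y = deriv (deriv h) y + deriv (deriv ε) y := by
    rw [h1]
    exact ((Cl_hd (Cl_der hh) y).add (Cl_hd (Cl_der hε) y)).deriv
  have h3 : Qf 4 y + (h y + ε y) = Qf 4 y + h y + ε y := by ring
  unfold gf Lop Kf Df
  rw [h2, h3]
  ring

theorem Dca_gfd (hp : Prof P E) (b α : ℝ) {ε : ℝ → ℝ} (hε : Cl 0 0 ε) (y : ℝ) :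
    deriv (gf 4 (fun z => hf P E b α z + ε z)) y =
      deriv (gf 4 ε) y + b * Lam 4 (Qf 4) y - deriv (Kf (hf P E b α) ε) y := by
  have hh : Cl 0 0 (hf P E b α) := hf_cl hp _ _
  have e1 : gf 4 (fun z => hf P E b α z + ε z) =
      fun z => gf 4 ε z + (-b * Jf z + α) - Kf (hf P E b α) ε z := by
    funext z
    rw [Dca_gf hh hε, Dca_Lop hp]
  have hg : Cl 0 0 (gf 4 ε) := Cl_gf (by norm_num) le_rfl le_rfl hε
  have hK := Kf_cl hh hε
  have hd := ((Cl_hd hg y).add (((Jf_hd y).const_mul (-b)).add_const α)).sub (Cl_hd hK y)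
  rw [e1]
  refine hd.deriv.trans ?_
  ring

theorem epD_eq (hp : Prof P E) {p q s w m l : ℝ} {W et : ℝ → ℝ} (hp0 : 0 < p) (hq0 : 0 < q)
    (hW : Cl p q (fun y => W y - Qf 4 y)) (het : Cl p q et) :
    epD P E s w W (ze w m l W et) =
      Dz (bq s W - w) w m (ep P E s W) (Sf P E s w m l W et) et := by
  have hh : Cl 0 0 (hf P E (bq s W) (alf s W)) := hf_cl hp _ _
  have hε : Cl 0 0 (ep P E s W) := ep_cl hp hp0.le hq0.le hW
  have he : (fun y => W y - Qf 4 y) = fun y => hf P E (bq s W) (alf s W) y + ep P E s W y :=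
    funext (ep_split P E s W)
  have hd1 := Dca_add1 hh hε
  funext y
  have hd2 : deriv (deriv (fun z => hf P E (bq s W) (alf s W) z + ep P E s W z)) y =
      deriv (deriv (hf P E (bq s W) (alf s W))) y + deriv (deriv (ep P E s W)) y := by
    rw [hd1]
    exact ((Cl_hd (Cl_der hh) y).add (Cl_hd (Cl_der hε) y)).deriv
  have hg := Dca_gfd hp (bq s W) (alf s W) hε y
  have hz : ze w m l W et y = deriv (gf 4 (fun z => hf P E (bq s W) (alf s W) z + ep P E s W z)) y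
      + Nf 4 w m l (fun z => hf P E (bq s W) (alf s W) z + ep P E s W z) y - deriv et y := by
    unfold ze
    rw [he]
    rfl
  unfold epD Dz Sf alm
  rw [hz, hg]
  unfold Nf
  rw [hd2]
  have hL : Lam 4 (fun z => hf P E (bq s W) (alf s W) z + ep P E s W z) y =
      1 / 2 * (bq s W * P y + alf s W * E y + ep P E s W y)
      + y * (deriv (hf P E (bq s W) (alf s W)) y + deriv (ep P E s W) y) := by
    unfold Lam
    rw [hd1]
    unfold hf
    norm_num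
  have hL2 : Lam 4 (ep P E s W) y = 1 / 2 * ep P E s W y + y * deriv (ep P E s W) y := by
    unfold Lam
    norm_num
  rw [hL, hL2, hd1]
  ring

end H98KC

end
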