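import Pool.Agent.H98.KC.Gog
import Pool.Agent.H68.KC.GC
import Pool.Agent.H68.KC.TRf
import Pool.Agent.H68.KC.INh
import Pool.Agent.H68.KC.PRf
import Pool.Agent.H72.KC.Fin4

/-!
# Final theorem for `k = 4`
-/

namespace H98KC

open H98KB H68KC

theorem blow4 : ∃ φ p₀ : ℝ → ℝ, IsH1 φ p₀ ∧ ¬ ∃ u p : ℝ → ℝ → ℝ, IsGlobalSol 4 φ u p := by
  obtain ⟨P, E, hp⟩ := prof_exists
  obtain ⟨γ, η, δ, M, B, c₁, hγ, hγ1, -, -, -, -, -, hB, hc₁, hc₁', hA⟩ := goodA hp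
  obtain ⟨c₂, hc₂, hC⟩ := goodC hp hγ hγ1 hB
  have hc : 0 < min c₁ c₂ := lt_min hc₁ hc₂
  obtain ⟨C₁, -, h1⟩ := hA (min c₁ c₂) hc (min_le_left _ _)
  obtain ⟨C₂, h2⟩ := hC (min c₁ c₂) (min_le_right _ _)
  exact H72KC.blowup4 thmTrap thmIni ⟨P, E, γ, η, δ, M, B, min c₁ c₂, max C₁ C₂, hp,
    h1 _ (le_max_left _ _), H68KC.goodB hp ((min_le_left _ _).trans hc₁'), h2 _ (le_max_right _ _)⟩

end H98KC
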