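import Pool.Agent.H98.KC.Wza

/-!
# Ida (MP_95be7d_S4): identities for `EE4 ζ = ∫ om4 (ε'ζ' + (ε-D)ζ)` (variant of `KB/Eid.lean`; uses the statements of `Wza`)

`g = gf 4 ε = -ε''+ε-D`, `D = Df 4 ε = Q⁴ε+R`.  `ε ∈ Cl 0 0`, `g, D, R ∈ Cl 0 0` (`Cl_gf`, `Cl_Df`, `Cl_Rf` with `p=q=0`), `om4 ∈ Cl (2s)(2s+1/B)`.
* `EE4_g`: `ε'ζ'om = (om ε'ζ)' - om'ε'ζ - om ε''ζ`.
* `EE4_main`: `ζ=g'`: `om g g' = (om g²/2)' - om'g²/2`; `om'ε'g' = (om'ε'g)' - om''ε'g - om'ε''g` and `ε''=ε-D-g`.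
* `EE4_L`: `om ε'ζ' = (om ε ζ')' - om'εζ' - om εζ''` and `(ε-D)ζ = ε(1-Q⁴)ζ - Rζ`; `ζ ∈ Cl 0 0`.
Copy of the proofs of `EE_g`, `EE_main` in `KB/Eid.lean` with `Adm ρ p q ε` replaced by `Cl 0 0 ε`.
-/

open MeasureTheory Filter Topology Set
open scoped ContDiff

noncomputable section

namespace H98KC

open H98KB H68KC

variable {B s : ℝ} {ε ζ : ℝ → ℝ}

theorem Ida_B (h : Slow4 B s) : 0 < 1 / B := one_div_pos.mpr (by have := h.1; linarith)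

theorem Ida_gcl (hε : Cl 0 0 ε) : Cl 0 0 (gf 4 ε) :=
  Cl_gf (by norm_num) le_rfl le_rfl hε

theorem Ida_Dcl (hε : Cl 0 0 ε) : Cl 0 0 (fun y => ε y - Df 4 ε y) :=
  Cl_sub hε (Cl_Df (by norm_num) le_rfl le_rfl hε)

theorem Ida_Ecl {p' q' : ℝ} (hε : Cl 0 0 ε) (hζ : Cl p' q' ζ) :
    Cl (0 + p') (0 + q') (fun y => deriv ε y * deriv ζ y + (ε y - Df 4 ε y) * ζ y) :=
  Cl_add (Cl_mul (Cl_der hε) (Cl_der hζ)) (Cl_mul (Ida_Dcl hε) hζ)

theorem EE4_g (h : Slow4 B s) (hε : Cl 0 0 ε) (hζ : Cl (-(s / 2)) (-(s / 2)) ζ) :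
    EE4 B s ε ζ = (∫ y, om4 B s y * (gf 4 ε y * ζ y))
      - ∫ y, deriv (om4 B s) y * (deriv ε y * ζ y) := by
  have hs := h.2.1
  have hB1 := Ida_B h
  have hO := Cl_om4 h
  have P1 : 0 < 2 * s + (0 + -(s / 2)) := by linarith
  have P2 : 0 < 2 * s + 1 / B + (0 + -(s / 2)) := by linarith
  have i1 : Integrable (fun y => om4 B s y * (gf 4 ε y * ζ y)) :=
    Cl_int (Cl_mul hO (Cl_mul (Ida_gcl hε) hζ)) P1 P2
  have i2 : Integrable (fun y => deriv (om4 B s) y * (deriv ε y * ζ y)) :=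
    Cl_int (Cl_mul (Cl_der hO) (Cl_mul (Cl_der hε) hζ)) P1 P2
  have i3 : Integrable (fun y => om4 B s y * (deriv ε y * deriv ζ y + (ε y - Df 4 ε y) * ζ y)) :=
    Cl_int (Cl_mul hO (Ida_Ecl hε hζ)) P1 P2
  rw [← integral_sub i1 i2, EE4]
  refine Cl_int_eq i3 (i1.sub i2) (Cl_mul hO (Cl_mul (Cl_der hε) hζ)) P1 P2 fun y => ?_
  have hd := ((Cl_hd hO y).mul ((Cl_hd (Cl_der hε) y).mul (Cl_hd hζ y))).deriv
  have e : deriv (fun z => om4 B s z * (deriv ε z * ζ z)) y = deriv (om4 B s) y * (deriv ε y * ζ y)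
      + om4 B s y * (deriv (deriv ε) y * ζ y + deriv ε y * deriv ζ y) := hd
  rw [e]
  simp only [gf]
  ring

theorem EE4_main (h : Slow4 B s) (hε : Cl 0 0 ε) :
    EE4 B s ε (deriv (gf 4 ε)) = -(3 / 2) * (∫ y, deriv (om4 B s) y * (gf 4 ε y) ^ 2)
      + (∫ y, deriv (om4 B s) y * ((ε y - Df 4 ε y) * gf 4 ε y))
      + ∫ y, deriv (deriv (om4 B s)) y * (deriv ε y * gf 4 ε y) := by
  have hs := h.2.1
  have hB1 := Ida_B h
  have hO := Cl_om4 h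
  have hg := Ida_gcl hε
  have hg' := Cl_der hg
  have P1 : 0 < 2 * s + ((0 : ℝ) + 0) := by linarith
  have P2 : 0 < 2 * s + 1 / B + ((0 : ℝ) + 0) := by linarith
  have hgg : Cl (0 + 0) (0 + 0) (fun y => (gf 4 ε y) ^ 2) := by
    have := Cl_mul hg hg
    simpa only [pow_two] using this
  have i1 : Integrable (fun y => deriv (om4 B s) y * (gf 4 ε y) ^ 2) :=
    Cl_int (Cl_mul (Cl_der hO) hgg) P1 P2
  have i2 : Integrable (fun y => deriv (om4 B s) y * ((ε y - Df 4 ε y) * gf 4 ε y)) :=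
    Cl_int (Cl_mul (Cl_der hO) (Cl_mul (Ida_Dcl hε) hg)) P1 P2
  have i3 : Integrable (fun y => deriv (deriv (om4 B s)) y * (deriv ε y * gf 4 ε y)) :=
    Cl_int (Cl_mul (Cl_der (Cl_der hO)) (Cl_mul (Cl_der hε) hg)) P1 P2
  have i4 : Integrable (fun y => om4 B s y * (deriv ε y * deriv (deriv (gf 4 ε)) y
      + (ε y - Df 4 ε y) * deriv (gf 4 ε) y)) :=
    Cl_int (Cl_mul hO (Ida_Ecl hε hg')) P1 P2
  have i12 := (i1.const_mul (-(3 / 2))).add i2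
  rw [EE4, ← integral_const_mul, ← integral_add (i1.const_mul (-(3 / 2))) i2]
  have e3 : (∫ y, (-(3 / 2) * (deriv (om4 B s) y * (gf 4 ε y) ^ 2)
      + deriv (om4 B s) y * ((ε y - Df 4 ε y) * gf 4 ε y)))
      + ∫ y, deriv (deriv (om4 B s)) y * (deriv ε y * gf 4 ε y)
      = ∫ y, ((-(3 / 2) * (deriv (om4 B s) y * (gf 4 ε y) ^ 2)
      + deriv (om4 B s) y * ((ε y - Df 4 ε y) * gf 4 ε y))
      + deriv (deriv (om4 B s)) y * (deriv ε y * gf 4 ε y)) := (integral_add i12 i3).symm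
  rw [e3]
  have hH : Cl (2 * s + (0 + 0)) (2 * s + 1 / B + (0 + 0))
      (fun y => (om4 B s y * (deriv ε y * deriv (gf 4 ε) y) + 1 / 2 * (om4 B s y * (gf 4 ε y) ^ 2))
        - deriv (om4 B s) y * (deriv ε y * gf 4 ε y)) :=
    Cl_sub (Cl_add (Cl_mul hO (Cl_mul (Cl_der hε) hg')) (Cl_smul (1 / 2) (Cl_mul hO hgg)))
      (Cl_mul (Cl_der hO) (Cl_mul (Cl_der hε) hg))
  refine Cl_int_eq i4 (i12.add i3) hH P1 P2 fun y => ?_
  have hd : HasDerivAt (fun y => (om4 B s y * (deriv ε y * deriv (gf 4 ε) y)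
      + 1 / 2 * (om4 B s y * (gf 4 ε y) ^ 2)) - deriv (om4 B s) y * (deriv ε y * gf 4 ε y))
      (((deriv (om4 B s) y * (deriv ε y * deriv (gf 4 ε) y) + om4 B s y *
          (deriv (deriv ε) y * deriv (gf 4 ε) y + deriv ε y * deriv (deriv (gf 4 ε)) y))
        + 1 / 2 * (deriv (om4 B s) y * (gf 4 ε y) ^ 2 + om4 B s y * (2 * gf 4 ε y * deriv (gf 4 ε) y)))
        - (deriv (deriv (om4 B s)) y * (deriv ε y * gf 4 ε y) + deriv (om4 B s) y *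
          (deriv (deriv ε) y * gf 4 ε y + deriv ε y * deriv (gf 4 ε) y))) y := by
    have a1 := (Cl_hd hO y).mul ((Cl_hd (Cl_der hε) y).mul (Cl_hd hg' y))
    have a2 := ((Cl_hd hO y).mul ((Cl_hd hg y).pow 2)).const_mul (1 / 2 : ℝ)
    have a3 := (Cl_hd (Cl_der hO) y).mul ((Cl_hd (Cl_der hε) y).mul (Cl_hd hg y))
    refine ((a1.add a2).sub a3).congr_deriv ?_
    simp
  rw [hd.deriv]
  have hgy : gf 4 ε y = -deriv (deriv ε) y + ε y - Df 4 ε y := rfl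
  have h3 : deriv (deriv ε) y = ε y - Df 4 ε y - gf 4 ε y := by rw [hgy]; ring
  rw [h3]
  ring

theorem EE4_L (h : Slow4 B s) (hε : Cl 0 0 ε) (hζ : Cl 0 0 ζ) :
    EE4 B s ε ζ = (∫ y, om4 B s y * (ε y * Lop 4 ζ y))
      - (∫ y, deriv (om4 B s) y * (ε y * deriv ζ y)) - ∫ y, om4 B s y * (Rf 4 ε y * ζ y) := by
  have hs := h.2.1
  have hB1 := Ida_B h
  have hO := Cl_om4 h
  have P1 : 0 < 2 * s + ((0 : ℝ) + 0) := by linarith
  have P2 : 0 < 2 * s + 1 / B + ((0 : ℝ) + 0) := by linarith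
  have hQ : Cl 0 0 (fun y => (Qf 4 y) ^ 4 * ζ y) := by
    have h4 := Cl_mul (Cl_pow (Cl_Qf (by norm_num : 1 ≤ 4)) 4) hζ
    exact Cl_mono h4 (by norm_num) (by norm_num)
  have hL : Cl 0 0 (Lop 4 ζ) := by
    have h5 := Cl_sub (Cl_sub hζ (Cl_der (Cl_der hζ))) hQ
    have e5 : Lop 4 ζ = fun y => (ζ y - deriv (deriv ζ) y) - (Qf 4 y) ^ 4 * ζ y := by
      funext y
      simp only [Lop]
      ring
    rw [e5]
    exact h5
  have i1 : Integrable (fun y => om4 B s y * (ε y * Lop 4 ζ y)) :=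
    Cl_int (Cl_mul hO (Cl_mul hε hL)) P1 P2
  have i2 : Integrable (fun y => deriv (om4 B s) y * (ε y * deriv ζ y)) :=
    Cl_int (Cl_mul (Cl_der hO) (Cl_mul hε (Cl_der hζ))) P1 P2
  have i3 : Integrable (fun y => om4 B s y * (Rf 4 ε y * ζ y)) :=
    Cl_int (Cl_mul hO (Cl_mul (Cl_Rf (by norm_num : 1 ≤ 4) le_rfl le_rfl hε) hζ)) P1 P2
  have i4 : Integrable (fun y => om4 B s y * (deriv ε y * deriv ζ y + (ε y - Df 4 ε y) * ζ y)) :=
    Cl_int (Cl_mul hO (Ida_Ecl hε hζ)) P1 P2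
  have e2 : (∫ y, om4 B s y * (ε y * Lop 4 ζ y))
      - (∫ y, deriv (om4 B s) y * (ε y * deriv ζ y)) - ∫ y, om4 B s y * (Rf 4 ε y * ζ y)
      = ∫ y, ((om4 B s y * (ε y * Lop 4 ζ y) - deriv (om4 B s) y * (ε y * deriv ζ y))
        - om4 B s y * (Rf 4 ε y * ζ y)) := by
    rw [← integral_sub i1 i2]
    exact (integral_sub (i1.sub i2) i3).symm
  rw [EE4, e2]
  refine Cl_int_eq i4 ((i1.sub i2).sub i3) (Cl_mul hO (Cl_mul hε (Cl_der hζ))) P1 P2 fun y => ?_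
  have hd := ((Cl_hd hO y).mul ((Cl_hd hε y).mul (Cl_hd (Cl_der hζ) y))).deriv
  have e : deriv (fun z => om4 B s z * (ε z * deriv ζ z)) y
      = deriv (om4 B s) y * (ε y * deriv ζ y)
      + om4 B s y * (deriv ε y * deriv ζ y + ε y * deriv (deriv ζ) y) := hd
  rw [e]
  simp only [Rf, Lop]
  ring

end H98KC

end
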