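import Pool.Agent.H98.KC.Wzb
import Pool.Agent.H98.KC.Ida

/-!
# Fma (MP_95be7d_S4): the main energy dissipation (variant of `KB/Ema.lean`; uses `EE4_main`, weights, `D_le`)

Write `g = g₀ - D`, `g₀ = ε-ε''`.  `(3/2)g²-(ε-D)g = (3/2)g₀²-εg₀+D(ε-2g₀)+(1/2)D²`.
`∫om'((3/2)g₀²-εg₀)-∫om''ε'g₀ = ∫[(1/2)om'ε²+2om'ε'²+(3/2)om'ε''²-(1/2)om'''(ε²+ε'²)]` (`om = om4 B s`; exactly the computation of `KB/Ema.lean`).
Weights: `κ om' ≥ κ ta - 3κ s bi` for `κ ∈ {1/2, 2, 3/2}` (`om41_lo`), so the first three terms are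
`≥ (1/2)∫ta(ε²+ε'²+ε''²) - 6s∫bi(ε²+ε'²+ε''²) = (1/2)T4 - 6 Bad` (`Bad_eq`, `T4_eq`).
`|om'''| ≤ (2/B²)ta ≤ ta/64`, `|om'| ≤ 2ta`, `|om''| ≤ (2/B) ta`.
Error: `≥ -∫2ta|D|(|ε|+2|g₀|) - ∫(2/B)ta|ε'||D| ≥ -2∫ta|D|(3|ε|+2|ε''|+|ε'|)`, `|D| ≤ 16(Q⁴+|ε|⁴)|ε|` (`D_le`).
`|ε|⁴`-part: `≤ 32ν⁴∫ta(5ε²+ε''²+ε'²)` (small).  `Q⁴`-part:
`32Q⁴|ε|(3|ε|+2|ε''|+|ε'|) ≤ (1/16)(ε''²+ε'²)+C Q⁴ε²` (`Q⁸ ≤ C Q⁴`).  Total:
`EE4(g') ≤ -(1/4)T4 + C∫ta Q⁴ε² + 6 Bad`; `ta Q⁴ ≤ (2/B) C e^{-4|y|} ≤ (C/B)e^{-|y|/2} ≤ (C/B)loc` (`ta_hi`, `Cl_Qk`, `ex_le_loc`).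
-/

open MeasureTheory Filter Topology Set
open scoped ContDiff

noncomputable section

namespace H98KC

open H98KB H68KC

theorem Fma_alg {P Pm a b c : ℝ} (hP : 0 ≤ P) (hPm : P ≤ Pm) (ha : 0 ≤ a) (hb : 0 ≤ b)
    (hc : 0 ≤ c) : (P + 1 / 100) * a * (a + b + 2 * c) ≤
      1 / 100 * (5 / 2 * a ^ 2 + 1 / 2 * b ^ 2 + c ^ 2) + 1 / 8 * (b ^ 2 + c ^ 2)
        + (1 + 10 * Pm) * P * a ^ 2 := by
  have h1 : P * a * b ≤ 1 / 8 * b ^ 2 + 2 * P ^ 2 * a ^ 2 := by nlinarith [sq_nonneg (b - 4 * P * a)]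
  have h2 : 2 * P * a * c ≤ 1 / 8 * c ^ 2 + 8 * P ^ 2 * a ^ 2 := by
    nlinarith [sq_nonneg (c - 8 * P * a)]
  have h3 : P ^ 2 * a ^ 2 ≤ Pm * P * a ^ 2 := by
    have : P ^ 2 ≤ Pm * P := by nlinarith
    exact mul_le_mul_of_nonneg_right this (sq_nonneg a)
  have h4 : a * b ≤ 1 / 2 * (a ^ 2 + b ^ 2) := by nlinarith [sq_nonneg (a - b)]
  have h5 : a * c ≤ 1 / 2 * (a ^ 2 + c ^ 2) := by nlinarith [sq_nonneg (a - c)]
  have h6 : (P + 1 / 100) * a * (a + b + 2 * c) = P * a ^ 2 + P * a * b + 2 * P * a * c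
      + 1 / 100 * (a ^ 2 + a * b + 2 * (a * c)) := by ring
  rw [h6]
  nlinarith

theorem Fma_pt {t sb w1 w2 w3 e e1 e2 D P Pm : ℝ} (ht : 0 ≤ t) (hsb : 0 ≤ sb) (hw1 : |w1| ≤ 2 * t)
    (hw1' : t - 3 * sb ≤ w1) (hw2 : |w2| ≤ t)
    (hw3 : |w3| ≤ 1 / 32 * t) (hP : 0 ≤ P) (hPm : P ≤ Pm) (hD : |D| ≤ (P + 1 / 100) * |e|) :
    -(3 / 2) * (w1 * (-e2 + e - D) ^ 2) + w1 * ((e - D) * (-e2 + e - D))
        + w2 * (e1 * (-e2 + e - D)) ≤
      -(1 / 4) * (t * (e ^ 2 + e1 ^ 2 + e2 ^ 2)) + (3 + 21 * Pm) * P * (t * e ^ 2)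
        + 6 * (sb * (e ^ 2 + e1 ^ 2 + e2 ^ 2))
        + ((2 * (w2 * (e * e1)) + 2 * (w1 * (e1 * e1)) + 2 * (w1 * (e * e2)))
          - 1 / 2 * (w3 * (e ^ 2 + e1 ^ 2) + w2 * (2 * (e * e1) + 2 * (e1 * e2)))) := by
  have hid : -(3 / 2) * (w1 * (-e2 + e - D) ^ 2) + w1 * ((e - D) * (-e2 + e - D))
        + w2 * (e1 * (-e2 + e - D)) =
      -(w1 * (1 / 2 * e ^ 2 + 2 * e1 ^ 2 + 3 / 2 * e2 ^ 2)) + 1 / 2 * (w3 * (e ^ 2 + e1 ^ 2))
        + ((2 * (w2 * (e * e1)) + 2 * (w1 * (e1 * e1)) + 2 * (w1 * (e * e2)))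
          - 1 / 2 * (w3 * (e ^ 2 + e1 ^ 2) + w2 * (2 * (e * e1) + 2 * (e1 * e2))))
        + (w1 * (D * (e - 2 * e2)) - w1 * (1 / 2 * D ^ 2)) - w2 * e1 * D := by ring
  rw [hid]
  have hq0 : 0 ≤ e ^ 2 := sq_nonneg e
  have hq1 : 0 ≤ e1 ^ 2 := sq_nonneg e1
  have hq2 : 0 ≤ e2 ^ 2 := sq_nonneg e2
  have hmain : -(w1 * (1 / 2 * e ^ 2 + 2 * e1 ^ 2 + 3 / 2 * e2 ^ 2)) ≤
      -(t * (1 / 2 * e ^ 2 + 2 * e1 ^ 2 + 3 / 2 * e2 ^ 2)) + 6 * (sb * (e ^ 2 + e1 ^ 2 + e2 ^ 2)) := by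
    have h1 : (t - 3 * sb) * (1 / 2 * e ^ 2 + 2 * e1 ^ 2 + 3 / 2 * e2 ^ 2) ≤
        w1 * (1 / 2 * e ^ 2 + 2 * e1 ^ 2 + 3 / 2 * e2 ^ 2) :=
      mul_le_mul_of_nonneg_right hw1' (by positivity)
    (first | linarith only [mul_nonneg hsb hq0, mul_nonneg hsb hq1, mul_nonneg hsb hq2, h1, hq0, hq2, hsb] | nlinarith only [mul_nonneg hsb hq0, mul_nonneg hsb hq1, mul_nonneg hsb hq2, h1, hq0, hq2, hsb])
  have hw3' : w3 * (e ^ 2 + e1 ^ 2) ≤ 1 / 32 * t * (e ^ 2 + e1 ^ 2) :=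
    mul_le_mul_of_nonneg_right ((le_abs_self _).trans hw3) (by positivity)
  have hDD : D ^ 2 ≤ (P + 1 / 100) ^ 2 * e ^ 2 := by
    rw [← sq_abs D, ← sq_abs e, ← mul_pow]
    exact pow_le_pow_left₀ (abs_nonneg _) hD 2
  have hDD' : D ^ 2 ≤ (Pm * P + 1 / 50 * P + 1 / 10000) * e ^ 2 := by
    refine hDD.trans (mul_le_mul_of_nonneg_right ?_ hq0)
    (first | linarith only [hP, hPm] | nlinarith only [hP, hPm])
  have hD2 : -(w1 * (1 / 2 * D ^ 2)) ≤ t * D ^ 2 := by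
    have h1 : -(w1 * (1 / 2 * D ^ 2)) ≤ |w1| * (1 / 2 * D ^ 2) := by
      have := neg_abs_le w1
      have h2 : 0 ≤ 1 / 2 * D ^ 2 := by positivity
      (first | linarith only [this] | nlinarith only [this])
    have h2 : |w1| * (1 / 2 * D ^ 2) ≤ 2 * t * (1 / 2 * D ^ 2) :=
      mul_le_mul_of_nonneg_right hw1 (by positivity)
    linarith
  have hD3 : t * D ^ 2 ≤ t * ((Pm * P + 1 / 50 * P + 1 / 10000) * e ^ 2) :=
    mul_le_mul_of_nonneg_left hDD' ht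
  have hE1 : w1 * (D * (e - 2 * e2)) ≤ 2 * t * (|D| * (|e| + 2 * |e2|)) := by
    calc w1 * (D * (e - 2 * e2)) ≤ |w1 * (D * (e - 2 * e2))| := le_abs_self _
      _ = |w1| * (|D| * |e - 2 * e2|) := by rw [abs_mul, abs_mul]
      _ ≤ 2 * t * (|D| * (|e| + 2 * |e2|)) := by
        refine mul_le_mul hw1 ?_ (by positivity) (by positivity)
        apply mul_le_mul_of_nonneg_left _ (abs_nonneg _)
        calc |e - 2 * e2| ≤ |e| + |2 * e2| := abs_sub _ _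
          _ = |e| + 2 * |e2| := by rw [abs_mul, abs_two]
  have hE2 : -(w2 * e1 * D) ≤ t * (|D| * |e1|) := by
    calc -(w2 * e1 * D) ≤ |w2 * e1 * D| := neg_le_abs _
      _ = |w2| * (|D| * |e1|) := by rw [abs_mul, abs_mul]; ring
      _ ≤ t * (|D| * |e1|) := mul_le_mul_of_nonneg_right hw2 (by positivity)
  have hE2' : t * (|D| * |e1|) ≤ 2 * t * (|D| * |e1|) := by
    have : 0 ≤ t * (|D| * |e1|) := by positivity
    linarith
  have hE3 : |D| * (|e| + |e1| + 2 * |e2|) ≤ 1 / 100 * (5 / 2 * e ^ 2 + 1 / 2 * e1 ^ 2 + e2 ^ 2)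
      + 1 / 8 * (e1 ^ 2 + e2 ^ 2) + (1 + 10 * Pm) * P * e ^ 2 := by
    have h1 := Fma_alg hP hPm (abs_nonneg e) (abs_nonneg e1) (abs_nonneg e2)
    rw [sq_abs, sq_abs, sq_abs] at h1
    refine le_trans ?_ h1
    exact mul_le_mul_of_nonneg_right hD (by positivity)
  have hE4 := mul_le_mul_of_nonneg_left hE3 ht
  have hs0 : 0 ≤ t * e ^ 2 := by positivity
  have hs1 : 0 ≤ t * e1 ^ 2 := by positivity
  have hs2 : 0 ≤ t * e2 ^ 2 := by positivity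
  have hPs : 0 ≤ P * (t * e ^ 2) := mul_nonneg hP hs0
  have hE5 : 2 * t * (|D| * (|e| + 2 * |e2|)) + 2 * t * (|D| * |e1|) =
      2 * (t * (|D| * (|e| + |e1| + 2 * |e2|))) := by ring
  have hE6 : t * (1 / 100 * (5 / 2 * e ^ 2 + 1 / 2 * e1 ^ 2 + e2 ^ 2)
      + 1 / 8 * (e1 ^ 2 + e2 ^ 2) + (1 + 10 * Pm) * P * e ^ 2) =
      1 / 40 * (t * e ^ 2) + 1 / 200 * (t * e1 ^ 2) + 1 / 100 * (t * e2 ^ 2)
        + 1 / 8 * (t * e1 ^ 2) + 1 / 8 * (t * e2 ^ 2) + (1 + 10 * Pm) * (P * (t * e ^ 2)) := by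
    ring
  have hE7 : t * ((Pm * P + 1 / 50 * P + 1 / 10000) * e ^ 2) =
      Pm * (P * (t * e ^ 2)) + 1 / 50 * (P * (t * e ^ 2)) + 1 / 10000 * (t * e ^ 2) := by ring
  have hE8 : (3 + 21 * Pm) * P * (t * e ^ 2) = 3 * (P * (t * e ^ 2)) + 21 * (Pm * (P * (t * e ^ 2))) := by
    ring
  have hE9 : (1 + 10 * Pm) * (P * (t * e ^ 2)) = P * (t * e ^ 2) + 10 * (Pm * (P * (t * e ^ 2))) := by ring
  have hE10 : t * (1 / 2 * e ^ 2 + 2 * e1 ^ 2 + 3 / 2 * e2 ^ 2) =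
      1 / 2 * (t * e ^ 2) + 2 * (t * e1 ^ 2) + 3 / 2 * (t * e2 ^ 2) := by ring
  have hE11 : 1 / 32 * t * (e ^ 2 + e1 ^ 2) = 1 / 32 * (t * e ^ 2) + 1 / 32 * (t * e1 ^ 2) := by ring
  have hE12 : t * (e ^ 2 + e1 ^ 2 + e2 ^ 2) = t * e ^ 2 + t * e1 ^ 2 + t * e2 ^ 2 := by ring
  rw [hE6, hE9] at hE4
  rw [hE7] at hD3
  rw [hE10] at hmain
  rw [hE11] at hw3'
  rw [hE8, hE12]
  linarith

theorem Fma_cl {B s : ℝ} {w f g : ℝ → ℝ}
    (hw : Cl (2 * s) (2 * s + 1 / B) w) (hf : Cl 0 0 f) (hg : Cl 0 0 g) :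
    Cl (2 * s) (2 * s + 1 / B) (fun y => w y * (f y * g y)) :=
  Cl_mono (Cl_mul hw (Cl_mul hf hg)) (by linarith) (by linarith)

theorem FT1 : ∃ ν C : ℝ, 0 < ν ∧ ν ≤ 1 ∧ 0 < C ∧ ∀ γ : ℝ, 0 < γ → γ ≤ 1 / 8 →
    ∀ B s : ℝ, Slow4 B s → ∀ ε : ℝ → ℝ, Cl 0 0 ε → (∀ y, |ε y| ≤ ν) →
    EE4 B s ε (deriv (gf 4 ε)) ≤ -(1 / 4) * T4 B s ε + C / B * ln γ B ε + C * Bad s ε := by
  have hk1 : 1 ≤ 4 := by omega
  obtain ⟨C1, hC1, hQ⟩ := Qf_hi hk1
  set A : ℝ := 2 ^ 4 with hA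
  have hA1 : 1 ≤ A := one_le_pow₀ (by norm_num)
  have hA0 : 0 < A := by linarith
  set K : ℝ := C1 ^ 4 with hK
  have hK0 : 0 < K := by positivity
  have hQk : ∀ y, Qf 4 y ^ 4 ≤ K * Real.exp (-|y|) := by
    intro y
    have h1 : Qf 4 y ^ 4 ≤ (C1 * Real.exp (-|y|)) ^ 4 :=
      pow_le_pow_left₀ (Qf_pos 4 y).le (hQ y) 4
    rw [mul_pow] at h1
    have h2 : Real.exp (-|y|) ^ 4 ≤ Real.exp (-|y|) :=
      pow_le_of_le_one (Real.exp_pos _).le (Real.exp_le_one_iff.2 (by linarith [abs_nonneg y]))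
        (by omega)
    exact h1.trans (mul_le_mul_of_nonneg_left h2 hK0.le)
  have hQk' : ∀ y, Qf 4 y ^ 4 ≤ K := by
    intro y
    refine (hQk y).trans ?_
    have : Real.exp (-|y|) ≤ 1 := Real.exp_le_one_iff.2 (by linarith [abs_nonneg y])
    nlinarith
  set M : ℝ := (3 + 21 * (A * K)) * A * (2 * K) with hM
  have hM0 : 0 < M := by positivity
  refine ⟨1 / (100 * A), M + 6, by positivity, ?_, by positivity, ?_⟩
  · rw [div_le_one (by positivity)]; linarith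
  intro γ hγ hγ' B s hs ε hcl hεν
  obtain ⟨hB, hs0, hsB⟩ := id hs
  have hB0 : 0 < B := by linarith
  have hc1 : Cl 0 0 (deriv ε) := Cl_der hcl
  have hc2 : Cl 0 0 (deriv (deriv ε)) := Cl_der hc1
  have hcD : Cl 0 0 (Df 4 ε) := Cl_Df hk1 le_rfl le_rfl hcl
  have hcg : Cl 0 0 (gf 4 ε) := Cl_gf hk1 le_rfl le_rfl hcl
  have hw0 : Cl (2 * s) (2 * s + 1 / B) (om4 B s) := Cl_om4 hs
  have hw1 : Cl (2 * s) (2 * s + 1 / B) (deriv (om4 B s)) := Cl_der hw0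
  have hw2 : Cl (2 * s) (2 * s + 1 / B) (deriv (deriv (om4 B s))) := Cl_der hw1
  have hta : Cl (2 * s) (2 * s + 1 / B) (ta B s) := Cl_ta hs
  have hPp : 0 < 2 * s := by linarith
  have hQp : 0 < 2 * s + 1 / B := by positivity
  -- integrability of the pieces
  have i1 : Integrable (fun y => deriv (om4 B s) y * (gf 4 ε y) ^ 2) := by
    have := Cl_int (Fma_cl hw1 hcg hcg) hPp hQp
    refine this.congr (Eventually.of_forall fun y => ?_)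
    simp only; ring
  have i2 : Integrable (fun y => deriv (om4 B s) y * ((ε y - Df 4 ε y) * gf 4 ε y)) :=
    Cl_int (Fma_cl hw1 (Cl_sub hcl hcD) hcg) hPp hQp
  have i3 : Integrable (fun y => deriv (deriv (om4 B s)) y * (deriv ε y * gf 4 ε y)) :=
    Cl_int (Fma_cl hw2 hc1 hcg) hPp hQp
  have sqi : ∀ f : ℝ → ℝ, Cl 0 0 f → Integrable (fun y => ta B s y * (f y) ^ 2) := by
    intro f hf
    have := Cl_int (Fma_cl hta hf hf) hPp hQp
    refine this.congr (Eventually.of_forall fun y => ?_)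
    simp only; ring
  have iT : Integrable (fun y => ta B s y *
      ((ε y) ^ 2 + (deriv ε y) ^ 2 + (deriv (deriv ε) y) ^ 2)) := by
    refine (((sqi _ hcl).add (sqi _ hc1)).add (sqi _ hc2)).congr (Eventually.of_forall fun y => ?_)
    simp only [Pi.add_apply]; ring
  have hsum : Cl 0 0 (fun y => (ε y) ^ 2 + (deriv ε y) ^ 2 + (deriv (deriv ε) y) ^ 2) :=
    Cl_add (Cl_add (Cl_pow0 hcl 2) (Cl_pow0 hc1 2)) (Cl_pow0 hc2 2)
  have iBd : Integrable (fun y => bi s y *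
      ((ε y) ^ 2 + (deriv ε y) ^ 2 + (deriv (deriv ε) y) ^ 2)) := bi_int hs0 hsum
  have iL : Integrable (fun y => loc γ B y * ((ε y) ^ 2 + (deriv ε y) ^ 2)) := by
    have h := Cl_mul (Cl_se2 hγ) (Cl_ch hB0)
    have h1 := Cl_mul h (Cl_add (Cl_pow0 hcl 2) (Cl_pow0 hc1 2))
    exact Cl_int h1 (by positivity) (by positivity)
  -- the primitive
  set H : ℝ → ℝ := fun y => 2 * (deriv (om4 B s) y * (ε y * deriv ε y))
    - 1 / 2 * (deriv (deriv (om4 B s)) y * (ε y * ε y)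
      + deriv (deriv (om4 B s)) y * (deriv ε y * deriv ε y)) with hH
  have hHcl : Cl (2 * s) (2 * s + 1 / B) H :=
    Cl_sub (Cl_smul 2 (Fma_cl hw1 hcl hc1))
      (Cl_smul (1 / 2) (Cl_add (Fma_cl hw2 hcl hcl) (Fma_cl hw2 hc1 hc1)))
  have hHd : ∀ y, deriv H y = (2 * (deriv (deriv (om4 B s)) y * (ε y * deriv ε y))
      + 2 * (deriv (om4 B s) y * (deriv ε y * deriv ε y))
      + 2 * (deriv (om4 B s) y * (ε y * deriv (deriv ε) y)))
      - 1 / 2 * (deriv (deriv (deriv (om4 B s))) y * ((ε y) ^ 2 + (deriv ε y) ^ 2)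
        + deriv (deriv (om4 B s)) y * (2 * (ε y * deriv ε y)
          + 2 * (deriv ε y * deriv (deriv ε) y))) := by
    intro y
    have d0 := Cl_hd hcl y
    have d1 := Cl_hd hc1 y
    have w1 := Cl_hd hw1 y
    have w2 := Cl_hd hw2 y
    have hd : HasDerivAt H _ y :=
      ((w1.mul (d0.mul d1)).const_mul 2).sub
        (((w2.mul (d0.mul d0)).add (w2.mul (d1.mul d1))).const_mul (1 / 2))
    rw [hd.deriv]
    simp only [Pi.mul_apply]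
    ring
  -- pointwise estimate
  have hF : Integrable (fun y => -(3 / 2) * (deriv (om4 B s) y * (gf 4 ε y) ^ 2)
      + deriv (om4 B s) y * ((ε y - Df 4 ε y) * gf 4 ε y)
      + deriv (deriv (om4 B s)) y * (deriv ε y * gf 4 ε y)) :=
    ((i1.const_mul _).add i2).add i3
  have iTL : Integrable (fun y => -(1 / 4) * (ta B s y *
      ((ε y) ^ 2 + (deriv ε y) ^ 2 + (deriv (deriv ε) y) ^ 2))
      + M / B * (loc γ B y * ((ε y) ^ 2 + (deriv ε y) ^ 2))) :=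
    (iT.const_mul _).add (iL.const_mul _)
  have iB6 : Integrable (fun y => 6 * s * (bi s y *
      ((ε y) ^ 2 + (deriv ε y) ^ 2 + (deriv (deriv ε) y) ^ 2))) := iBd.const_mul _
  have hG : Integrable (fun y => -(1 / 4) * (ta B s y *
      ((ε y) ^ 2 + (deriv ε y) ^ 2 + (deriv (deriv ε) y) ^ 2))
      + M / B * (loc γ B y * ((ε y) ^ 2 + (deriv ε y) ^ 2))
      + 6 * s * (bi s y * ((ε y) ^ 2 + (deriv ε y) ^ 2 + (deriv (deriv ε) y) ^ 2))) :=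
    iTL.add iB6
  have hln0 : 0 ≤ ln γ B ε := by
    unfold ln
    exact integral_nonneg fun y => mul_nonneg (loc_pos γ B y).le (by positivity)
  have hBad0 : 0 ≤ Bad s ε := by
    rw [Bad_eq]
    exact mul_nonneg hs0.le (integral_nonneg fun y => mul_nonneg (bi_nonneg s y) (by positivity))
  have hle := Cl_int_le hF hG hHcl hPp hQp ?_
  · have hEE := EE4_main hs hcl
    have e1 : (∫ y, (-(3 / 2) * (deriv (om4 B s) y * (gf 4 ε y) ^ 2)
      + deriv (om4 B s) y * ((ε y - Df 4 ε y) * gf 4 ε y)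
      + deriv (deriv (om4 B s)) y * (deriv ε y * gf 4 ε y))) =
      -(3 / 2) * (∫ y, deriv (om4 B s) y * (gf 4 ε y) ^ 2)
      + (∫ y, deriv (om4 B s) y * ((ε y - Df 4 ε y) * gf 4 ε y))
      + ∫ y, deriv (deriv (om4 B s)) y * (deriv ε y * gf 4 ε y) := by
      have i12 : Integrable (fun y => -(3 / 2) * (deriv (om4 B s) y * (gf 4 ε y) ^ 2)
          + deriv (om4 B s) y * ((ε y - Df 4 ε y) * gf 4 ε y)) := (i1.const_mul _).add i2
      rw [integral_add i12 i3, integral_add (i1.const_mul _) i2, integral_const_mul]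
    have e2 : (∫ y, (-(1 / 4) * (ta B s y *
      ((ε y) ^ 2 + (deriv ε y) ^ 2 + (deriv (deriv ε) y) ^ 2))
      + M / B * (loc γ B y * ((ε y) ^ 2 + (deriv ε y) ^ 2))
      + 6 * s * (bi s y * ((ε y) ^ 2 + (deriv ε y) ^ 2 + (deriv (deriv ε) y) ^ 2)))) =
      -(1 / 4) * T4 B s ε + M / B * ln γ B ε + 6 * Bad s ε := by
      rw [integral_add iTL iB6, integral_add (iT.const_mul _) (iL.const_mul _), integral_const_mul,
        integral_const_mul, integral_const_mul, Bad_eq, T4_eq, mul_assoc 6 s]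
      rfl
    rw [hEE, ← e1]
    refine hle.trans ?_
    rw [e2]
    have h1 : M / B * ln γ B ε ≤ (M + 6) / B * ln γ B ε := by
      apply mul_le_mul_of_nonneg_right _ hln0
      apply div_le_div_of_nonneg_right _ hB0.le
      linarith
    have h2 : 6 * Bad s ε ≤ (M + 6) * Bad s ε := mul_le_mul_of_nonneg_right (by linarith) hBad0
    linarith
  · intro y
    rw [hHd]
    have hP : 0 ≤ A * Qf 4 y ^ 4 := mul_nonneg hA0.le (pow_nonneg (Qf_pos 4 y).le 4)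
    have hPm : A * Qf 4 y ^ 4 ≤ A * K := mul_le_mul_of_nonneg_left (hQk' y) hA0.le
    have ht0 : 0 ≤ ta B s y := (ta_pos hs y).le
    have hB2 : 2 / B ≤ 1 := by rw [div_le_one hB0]; linarith
    have hw2' : |deriv (deriv (om4 B s)) y| ≤ ta B s y := by
      refine (om42_le hs y).trans ?_
      calc 2 / B * ta B s y ≤ 1 * ta B s y :=
            mul_le_mul_of_nonneg_right hB2 ht0
        _ = _ := one_mul _
    have hw3' : |deriv (deriv (deriv (om4 B s))) y| ≤ 1 / 32 * ta B s y := by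
      refine (om43_le hs y).trans (mul_le_mul_of_nonneg_right ?_ ht0)
      rw [div_le_div_iff₀ (by positivity) (by norm_num)]
      nlinarith
    have hDle : |Df 4 ε y| ≤ (A * Qf 4 y ^ 4 + 1 / 100) * |ε y| := by
      refine (D_le 4 ε y).trans (mul_le_mul_of_nonneg_right ?_ (abs_nonneg _))
      have h1 : |ε y| ^ 4 ≤ 1 / (100 * A) := by
        have hle1 : |ε y| ≤ 1 := (hεν y).trans (by rw [div_le_one (by positivity)]; linarith)
        exact (pow_le_of_le_one (abs_nonneg _) hle1 (by omega)).trans (hεν y)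
      have h2 : A * |ε y| ^ 4 ≤ 1 / 100 := by
        calc A * |ε y| ^ 4 ≤ A * (1 / (100 * A)) := mul_le_mul_of_nonneg_left h1 hA0.le
          _ = 1 / 100 := by field_simp
      rw [← hA, mul_add]
      linarith
    have hsb : 0 ≤ s * bi s y := mul_nonneg hs0.le (bi_nonneg s y)
    have hlo : ta B s y - 3 * (s * bi s y) ≤ deriv (om4 B s) y := by
      have := om41_lo hs y
      linarith
    have hpt := Fma_pt (e1 := deriv ε y) (e2 := deriv (deriv ε) y) ht0 hsb (om41_le hs y) hlo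
      hw2' hw3' hP hPm hDle
    have hgf : gf 4 ε y = -deriv (deriv ε) y + ε y - Df 4 ε y := rfl
    rw [hgf]
    refine hpt.trans ?_
    have hlast : (3 + 21 * (A * K)) * (A * Qf 4 y ^ 4) * (ta B s y * ε y ^ 2) ≤
        M / B * (loc γ B y * ((ε y) ^ 2 + (deriv ε y) ^ 2)) := by
      have h1 : Qf 4 y ^ 4 * ta B s y ≤ 2 * K / B * loc γ B y := by
        calc Qf 4 y ^ 4 * ta B s y
            ≤ (K * Real.exp (-|y|)) * (2 / B) :=
              mul_le_mul (hQk y) (ta_hi hs y) ht0 (by positivity)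
          _ = 2 * K / B * Real.exp (-|y|) := by ring
          _ ≤ 2 * K / B * loc γ B y := by
              apply mul_le_mul_of_nonneg_left _ (by positivity)
              refine le_trans ?_ (ex_le_loc hγ hγ' hB y)
              apply Real.exp_le_exp.2
              linarith [abs_nonneg y]
      have h2 : (Qf 4 y ^ 4 * ta B s y) * ε y ^ 2 ≤
          (2 * K / B * loc γ B y) * ((ε y) ^ 2 + (deriv ε y) ^ 2) := by
        apply mul_le_mul h1 _ (by positivity) (by have := (loc_pos γ B y).le; positivity)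
        (first | linarith only [sq_nonneg (deriv ε y)] | nlinarith only [sq_nonneg (deriv ε y)])
      calc (3 + 21 * (A * K)) * (A * Qf 4 y ^ 4) * (ta B s y * ε y ^ 2)
          = ((3 + 21 * (A * K)) * A) * ((Qf 4 y ^ 4 * ta B s y) * ε y ^ 2) := by ring
        _ ≤ ((3 + 21 * (A * K)) * A) * ((2 * K / B * loc γ B y) *
            ((ε y) ^ 2 + (deriv ε y) ^ 2)) := mul_le_mul_of_nonneg_left h2 (by positivity)
        _ = _ := by rw [hM]; ring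
    have h6 : 6 * (s * bi s y * ((ε y) ^ 2 + (deriv ε y) ^ 2 + (deriv (deriv ε) y) ^ 2)) =
        6 * s * (bi s y * ((ε y) ^ 2 + (deriv ε y) ^ 2 + (deriv (deriv ε) y) ^ 2)) := by ring
    linarith

end H98KC

end
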