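import Pool.Agent.H98.KC.Wza

/-!
# Idb (MP_95be7d_S4): identities for `EE4` at `ε'` and `Λε` (variant of `KB/Eie.lean`; uses the statements of `Wza`)

* `EE4_d`: `om(ε'ε''+εε'-Dε')`, `(bF)' = Dε'+RQ'` (`bF_hd`): `= (1/2)(om(ε'²+ε²))' - (1/2)om'(ε'²+ε²) - (om bF)' + om'bF + om RQ'`.
* `EE4_Lam`: `Λε = (1/2)ε+yε'` (`2/(4:ℝ) = 1/2`), `(Λε)' = (3/2)ε'+yε''`:
 `yomε'ε'' = (y om ε'²/2)'-(1/2)(om+y om')ε'²`, `y om εε' = (y om ε²/2)' - (1/2)(om+y om')ε²`,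
 `y om Dε' = (y om bF)' - (om + y om')bF - y om R Q'`.  `y·(class 0 0)` is of class `-c,-c` for every `c>0` (`Cl_id`, take `c = s/2`), so all
 products with `om4 ∈ Cl (2s) (2s+1/B)` are integrable and all primitives vanish at `±∞`.
-/

open MeasureTheory Filter Topology Set
open scoped ContDiff

noncomputable section

namespace H98KC

open H98KB H68KC

variable {B s : ℝ} {ε : ℝ → ℝ}

/-- decaying at both ends -/
def Idb_P (f : ℝ → ℝ) : Prop := ∃ p q : ℝ, 0 < p ∧ 0 < q ∧ Cl p q f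

theorem Idb_P_int {f : ℝ → ℝ} (h : Idb_P f) : Integrable f := by
  obtain ⟨p, q, hp, hq, hf⟩ := h
  exact Cl_int hf hp hq

/-- growing slowly enough to be multiplied with `om4` -/
def Idb_W (s : ℝ) (f : ℝ → ℝ) : Prop := Cl (-s) (-s) f

theorem Idb_W0 (hs : 0 < s) {f : ℝ → ℝ} (hf : Cl 0 0 f) : Idb_W s f :=
  Cl_mono hf (by linarith) (by linarith)

theorem Idb_Wy (hs : 0 < s) {f : ℝ → ℝ} (hf : Cl 0 0 f) : Idb_W s (fun y => y * f y) :=
  Cl_mono (Cl_mul (Cl_id hs) hf) (by linarith) (by linarith)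

theorem Idb_om (h : Slow4 B s) {w f : ℝ → ℝ} (hw : Cl (2 * s) (2 * s + 1 / B) w)
    (hf : Idb_W s f) : Idb_P (fun y => w y * f y) := by
  obtain ⟨hB, hs, -⟩ := h
  have hB' : 0 < 1 / B := by positivity
  exact ⟨_, _, by linarith, by linarith, Cl_mul hw hf⟩

theorem Idb_mul {f g : ℝ → ℝ} (hf : Cl 0 0 f) (hg : Cl 0 0 g) : Cl 0 0 (fun y => f y * g y) :=
  Cl_mul0 hf hg

theorem Idb_sq {f : ℝ → ℝ} (hf : Cl 0 0 f) : Cl 0 0 (fun y => f y ^ 2) := Cl_pow0 hf 2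

theorem Idb_bF (hε : Cl 0 0 ε) : Cl 0 0 (bF 4 ε) :=
  Cl_mono (Cl_bF (by norm_num) le_rfl le_rfl (by norm_num) (by norm_num) hε) (by norm_num)
    (by norm_num)

theorem Idb_D (hε : Cl 0 0 ε) : Cl 0 0 (Df 4 ε) := Cl_Df (by norm_num) le_rfl le_rfl hε

theorem Idb_RQ (hε : Cl 0 0 ε) : Cl 0 0 (fun y => Rf 4 ε y * deriv (Qf 4) y) :=
  Cl_mul0 (Cl_Rf (by norm_num) le_rfl le_rfl hε)
    (Cl_mono (Cl_der (Cl_Qf (by norm_num))) (by norm_num) (by norm_num))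

theorem Idb_ia {f g : ℝ → ℝ} (hf : Integrable f) (hg : Integrable g) :
    Integrable (fun y => f y + g y) := hf.add hg

theorem Idb_is {f g : ℝ → ℝ} (hf : Integrable f) (hg : Integrable g) :
    Integrable (fun y => f y - g y) := hf.sub hg

/-- integral identity from a primitive -/
theorem Idb_eq {F G H : ℝ → ℝ} (hG : Integrable G) (hH : Idb_P H)
    (h : ∀ y, F y = G y + deriv H y) : ∫ y, F y = ∫ y, G y := by
  obtain ⟨p, q, hp, hq, hH'⟩ := hH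
  have hi : Integrable (deriv H) := Cl_int (Cl_der hH') hp hq
  have e : F = fun y => G y + deriv H y := funext h
  rw [e, integral_add hG hi, Cl_int_deriv hH' hp hq, add_zero]

theorem EE4_d (h : Slow4 B s) (hε : Cl 0 0 ε) :
    EE4 B s ε (deriv ε) = -(1 / 2) * (∫ y, deriv (om4 B s) y * ((deriv ε y) ^ 2 + (ε y) ^ 2))
      + (∫ y, deriv (om4 B s) y * bF 4 ε y) + ∫ y, om4 B s y * (Rf 4 ε y * deriv (Qf 4) y) := by
  have hs := h.2.1
  have m0 := Cl_om4 h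
  have m1 := Cl_der m0
  have c1 := Cl_der hε
  have k1 : Cl 0 0 (fun y => (deriv ε y) ^ 2 + (ε y) ^ 2) := Cl_add (Idb_sq c1) (Idb_sq hε)
  have k2 := Idb_bF hε
  have k3 := Idb_RQ hε
  have P1 : Integrable (fun y => deriv (om4 B s) y * ((deriv ε y) ^ 2 + (ε y) ^ 2)) :=
    Idb_P_int (Idb_om h m1 (Idb_W0 hs k1))
  have P2 : Integrable (fun y => deriv (om4 B s) y * bF 4 ε y) :=
    Idb_P_int (Idb_om h m1 (Idb_W0 hs k2))
  have P3 : Integrable (fun y => om4 B s y * (Rf 4 ε y * deriv (Qf 4) y)) :=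
    Idb_P_int (Idb_om h m0 (Idb_W0 hs k3))
  have hH : Idb_P (fun y => om4 B s y * (1 / 2 * ((deriv ε y) ^ 2 + (ε y) ^ 2) - bF 4 ε y)) :=
    Idb_om h m0 (Idb_W0 hs (Cl_sub (Cl_smul (1 / 2) k1) k2))
  have hG : Integrable (fun y => (-(1 / 2)) * (deriv (om4 B s) y * ((deriv ε y) ^ 2 + (ε y) ^ 2))
      + deriv (om4 B s) y * bF 4 ε y + om4 B s y * (Rf 4 ε y * deriv (Qf 4) y)) :=
    Idb_ia (Idb_ia (P1.const_mul _) P2) P3
  unfold EE4
  rw [Idb_eq hG hH]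
  · rw [integral_add (Idb_ia (P1.const_mul _) P2) P3]
    congr 1
    rw [integral_add (P1.const_mul _) P2, integral_const_mul]
  · intro y
    have d1 := Cl_hd m0 y
    have d2 := (Cl_hd c1 y).pow 2
    have d3 := (Cl_hd hε y).pow 2
    have d4 := bF_hd (k := 4) (by norm_num) hε y
    have hd := d1.mul (((d2.add d3).const_mul (1 / 2)).sub d4)
    have e1 : deriv (fun y => om4 B s y * (1 / 2 * ((deriv ε y) ^ 2 + (ε y) ^ 2) - bF 4 ε y)) y = _ :=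
      hd.deriv
    rw [e1]
    simp only [Pi.pow_apply, Pi.add_apply, Pi.sub_apply]
    ring

theorem EE4_Lam (h : Slow4 B s) (hε : Cl 0 0 ε) :
    EE4 B s ε (Lam 4 ε) = (∫ y, om4 B s y * (deriv ε y) ^ 2)
      - 1 / 2 * (∫ y, om4 B s y * (Df 4 ε y * ε y)) + (∫ y, om4 B s y * bF 4 ε y)
      + (∫ y, om4 B s y * (y * (Rf 4 ε y * deriv (Qf 4) y)))
      - 1 / 2 * ∫ y, y * deriv (om4 B s) y *
          ((deriv ε y) ^ 2 + (ε y) ^ 2 - 2 * bF 4 ε y) := by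
  have hs := h.2.1
  have m0 := Cl_om4 h
  have m1 := Cl_der m0
  have c1 := Cl_der hε
  have c2 := Cl_der c1
  have cD := Idb_D hε
  have kb := Idb_bF hε
  have kq : Cl 0 0 (fun y => (deriv ε y) ^ 2 + (ε y) ^ 2 - 2 * bF 4 ε y) :=
    Cl_sub (Cl_add (Idb_sq c1) (Idb_sq hε)) (Cl_smul 2 kb)
  have wyq := Idb_Wy hs kq
  have wL : Cl 0 0 (fun y => ε y - Df 4 ε y) := Cl_sub hε cD
  have hLam : ∀ y, HasDerivAt (Lam 4 ε) (3 / 2 * deriv ε y + y * deriv (deriv ε) y) y := by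
    intro y
    have h1 := ((Cl_hd hε y).const_mul (2 / ((4 : ℕ) : ℝ))).add
      ((hasDerivAt_id' y).mul (Cl_hd c1 y))
    refine h1.congr_deriv ?_
    push_cast
    ring
  have hEE : ∀ y, om4 B s y * (deriv ε y * deriv (Lam 4 ε) y + (ε y - Df 4 ε y) * Lam 4 ε y) =
      om4 B s y * ((deriv ε y) ^ 2) + (-(1 / 2)) * (om4 B s y * (Df 4 ε y * ε y)) +
      om4 B s y * bF 4 ε y + om4 B s y * (y * (Rf 4 ε y * deriv (Qf 4) y)) +
      (-(1 / 2)) * (y * deriv (om4 B s) y * ((deriv ε y) ^ 2 + (ε y) ^ 2 - 2 * bF 4 ε y)) +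
      deriv (fun y => om4 B s y *
        (1 / 2 * (y * ((deriv ε y) ^ 2 + (ε y) ^ 2 - 2 * bF 4 ε y)))) y := by
    intro y
    have d0 := Cl_hd m0 y
    have e0 := Cl_hd hε y
    have e1 := Cl_hd c1 y
    have d4 := bF_hd (k := 4) (by norm_num) hε y
    have hd := d0.mul (((hasDerivAt_id' y).mul
      ((((e1.pow 2).add (e0.pow 2)).sub (d4.const_mul 2)))).const_mul (1 / 2))
    have f1 : deriv (fun y => om4 B s y *
      (1 / 2 * (y * ((deriv ε y) ^ 2 + (ε y) ^ 2 - 2 * bF 4 ε y)))) y = _ := hd.deriv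
    rw [f1, (hLam y).deriv, Lam]
    simp only [Pi.pow_apply, Pi.add_apply, Pi.mul_apply, Pi.sub_apply]
    push_cast
    ring
  have P1 : Integrable (fun y => om4 B s y * (deriv ε y) ^ 2) :=
    Idb_P_int (Idb_om h m0 (Idb_W0 hs (Idb_sq c1)))
  have P3 : Integrable (fun y => om4 B s y * (Df 4 ε y * ε y)) :=
    Idb_P_int (Idb_om h m0 (Idb_W0 hs (Idb_mul cD hε)))
  have P4 : Integrable (fun y => om4 B s y * bF 4 ε y) :=
    Idb_P_int (Idb_om h m0 (Idb_W0 hs kb))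
  have P5 : Integrable (fun y => om4 B s y * (y * (Rf 4 ε y * deriv (Qf 4) y))) :=
    Idb_P_int (Idb_om h m0 (Idb_Wy hs (Idb_RQ hε)))
  have P6 : Integrable (fun y => y * deriv (om4 B s) y *
      ((deriv ε y) ^ 2 + (ε y) ^ 2 - 2 * bF 4 ε y)) := by
    refine (Idb_P_int (Idb_om h m1 wyq)).congr (Eventually.of_forall fun y => ?_)
    simp only
    ring
  have hH : Idb_P (fun y => om4 B s y *
      (1 / 2 * (y * ((deriv ε y) ^ 2 + (ε y) ^ 2 - 2 * bF 4 ε y)))) :=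
    Idb_om h m0 (Cl_smul (1 / 2) wyq)
  have Q3 : Integrable (fun y => (-(1 / 2)) * (om4 B s y * (Df 4 ε y * ε y))) := P3.const_mul _
  have Q6 : Integrable (fun y => (-(1 / 2)) * (y * deriv (om4 B s) y *
      ((deriv ε y) ^ 2 + (ε y) ^ 2 - 2 * bF 4 ε y))) := P6.const_mul _
  have R1 := Idb_ia P1 Q3
  have R2 := Idb_ia R1 P4
  have R3 := Idb_ia R2 P5
  have R4 := Idb_ia R3 Q6
  unfold EE4
  rw [Idb_eq R4 hH hEE, integral_add R3 Q6, integral_add R2 P5, integral_add R1 P4,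
    integral_add P1 Q3, integral_const_mul, integral_const_mul]
  ring

end H98KC

end
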