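import Pool.Agent.H98.KC.Wzb
import Pool.Agent.H98.KC.Ida
import Pool.Agent.H98.KC.Idb

/-!
# Fmb (MP_95be7d_S4): the terms `ΛQ`, `Q'`, `ε'` in the energy (variant of `KB/Emb.lean`, `KB/Emd.lean`; uses the statements of `Ida`, `Idb`, `Wzb`)

Local bound used everywhere: for `φ` with `|φ| ≤ C e^{-3|y|/4}`: `∫|ε||φ| ≤ C(∫loc ε²)^{1/2} ≤ C √ln` since `loc ≥ e^{-|y|/2}` (`ex_le_loc`) and
`φ²e^{|y|/2}` is integrable; constants independent of `B, γ, s`.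
* `FT2` for `ζ = ΛQ`: `EE4_L`, `Lζ = -2Q` (`L_LamQ`).  `∫om ε Lζ = -2om(0)(ε,Q) - 2∫(om-om(0))εQ`, `|om(y)-om(0)| ≤ (4/B)|y|` (mean value theorem,
  `|om'| ≤ 2ta ≤ 4/B`), `|y|Q ≤ Ce^{-3|y|/4}`: `≤ 2|(ε,Q)| + (C/B)√ln`.  `|∫om'εζ'| ≤ (4/B)∫|ε||ζ'| ≤ (C/B)√ln`.
  `|R| ≤ Cε² ≤ Cτ|ε|` (`R_le`): `|∫om Rζ| ≤ Cτ√ln`.
* `ζ = Q'`: the same with `Lζ = 0` (`L_Qd`).
* `FT5`: `EE4_d`, `|om'| ≤ 2ta`, `|bF| ≤ C(Q⁴+ε⁴)ε² ≤ Cε²` (`bF_le`, `Q` bounded), `∫om|R||Q'| ≤ C∫ e^{-|y|}ε² ≤ C ln`.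
-/

open MeasureTheory Filter Topology Set
open scoped ContDiff

noncomputable section

namespace H98KC

open H98KB H68KC

theorem Fmb_key : ∃ K : ℝ, 0 < K ∧ ∀ γ : ℝ, 0 < γ → γ ≤ 1 / 8 → ∀ B : ℝ, 16 ≤ B →
    ∀ (ε : ℝ → ℝ), Cl 0 0 ε → ∀ (A : ℝ) (f : ℝ → ℝ), 0 ≤ A →
    (∀ y, |f y| ≤ A * (bd (3 / 4) (3 / 4) y * |ε y|)) →
    |∫ y, f y| ≤ A * K * √(ln γ B ε) := by
  refine ⟨√(∫ y, bd 1 1 y) + 1, by positivity, ?_⟩
  intro γ hγ hγ' B hB16 ε hC A f hA hf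
  have hB : 0 < B := by linarith
  have hC' := Cl_der hC
  have h2 : Cl 0 0 (fun y => ε y ^ 2) := Cl_pow' hC le_rfl le_rfl 2 (by norm_num)
  have h2' : Cl 0 0 (fun y => deriv ε y ^ 2) := Cl_pow' hC' le_rfl le_rfl 2 (by norm_num)
  have hE := Cl_add h2 h2'
  have hFc : Continuous (fun y => |ε y|) := (Cl_cont hC).abs
  have hWF : Integrable (fun y => bd (1 / 2) (1 / 2) y * |ε y| ^ 2) := by
    obtain ⟨C, hC0, hCb⟩ := Cl_bnd h2
    refine int_of_bd (p := 1 / 2) (q := 1 / 2) ((bd_cont _ _).mul (hFc.pow 2)) (by norm_num)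
      (by norm_num) ⟨C, fun y => ?_⟩
    have hb := (bd_pos (1 / 2) (1 / 2) y).le
    rw [abs_of_nonneg (mul_nonneg hb (sq_nonneg _)), sq_abs]
    have h3 := (le_abs_self _).trans (hCb y)
    have h4 : bd 0 0 y = 1 := by unfold bd; simp
    rw [h4, mul_one] at h3
    calc _ ≤ bd (1 / 2) (1 / 2) y * C := mul_le_mul_of_nonneg_left h3 hb
      _ = _ := by ring
  have hφ2 : ∀ y, bd (3 / 4) (3 / 4) y ^ 2 / bd (1 / 2) (1 / 2) y = bd 1 1 y := by
    intro y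
    have hb := (bd_pos (1 / 2) (1 / 2) y).ne'
    rw [div_eq_iff hb, bd_mul, pow_two, bd_mul]
    norm_num
  have hI : Integrable (fun y => bd (3 / 4) (3 / 4) y ^ 2 / bd (1 / 2) (1 / 2) y) := by
    simp only [hφ2]
    exact bd_int (by norm_num) (by norm_num)
  obtain ⟨hint, hcs⟩ := cs_wt (F := fun y => |ε y|) (φ := bd (3 / 4) (3 / 4))
    (W := bd (1 / 2) (1 / 2)) hFc (bd_cont _ _) (bd_cont _ _) (fun y => bd_pos _ _ y) hWF hI
  simp only [hφ2] at hcs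
  have hln : ∫ y, bd (1 / 2) (1 / 2) y * |ε y| ^ 2 ≤ ln γ B ε := by
    unfold ln
    refine integral_mono hWF ?_ fun y => ?_
    · have h5 := Cl_mul (Cl_mul (Cl_se2 hγ) (Cl_ch hB)) hE
      have hB' : 0 < 2 / B := by positivity
      exact Cl_int h5 (by linarith) (by linarith)
    · show bd (1 / 2) (1 / 2) y * |ε y| ^ 2 ≤
        loc γ B y * (ε y ^ 2 + deriv ε y ^ 2)
      have h6 : bd (1 / 2) (1 / 2) y ≤ loc γ B y := by
        rw [bd_abs]
        refine le_trans (le_of_eq ?_) (ex_le_loc hγ hγ' hB16 y)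
        congr 1
        ring
      refine mul_le_mul h6 ?_ (by positivity) (loc_pos γ B y).le
      rw [sq_abs]
      nlinarith [sq_nonneg (deriv ε y)]
  have h7 : |∫ y, f y| ≤ ∫ y, A * (|ε y| * bd (3 / 4) (3 / 4) y) := by
    rw [← Real.norm_eq_abs]
    refine norm_integral_le_of_norm_le (hint.const_mul A) (Eventually.of_forall fun y => ?_)
    rw [Real.norm_eq_abs]
    refine (hf y).trans (le_of_eq ?_)
    ring
  rw [integral_const_mul] at h7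
  refine h7.trans ?_
  have h8 : ∫ y, |ε y| * bd (3 / 4) (3 / 4) y ≤
      √(∫ y, bd 1 1 y) * √(ln γ B ε) := by
    refine (le_abs_self _).trans (hcs.trans ?_)
    exact mul_le_mul_of_nonneg_left (Real.sqrt_le_sqrt hln) (Real.sqrt_nonneg _)
  have h9 := Real.sqrt_nonneg (ln γ B ε)
  calc _ ≤ A * (√(∫ y, bd 1 1 y) * √(ln γ B ε)) :=
        mul_le_mul_of_nonneg_left h8 hA
    _ ≤ A * (√(∫ y, bd 1 1 y) * √(ln γ B ε)) + A * √(ln γ B ε) := by
        have := mul_nonneg hA h9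
        linarith
    _ = _ := by ring

theorem Fmb_ta (B s y : ℝ) (h : Slow4 B s) : |deriv (om4 B s) y| ≤ 4 / B := by
  have h1 := om41_le h y
  have h2 := ta_hi h y
  have h3 : 2 * (2 / B) = 4 / B := by ring
  linarith

theorem Fmb_L {ζ : ℝ → ℝ} (hζ : Cl (3 / 4) (3 / 4) ζ) : ∃ C : ℝ, 0 < C ∧
    ∀ γ : ℝ, 0 < γ → γ ≤ 1 / 8 →
    ∀ B s : ℝ, Slow4 B s → ∀ (τ : ℝ) (ε : ℝ → ℝ), Cl 0 0 ε → τ ≤ 1 → (∀ y, |ε y| ≤ τ) →
    |EE4 B s ε ζ - ∫ y, om4 B s y * (ε y * Lop 4 ζ y)| ≤ C * ((1 / B + τ) * √(ln γ B ε)) := by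
  obtain ⟨K, hK, hkey⟩ := Fmb_key
  obtain ⟨CR, hCR, hR⟩ := R_le 4 (by norm_num)
  obtain ⟨C0, hC0, hz0⟩ := Cl_bnd hζ
  obtain ⟨C1, hC1, hz1⟩ := Cl_bnd (Cl_der hζ)
  have hζ0 : Cl 0 0 ζ := Cl_mono hζ (by norm_num) (by norm_num)
  refine ⟨4 * C1 * K + CR * C0 * K + 1, by positivity, ?_⟩
  intro γ hγ hγ' B s hs τ ε hε hτ hb
  have hB16 := hs.1
  have hB : 0 < B := by linarith
  have hτ0 : 0 ≤ τ := (abs_nonneg _).trans (hb 0)
  rw [EE4_L hs hε hζ0]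
  have h1 := hkey γ hγ hγ' B hB16 ε hε (4 / B * C1)
    (fun y => deriv (om4 B s) y * (ε y * deriv ζ y)) (by positivity) (by
      intro y
      have ho := Fmb_ta B s y hs
      show |deriv (om4 B s) y * (ε y * deriv ζ y)| ≤ _
      rw [abs_mul, abs_mul]
      have e1 : |ε y| * |deriv ζ y| ≤ |ε y| * (C1 * bd (3 / 4) (3 / 4) y) :=
        mul_le_mul_of_nonneg_left (hz1 y) (abs_nonneg _)
      refine (mul_le_mul ho e1 (by positivity) (by positivity)).trans (le_of_eq ?_)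
      ring)
  have h2 := hkey γ hγ hγ' B hB16 ε hε (CR * τ * C0)
    (fun y => om4 B s y * (Rf 4 ε y * ζ y)) (by positivity) (by
      intro y
      have ho := om4_le_one B s y
      have hop := (om4_pos B s y).le
      have hbd := (bd_pos (3 / 4) (3 / 4) y).le
      show |om4 B s y * (Rf 4 ε y * ζ y)| ≤ _
      rw [abs_mul, abs_of_nonneg hop, abs_mul]
      have e0 : |Rf 4 ε y| ≤ CR * (τ * |ε y|) := by
        refine (hR ε y ((hb y).trans hτ)).trans ?_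
        refine mul_le_mul_of_nonneg_left ?_ hCR.le
        rw [← sq_abs, pow_two]
        exact mul_le_mul_of_nonneg_right (hb y) (abs_nonneg _)
      have e1 : |Rf 4 ε y| * |ζ y| ≤ (CR * (τ * |ε y|)) * (C0 * bd (3 / 4) (3 / 4) y) :=
        mul_le_mul e0 (hz0 y) (abs_nonneg _) (by positivity)
      refine (mul_le_mul ho e1 (by positivity) zero_le_one).trans (le_of_eq ?_)
      ring)
  have h3 := Real.sqrt_nonneg (ln γ B ε)
  have hB' : 0 < 1 / B := by positivity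
  have e : ∀ x a b : ℝ, x - a - b - x = -a - b := by intro x a b; ring
  rw [e]
  have h4 : |-(∫ y, deriv (om4 B s) y * (ε y * deriv ζ y)) -
      ∫ y, om4 B s y * (Rf 4 ε y * ζ y)| ≤
      4 / B * C1 * K * √(ln γ B ε) + CR * τ * C0 * K * √(ln γ B ε) := by
    refine (abs_sub _ _).trans ?_
    rw [abs_neg]
    exact add_le_add h1 h2
  refine h4.trans ?_
  have e : 4 / B = 4 * (1 / B) := by ring
  rw [e]
  have n1 : 0 ≤ 4 * C1 * K * τ * √(ln γ B ε) := by positivity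
  have n2 : 0 ≤ CR * C0 * K * (1 / B) * √(ln γ B ε) := by positivity
  have n3 : 0 ≤ (1 / B + τ) * √(ln γ B ε) := by positivity
  (first | linarith only [n1, n2, n3] | nlinarith only [n1, n2, n3])

/-- `|om4 y - om4 0| ≤ (4/B)|y|` -/
theorem Fmb_mv {B s : ℝ} (h : Slow4 B s) (y : ℝ) : |om4 B s y - om4 B s 0| ≤ 4 / B * |y| := by
  have h1 := Convex.norm_image_sub_le_of_norm_deriv_le (f := om4 B s) (s := univ) (x := 0) (y := y)
    (C := 4 / B) (fun x _ => (Cl_hd (Cl_om4 h) x).differentiableAt)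
    (fun x _ => by rw [Real.norm_eq_abs]; exact Fmb_ta B s x h) convex_univ (mem_univ _) (mem_univ _)
  rw [Real.norm_eq_abs, Real.norm_eq_abs, sub_zero] at h1
  exact h1

theorem Fmb_Q : ∃ C : ℝ, 0 < C ∧ ∀ y, |y| * Qf 4 y ≤ C * bd (3 / 4) (3 / 4) y := by
  obtain ⟨C, hC, hQ⟩ := Qf_hi (k := 4) (by norm_num)
  refine ⟨4 * C, by positivity, fun y => ?_⟩
  have h1 : |y| ≤ 4 * Real.exp (|y| / 4) := by
    have := Real.add_one_le_exp (|y| / 4)
    linarith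
  have h2 : Real.exp (|y| / 4) * Real.exp (-|y|) = bd (3 / 4) (3 / 4) y := by
    rw [bd_abs, ← Real.exp_add]
    congr 1
    ring
  calc |y| * Qf 4 y ≤ (4 * Real.exp (|y| / 4)) * (C * Real.exp (-|y|)) :=
        mul_le_mul h1 (hQ y) (Qf_pos 4 y).le (by positivity)
    _ = 4 * C * (Real.exp (|y| / 4) * Real.exp (-|y|)) := by ring
    _ = _ := by rw [h2]

theorem Fmb_LQ : ∃ C : ℝ, 0 < C ∧ ∀ γ : ℝ, 0 < γ → γ ≤ 1 / 8 →
    ∀ B s : ℝ, Slow4 B s → ∀ (ε : ℝ → ℝ), Cl 0 0 ε →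
    |∫ y, om4 B s y * (ε y * Lop 4 (Lam 4 (Qf 4)) y)| ≤
      2 * |ip ε (Qf 4)| + C * (1 / B * √(ln γ B ε)) := by
  obtain ⟨K, hK, hkey⟩ := Fmb_key
  obtain ⟨C, hC, hQ⟩ := Fmb_Q
  refine ⟨8 * C * K, by positivity, ?_⟩
  intro γ hγ hγ' B s hs ε hε
  have hB16 := hs.1
  have hB : 0 < B := by linarith
  have hεQ : Cl 1 1 (fun y => ε y * Qf 4 y) := Cl_mul0 hε (Cl_Qf (by norm_num))
  have i1 : Integrable (fun y => ε y * Qf 4 y) := Cl_int hεQ (by norm_num) (by norm_num)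
  have i2 : Integrable (fun y => om4 B s y * (ε y * Qf 4 y)) := by
    have h := Cl_mul (Cl_om4 hs) hεQ
    have hs0 := hs.2.1
    exact Cl_int h (by linarith) (by positivity)
  have e1 : ∫ y, om4 B s y * (ε y * Lop 4 (Lam 4 (Qf 4)) y) =
      -2 * (om4 B s 0 * ip ε (Qf 4)) +
        ∫ y, -2 * ((om4 B s y - om4 B s 0) * (ε y * Qf 4 y)) := by
    unfold ip
    rw [← integral_const_mul, ← integral_const_mul, ← integral_add]
    · congr 1
      funext y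
      rw [L_LamQ (by norm_num)]
      ring
    · exact (i1.const_mul _).const_mul _
    · refine Integrable.const_mul ?_ _
      have : (fun y => (om4 B s y - om4 B s 0) * (ε y * Qf 4 y)) =
          fun y => om4 B s y * (ε y * Qf 4 y) - om4 B s 0 * (ε y * Qf 4 y) := by
        funext y; ring
      rw [this]
      exact i2.sub (i1.const_mul _)
  rw [e1]
  have h1 := hkey γ hγ hγ' B hB16 ε hε (8 / B * C)
    (fun y => -2 * ((om4 B s y - om4 B s 0) * (ε y * Qf 4 y))) (by positivity) (by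
      intro y
      have h2 := Fmb_mv hs y
      have h3 := hQ y
      have hQp := (Qf_pos 4 y).le
      show |(-2 : ℝ) * ((om4 B s y - om4 B s 0) * (ε y * Qf 4 y))| ≤ _
      rw [abs_mul, abs_mul, abs_mul, abs_neg, abs_two, abs_of_nonneg hQp]
      calc 2 * (|om4 B s y - om4 B s 0| * (|ε y| * Qf 4 y))
          ≤ 2 * ((4 / B * |y|) * (|ε y| * Qf 4 y)) := by
            have := mul_le_mul_of_nonneg_right h2 (mul_nonneg (abs_nonneg (ε y)) hQp)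
            linarith
        _ = (8 / B * |ε y|) * (|y| * Qf 4 y) := by ring
        _ ≤ (8 / B * |ε y|) * (C * bd (3 / 4) (3 / 4) y) :=
            mul_le_mul_of_nonneg_left h3 (by positivity)
        _ = _ := by ring)
  have h4 : |(-2 : ℝ) * (om4 B s 0 * ip ε (Qf 4))| ≤ 2 * |ip ε (Qf 4)| := by
    rw [abs_mul, abs_mul, abs_neg, abs_two, abs_of_pos (om4_pos B s 0)]
    have := mul_le_mul_of_nonneg_right (om4_le_one B s 0) (abs_nonneg (ip ε (Qf 4)))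
    linarith
  refine (abs_add_le _ _).trans ((add_le_add h4 h1).trans (le_of_eq ?_))
  ring

theorem FT2 : ∃ C : ℝ, 0 < C ∧ ∀ γ : ℝ, 0 < γ → γ ≤ 1 / 8 →
    ∀ B s : ℝ, Slow4 B s → ∀ (τ : ℝ) (ε : ℝ → ℝ), Cl 0 0 ε → τ ≤ 1 → (∀ y, |ε y| ≤ τ) →
    |EE4 B s ε (Lam 4 (Qf 4))| ≤ C * (|ip ε (Qf 4)| + (1 / B + τ) * √(ln γ B ε)) ∧
    |EE4 B s ε (deriv (Qf 4))| ≤ C * ((1 / B + τ) * √(ln γ B ε)) := by
  obtain ⟨C1, hC1, h1⟩ := Fmb_L (Cl_LamQ (k := 4) (by norm_num) (c := 3 / 4) (by norm_num))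
  obtain ⟨C2, hC2, h2⟩ := Fmb_L (ζ := deriv (Qf 4))
    (Cl_mono (Cl_der (Cl_Qf (by norm_num))) (by norm_num) (by norm_num))
  obtain ⟨C3, hC3, h3⟩ := Fmb_LQ
  refine ⟨2 + C1 + C2 + C3, by positivity, ?_⟩
  intro γ hγ hγ' B s hs τ ε hε hτ hb
  have hB : 0 < B := by linarith [hs.1]
  have hτ0 : 0 ≤ τ := (abs_nonneg _).trans (hb 0)
  have e1 := h1 γ hγ hγ' B s hs τ ε hε hτ hb
  have e2 := h2 γ hγ hγ' B s hs τ ε hε hτ hb
  have e3 := h3 γ hγ hγ' B s hs ε hε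
  have hq := Real.sqrt_nonneg (ln γ B ε)
  have hB' : 0 < 1 / B := by positivity
  have n0 : 0 ≤ (1 / B + τ) * √(ln γ B ε) := by positivity
  have n1 : 1 / B * √(ln γ B ε) ≤ (1 / B + τ) * √(ln γ B ε) :=
    mul_le_mul_of_nonneg_right (by linarith) hq
  have n2 : 0 ≤ |ip ε (Qf 4)| := abs_nonneg _
  constructor
  · have e4 : |EE4 B s ε (Lam 4 (Qf 4))| ≤
        |EE4 B s ε (Lam 4 (Qf 4)) - ∫ y, om4 B s y * (ε y * Lop 4 (Lam 4 (Qf 4)) y)| +
        |∫ y, om4 B s y * (ε y * Lop 4 (Lam 4 (Qf 4)) y)| := by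
      have := abs_add_le (EE4 B s ε (Lam 4 (Qf 4)) - ∫ y, om4 B s y * (ε y * Lop 4 (Lam 4 (Qf 4)) y))
        (∫ y, om4 B s y * (ε y * Lop 4 (Lam 4 (Qf 4)) y))
      rwa [sub_add_cancel] at this
    have n3 : C3 * (1 / B * √(ln γ B ε)) ≤ C3 * ((1 / B + τ) * √(ln γ B ε)) :=
      mul_le_mul_of_nonneg_left n1 hC3.le
    have n4 : 0 ≤ (C1 + C2 + C3) * |ip ε (Qf 4)| := by positivity
    have n5 : 0 ≤ (2 + C2) * ((1 / B + τ) * √(ln γ B ε)) := by positivity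
    calc |EE4 B s ε (Lam 4 (Qf 4))| ≤ C1 * ((1 / B + τ) * √(ln γ B ε)) +
          (2 * |ip ε (Qf 4)| + C3 * ((1 / B + τ) * √(ln γ B ε))) := by linarith
      _ ≤ _ := by (first | linarith only [n4, n5] | nlinarith only [n4, n5])
  · have e4 : ∫ y, om4 B s y * (ε y * Lop 4 (deriv (Qf 4)) y) = 0 := by
      have : (fun y => om4 B s y * (ε y * Lop 4 (deriv (Qf 4)) y)) = fun _ => (0 : ℝ) := by
        funext y
        rw [L_Qd (by norm_num)]
        ring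
      rw [this, integral_zero]
    rw [e4, sub_zero] at e2
    refine e2.trans ?_
    exact mul_le_mul_of_nonneg_right (by linarith) n0

theorem Fmb_Qd (y : ℝ) : |deriv (Qf 4) y| ≤ Qf 4 y := by
  rw [Qf_deriv (by norm_num), abs_mul, abs_neg, abs_of_pos (Qf_pos 4 y)]
  nlinarith [th_abs_lt 4 y, Qf_pos 4 y]

theorem FT5 : ∃ C : ℝ, 0 < C ∧ ∀ γ : ℝ, 0 < γ → γ ≤ 1 / 8 →
    ∀ B s : ℝ, Slow4 B s → ∀ ε : ℝ → ℝ, Cl 0 0 ε → (∀ y, |ε y| ≤ 1) →
    |EE4 B s ε (deriv ε)| ≤ C * (T4 B s ε + ln γ B ε) := by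
  obtain ⟨C1, hC1, hQ1⟩ := Qf_hi (k := 4) (by norm_num)
  obtain ⟨C2, hC2, hb⟩ := bF_le 4 (by norm_num)
  obtain ⟨C3, hC3, hR⟩ := R_le 4 (by norm_num)
  obtain ⟨M, hM, hQM, -⟩ := Nlb_max (k := 4) (by norm_num)
  refine ⟨1 + 2 * (C2 * (M ^ 4 + 1)) + C3 * C1, by positivity, fun γ hγ hγ' B s hs ε hε hb1 => ?_⟩
  have hB : 0 < B := by linarith [hs.1]
  have hs0 := hs.2.1
  have hBi : 0 < 1 / B := by positivity
  have s0 : Cl 0 0 (fun y => ε y ^ 2) := Cl_pow' hε le_rfl le_rfl 2 (by norm_num)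
  have s1 : Cl 0 0 (fun y => deriv ε y ^ 2) := Cl_pow' (Cl_der hε) le_rfl le_rfl 2 (by norm_num)
  have s2 : Cl 0 0 (fun y => deriv (deriv ε) y ^ 2) :=
    Cl_pow' (Cl_der (Cl_der hε)) le_rfl le_rfl 2 (by norm_num)
  have hta : ∀ {F : ℝ → ℝ}, Cl 0 0 F → Integrable (fun y => ta B s y * F y) := by
    intro F hF
    have h := Cl_mul (Cl_ta hs) hF
    exact Cl_int h (by linarith) (by linarith)
  have hloc : ∀ {F : ℝ → ℝ}, Cl 0 0 F → Integrable (fun y => loc γ B y * F y) := by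
    intro F hF
    have h5 := Cl_mul (Cl_mul (Cl_se2 hγ) (Cl_ch hB)) hF
    have hB' : 0 < 2 / B := by positivity
    exact Cl_int h5 (by linarith) (by linarith)
  -- bounds by `T4` and `ln`
  have T1 : (∫ y, ta B s y * (deriv ε y ^ 2 + ε y ^ 2)) ≤ T4 B s ε := by
    rw [T4_eq]
    refine integral_mono (hta (Cl_add s1 s0)) (hta (Cl_add (Cl_add s0 s1) s2)) fun y => ?_
    refine mul_le_mul_of_nonneg_left ?_ (ta_pos hs y).le
    nlinarith [sq_nonneg (deriv (deriv ε) y)]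
  have T2 : (∫ y, ta B s y * ε y ^ 2) ≤ T4 B s ε := by
    rw [T4_eq]
    refine integral_mono (hta s0) (hta (Cl_add (Cl_add s0 s1) s2)) fun y => ?_
    refine mul_le_mul_of_nonneg_left ?_ (ta_pos hs y).le
    nlinarith [sq_nonneg (deriv (deriv ε) y), sq_nonneg (deriv ε y)]
  have L1 : (∫ y, loc γ B y * ε y ^ 2) ≤ ln γ B ε := by
    refine integral_mono (hloc s0) (hloc (Cl_add s0 s1)) fun y => ?_
    refine mul_le_mul_of_nonneg_left ?_ (loc_pos γ B y).le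
    nlinarith [sq_nonneg (deriv ε y)]
  have hT0 : 0 ≤ T4 B s ε :=
    (integral_nonneg fun y => mul_nonneg (ta_pos hs y).le (sq_nonneg (ε y))).trans T2
  have hln : 0 ≤ ln γ B ε :=
    (integral_nonneg fun y => mul_nonneg (loc_pos γ B y).le (sq_nonneg (ε y))).trans L1
  rw [EE4_d hs hε]
  -- first term
  have f1 : |(-(1 / 2) * (∫ y, deriv (om4 B s) y * ((deriv ε y) ^ 2 + (ε y) ^ 2)))| ≤
      1 * T4 B s ε := by
    have h1 : |∫ y, deriv (om4 B s) y * ((deriv ε y) ^ 2 + (ε y) ^ 2)| ≤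
        ∫ y, 2 * (ta B s y * (deriv ε y ^ 2 + ε y ^ 2)) := by
      rw [← Real.norm_eq_abs]
      refine norm_integral_le_of_norm_le ((hta (Cl_add s1 s0)).const_mul _)
        (Eventually.of_forall fun y => ?_)
      rw [Real.norm_eq_abs, abs_mul, abs_of_nonneg (by positivity : 0 ≤ deriv ε y ^ 2 + ε y ^ 2)]
      have := mul_le_mul_of_nonneg_right (om41_le hs y)
        (by positivity : 0 ≤ deriv ε y ^ 2 + ε y ^ 2)
      linarith
    rw [integral_const_mul] at h1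
    rw [abs_mul, abs_neg, abs_of_pos (by norm_num : (0 : ℝ) < 1 / 2)]
    linarith
  -- the term with `bF`
  have f2 : |∫ y, deriv (om4 B s) y * bF 4 ε y| ≤ 2 * (C2 * (M ^ 4 + 1)) * T4 B s ε := by
    have h1 : |∫ y, deriv (om4 B s) y * bF 4 ε y| ≤
        ∫ y, 2 * (C2 * (M ^ 4 + 1)) * (ta B s y * (ε y) ^ 2) := by
      rw [← Real.norm_eq_abs]
      refine norm_integral_le_of_norm_le ((hta s0).const_mul _) (Eventually.of_forall fun y => ?_)
      rw [Real.norm_eq_abs, abs_mul]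
      have h2 : |bF 4 ε y| ≤ C2 * (M ^ 4 + 1) * (ε y) ^ 2 := by
        refine (hb ε y).trans ?_
        have h3 : Qf 4 y ^ 4 ≤ M ^ 4 := pow_le_pow_left₀ (Qf_pos 4 y).le (hQM y) 4
        have h4 : |ε y| ^ 4 ≤ 1 := pow_le_one₀ (abs_nonneg _) (hb1 y)
        refine mul_le_mul_of_nonneg_right ?_ (sq_nonneg _)
        exact mul_le_mul_of_nonneg_left (by linarith) hC2.le
      have h3 := om41_le hs y
      have h4 := (ta_pos hs y).le
      calc _ ≤ (2 * ta B s y) * (C2 * (M ^ 4 + 1) * (ε y) ^ 2) :=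
            mul_le_mul h3 h2 (abs_nonneg _) (by positivity)
        _ = _ := by ring
    rw [integral_const_mul] at h1
    exact h1.trans (mul_le_mul_of_nonneg_left T2 (by positivity))
  -- the term with `R Q'`
  have f3 : |∫ y, om4 B s y * (Rf 4 ε y * deriv (Qf 4) y)| ≤ C3 * C1 * ln γ B ε := by
    have h1 : |∫ y, om4 B s y * (Rf 4 ε y * deriv (Qf 4) y)| ≤
        ∫ y, C3 * C1 * (loc γ B y * (ε y) ^ 2) := by
      rw [← Real.norm_eq_abs]
      refine norm_integral_le_of_norm_le ((hloc s0).const_mul _) (Eventually.of_forall fun y => ?_)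
      rw [Real.norm_eq_abs, abs_mul, abs_mul, abs_of_pos (om4_pos B s y)]
      have h2 := hR ε y (hb1 y)
      have h3 := Fmb_Qd y
      have h4 : Qf 4 y ≤ C1 * loc γ B y := by
        refine (hQ1 y).trans (mul_le_mul_of_nonneg_left ?_ hC1.le)
        refine le_trans ?_ (ex_le_loc hγ hγ' hs.1 y)
        exact Real.exp_le_exp.2 (by linarith [abs_nonneg y])
      have h5 : |Rf 4 ε y| * |deriv (Qf 4) y| ≤ (C3 * (ε y) ^ 2) * (C1 * loc γ B y) :=
        mul_le_mul h2 (h3.trans h4) (abs_nonneg _) (by positivity)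
      calc om4 B s y * (|Rf 4 ε y| * |deriv (Qf 4) y|)
          ≤ 1 * ((C3 * (ε y) ^ 2) * (C1 * loc γ B y)) :=
            mul_le_mul (om4_le_one B s y) h5 (by positivity) zero_le_one
        _ = _ := by ring
    rw [integral_const_mul] at h1
    exact h1.trans (mul_le_mul_of_nonneg_left L1 (by positivity))
  refine (abs_add_le _ _).trans ((add_le_add (abs_add_le _ _) le_rfl).trans ?_)
  have g1 : 0 ≤ 2 * (C2 * (M ^ 4 + 1)) * ln γ B ε := by positivity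
  have g2 : 0 ≤ C3 * C1 * T4 B s ε := by positivity
  nlinarith

end H98KC

end
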