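import Pool.Agent.H98.KC.Wzb
import Pool.Agent.H98.KC.Idb

/-!
# Fmc (MP_95be7d_S4): the scaling term in the energy (variant of `KB/Emc.lean`, simpler; uses the statements `EE4_Lam`, `Wza`, `Wzb`)

`om4' = Th'Z + sThZ'` (`om41_eq`; `Z = Zf(s y)`, `Z' = deriv Zf (s y)`), `w ≥ 0`, `X(y) := ε'²+ε²-2bF`.  By `EE4_Lam` the left hand side is
`-w∫om ε'² + (w/2)∫om Dε - w∫om bF - w∫om yRQ' + (w/2)∫y Th'Z X + (w/2-w/8)∫y s Th Z' X`.
Each term is `≤ C (w/s) (T4+Bad)`, using `om ≤ ta/s` (`ta_ge`), so `w∫om(ε²+ε'²) ≤ (w/s)T4`: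
* `-w∫omε'² ≤ 0`; `|Dε| ≤ Cε²`, `|bF| ≤ C_b(Q⁴+|ε|⁴)ε² ≤ Cε²`, `|yRQ'| ≤ C|R| ≤ Cε²` (`D_le`, `bF_le`, `R_le`, `|yQ'| ≤ C`).
* `y ≤ 0`: `y X ≤ |y|(2|bF|-ε²) ≤ 2C_b|y|Q⁴ε² ≤ Cε²` if `2C_bν⁴ ≤ 1`; `0 ≤ Th'Z ≤ om/B`; `0 ≤ sThZ'(ξ)` for `ξ = sy ≤ 0` (`Z' = -2tanh(ξ-2)Z > 0`) and `≤ 2s om`.
* `y ≥ 0`: `|X| ≤ C(ε²+ε'²)`; `y Th' ≤ (y/B)e^{-y/B} ≤ 1 ≤ 2Th`.
* `0 ≤ y ≤ 1/s`: `|y s Z'| ≤ 2ξZ ≤ 2Z`; `y ≥ 1/s`: `|y s Z'| ≤ 6 bi` (`Z_le_bi`): `w∫bi(ε²+ε'²) ≤ (w/s)Bad`.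
-/

open MeasureTheory Filter Topology Set
open scoped ContDiff

noncomputable section

namespace H98KC

open H98KB H68KC

/-- constants of the soliton -/
theorem Fmc_c : ∃ K : ℝ, 0 < K ∧ ∀ y, Qf 4 y ^ 4 ≤ K ∧ |y| * |deriv (Qf 4) y| ≤ K ∧
    |y| * Qf 4 y ^ 4 ≤ K := by
  obtain ⟨C, hC, hQ⟩ := Qf_hi (k := 4) (by norm_num)
  refine ⟨C ^ 4 + C, by positivity, fun y => ?_⟩
  have hQp := Qf_pos 4 y
  have hy := abs_nonneg y
  have he : 0 < Real.exp (-|y|) := Real.exp_pos _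
  have he1 : Real.exp (-|y|) ≤ 1 := by
    rw [Real.exp_le_one_iff]
    linarith
  have hye : |y| * Real.exp (-|y|) ≤ 1 := by
    have h1 : |y| ≤ Real.exp |y| := by linarith [Real.add_one_le_exp |y|]
    calc |y| * Real.exp (-|y|) ≤ Real.exp |y| * Real.exp (-|y|) := by gcongr
      _ = 1 := by
        rw [← Real.exp_add]
        simp
  have hQ4 : Qf 4 y ^ 4 ≤ C ^ 4 * Real.exp (-|y|) := by
    have h1 := pow_le_pow_left₀ hQp.le (hQ y) 4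
    rw [mul_pow] at h1
    refine h1.trans ?_
    have h2 : Real.exp (-|y|) ^ 4 ≤ Real.exp (-|y|) ^ 1 :=
      pow_le_pow_of_le_one he.le he1 (by norm_num)
    rw [pow_one] at h2
    gcongr
  have hQd : |deriv (Qf 4) y| ≤ C * Real.exp (-|y|) := by
    have h0 : |deriv (Qf 4) y| ≤ Qf 4 y := by
      rw [Qf_deriv (by norm_num)]
      simp only [neg_mul, abs_neg, abs_mul, abs_of_pos hQp]
      nlinarith [th_abs_lt 4 y, abs_nonneg (th 4 y)]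
    exact h0.trans (hQ y)
  have hC4 : 0 < C ^ 4 := by positivity
  refine ⟨?_, ?_, ?_⟩
  · nlinarith
  · calc |y| * |deriv (Qf 4) y| ≤ |y| * (C * Real.exp (-|y|)) := by gcongr
      _ = C * (|y| * Real.exp (-|y|)) := by ring
      _ ≤ C * 1 := by gcongr
      _ ≤ C ^ 4 + C := by linarith
  · calc |y| * Qf 4 y ^ 4 ≤ |y| * (C ^ 4 * Real.exp (-|y|)) := by gcongr
      _ = C ^ 4 * (|y| * Real.exp (-|y|)) := by ring
      _ ≤ C ^ 4 * 1 := by gcongr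
      _ ≤ C ^ 4 + C := by linarith

theorem Fmc_T0 {B : ℝ} (hB : 16 ≤ B) (y : ℝ) : 0 ≤ deriv (Th B) y ∧ deriv (Th B) y ≤ Th B y := by
  have hB0 : 0 < B := by linarith
  have h0 := Th_pos B y
  have h1 := Th_lt_one B y
  rw [(Th_hd hB0 y).deriv]
  constructor
  · have : 0 ≤ 1 - Th B y := by linarith
    positivity
  · rw [div_le_iff₀ hB0]
    nlinarith

theorem Fmc_yT {B y : ℝ} (hB : 16 ≤ B) (hy : 0 ≤ y) : y * deriv (Th B) y ≤ Th B y := by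
  have hB0 : 0 < B := by linarith
  have h0 := Th_pos B y
  have h1 := Th_lt_one B y
  have hE : 1 - Th B y ≤ Real.exp (-(y / B)) := by
    unfold Th
    have he := Real.exp_pos (-y / B)
    have e1 : -y / B = -(y / B) := by ring
    rw [e1] at he ⊢
    rw [sub_le_iff_le_add, ← sub_le_iff_le_add', le_div_iff₀ (by linarith)]
    nlinarith [sq_nonneg (Real.exp (-(y / B)))]
  have hyB : 0 ≤ y / B := by positivity
  have hye : y / B * Real.exp (-(y / B)) ≤ 1 := by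
    have h2 : y / B ≤ Real.exp (y / B) := by linarith [Real.add_one_le_exp (y / B)]
    calc y / B * Real.exp (-(y / B)) ≤ Real.exp (y / B) * Real.exp (-(y / B)) := by gcongr
      _ = 1 := by
        rw [← Real.exp_add]
        simp
  rw [(Th_hd hB0 y).deriv]
  calc y * (Th B y * (1 - Th B y) / B) = Th B y * (y / B * (1 - Th B y)) := by ring
    _ ≤ Th B y * (y / B * Real.exp (-(y / B))) := by gcongr
    _ ≤ Th B y * 1 := by gcongr
    _ = Th B y := mul_one _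

theorem Fmc_Z (ξ : ℝ) : |deriv Zf ξ| ≤ 2 * Zf ξ := by
  rw [(Zf_hd ξ).deriv, abs_mul, abs_mul, abs_of_pos (Zf_pos ξ)]
  have h1 : |Real.tanh (ξ - 2)| ≤ 1 := (Real.abs_tanh_lt_one _).le
  have h2 : |(-2 : ℝ)| = 2 := by norm_num
  rw [h2]
  have h3 := Zf_pos ξ
  have h4 := mul_le_mul_of_nonneg_right h1 h3.le
  linarith

theorem Fmc_Z0 {ξ : ℝ} (hξ : ξ ≤ 0) : 0 ≤ deriv Zf ξ := by
  rw [(Zf_hd ξ).deriv]
  have h1 : Real.tanh (ξ - 2) ≤ 0 := by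
    rw [Real.tanh_eq_sinh_div_cosh]
    refine div_nonpos_of_nonpos_of_nonneg ?_ (Real.cosh_pos _).le
    rw [Real.sinh_nonpos_iff]
    linarith
  have h3 := Zf_pos ξ
  have : 0 ≤ -Real.tanh (ξ - 2) := by linarith
  have h4 := mul_nonneg this h3.le
  linarith

/-- the first group of terms -/
theorem Fmc_A {CF CR K Q E o e e1 D F r y Q' : ℝ} (hCR : 0 < CR)
    (hK : 0 < K) (hQ : 0 < Q) (hQK : Q ≤ K) (hyQ : |y| * |Q'| ≤ K) (hE : 0 ≤ E) (hE1 : E ≤ 1)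
    (ho : 0 < o) (hD : |D| ≤ 16 * (Q + E) * |e|) (hF : |F| ≤ CF * (Q + E) * e ^ 2) (hCF : 0 < CF)
    (hr : |r| ≤ CR * e ^ 2) :
    -(o * e1 ^ 2) + 1 / 2 * (o * (D * e)) - o * F - o * (y * (r * Q')) ≤
      (8 * (K + 1) + CF * (K + 1) + CR * K) * (o * (e ^ 2 + e1 ^ 2)) := by
  have he : 0 ≤ e ^ 2 := sq_nonneg e
  have he1 : 0 ≤ e1 ^ 2 := sq_nonneg e1
  have hQE : Q + E ≤ K + 1 := by linarith
  have t1 : 0 ≤ o * e1 ^ 2 := by positivity
  have t2 : D * e ≤ 16 * (K + 1) * e ^ 2 := by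
    calc D * e ≤ |D * e| := le_abs_self _
      _ = |D| * |e| := abs_mul _ _
      _ ≤ 16 * (Q + E) * |e| * |e| := mul_le_mul_of_nonneg_right hD (abs_nonneg _)
      _ = 16 * (Q + E) * e ^ 2 := by rw [mul_assoc, abs_mul_abs_self, sq]
      _ ≤ 16 * (K + 1) * e ^ 2 := by gcongr
  have t3 : -F ≤ CF * (K + 1) * e ^ 2 := by
    calc -F ≤ |F| := neg_le_abs _
      _ ≤ CF * (Q + E) * e ^ 2 := hF
      _ ≤ CF * (K + 1) * e ^ 2 := by gcongr
  have t4 : -(y * (r * Q')) ≤ CR * K * e ^ 2 := by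
    calc -(y * (r * Q')) ≤ |y * (r * Q')| := neg_le_abs _
      _ = |r| * (|y| * |Q'|) := by
        rw [abs_mul, abs_mul]
        ring
      _ ≤ CR * e ^ 2 * K := mul_le_mul hr hyQ (by positivity) (by positivity)
      _ = CR * K * e ^ 2 := by ring
  have s2 := mul_le_mul_of_nonneg_left t2 ho.le
  have s3 := mul_le_mul_of_nonneg_left t3 ho.le
  have s4 := mul_le_mul_of_nonneg_left t4 ho.le
  have s5 : 0 ≤ (8 * (K + 1) + CF * (K + 1) + CR * K) * (o * e1 ^ 2) := by positivity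
  linarith

/-- the last terms, `y ≤ 0` -/
theorem Fmc_neg {CF K Q E o e e1 F y T1 T2 : ℝ} (hCF : 0 < CF) (hK : 0 < K)
    (hQ : 0 < Q) (hEν : 2 * CF * E ≤ 1) (ho : 0 < o)
    (hF : |F| ≤ CF * (Q + E) * e ^ 2) (hy : y ≤ 0) (hT1 : 0 ≤ T1) (hT1' : T1 ≤ o)
    (hT2 : 0 ≤ T2) (hT2' : T2 ≤ o) (hyQ : |y| * Q ≤ K) :
    1 / 2 * (y * T1 * (e1 ^ 2 + e ^ 2 - 2 * F)) + 3 / 8 * (y * T2 * (e1 ^ 2 + e ^ 2 - 2 * F)) ≤
      2 * CF * K * (o * (e ^ 2 + e1 ^ 2)) := by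
  have he : 0 ≤ e ^ 2 := sq_nonneg e
  have he1 : 0 ≤ e1 ^ 2 := sq_nonneg e1
  rw [abs_of_nonpos hy] at hyQ
  have h4 : 2 * F ≤ 2 * CF * Q * e ^ 2 + e ^ 2 := by
    have h5 := (le_abs_self F).trans hF
    have h7 := mul_le_mul_of_nonneg_right hEν he
    linarith
  have h5 : y * (e1 ^ 2 + e ^ 2 - 2 * F) ≤ 2 * CF * K * e ^ 2 := by
    calc y * (e1 ^ 2 + e ^ 2 - 2 * F) = (-y) * (2 * F - e ^ 2 - e1 ^ 2) := by ring
      _ ≤ (-y) * (2 * CF * Q * e ^ 2) := by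
        refine mul_le_mul_of_nonneg_left ?_ (by linarith)
        linarith
      _ = 2 * CF * (-y * Q) * e ^ 2 := by ring
      _ ≤ 2 * CF * K * e ^ 2 := by gcongr
  have h6 : 0 ≤ 2 * CF * K * e ^ 2 := by positivity
  have g1 : T1 * (y * (e1 ^ 2 + e ^ 2 - 2 * F)) ≤ o * (2 * CF * K * e ^ 2) :=
    (mul_le_mul_of_nonneg_left h5 hT1).trans (mul_le_mul_of_nonneg_right hT1' h6)
  have g2 : T2 * (y * (e1 ^ 2 + e ^ 2 - 2 * F)) ≤ o * (2 * CF * K * e ^ 2) :=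
    (mul_le_mul_of_nonneg_left h5 hT2).trans (mul_le_mul_of_nonneg_right hT2' h6)
  have g3 : 0 ≤ o * (2 * CF * K * e ^ 2) := by positivity
  have g4 : 0 ≤ 2 * CF * K * (o * e1 ^ 2) := by positivity
  linarith

/-- the last terms, `0 ≤ y` -/
theorem Fmc_pos {CF K Q E o b e e1 F y T1 T2 : ℝ} (hCF : 0 < CF) (hK : 0 < K)
    (hQK : Q ≤ K) (hE1 : E ≤ 1) (ho : 0 < o) (hb : 0 ≤ b)
    (hF : |F| ≤ CF * (Q + E) * e ^ 2) (hT1 : |y * T1| ≤ o)
    (hT2 : |y * T2| ≤ 2 * o + 6 * b) :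
    1 / 2 * (y * T1 * (e1 ^ 2 + e ^ 2 - 2 * F)) + 3 / 8 * (y * T2 * (e1 ^ 2 + e ^ 2 - 2 * F)) ≤
      3 * (1 + 2 * CF * (K + 1)) * ((o + b) * (e ^ 2 + e1 ^ 2)) := by
  have he : 0 ≤ e ^ 2 := sq_nonneg e
  have he1 : 0 ≤ e1 ^ 2 := sq_nonneg e1
  have hX : |e1 ^ 2 + e ^ 2 - 2 * F| ≤ (1 + 2 * CF * (K + 1)) * (e ^ 2 + e1 ^ 2) := by
    have h4 : |F| ≤ CF * (K + 1) * e ^ 2 := by
      refine hF.trans ?_
      gcongr
    have h5 : 0 ≤ 2 * CF * (K + 1) * e1 ^ 2 := by positivity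
    have h7 := abs_le.1 h4
    rw [abs_le]
    constructor
    · have : 0 ≤ CF * (K + 1) * e ^ 2 := by positivity
      linarith [h7.2]
    · linarith [h7.1]
  set C2 : ℝ := 1 + 2 * CF * (K + 1) with hC2
  have hC2p : 0 < C2 := by positivity
  have g1 : y * T1 * (e1 ^ 2 + e ^ 2 - 2 * F) ≤ o * (C2 * (e ^ 2 + e1 ^ 2)) := by
    refine (le_abs_self _).trans ?_
    rw [abs_mul]
    exact mul_le_mul hT1 hX (abs_nonneg _) ho.le
  have g2 : y * T2 * (e1 ^ 2 + e ^ 2 - 2 * F) ≤ (2 * o + 6 * b) * (C2 * (e ^ 2 + e1 ^ 2)) := by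
    refine (le_abs_self _).trans ?_
    rw [abs_mul]
    exact mul_le_mul hT2 hX (abs_nonneg _) (by positivity)
  have g3 : 0 ≤ o * (C2 * (e ^ 2 + e1 ^ 2)) := by positivity
  have g4 : 0 ≤ b * (C2 * (e ^ 2 + e1 ^ 2)) := by positivity
  linarith

/-- bounds of the weights -/
theorem Fmc_w {B s : ℝ} (h : Slow4 B s) (y : ℝ) :
    (y ≤ 0 → 0 ≤ deriv (Th B) y * Zf (s * y) ∧ deriv (Th B) y * Zf (s * y) ≤ om4 B s y ∧
      0 ≤ s * (Th B y * deriv Zf (s * y)) ∧ s * (Th B y * deriv Zf (s * y)) ≤ om4 B s y) ∧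
    (0 ≤ y → |y * (deriv (Th B) y * Zf (s * y))| ≤ om4 B s y ∧
      |y * (s * (Th B y * deriv Zf (s * y)))| ≤ 2 * om4 B s y + 6 * bi s y) := by
  obtain ⟨hB, hs, hsB⟩ := h
  have hB0 : 0 < B := by linarith
  have hs1 : 2 * s ≤ 1 := by nlinarith
  have hT0 := Th_pos B y
  have hT1 := Th_lt_one B y
  have hZ0 := Zf_pos (s * y)
  obtain ⟨hT'0, hT'1⟩ := Fmc_T0 hB y
  have hZ' := Fmc_Z (s * y)
  have hbi := bi_nonneg s y
  refine ⟨fun hy => ?_, fun hy => ?_⟩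
  · have hsy : s * y ≤ 0 := mul_nonpos_of_nonneg_of_nonpos hs.le hy
    have hZ'0 := Fmc_Z0 hsy
    refine ⟨by positivity, ?_, by positivity, ?_⟩
    · unfold om4
      gcongr
    · unfold om4
      have h1 : deriv Zf (s * y) ≤ 2 * Zf (s * y) := (le_abs_self _).trans hZ'
      calc s * (Th B y * deriv Zf (s * y)) ≤ s * (Th B y * (2 * Zf (s * y))) := by gcongr
        _ = (2 * s) * (Th B y * Zf (s * y)) := by ring
        _ ≤ 1 * (Th B y * Zf (s * y)) := by gcongr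
        _ = Th B y * Zf (s * y) := one_mul _
  · constructor
    · rw [abs_of_nonneg (by positivity)]
      unfold om4
      have h1 := Fmc_yT hB hy
      calc y * (deriv (Th B) y * Zf (s * y)) = (y * deriv (Th B) y) * Zf (s * y) := by ring
        _ ≤ Th B y * Zf (s * y) := by gcongr
    · by_cases hy1 : y ≤ 1 / s
      · have hsy : s * y ≤ 1 := by
          rw [le_div_iff₀ hs] at hy1
          linarith
        have hsy0 : 0 ≤ s * y := by positivity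
        have h1 : |y * (s * (Th B y * deriv Zf (s * y)))| =
            (s * y) * (Th B y * |deriv Zf (s * y)|) := by
          rw [abs_mul, abs_mul, abs_mul, abs_of_nonneg hy, abs_of_pos hs, abs_of_pos hT0]
          ring
        rw [h1]
        have h2 : (s * y) * (Th B y * |deriv Zf (s * y)|) ≤ 1 * (Th B y * (2 * Zf (s * y))) := by
          gcongr
        unfold om4
        linarith
      · push Not at hy1
        have hZb := Z_le_bi (B := B) ⟨hB, hs, hsB⟩ hy1.le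
        have h1 : |y * (s * (Th B y * deriv Zf (s * y)))| =
            Th B y * |y * (s * deriv Zf (s * y))| := by
          rw [abs_mul, abs_mul, abs_mul, abs_mul, abs_mul, abs_of_pos hT0]
          ring
        rw [h1]
        have h2 : Th B y * |y * (s * deriv Zf (s * y))| ≤ 1 * (6 * bi s y) := by
          refine mul_le_mul hT1.le hZb.2 (abs_nonneg _) zero_le_one
        have h3 := om4_pos B s y
        linarith

theorem Fmc_pt {CF CR K B s w : ℝ} (hCF : 0 < CF) (hCR : 0 < CR) (hK : 0 < K)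
    (h : Slow4 B s) (hw : 0 ≤ w) (y : ℝ)
    (hKy : Qf 4 y ^ 4 ≤ K ∧ |y| * |deriv (Qf 4) y| ≤ K ∧ |y| * Qf 4 y ^ 4 ≤ K)
    {e e1 e2 D F r : ℝ} (he1 : |e| ^ 4 ≤ 1) (heν : 2 * CF * |e| ^ 4 ≤ 1)
    (hD : |D| ≤ 16 * (Qf 4 y ^ 4 + |e| ^ 4) * |e|)
    (hF : |F| ≤ CF * (Qf 4 y ^ 4 + |e| ^ 4) * e ^ 2) (hr : |r| ≤ CR * e ^ 2) :
    w * (-(om4 B s y * e1 ^ 2) + 1 / 2 * (om4 B s y * (D * e)) - om4 B s y * F
      - om4 B s y * (y * (r * deriv (Qf 4) y))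
      + 1 / 2 * (y * deriv (om4 B s) y * (e1 ^ 2 + e ^ 2 - 2 * F)))
      - 1 / 8 * w * s * (y * Th B y * deriv Zf (s * y) * (e1 ^ 2 + e ^ 2 - 2 * F)) ≤
    (8 * (K + 1) + CF * (K + 1) + CR * K + 2 * CF * K + 3 * (1 + 2 * CF * (K + 1))) * (w / s) *
      (ta B s y * (e ^ 2 + e1 ^ 2 + e2 ^ 2) + s * (bi s y * (e ^ 2 + e1 ^ 2 + e2 ^ 2))) := by
  obtain ⟨hQK, hyQ, hyQ4⟩ := hKy
  have hs : 0 < s := h.2.1
  have hQp : 0 < Qf 4 y ^ 4 := pow_pos (Qf_pos 4 y) 4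
  have hE0 : 0 ≤ |e| ^ 4 := by positivity
  have ho := om4_pos B s y
  have hbi := bi_nonneg s y
  have hA := Fmc_A (e1 := e1) hCR hK hQp hQK hyQ hE0 he1 ho hD hF hCF hr
  obtain ⟨hw1, hw2⟩ := Fmc_w h y
  set T1 := deriv (Th B) y * Zf (s * y) with hT1
  set T2 := s * (Th B y * deriv Zf (s * y)) with hT2
  have heq : w * (-(om4 B s y * e1 ^ 2) + 1 / 2 * (om4 B s y * (D * e)) - om4 B s y * F
      - om4 B s y * (y * (r * deriv (Qf 4) y))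
      + 1 / 2 * (y * deriv (om4 B s) y * (e1 ^ 2 + e ^ 2 - 2 * F)))
      - 1 / 8 * w * s * (y * Th B y * deriv Zf (s * y) * (e1 ^ 2 + e ^ 2 - 2 * F)) =
      w * ((-(om4 B s y * e1 ^ 2) + 1 / 2 * (om4 B s y * (D * e)) - om4 B s y * F
      - om4 B s y * (y * (r * deriv (Qf 4) y))) + (1 / 2 * (y * T1 * (e1 ^ 2 + e ^ 2 - 2 * F))
        + 3 / 8 * (y * T2 * (e1 ^ 2 + e ^ 2 - 2 * F)))) := by
    rw [om41_eq h y, ← hT1, hT2]
    ring
  rw [heq]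
  have he : 0 ≤ e ^ 2 := sq_nonneg e
  have hee1 : 0 ≤ e1 ^ 2 := sq_nonneg e1
  have hee2 : 0 ≤ e2 ^ 2 := sq_nonneg e2
  have hC2 : 0 < 3 * (1 + 2 * CF * (K + 1)) := by positivity
  have hCFK : 0 < 2 * CF * K := by positivity
  have hC1 : 0 < 8 * (K + 1) + CF * (K + 1) + CR * K := by positivity
  have hE : 0 ≤ om4 B s y * (e ^ 2 + e1 ^ 2) := by positivity
  have hE' : 0 ≤ bi s y * (e ^ 2 + e1 ^ 2) := by positivity
  have hB' : 1 / 2 * (y * T1 * (e1 ^ 2 + e ^ 2 - 2 * F))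
        + 3 / 8 * (y * T2 * (e1 ^ 2 + e ^ 2 - 2 * F)) ≤
      (2 * CF * K + 3 * (1 + 2 * CF * (K + 1))) * ((om4 B s y + bi s y) * (e ^ 2 + e1 ^ 2)) := by
    rcases le_total y 0 with hy | hy
    · obtain ⟨a1, a2, a3, a4⟩ := hw1 hy
      have := Fmc_neg (e1 := e1) hCF hK hQp heν ho hF hy a1 a2 a3 a4 hyQ4
      have q1 : 0 ≤ (2 * CF * K) * (bi s y * (e ^ 2 + e1 ^ 2)) := by positivity
      have q2 : 0 ≤ 3 * (1 + 2 * CF * (K + 1)) * ((om4 B s y + bi s y) * (e ^ 2 + e1 ^ 2)) := by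
        positivity
      linarith
    · obtain ⟨a1, a2⟩ := hw2 hy
      have := Fmc_pos (e1 := e1) hCF hK hQK he1 ho hbi hF a1 a2
      have q1 : 0 ≤ (2 * CF * K) * ((om4 B s y + bi s y) * (e ^ 2 + e1 ^ 2)) := by positivity
      linarith
  have q3 : 0 ≤ (8 * (K + 1) + CF * (K + 1) + CR * K) * (bi s y * (e ^ 2 + e1 ^ 2)) := by
    positivity
  set CC : ℝ := 8 * (K + 1) + CF * (K + 1) + CR * K + 2 * CF * K
    + 3 * (1 + 2 * CF * (K + 1)) with hCC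
  have hCCp : 0 < CC := by positivity
  have hsum : (-(om4 B s y * e1 ^ 2) + 1 / 2 * (om4 B s y * (D * e)) - om4 B s y * F
      - om4 B s y * (y * (r * deriv (Qf 4) y))) + (1 / 2 * (y * T1 * (e1 ^ 2 + e ^ 2 - 2 * F))
        + 3 / 8 * (y * T2 * (e1 ^ 2 + e ^ 2 - 2 * F))) ≤
      CC * ((om4 B s y + bi s y) * (e ^ 2 + e1 ^ 2)) := by
    have e5 : CC * ((om4 B s y + bi s y) * (e ^ 2 + e1 ^ 2)) =
      (8 * (K + 1) + CF * (K + 1) + CR * K) * (om4 B s y * (e ^ 2 + e1 ^ 2)) +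
      (8 * (K + 1) + CF * (K + 1) + CR * K) * (bi s y * (e ^ 2 + e1 ^ 2)) +
      (2 * CF * K + 3 * (1 + 2 * CF * (K + 1))) *
        ((om4 B s y + bi s y) * (e ^ 2 + e1 ^ 2)) := by
      rw [hCC]
      ring
    rw [e5]
    linarith
  refine (mul_le_mul_of_nonneg_left hsum hw).trans ?_
  have hta := ta_ge h y
  have h9 : om4 B s y + bi s y ≤ 1 / s * (ta B s y + s * bi s y) := by
    rw [one_div, inv_mul_eq_div, le_div_iff₀ hs]
    linarith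
  have hta0 := ta_pos h y
  calc w * (CC * ((om4 B s y + bi s y) * (e ^ 2 + e1 ^ 2)))
      ≤ w * (CC * ((1 / s * (ta B s y + s * bi s y)) * (e ^ 2 + e1 ^ 2 + e2 ^ 2))) := by
        have : e ^ 2 + e1 ^ 2 ≤ e ^ 2 + e1 ^ 2 + e2 ^ 2 := by linarith
        gcongr
    _ = _ := by ring

theorem Fmc_six {f1 f2 f3 f4 f5 f6 : ℝ → ℝ} (i1 : Integrable f1) (i2 : Integrable f2)
    (i3 : Integrable f3) (i4 : Integrable f4) (i5 : Integrable f5) (i6 : Integrable f6)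
    (w c2 c5 c6 : ℝ) :
    ∫ y, (w * (-(f1 y) + c2 * f2 y - f3 y - f4 y + c5 * f5 y) - c6 * f6 y) =
      w * (-(∫ y, f1 y) + c2 * (∫ y, f2 y) - (∫ y, f3 y) - (∫ y, f4 y) + c5 * (∫ y, f5 y))
        - c6 * (∫ y, f6 y) := by
  have a1 : Integrable (fun y => -(f1 y)) := i1.neg
  have a2 : Integrable (fun y => c2 * f2 y) := i2.const_mul c2
  have a5 : Integrable (fun y => c5 * f5 y) := i5.const_mul c5
  have a6 : Integrable (fun y => c6 * f6 y) := i6.const_mul c6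
  have b2 : Integrable (fun y => -(f1 y) + c2 * f2 y) := a1.add a2
  have b3 : Integrable (fun y => -(f1 y) + c2 * f2 y - f3 y) := b2.sub i3
  have b4 : Integrable (fun y => -(f1 y) + c2 * f2 y - f3 y - f4 y) := b3.sub i4
  have b5 : Integrable (fun y => -(f1 y) + c2 * f2 y - f3 y - f4 y + c5 * f5 y) := b4.add a5
  have b6 : Integrable (fun y => w * (-(f1 y) + c2 * f2 y - f3 y - f4 y + c5 * f5 y)) :=
    b5.const_mul w
  rw [integral_sub b6 a6, integral_const_mul, integral_add b4 a5, integral_sub b3 i4,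
    integral_sub b2 i3, integral_add a1 a2, integral_neg, integral_const_mul, integral_const_mul,
    integral_const_mul]

theorem FT4 : ∃ ν C : ℝ, 0 < ν ∧ ν ≤ 1 ∧ 0 < C ∧
    ∀ B s : ℝ, Slow4 B s → ∀ ε : ℝ → ℝ, Cl 0 0 ε → (∀ y, |ε y| ≤ ν) → ∀ w : ℝ, 0 ≤ w →
    -w * EE4 B s ε (Lam 4 ε) - 1 / 8 * w * s * (∫ y, y * Th B y * deriv Zf (s * y) *
      ((deriv ε y) ^ 2 + (ε y) ^ 2 - 2 * bF 4 ε y)) ≤ C * (w / s) * (T4 B s ε + Bad s ε) := by
  obtain ⟨CF, hCF, hbF⟩ := bF_le 4 (by norm_num)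
  obtain ⟨CR, hCR, hR'⟩ := R_le 4 (by norm_num)
  obtain ⟨K, hK, hKK⟩ := Fmc_c
  refine ⟨min 1 (1 / (2 * CF)),
    8 * (K + 1) + CF * (K + 1) + CR * K + 2 * CF * K + 3 * (1 + 2 * CF * (K + 1)),
    by positivity, min_le_left _ _, by positivity, ?_⟩
  intro B s h ε hε hεν w hw
  obtain ⟨hB, hs, hsB⟩ := id h
  have hB0 : 0 < B := by linarith
  have hB1 : 0 < 1 / B := by positivity
  have hcl' := Cl_der hε
  have hcl'' := Cl_der hcl'
  have hom := Cl_om4 h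
  have hom' := Cl_der hom
  have e2 := Cl_pow0 hε 2
  have e12 := Cl_pow0 hcl' 2
  have e22 := Cl_pow0 hcl'' 2
  have hDf := Cl_Df (k := 4) (by norm_num) le_rfl le_rfl hε
  have hRf := Cl_Rf (k := 4) (by norm_num) le_rfl le_rfl hε
  have hbFc : Cl 0 0 (bF 4 ε) := by
    have := Cl_bF (k := 4) (by norm_num) le_rfl le_rfl zero_le_one zero_le_one hε
    simpa only [mul_zero] using this
  have hX : Cl 0 0 (fun y => (deriv ε y) ^ 2 + (ε y) ^ 2 - 2 * bF 4 ε y) :=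
    Cl_sub (Cl_add e12 e2) (Cl_smul 2 hbFc)
  have hdZ : Cl (2 * s) (2 * s) (fun y => deriv Zf (s * y)) := by
    have h1 := Cl_smul (1 / s) (Cl_der (Cl_Zs hs))
    have e3 : (fun y => 1 / s * deriv (fun y => Zf (s * y)) y) = fun y => deriv Zf (s * y) := by
      funext y
      have h2 : HasDerivAt (fun y => Zf (s * y))
          ((-2 * Real.tanh (s * y - 2) * Zf (s * y)) * (s * 1)) y :=
        HasDerivAt.comp y (Zf_hd (s * y)) ((hasDerivAt_id y).const_mul s)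
      rw [h2.deriv, (Zf_hd (s * y)).deriv]
      field_simp
    rwa [e3] at h1
  have i1 : Integrable (fun y => om4 B s y * (deriv ε y) ^ 2) :=
    Cl_int (Cl_mul hom e12) (by linarith) (by linarith)
  have i2 : Integrable (fun y => om4 B s y * (Df 4 ε y * ε y)) :=
    Cl_int (Cl_mul hom (Cl_mul hDf hε)) (by linarith) (by linarith)
  have i3 : Integrable (fun y => om4 B s y * bF 4 ε y) :=
    Cl_int (Cl_mul hom hbFc) (by linarith) (by linarith)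
  have i4 : Integrable (fun y => om4 B s y * (y * (Rf 4 ε y * deriv (Qf 4) y))) :=
    Cl_int (Cl_mul hom (Cl_mul (Cl_id (c := 1 / 2) (by norm_num))
      (Cl_mul hRf (Cl_der (Cl_Qf (k := 4) (by norm_num)))))) (by linarith) (by linarith)
  have i5 : Integrable (fun y => y * deriv (om4 B s) y *
      ((deriv ε y) ^ 2 + (ε y) ^ 2 - 2 * bF 4 ε y)) :=
    Cl_int (Cl_mul (Cl_mul (Cl_id hs) hom') hX) (by linarith) (by linarith)
  have i6 : Integrable (fun y => y * Th B y * deriv Zf (s * y) *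
      ((deriv ε y) ^ 2 + (ε y) ^ 2 - 2 * bF 4 ε y)) :=
    Cl_int (Cl_mul (Cl_mul (Cl_mul (Cl_id hs) (Cl_Th hB0)) hdZ) hX) (by linarith) (by linarith)
  have hEE : Cl 0 0 (fun y => (ε y) ^ 2 + (deriv ε y) ^ 2 + (deriv (deriv ε) y) ^ 2) :=
    Cl_add (Cl_add e2 e12) e22
  have j1 : Integrable (fun y => ta B s y *
      ((ε y) ^ 2 + (deriv ε y) ^ 2 + (deriv (deriv ε) y) ^ 2)) :=
    Cl_int (Cl_mul (Cl_ta h) hEE) (by linarith) (by linarith)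
  have j2 : Integrable (fun y => bi s y *
      ((ε y) ^ 2 + (deriv ε y) ^ 2 + (deriv (deriv ε) y) ^ 2)) := bi_int hs hEE
  have hmain := EE4_Lam h hε
  have hL : -w * EE4 B s ε (Lam 4 ε) - 1 / 8 * w * s * (∫ y, y * Th B y * deriv Zf (s * y) *
      ((deriv ε y) ^ 2 + (ε y) ^ 2 - 2 * bF 4 ε y)) =
      ∫ y, (w * (-(om4 B s y * (deriv ε y) ^ 2) + 1 / 2 * (om4 B s y * (Df 4 ε y * ε y))
        - om4 B s y * bF 4 ε y - om4 B s y * (y * (Rf 4 ε y * deriv (Qf 4) y))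
        + 1 / 2 * (y * deriv (om4 B s) y * ((deriv ε y) ^ 2 + (ε y) ^ 2 - 2 * bF 4 ε y)))
        - 1 / 8 * w * s * (y * Th B y * deriv Zf (s * y) *
          ((deriv ε y) ^ 2 + (ε y) ^ 2 - 2 * bF 4 ε y))) := by
    rw [Fmc_six i1 i2 i3 i4 i5 i6 w (1 / 2) (1 / 2) (1 / 8 * w * s)]
    rw [hmain]
    ring
  have hRt : (8 * (K + 1) + CF * (K + 1) + CR * K + 2 * CF * K + 3 * (1 + 2 * CF * (K + 1))) *
      (w / s) * (T4 B s ε + Bad s ε) =
      ∫ y, (8 * (K + 1) + CF * (K + 1) + CR * K + 2 * CF * K + 3 * (1 + 2 * CF * (K + 1))) *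
      (w / s) * (ta B s y * ((ε y) ^ 2 + (deriv ε y) ^ 2 + (deriv (deriv ε) y) ^ 2)
        + s * (bi s y * ((ε y) ^ 2 + (deriv ε y) ^ 2 + (deriv (deriv ε) y) ^ 2))) := by
    rw [integral_const_mul, integral_add j1 (j2.const_mul s), integral_const_mul, Bad_eq, T4_eq]
  rw [hL, hRt]
  refine integral_mono ?_ ?_ fun y => ?_
  · exact (((((i1.neg.add (i2.const_mul (1 / 2))).sub i3).sub i4).add
      (i5.const_mul (1 / 2))).const_mul w).sub (i6.const_mul (1 / 8 * w * s))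
  · exact (j1.add (j2.const_mul s)).const_mul _
  · have hν := hεν y
    have hν1 : |ε y| ≤ 1 := hν.trans (min_le_left _ _)
    have hν2 : |ε y| ≤ 1 / (2 * CF) := hν.trans (min_le_right _ _)
    have h4 : |ε y| ^ 4 ≤ |ε y| := by
      calc |ε y| ^ 4 ≤ |ε y| ^ 1 := pow_le_pow_of_le_one (abs_nonneg _) hν1 (by norm_num)
        _ = |ε y| := pow_one _
    have h5 : 2 * CF * |ε y| ^ 4 ≤ 1 := by
      calc 2 * CF * |ε y| ^ 4 ≤ 2 * CF * (1 / (2 * CF)) := by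
            gcongr
            exact h4.trans hν2
        _ = 1 := by field_simp
    have hD := D_le 4 ε y
    norm_num at hD
    exact Fmc_pt hCF hCR hK h hw y (hKK y) (h4.trans hν1) h5 hD (hbF ε y) (hR' ε y hν1)

end H98KC

end
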