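import Pool.Agent.H98.KC.Wzb
import Pool.Agent.H98.KC.Ida

/-!
# Fmd (MP_95be7d_S4): forcing terms in the energy (variant of `KB/Eme.lean`; uses `EE4_g`, `Wza`, `Wzb`)

`EE4(S) = ∫om g S - ∫om'ε'S`, `|g| ≤ C(|ε|+|ε''|)` (`D_le`, `Q` bounded, `|ε| ≤ 1`), so `∫ta g² ≤ C T4`; `|om'| ≤ 2ta`.
* `FT8`: `τ₀`-part: `om ≤ ta/s`: `∫om|g|(|ε|+|ε'|+|ε''|) ≤ (C/s)T4`, `∫ta|ε'|(...) ≤ C T4 ≤ (C/s) T4` (`s ≤ 1`).
  `τ₁`-part: Cauchy-Schwarz, `∫om|g|bd ≤ (∫ta g²)^{1/2}(∫om²bd²/ta)^{1/2}`, `om²bd²/ta ≤ 4B e^{-|y|/B}` (`rat_le`), `∫e^{-|y|/B} = 2B`;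
  `∫ta|ε'|bd ≤ (T4)^{1/2}(∫ta bd²)^{1/2}`, `ta_bd`.
  `τ₂`-part: `∫om|g| ≤ (∫ta g²)^{1/2}(∫om²/ta)^{1/2}`, `om²/ta ≤ om/s`, `∫om ≤ 2/s` (`int_om4`); `∫ta|ε'| ≤ (T4)^{1/2}(∫ta)^{1/2}`, `∫ta ≤ (2/B)∫om ≤ 2/s ≤ 2/s²`.
* `FT7`: `ζ = et'`: `∫om|g||et'| ≤ (∫ta g²)^{1/2}(∫(om²/ta)et'²)^{1/2}`, `om²/ta ≤ om/s ≤ 1/s`; `∫|om'||ε'||et'| ≤ 2T4^{1/2}(∫ta et'²)^{1/2}`, `ta ≤ 1 ≤ 1/s`.
  (`ne2 et = ∫(et²+et'²)`.)
-/

open MeasureTheory Filter Topology Set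
open scoped ContDiff

noncomputable section

namespace H98KC

open H98KB H68KC

/-- `ε² + ε'² + ε''²` -/
def Fmd_N (ε : ℝ → ℝ) (y : ℝ) : ℝ := (ε y) ^ 2 + (deriv ε y) ^ 2 + (deriv (deriv ε) y) ^ 2

theorem Fmd_N0 (ε : ℝ → ℝ) (y : ℝ) : 0 ≤ Fmd_N ε y := by
  unfold Fmd_N; positivity

theorem Fmd_a (ε : ℝ → ℝ) (y : ℝ) : |ε y| ≤ √(Fmd_N ε y) ∧ |deriv ε y| ≤ √(Fmd_N ε y) ∧
    |deriv (deriv ε) y| ≤ √(Fmd_N ε y) := by
  have h1 := sq_nonneg (ε y)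
  have h2 := sq_nonneg (deriv ε y)
  have h3 := sq_nonneg (deriv (deriv ε) y)
  refine ⟨Real.abs_le_sqrt ?_, Real.abs_le_sqrt ?_, Real.abs_le_sqrt ?_⟩ <;> unfold Fmd_N <;> linarith

theorem Fmd_g : ∃ K : ℝ, 0 < K ∧ ∀ (ε : ℝ → ℝ) (y : ℝ), |ε y| ≤ 1 →
    |gf 4 ε y| ≤ K * √(Fmd_N ε y) := by
  obtain ⟨M, hM, hQ, -⟩ := Nlb_max (k := 4) (by norm_num)
  refine ⟨2 + 2 ^ 4 * (M ^ 4 + 1), by positivity, fun ε y h1 => ?_⟩
  obtain ⟨a1, -, a3⟩ := Fmd_a ε y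
  have hD := D_le 4 ε y
  have hQk : Qf 4 y ^ 4 ≤ M ^ 4 := pow_le_pow_left₀ (Qf_pos 4 y).le (hQ y) 4
  have hek : |ε y| ^ 4 ≤ 1 := pow_le_one₀ (abs_nonneg _) h1
  have hD2 : |Df 4 ε y| ≤ 2 ^ 4 * (M ^ 4 + 1) * |ε y| := by
    refine hD.trans ?_
    apply mul_le_mul_of_nonneg_right _ (abs_nonneg _)
    apply mul_le_mul_of_nonneg_left _ (by positivity)
    linarith
  have e1 : |gf 4 ε y| ≤ |deriv (deriv ε) y| + |ε y| + |Df 4 ε y| := by
    unfold gf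
    have b1 := abs_sub (-deriv (deriv ε) y + ε y) (Df 4 ε y)
    have b2 := abs_add_le (-deriv (deriv ε) y) (ε y)
    rw [abs_neg] at b2
    linarith
  have e2 : 2 ^ 4 * (M ^ 4 + 1) * |ε y| ≤ 2 ^ 4 * (M ^ 4 + 1) * √(Fmd_N ε y) :=
    mul_le_mul_of_nonneg_left a1 (by positivity)
  calc |gf 4 ε y| ≤ √(Fmd_N ε y) + √(Fmd_N ε y) + 2 ^ 4 * (M ^ 4 + 1) * √(Fmd_N ε y) := by linarith
    _ = (2 + 2 ^ 4 * (M ^ 4 + 1)) * √(Fmd_N ε y) := by ring

theorem Fmd_cs {F φ W V : ℝ → ℝ} (hF : Continuous F) (hφ : Continuous φ) (hW : Continuous W)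
    (hWp : ∀ y, 0 < W y) (hF2 : Integrable (fun y => W y * F y ^ 2))
    (hV : Integrable V) (hVφ : ∀ y, φ y ^ 2 ≤ V y * W y) :
    Integrable (fun y => F y * φ y) ∧
      ∫ y, F y * φ y ≤ √(∫ y, V y) * √(∫ y, W y * F y ^ 2) := by
  have hc : Continuous fun y => φ y ^ 2 / W y := (hφ.pow 2).div₀ hW fun y => (hWp y).ne'
  have hle : ∀ y, φ y ^ 2 / W y ≤ V y := fun y => by
    rw [div_le_iff₀ (hWp y)]
    exact hVφ y
  have hi : Integrable (fun y => φ y ^ 2 / W y) := by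
    refine hV.mono' hc.aestronglyMeasurable (ae_of_all _ fun y => ?_)
    rw [Real.norm_eq_abs, abs_of_nonneg (div_nonneg (sq_nonneg _) (hWp y).le)]
    exact hle y
  obtain ⟨h1, h2⟩ := cs_wt hF hφ hW hWp hF2 hi
  refine ⟨h1, (le_abs_self _).trans (h2.trans ?_)⟩
  exact mul_le_mul_of_nonneg_right (Real.sqrt_le_sqrt (integral_mono hi hV hle)) (Real.sqrt_nonneg _)

theorem Fmd_Nc {ε : ℝ → ℝ} (hε : Cl 0 0 ε) : Cl 0 0 (Fmd_N ε) :=
  Cl_add (Cl_add (Cl_pow0 hε 2) (Cl_pow0 (Cl_der hε) 2)) (Cl_pow0 (Cl_der (Cl_der hε)) 2)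

theorem Fmd_nc {ε : ℝ → ℝ} (hε : Cl 0 0 ε) : Continuous (fun y => √(Fmd_N ε y)) :=
  Real.continuous_sqrt.comp (Cl_cont (Fmd_Nc hε))

theorem Fmd_T {B s : ℝ} {ε : ℝ → ℝ} (h : Slow4 B s) (hε : Cl 0 0 ε) :
    Integrable (fun y => ta B s y * (√(Fmd_N ε y)) ^ 2) ∧
      ∫ y, ta B s y * (√(Fmd_N ε y)) ^ 2 = T4 B s ε := by
  have hs : 0 < s := h.2.1
  have hB : 0 < B := by linarith [h.1]
  have hb : 0 < 1 / B := by positivity
  have e : (fun y => ta B s y * (√(Fmd_N ε y)) ^ 2) = fun y => ta B s y * Fmd_N ε y := by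
    funext y
    rw [Real.sq_sqrt (Fmd_N0 ε y)]
  rw [e]
  exact ⟨Cl_int (Cl_mul (Cl_ta h) (Fmd_Nc hε)) (by linarith) (by linarith), rfl⟩

theorem Fmd_abs {B s K : ℝ} {ε ζ Z : ℝ → ℝ} (h : Slow4 B s) (hε : Cl 0 0 ε)
    (hζ : Cl (-(s / 2)) (-(s / 2)) ζ) (hK : ∀ y, |gf 4 ε y| ≤ K * √(Fmd_N ε y))
    (hK0 : 0 < K) (hZ : ∀ y, |ζ y| ≤ Z y)
    (hi : Integrable (fun y => √(Fmd_N ε y) * ((K * om4 B s y + 2 * ta B s y) * Z y))) :
    |EE4 B s ε ζ| ≤ ∫ y, √(Fmd_N ε y) * ((K * om4 B s y + 2 * ta B s y) * Z y) := by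
  have hs : 0 < s := h.2.1
  have hB : 0 < B := by linarith [h.1]
  have hb : 0 < 1 / B := by positivity
  have cg : Cl 0 0 (gf 4 ε) := Cl_gf (by norm_num) le_rfl le_rfl hε
  have i1 : Integrable (fun y => om4 B s y * (gf 4 ε y * ζ y)) :=
    Cl_int (Cl_mul (Cl_om4 h) (Cl_mul cg hζ)) (by linarith) (by linarith)
  have i2 : Integrable (fun y => deriv (om4 B s) y * (deriv ε y * ζ y)) :=
    Cl_int (Cl_mul (Cl_der (Cl_om4 h)) (Cl_mul (Cl_der hε) hζ)) (by linarith) (by linarith)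
  rw [EE4_g h hε hζ, ← integral_sub i1 i2, ← Real.norm_eq_abs]
  refine norm_integral_le_of_norm_le hi (ae_of_all _ fun y => ?_)
  rw [Real.norm_eq_abs]
  obtain ⟨-, a2, -⟩ := Fmd_a ε y
  have a4 := om4_pos B s y
  have a5 := ta_pos h y
  have a6 := om41_le h y
  have n0 := Real.sqrt_nonneg (Fmd_N ε y)
  have z0 := abs_nonneg (ζ y)
  have t1 : |om4 B s y * (gf 4 ε y * ζ y)| ≤ om4 B s y * (K * √(Fmd_N ε y) * |ζ y|) := by
    rw [abs_mul, abs_mul, abs_of_pos a4]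
    exact mul_le_mul_of_nonneg_left (mul_le_mul_of_nonneg_right (hK y) z0) a4.le
  have t2 : |deriv (om4 B s) y * (deriv ε y * ζ y)| ≤ 2 * ta B s y * (√(Fmd_N ε y) * |ζ y|) := by
    rw [abs_mul, abs_mul]
    exact mul_le_mul a6 (mul_le_mul_of_nonneg_right a2 z0) (by positivity) (by positivity)
  have t3 := abs_sub (om4 B s y * (gf 4 ε y * ζ y)) (deriv (om4 B s) y * (deriv ε y * ζ y))
  have t4 : √(Fmd_N ε y) * ((K * om4 B s y + 2 * ta B s y) * |ζ y|) ≤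
      √(Fmd_N ε y) * ((K * om4 B s y + 2 * ta B s y) * Z y) :=
    mul_le_mul_of_nonneg_left (mul_le_mul_of_nonneg_left (hZ y) (by positivity)) n0
  refine t3.trans ((add_le_add t1 t2).trans (le_trans (le_of_eq ?_) t4))
  ring

theorem Fmd_sq {B s K : ℝ} (h : Slow4 B s) (y : ℝ) : (K * om4 B s y + 2 * ta B s y) ^ 2 ≤
    2 * K ^ 2 * (om4 B s y) ^ 2 + 8 * (ta B s y) ^ 2 := by
  nlinarith [sq_nonneg (K * om4 B s y - 2 * ta B s y)]

theorem FT8 (B : ℝ) (hB : 16 ≤ B) : ∃ C : ℝ, 0 < C ∧ ∀ s : ℝ, Slow4 B s → ∀ ε S : ℝ → ℝ,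
    Cl 0 0 ε → Cl 0 0 S → (∀ y, |ε y| ≤ 1) → ∀ τ₀ τ₁ τ₂ : ℝ, 0 ≤ τ₀ → 0 ≤ τ₁ → 0 ≤ τ₂ →
    SB τ₀ τ₁ τ₂ ε S →
    |EE4 B s ε S| ≤ C * (τ₀ / s) * T4 B s ε + C * √(T4 B s ε) * (τ₁ + τ₂ / s) := by
  obtain ⟨K, hK, hg⟩ := Fmd_g
  have hB0 : 0 < B := by linarith
  obtain ⟨A1, hA1⟩ : ∃ A1 : ℝ, A1 = 3 * (K + 2) := ⟨_, rfl⟩
  obtain ⟨A2, hA2⟩ : ∃ A2 : ℝ, A2 = √(∫ y, (8 * K ^ 2 * B + 8) * Real.exp (-(|y| / B))) := ⟨_, rfl⟩
  obtain ⟨A3, hA3⟩ : ∃ A3 : ℝ, A3 = √(2 * (2 * K ^ 2 + 1)) := ⟨_, rfl⟩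
  have p1 : 0 < A1 := by rw [hA1]; positivity
  have p2 : 0 ≤ A2 := by rw [hA2]; exact Real.sqrt_nonneg _
  have p3 : 0 ≤ A3 := by rw [hA3]; exact Real.sqrt_nonneg _
  refine ⟨A1 + A2 + A3, by linarith, fun s h ε S hε hS h1 τ₀ τ₁ τ₂ h0 h1' h2 hb => ?_⟩
  have hs : 0 < s := h.2.1
  have hs1 : s ≤ 1 := by
    have := h.2.2
    nlinarith
  have hs1' : 1 ≤ 1 / s := by
    rw [le_div_iff₀ hs]; linarith
  have hbi : 0 < 1 / B := by positivity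
  have co := Cl_cont (Cl_om4 h)
  have ct := Cl_cont (Cl_ta h)
  have cn := Fmd_nc hε
  obtain ⟨iT, eT⟩ := Fmd_T h hε
  have hT0 : 0 ≤ T4 B s ε := by
    rw [← eT]
    exact integral_nonneg fun y => mul_nonneg (ta_pos h y).le (sq_nonneg _)
  -- pointwise bound of S
  have hZ : ∀ y, |S y| ≤ τ₀ * (3 * √(Fmd_N ε y)) + τ₁ * bd (1 / 2) 0 y + τ₂ := fun y => by
    obtain ⟨a1, a2, a3⟩ := Fmd_a ε y
    have a4 := hb y
    have a5 : τ₀ * (|ε y| + |deriv ε y| + |deriv (deriv ε) y|) ≤ τ₀ * (3 * √(Fmd_N ε y)) :=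
      mul_le_mul_of_nonneg_left (by linarith) h0
    linarith
  -- the three parts
  have j0 : Integrable (fun y => (K * om4 B s y + 2 * ta B s y) * Fmd_N ε y) := by
    have := Cl_mul (Cl_add (Cl_smul K (Cl_om4 h)) (Cl_smul 2 (Cl_ta h))) (Fmd_Nc hε)
    exact Cl_int this (by linarith) (by linarith)
  have jT : Integrable (fun y => ta B s y * Fmd_N ε y) :=
    Cl_int (Cl_mul (Cl_ta h) (Fmd_Nc hε)) (by linarith) (by linarith)
  have k0 : ∫ y, (K * om4 B s y + 2 * ta B s y) * Fmd_N ε y ≤ (K + 2) / s * T4 B s ε := by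
    have e : (K + 2) / s * T4 B s ε = ∫ y, (K + 2) / s * (ta B s y * Fmd_N ε y) := by
      rw [integral_const_mul]; rfl
    rw [e]
    refine integral_mono j0 (jT.const_mul _) fun y => ?_
    have a1 := ta_ge h y
    have a2 := (ta_pos h y).le
    have a3 : om4 B s y ≤ ta B s y / s := by
      rw [le_div_iff₀ hs]; linarith
    have a4 : ta B s y ≤ ta B s y / s := by
      rw [le_div_iff₀ hs]; (first | linarith only [a2, hs1] | nlinarith only [a2, hs1])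
    have a5 : K * om4 B s y + 2 * ta B s y ≤ (K + 2) / s * ta B s y := by
      have := mul_le_mul_of_nonneg_left a3 hK.le
      have e3 : (K + 2) / s * ta B s y = K * (ta B s y / s) + 2 * (ta B s y / s) := by ring
      rw [e3]
      linarith
    have := mul_le_mul_of_nonneg_right a5 (Fmd_N0 ε y)
    show (K * om4 B s y + 2 * ta B s y) * Fmd_N ε y ≤ (K + 2) / s * (ta B s y * Fmd_N ε y)
    linarith
  have iE : Integrable (fun y : ℝ => (8 * K ^ 2 * B + 8) * Real.exp (-(|y| / B))) := by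
    have := (bd_int hbi hbi).const_mul (8 * K ^ 2 * B + 8)
    refine this.congr (ae_of_all _ fun y => ?_)
    show (8 * K ^ 2 * B + 8) * bd (1 / B) (1 / B) y = (8 * K ^ 2 * B + 8) * Real.exp (-(|y| / B))
    rw [bd_abs]
    congr 3
    ring
  obtain ⟨j1, k1⟩ := Fmd_cs (F := fun y => √(Fmd_N ε y))
    (φ := fun y => (K * om4 B s y + 2 * ta B s y) * bd (1 / 2) 0 y) (W := ta B s)
    (V := fun y => (8 * K ^ 2 * B + 8) * Real.exp (-(|y| / B))) cn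
    (((continuous_const.mul co).add (continuous_const.mul ct)).mul (bd_cont _ _)) ct (ta_pos h) iT iE
    (fun y => by
      have a1 := rat_le h y
      have a2 := ta_bd h y
      have a3 := (ta_pos h y).le
      have a4 := Fmd_sq (K := K) h y
      have a5 : 0 ≤ (bd (1 / 2) 0 y) ^ 2 := sq_nonneg _
      have a6 := mul_le_mul_of_nonneg_right a4 a5
      have a7 := mul_le_mul_of_nonneg_left a1 (by positivity : 0 ≤ 2 * K ^ 2)
      have a8 := mul_le_mul_of_nonneg_left a2 (by positivity : 0 ≤ 8 * ta B s y)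
      show ((K * om4 B s y + 2 * ta B s y) * bd (1 / 2) 0 y) ^ 2 ≤
        (8 * K ^ 2 * B + 8) * Real.exp (-(|y| / B)) * ta B s y
      calc ((K * om4 B s y + 2 * ta B s y) * bd (1 / 2) 0 y) ^ 2
          = (K * om4 B s y + 2 * ta B s y) ^ 2 * (bd (1 / 2) 0 y) ^ 2 := by ring
        _ ≤ (2 * K ^ 2 * (om4 B s y) ^ 2 + 8 * (ta B s y) ^ 2) * (bd (1 / 2) 0 y) ^ 2 := a6
        _ = 2 * K ^ 2 * ((om4 B s y) ^ 2 * (bd (1 / 2) 0 y) ^ 2) +
            8 * ta B s y * (ta B s y * (bd (1 / 2) 0 y) ^ 2) := by ring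
        _ ≤ 2 * K ^ 2 * (4 * B * Real.exp (-(|y| / B)) * ta B s y) +
            8 * ta B s y * Real.exp (-(|y| / B)) := add_le_add a7 a8
        _ = (8 * K ^ 2 * B + 8) * Real.exp (-(|y| / B)) * ta B s y := by ring)
  obtain ⟨iO, hO⟩ := int_om4 h
  obtain ⟨j2, k2⟩ := Fmd_cs (F := fun y => √(Fmd_N ε y))
    (φ := fun y => K * om4 B s y + 2 * ta B s y) (W := ta B s)
    (V := fun y => (2 * K ^ 2 + 1) / s * om4 B s y) cn
    ((continuous_const.mul co).add (continuous_const.mul ct)) ct (ta_pos h) iT (iO.const_mul _)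
    (fun y => by
      have a1 := ta_ge h y
      have a2 := (om4_pos B s y).le
      have a3 := (ta_pos h y).le
      have a4 := Fmd_sq (K := K) h y
      have a5 := ta_le h y
      have b1 : om4 B s y ≤ ta B s y / s := by
        rw [le_div_iff₀ hs]; linarith
      have b2 : (om4 B s y) ^ 2 ≤ om4 B s y * (ta B s y / s) := by
        rw [sq]; exact mul_le_mul_of_nonneg_left b1 a2
      have b3 : 8 * ta B s y ≤ 1 / s * om4 B s y := by
        have c1 : 8 * (2 / B) ≤ 1 := by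
          rw [← mul_div_assoc, div_le_one hB0]; linarith
        have c2 : 8 * ta B s y ≤ 8 * (2 / B) * om4 B s y := by linarith
        have c3 := mul_le_mul_of_nonneg_right (c1.trans hs1') a2
        linarith
      have b4 := mul_le_mul_of_nonneg_right b3 a3
      have b5 := mul_le_mul_of_nonneg_left b2 (by positivity : 0 ≤ 2 * K ^ 2)
      show (K * om4 B s y + 2 * ta B s y) ^ 2 ≤ (2 * K ^ 2 + 1) / s * om4 B s y * ta B s y
      calc (K * om4 B s y + 2 * ta B s y) ^ 2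
          ≤ 2 * K ^ 2 * (om4 B s y) ^ 2 + 8 * (ta B s y) ^ 2 := a4
        _ = 2 * K ^ 2 * (om4 B s y) ^ 2 + 8 * ta B s y * ta B s y := by ring
        _ ≤ 2 * K ^ 2 * (om4 B s y * (ta B s y / s)) + 1 / s * om4 B s y * ta B s y :=
            add_le_add b5 b4
        _ = (2 * K ^ 2 + 1) / s * om4 B s y * ta B s y := by ring)
  rw [eT, ← hA2] at k1
  have k2' : ∫ y, √(Fmd_N ε y) * (K * om4 B s y + 2 * ta B s y) ≤ A3 / s * √(T4 B s ε) := by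
    rw [eT] at k2
    refine k2.trans (mul_le_mul_of_nonneg_right ?_ (Real.sqrt_nonneg _))
    rw [integral_const_mul, hA3]
    have e1 : √(2 * (2 * K ^ 2 + 1)) / s = √(2 * (2 * K ^ 2 + 1) / s ^ 2) := by
      rw [Real.sqrt_div (by positivity), Real.sqrt_sq hs.le]
    rw [e1]
    refine Real.sqrt_le_sqrt ?_
    calc (2 * K ^ 2 + 1) / s * ∫ y, om4 B s y ≤ (2 * K ^ 2 + 1) / s * (2 / s) :=
          mul_le_mul_of_nonneg_left hO (by positivity)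
      _ = 2 * (2 * K ^ 2 + 1) / s ^ 2 := by
          field_simp
  have eZ : (fun y => √(Fmd_N ε y) * ((K * om4 B s y + 2 * ta B s y) *
      (τ₀ * (3 * √(Fmd_N ε y)) + τ₁ * bd (1 / 2) 0 y + τ₂))) = fun y =>
      3 * τ₀ * ((K * om4 B s y + 2 * ta B s y) * Fmd_N ε y) +
      τ₁ * (√(Fmd_N ε y) * ((K * om4 B s y + 2 * ta B s y) * bd (1 / 2) 0 y)) +
      τ₂ * (√(Fmd_N ε y) * (K * om4 B s y + 2 * ta B s y)) := by
    funext y
    have e := Real.mul_self_sqrt (Fmd_N0 ε y)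
    linear_combination 3 * τ₀ * (K * om4 B s y + 2 * ta B s y) * e
  have i3 := ((j0.const_mul (3 * τ₀)).add (j1.const_mul τ₁)).add (j2.const_mul τ₂)
  have hi : Integrable (fun y => √(Fmd_N ε y) * ((K * om4 B s y + 2 * ta B s y) *
      (τ₀ * (3 * √(Fmd_N ε y)) + τ₁ * bd (1 / 2) 0 y + τ₂))) := by
    rw [eZ]; exact i3
  have hSc : Cl (-(s / 2)) (-(s / 2)) S := Cl_mono hS (by linarith) (by linarith)
  have main := Fmd_abs (Z := fun y => τ₀ * (3 * √(Fmd_N ε y)) + τ₁ * bd (1 / 2) 0 y + τ₂)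
    h hε hSc (fun y => hg ε y (h1 y)) hK hZ hi
  have i4 : Integrable (fun y => 3 * τ₀ * ((K * om4 B s y + 2 * ta B s y) * Fmd_N ε y) +
      τ₁ * (√(Fmd_N ε y) * ((K * om4 B s y + 2 * ta B s y) * bd (1 / 2) 0 y))) :=
    (j0.const_mul (3 * τ₀)).add (j1.const_mul τ₁)
  rw [eZ, integral_add i4 (j2.const_mul τ₂), integral_add (j0.const_mul (3 * τ₀)) (j1.const_mul τ₁),
    integral_const_mul, integral_const_mul, integral_const_mul] at main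
  have sT := Real.sqrt_nonneg (T4 B s ε)
  have m0 := mul_le_mul_of_nonneg_left k0 (by positivity : 0 ≤ 3 * τ₀)
  have m1 := mul_le_mul_of_nonneg_left k1 h1'
  have m2 := mul_le_mul_of_nonneg_left k2' h2
  have f0 : 3 * τ₀ * ((K + 2) / s * T4 B s ε) = A1 * (τ₀ / s * T4 B s ε) := by
    rw [hA1]; ring
  have f1 : A1 * (τ₀ / s * T4 B s ε) ≤ (A1 + A2 + A3) * (τ₀ / s * T4 B s ε) :=
    mul_le_mul_of_nonneg_right (by linarith) (by positivity)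
  have f2 : A2 * (√(T4 B s ε) * τ₁) ≤ (A1 + A2 + A3) * (√(T4 B s ε) * τ₁) :=
    mul_le_mul_of_nonneg_right (by linarith) (by positivity)
  have f3 : A3 * (√(T4 B s ε) * (τ₂ / s)) ≤ (A1 + A2 + A3) * (√(T4 B s ε) * (τ₂ / s)) :=
    mul_le_mul_of_nonneg_right (by linarith) (by positivity)
  have g1 : τ₁ * (A2 * √(T4 B s ε)) = A2 * (√(T4 B s ε) * τ₁) := by ring
  have g2 : τ₂ * (A3 / s * √(T4 B s ε)) = A3 * (√(T4 B s ε) * (τ₂ / s)) := by ring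
  calc |EE4 B s ε S| ≤ _ := main
    _ ≤ 3 * τ₀ * ((K + 2) / s * T4 B s ε) + τ₁ * (A2 * √(T4 B s ε)) +
        τ₂ * (A3 / s * √(T4 B s ε)) := add_le_add (add_le_add m0 m1) m2
    _ ≤ (A1 + A2 + A3) * (τ₀ / s * T4 B s ε) + (A1 + A2 + A3) * (√(T4 B s ε) * τ₁) +
        (A1 + A2 + A3) * (√(T4 B s ε) * (τ₂ / s)) := by
        rw [f0, g1, g2]
        exact add_le_add (add_le_add f1 f2) f3
    _ = (A1 + A2 + A3) * (τ₀ / s) * T4 B s ε + (A1 + A2 + A3) * √(T4 B s ε) * (τ₁ + τ₂ / s) := by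
        ring

theorem FT7 : ∃ C : ℝ, 0 < C ∧ ∀ B s : ℝ, Slow4 B s → ∀ (p q : ℝ) (ε et : ℝ → ℝ),
    0 < p → 0 < q → Cl 0 0 ε → Cl p q et → (∀ y, |ε y| ≤ 1) →
    |EE4 B s ε (deriv et)| ≤ C * √(T4 B s ε) * √(ne2 et / s) := by
  obtain ⟨K, hK, hg⟩ := Fmd_g
  refine ⟨√(2 * K ^ 2 + 8), Real.sqrt_pos.2 (by positivity),
    fun B s h p q ε et hp hq hε he h1 => ?_⟩
  have hB : 16 ≤ B := h.1
  have hB0 : 0 < B := by linarith
  have hs : 0 < s := h.2.1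
  have hs1 : s ≤ 1 := by
    have := h.2.2
    nlinarith
  have hs1' : 1 ≤ 1 / s := by
    rw [le_div_iff₀ hs]; linarith
  have co := Cl_cont (Cl_om4 h)
  have ct := Cl_cont (Cl_ta h)
  have cn := Fmd_nc hε
  have ce := Cl_der he
  obtain ⟨iT, eT⟩ := Fmd_T h hε
  have iN : Integrable (fun y => (et y) ^ 2 + (deriv et y) ^ 2) :=
    (Cl_int (Cl_pow' he hp.le hq.le 2 (by norm_num)) hp hq).add
      (Cl_int (Cl_pow' ce hp.le hq.le 2 (by norm_num)) hp hq)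
  obtain ⟨j, k⟩ := Fmd_cs (F := fun y => √(Fmd_N ε y))
    (φ := fun y => (K * om4 B s y + 2 * ta B s y) * |deriv et y|) (W := ta B s)
    (V := fun y => (2 * K ^ 2 + 8) / s * ((et y) ^ 2 + (deriv et y) ^ 2)) cn
    (((continuous_const.mul co).add (continuous_const.mul ct)).mul (Cl_cont ce).abs) ct (ta_pos h)
    iT (iN.const_mul _) (fun y => by
      have a1 := ta_ge h y
      have a2 := (om4_pos B s y).le
      have a3 := (ta_pos h y).le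
      have a4 := Fmd_sq (K := K) h y
      have a5 := ta_hi h y
      have a6 := om4_le_one B s y
      have b1 : om4 B s y ≤ ta B s y / s := by
        rw [le_div_iff₀ hs]; linarith
      have b2 : (om4 B s y) ^ 2 ≤ ta B s y / s := by
        calc (om4 B s y) ^ 2 = om4 B s y * om4 B s y := sq _
          _ ≤ 1 * om4 B s y := mul_le_mul_of_nonneg_right a6 a2
          _ ≤ ta B s y / s := by linarith
      have b3 : ta B s y ≤ 1 / s := by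
        have c1 : 2 / B ≤ 1 := by
          rw [div_le_one hB0]; linarith
        linarith
      have b4 : (ta B s y) ^ 2 ≤ ta B s y / s := by
        calc (ta B s y) ^ 2 = ta B s y * ta B s y := sq _
          _ ≤ 1 / s * ta B s y := mul_le_mul_of_nonneg_right b3 a3
          _ = ta B s y / s := by ring
      have b5 := mul_le_mul_of_nonneg_left b2 (by positivity : 0 ≤ 2 * K ^ 2)
      have b6 : (K * om4 B s y + 2 * ta B s y) ^ 2 ≤ (2 * K ^ 2 + 8) / s * ta B s y := by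
        calc (K * om4 B s y + 2 * ta B s y) ^ 2
            ≤ 2 * K ^ 2 * (om4 B s y) ^ 2 + 8 * (ta B s y) ^ 2 := a4
          _ ≤ 2 * K ^ 2 * (ta B s y / s) + 8 * (ta B s y / s) := by linarith
          _ = (2 * K ^ 2 + 8) / s * ta B s y := by ring
      have b7 : |deriv et y| ^ 2 ≤ (et y) ^ 2 + (deriv et y) ^ 2 := by
        rw [sq_abs]
        linarith [sq_nonneg (et y)]
      show ((K * om4 B s y + 2 * ta B s y) * |deriv et y|) ^ 2 ≤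
        (2 * K ^ 2 + 8) / s * ((et y) ^ 2 + (deriv et y) ^ 2) * ta B s y
      calc ((K * om4 B s y + 2 * ta B s y) * |deriv et y|) ^ 2
          = (K * om4 B s y + 2 * ta B s y) ^ 2 * |deriv et y| ^ 2 := by ring
        _ ≤ (2 * K ^ 2 + 8) / s * ta B s y * ((et y) ^ 2 + (deriv et y) ^ 2) :=
            mul_le_mul b6 b7 (by positivity) (by positivity)
        _ = (2 * K ^ 2 + 8) / s * ((et y) ^ 2 + (deriv et y) ^ 2) * ta B s y := by ring)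
  have hc : Cl (-(s / 2)) (-(s / 2)) (deriv et) := Cl_mono ce (by linarith) (by linarith)
  have main := Fmd_abs (Z := fun y => |deriv et y|) h hε hc (fun y => hg ε y (h1 y)) hK
    (fun y => le_rfl) j
  refine (main.trans k).trans (le_of_eq ?_)
  have e1 : ∫ y, (2 * K ^ 2 + 8) / s * ((et y) ^ 2 + (deriv et y) ^ 2) =
      (2 * K ^ 2 + 8) * (ne2 et / s) := by
    rw [integral_const_mul, ne2]
    ring
  rw [eT, e1, Real.sqrt_mul (by positivity)]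
  ring

end H98KC

end
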