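import Pool.Agent.H98.KC.Fma
import Pool.Agent.H98.KC.Fmb
import Pool.Agent.H98.KC.Fmc
import Pool.Agent.H98.KC.Fmd

/-!
# Fmf (MP_95be7d_S4): differential inequality for the energy (variant of `KB/Efi.lean`; uses the statements of `Fma`, `Fmb`, `Fmc`, `Fmd`)

`EE4` is additive in `ζ` and `ζ = Dz β w m ε S et = g' + βΛQ + mQ' - wΛε + mε' - et' + S` (all pieces in `Cl (-(s/2)) (-(s/2))`; `Λε` contains `yε'`).
`DE4 B s w ε D = EE4 B s ε D - (1/8) w s ∫ y Th Z' (...)` by definition.  Sum of `FT1`, `β·FT2`, `m·FT2`, `FT4`, `m·FT5`, `FT7`, `FT8`: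
`C√T4√(ne2/s) ≤ (1/16)T4 + 4C²ne2/s`, `C√T4(τ₁+τ₂/s) ≤ (1/16)T4 + 8C²(τ₁²+τ₂²/s²)`.
The constant `C` does not depend on `B`, `γ`; `C₂` may depend on `B`.
-/

open MeasureTheory Filter Topology Set
open scoped ContDiff

noncomputable section

namespace H98KC

open H98KB H68KC

theorem Fmf_int {B s : ℝ} {ε ζ : ℝ → ℝ} (h : Slow4 B s) (hε : Cl 0 0 ε)
    (hζ : Cl (-(s / 2)) (-(s / 2)) ζ) :
    Integrable (fun y => om4 B s y * (deriv ε y * deriv ζ y + (ε y - Df 4 ε y) * ζ y)) := by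
  have a1 := Cl_mul (Cl_der hε) (Cl_der hζ)
  have a2 := Cl_mul (Cl_sub hε (Cl_Df (k := 4) (by norm_num) le_rfl le_rfl hε)) hζ
  have a3 := Cl_mul (Cl_om4 h) (Cl_add a1 a2)
  have hs := h.2.1
  have hB : 0 < B := by linarith [h.1]
  have h3 : 0 < 1 / B := by positivity
  exact Cl_int a3 (by linarith) (by linarith)

theorem Fmf_lin {B s : ℝ} {ε ζ₀ ζ₁ : ℝ → ℝ} (h : Slow4 B s) (hε : Cl 0 0 ε) (c : ℝ)
    (h₀ : Cl (-(s / 2)) (-(s / 2)) ζ₀) (h₁ : Cl (-(s / 2)) (-(s / 2)) ζ₁) :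
    EE4 B s ε (fun y => ζ₀ y + c * ζ₁ y) = EE4 B s ε ζ₀ + c * EE4 B s ε ζ₁ := by
  have i0 := Fmf_int h hε h₀
  have i1 := Fmf_int h hε h₁
  unfold EE4
  rw [← integral_const_mul, ← integral_add i0 (i1.const_mul c)]
  refine integral_congr_ae (Eventually.of_forall fun y => ?_)
  simp only
  have e1 : deriv (fun y => ζ₀ y + c * ζ₁ y) y = deriv ζ₀ y + c * deriv ζ₁ y :=
    ((Cl_hd h₀ y).add ((Cl_hd h₁ y).const_mul c)).deriv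
  rw [e1]
  ring

theorem Fmf_T4 {B s : ℝ} (h : Slow4 B s) (ε : ℝ → ℝ) : 0 ≤ T4 B s ε := by
  rw [T4_eq]
  exact integral_nonneg fun y => mul_nonneg (ta_pos h y).le (by positivity)

theorem Fmf_Bad {s : ℝ} (hs : 0 < s) (ε : ℝ → ℝ) : 0 ≤ Bad s ε := by
  rw [Bad_eq]
  exact mul_nonneg hs.le (integral_nonneg fun y => mul_nonneg (bi_nonneg s y) (by positivity))

theorem Fmf_ln (γ B : ℝ) (ε : ℝ → ℝ) : 0 ≤ ln γ B ε :=
  integral_nonneg fun y => mul_nonneg (loc_pos γ B y).le (by positivity)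

theorem Fmf_ne2 (et : ℝ → ℝ) : 0 ≤ ne2 et :=
  integral_nonneg fun y => by positivity

/-- Young -/
theorem Fmf_young {T K X E : ℝ} (hT : 0 ≤ T) (h : |E| ≤ K * √T * X) :
    |E| ≤ 1 / 16 * T + 4 * K ^ 2 * X ^ 2 := by
  have a2 : √T ^ 2 = T := Real.sq_sqrt hT
  have a3 := sq_nonneg (√T / 4 - 2 * (K * X))
  have a4 : (√T / 4 - 2 * (K * X)) ^ 2 = 1 / 16 * √T ^ 2 - K * √T * X + 4 * K ^ 2 * X ^ 2 := by
    ring
  rw [a4, a2] at a3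
  linarith

theorem Fmf_mul {m E A : ℝ} (h : |E| ≤ A) : m * E ≤ |m| * A := by
  calc m * E ≤ |m * E| := le_abs_self _
    _ = |m| * |E| := abs_mul _ _
    _ ≤ |m| * A := mul_le_mul_of_nonneg_left h (abs_nonneg m)

/-- the real arithmetic of the assembly -/
theorem Fmf_arith {C1 C2 C4 C5 C7 C8 T Bd L X P B s w β m N t0 t1 t2 E1 E2 E3 E4 E5 E7 E8 Y : ℝ}
    (hC1 : 0 < C1) (hC2 : 0 < C2) (hC4 : 0 < C4) (hC5 : 0 < C5) (hC8 : 0 < C8)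
    (hT : 0 ≤ T) (hBd : 0 ≤ Bd) (hL : 0 ≤ L) (hX : 0 ≤ X) (hP : 0 ≤ P) (hB : 0 < B)
    (hs : 0 < s) (hw : 0 ≤ w) (hN : 0 ≤ N) (ht0 : 0 ≤ t0)
    (h1 : E1 ≤ -(1 / 4) * T + C1 / B * L + C1 * Bd)
    (h2 : |E2| ≤ C2 * (P + X)) (h3 : |E3| ≤ C2 * X)
    (h4 : -w * E4 - Y ≤ C4 * (w / s) * (T + Bd)) (h5 : |E5| ≤ C5 * (T + L))
    (h7 : |E7| ≤ C7 * √T * √(N / s))
    (h8 : |E8| ≤ C8 * (t0 / s) * T + C8 * √T * (t1 + t2 / s)) :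
    E1 + β * E2 + m * E3 - w * E4 + m * E5 - E7 + E8 - Y ≤
      -(1 / 8) * T + (C1 + C2 + C4 + C5 + 4 * C7 ^ 2) / B * L
      + (C1 + C2 + C4 + C5 + 4 * C7 ^ 2) * (1 + w / s) * Bd
      + (C1 + C2 + C4 + C5 + 4 * C7 ^ 2) * |β| * (P + X)
      + (C1 + C2 + C4 + C5 + 4 * C7 ^ 2) * |m| * X
      + (C4 + C5 + C8 + 8 * C8 ^ 2) * (|m| + w / s + t0 / s) * (T + L)
      + (C1 + C2 + C4 + C5 + 4 * C7 ^ 2) / s * N
      + (C4 + C5 + C8 + 8 * C8 ^ 2) * (t1 ^ 2 + t2 ^ 2 / s ^ 2) := by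
  set K := C1 + C2 + C4 + C5 + 4 * C7 ^ 2 with hK
  set K2 := C4 + C5 + C8 + 8 * C8 ^ 2 with hK2
  have h70 : 0 ≤ 4 * C7 ^ 2 := by positivity
  have h80 : 0 ≤ 8 * C8 ^ 2 := by positivity
  have hm := abs_nonneg m
  have hβ := abs_nonneg β
  have hws : 0 ≤ w / s := div_nonneg hw hs.le
  have hts : 0 ≤ t0 / s := div_nonneg ht0 hs.le
  have hTL : 0 ≤ T + L := add_nonneg hT hL
  -- E7
  have e7 := Fmf_young hT h7
  have e7s : √(N / s) ^ 2 = N / s := Real.sq_sqrt (div_nonneg hN hs.le)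
  rw [e7s] at e7
  have e7' : 4 * C7 ^ 2 * (N / s) ≤ K / s * N := by
    have e : K / s * N = K * (N / s) := by ring
    rw [e]
    exact mul_le_mul_of_nonneg_right (by linarith) (div_nonneg hN hs.le)
  have e7'' : -E7 ≤ 1 / 16 * T + K / s * N := by
    have := neg_abs_le E7
    linarith
  -- E8
  have e8 : |E8| - C8 * (t0 / s) * T ≤ 1 / 16 * T + 8 * C8 ^ 2 * (t1 ^ 2 + t2 ^ 2 / s ^ 2) := by
    have a0 : C8 * √T * (t1 + t2 / s) ≤ 1 / 16 * T + 4 * C8 ^ 2 * (t1 + t2 / s) ^ 2 := by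
      have a2 : √T ^ 2 = T := Real.sq_sqrt hT
      have a3 := sq_nonneg (√T / 4 - 2 * (C8 * (t1 + t2 / s)))
      have a4 : (√T / 4 - 2 * (C8 * (t1 + t2 / s))) ^ 2 =
          1 / 16 * √T ^ 2 - C8 * √T * (t1 + t2 / s) + 4 * C8 ^ 2 * (t1 + t2 / s) ^ 2 := by
        ring
      rw [a4, a2] at a3
      linarith
    have a5 : (t1 + t2 / s) ^ 2 ≤ 2 * (t1 ^ 2 + t2 ^ 2 / s ^ 2) := by
      have a6 := sq_nonneg (t1 - t2 / s)
      have a7 : (t1 - t2 / s) ^ 2 = 2 * (t1 ^ 2 + t2 ^ 2 / s ^ 2) - (t1 + t2 / s) ^ 2 := by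
        rw [← div_pow]
        ring
      rw [a7] at a6
      linarith
    have a8 : 4 * C8 ^ 2 * (t1 + t2 / s) ^ 2 ≤ 4 * C8 ^ 2 * (2 * (t1 ^ 2 + t2 ^ 2 / s ^ 2)) :=
      mul_le_mul_of_nonneg_left a5 (by positivity)
    linarith
  have e8' : 8 * C8 ^ 2 * (t1 ^ 2 + t2 ^ 2 / s ^ 2) ≤ K2 * (t1 ^ 2 + t2 ^ 2 / s ^ 2) :=
    mul_le_mul_of_nonneg_right (by linarith) (by positivity)
  have e8'' : C8 * (t0 / s) * T ≤ K2 * ((t0 / s) * (T + L)) := by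
    have a1 : C8 * ((t0 / s) * T) ≤ K2 * ((t0 / s) * T) :=
      mul_le_mul_of_nonneg_right (by linarith) (mul_nonneg hts hT)
    have a2 : 0 ≤ K2 * ((t0 / s) * L) :=
      mul_nonneg (by linarith) (mul_nonneg hts hL)
    linarith
  have e8l := le_abs_self E8
  -- the others
  have e1 : C1 / B * L ≤ K / B * L :=
    mul_le_mul_of_nonneg_right (div_le_div_of_nonneg_right (by linarith) hB.le) hL
  have e1' : C1 * Bd ≤ K * Bd := mul_le_mul_of_nonneg_right (by linarith) hBd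
  have e2 : β * E2 ≤ K * |β| * (P + X) := by
    have a1 := Fmf_mul (m := β) h2
    have a3 : C2 * (|β| * (P + X)) ≤ K * (|β| * (P + X)) :=
      mul_le_mul_of_nonneg_right (by linarith) (mul_nonneg hβ (add_nonneg hP hX))
    linarith
  have e3 : m * E3 ≤ K * |m| * X := by
    have a1 := Fmf_mul (m := m) h3
    have a3 : C2 * (|m| * X) ≤ K * (|m| * X) :=
      mul_le_mul_of_nonneg_right (by linarith) (mul_nonneg hm hX)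
    linarith
  have e4 : C4 * (w / s) * (T + Bd) ≤ K2 * ((w / s) * (T + L)) + K * ((w / s) * Bd) := by
    have a1 : C4 * ((w / s) * T) ≤ K2 * ((w / s) * T) :=
      mul_le_mul_of_nonneg_right (by linarith) (mul_nonneg hws hT)
    have a2 : 0 ≤ K2 * ((w / s) * L) := mul_nonneg (by linarith) (mul_nonneg hws hL)
    have a3 : C4 * ((w / s) * Bd) ≤ K * ((w / s) * Bd) :=
      mul_le_mul_of_nonneg_right (by linarith) (mul_nonneg hws hBd)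
    linarith
  have e5 : m * E5 ≤ K2 * (|m| * (T + L)) := by
    have a1 := Fmf_mul (m := m) h5
    have a3 : C5 * (|m| * (T + L)) ≤ K2 * (|m| * (T + L)) :=
      mul_le_mul_of_nonneg_right (by linarith) (mul_nonneg hm hTL)
    linarith
  linarith

theorem DE4_le : ∃ ν C : ℝ, 0 < ν ∧ ν ≤ 1 ∧ 0 < C ∧ ∀ γ : ℝ, 0 < γ → γ ≤ 1 / 8 →
    ∀ B : ℝ, 16 ≤ B → ∃ C₂ : ℝ, 0 < C₂ ∧ ∀ s : ℝ, Slow4 B s → ∀ (τ : ℝ) (ε S et : ℝ → ℝ),
    Cl 0 0 ε → Cl 0 0 S → (∃ p q : ℝ, 0 < p ∧ 0 < q ∧ Cl p q et) → τ ≤ ν → (∀ y, |ε y| ≤ τ) →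
    ∀ β w m τ₀ τ₁ τ₂ : ℝ, 0 ≤ w → 0 ≤ τ₀ → 0 ≤ τ₁ → 0 ≤ τ₂ → SB τ₀ τ₁ τ₂ ε S →
    DE4 B s w ε (Dz β w m ε S et) ≤ -(1 / 8) * T4 B s ε + C / B * ln γ B ε
      + C * (1 + w / s) * Bad s ε
      + C * |β| * (|ip ε (Qf 4)| + (1 / B + τ) * √(ln γ B ε))
      + C * |m| * ((1 / B + τ) * √(ln γ B ε))
      + C₂ * (|m| + w / s + τ₀ / s) * (T4 B s ε + ln γ B ε)
      + C / s * ne2 et + C₂ * (τ₁ ^ 2 + τ₂ ^ 2 / s ^ 2) := by
  obtain ⟨ν1, C1, hν1, hν1', hC1, H1⟩ := FT1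
  obtain ⟨C2, hC2, H2⟩ := FT2
  obtain ⟨ν4, C4, hν4, hν4', hC4, H4⟩ := FT4
  obtain ⟨C5, hC5, H5⟩ := FT5
  obtain ⟨C7, hC7, H7⟩ := FT7
  refine ⟨min ν1 ν4, C1 + C2 + C4 + C5 + 4 * C7 ^ 2, lt_min hν1 hν4,
    (min_le_left _ _).trans hν1', by positivity, ?_⟩
  intro γ hγ hγ' B hB
  obtain ⟨C8, hC8, H8⟩ := FT8 B hB
  refine ⟨C4 + C5 + C8 + 8 * C8 ^ 2, by positivity, ?_⟩
  intro s hS τ ε S et hε hSc het hτν hτ β w m τ₀ τ₁ τ₂ hw h0 h1 h2 hSB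
  obtain ⟨p, q, hp, hq, hcle⟩ := het
  have hB0 : 0 < B := by linarith
  have hs : 0 < s := hS.2.1
  have hτ0 : 0 ≤ τ := (abs_nonneg (ε 0)).trans (hτ 0)
  have hτ1 : τ ≤ ν1 := hτν.trans (min_le_left _ _)
  have hτ4 : τ ≤ ν4 := hτν.trans (min_le_right _ _)
  have hτone : τ ≤ 1 := hτ1.trans hν1'
  have hε1 : ∀ y, |ε y| ≤ 1 := fun y => (hτ y).trans hτone
  have hk1 : 1 ≤ 4 := by norm_num
  -- the common class
  have cg : Cl (-(s / 2)) (-(s / 2)) (deriv (gf 4 ε)) :=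
    Cl_mono (Cl_der (Cl_gf hk1 le_rfl le_rfl hε)) (by linarith) (by linarith)
  have cL : Cl (-(s / 2)) (-(s / 2)) (Lam 4 (Qf 4)) :=
    Cl_mono (Cl_LamQ hk1 (c := 3 / 4) (by norm_num)) (by linarith) (by linarith)
  have cQ1 : Cl (-(s / 2)) (-(s / 2)) (deriv (Qf 4)) :=
    Cl_mono (Cl_der (Cl_Qf hk1)) (by linarith) (by linarith)
  have cLe : Cl (-(s / 2)) (-(s / 2)) (Lam 4 ε) :=
    Cl_mono (Cl_Lam 4 hε (c := s / 2) (by linarith)) (by linarith) (by linarith)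
  have ce1 : Cl (-(s / 2)) (-(s / 2)) (deriv ε) :=
    Cl_mono (Cl_der hε) (by linarith) (by linarith)
  have cee : Cl (-(s / 2)) (-(s / 2)) (deriv et) :=
    Cl_mono (Cl_der hcle) (by linarith) (by linarith)
  have cS : Cl (-(s / 2)) (-(s / 2)) S := Cl_mono hSc (by linarith) (by linarith)
  have hlin : ∀ (c : ℝ) (ζ₀ ζ₁ : ℝ → ℝ), Cl (-(s / 2)) (-(s / 2)) ζ₀ →
      Cl (-(s / 2)) (-(s / 2)) ζ₁ →
      EE4 B s ε (fun y => ζ₀ y + c * ζ₁ y) = EE4 B s ε ζ₀ + c * EE4 B s ε ζ₁ :=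
    fun c ζ₀ ζ₁ a0 a1 => Fmf_lin hS hε c a0 a1
  have ez : Dz β w m ε S et = fun y => (fun y => (fun y => (fun y => (fun y => (fun y =>
      deriv (gf 4 ε) y + β * Lam 4 (Qf 4) y) y + m * deriv (Qf 4) y) y
      + (-w) * Lam 4 ε y) y + m * deriv ε y) y
      + (-1) * deriv et y) y + 1 * S y := by
    funext y
    unfold Dz
    ring
  have d1 := Cl_add cg (Cl_smul β cL)
  have d2 := Cl_add d1 (Cl_smul m cQ1)
  have d3 := Cl_add d2 (Cl_smul (-w) cLe)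
  have d4 := Cl_add d3 (Cl_smul m ce1)
  have d5 := Cl_add d4 (Cl_smul (-1) cee)
  have eE : EE4 B s ε (Dz β w m ε S et) = EE4 B s ε (deriv (gf 4 ε))
      + β * EE4 B s ε (Lam 4 (Qf 4)) + m * EE4 B s ε (deriv (Qf 4))
      - w * EE4 B s ε (Lam 4 ε) + m * EE4 B s ε (deriv ε)
      - EE4 B s ε (deriv et) + EE4 B s ε S := by
    rw [ez, hlin _ _ _ d5 cS, hlin _ _ _ d4 cee, hlin _ _ _ d3 ce1, hlin _ _ _ d2 cLe,
      hlin _ _ _ d1 cQ1, hlin _ _ _ cg cL]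
    ring
  have eD : DE4 B s w ε (Dz β w m ε S et) = EE4 B s ε (Dz β w m ε S et)
      - 1 / 8 * w * s * (∫ y, y * Th B y * deriv Zf (s * y) *
        ((deriv ε y) ^ 2 + (ε y) ^ 2 - 2 * bF 4 ε y)) := rfl
  have K1 := H1 γ hγ hγ' B s hS ε hε fun y => (hτ y).trans hτ1
  have K2 := H2 γ hγ hγ' B s hS τ ε hε hτone hτ
  have K4 := H4 B s hS ε hε (fun y => (hτ y).trans hτ4) w hw
  have K5 := H5 γ hγ hγ' B s hS ε hε hε1
  have K7 := H7 B s hS p q ε et hp hq hε hcle hε1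
  have K8 := H8 s hS ε S hε hSc hε1 τ₀ τ₁ τ₂ h0 h1 h2 hSB
  have hX : 0 ≤ (1 / B + τ) * √(ln γ B ε) := by positivity
  have hfin := Fmf_arith (β := β) (m := m) hC1 hC2 hC4 hC5 hC8 (Fmf_T4 hS ε) (Fmf_Bad hs ε)
    (Fmf_ln γ B ε) hX (abs_nonneg (ip ε (Qf 4))) hB0 hs hw (Fmf_ne2 et) h0
    K1 K2.1 K2.2 K4 K5 K7 K8
  rw [eD, eE]
  exact hfin

end H98KC

end
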