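import Pool.Agent.H98.KC.Base
import Pool.Agent.H98.KB.Vco

/-!
# Vka (MP_95be7d_S4): the local norm is controlled by the virial form, constraint `Q''` (variant of `KB/Vco.lean`)

Same proof as `vir_local` with `k = 4` and `ΛQ` replaced by `Q''`.  `q=v/Q`, `Q q' = v'+tv` (`t = th 4`, `Q' = -tQ`), `T(y)=∫_y^∞ Q Q''`
for `y>0`; `QQ''` is even, so `(v,Q'')=2T(0)q(0)+∫sgn(y)T(|y|)q'(y)dy`, `2T(0)=∫QQ''=-∫Q'² ≠ 0` (`ip_Qdd_Q`, `Qd2_pos`), `|T(y)| ≤ C e^{-2y}`.
Everything else (bound of `∫(1+4|y|)Q⁴v²` by `q(0)²` and `∫(int_0^{|y|}|q'|)²...`, interpolation between the weights `t'Q²` and `se2 γ Q²`) is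
unchanged: several auxiliary lemmas of `KB/Vco.lean` (`Vco_csi`, `Vco_ClG`, `Vco_rhd`, `Vco_incr`, `Vco_diff`, `Vco_wt`, imported) can be used as they are;
only the analogue of `Vco_main` (with `hk : 5 ≤ k` and `ΛQ`) has to be redone for `k = 4`, `Q''`.
-/

open MeasureTheory Filter Topology Set
open scoped ContDiff

noncomputable section

namespace H98KC

open H98KB H68KC

/-- the estimate with the weight `e^{-3|y|/4}` -/
theorem Vka_main {k : ℕ} (hk : 4 ≤ k) {L : ℝ → ℝ} (hL : Cl (9 / 10) (9 / 10) L) {m : ℝ}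
    (hm0 : 0 < m) (hLm : ip L (Qf k) = -m) : ∃ C : ℝ, 0 < C ∧
    ∀ (p q : ℝ) (v : ℝ → ℝ), 0 < p → 0 < q → Cl p q v →
    ∫ y, (1 + k * |y|) * Qf k y ^ k * (v y) ^ 2 ≤
      C * ((ip v L) ^ 2 +
        ∫ z, Real.exp (-(3 / 4 * |z|)) * (deriv v z + th k z * v z) ^ 2) := by
  have hk1 : 1 ≤ k := by omega
  obtain ⟨C1, hC1, hdiff⟩ := Vco_diff hk1
  obtain ⟨D, hD, hhi⟩ := Qf_hi hk1
  obtain ⟨E, hE, hLam⟩ := Cl_bnd hL
  set M := ∫ y, bd (37 / 80) (37 / 80) y with hM
  have hM0 : 0 ≤ M := integral_nonneg fun y => (bd_pos _ _ _).le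
  set N := ∫ y, bd 1 1 y with hN
  have hN0 : 0 ≤ N := integral_nonneg fun y => (bd_pos _ _ _).le
  set K := 2 * (k : ℝ) * D ^ k * (D ^ 2 + C1) with hK
  have hK0 : 0 ≤ K := by positivity
  refine ⟨K * N * (2 / m ^ 2 + 2 * C1 * E ^ 2 * M ^ 2 / m ^ 2 + 1) + 1, by positivity, ?_⟩
  intro p q v hp hq hv
  set J := ∫ z, Real.exp (-(3 / 4 * |z|)) * (deriv v z + th k z * v z) ^ 2 with hJ
  have hJ0 : 0 ≤ J := integral_nonneg fun z => by positivity
  set q0 := v 0 / Qf k 0 with hq0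
  have hvc := Cl_cont hv
  have hQc := Cl_cont (Cl_Qf hk1)
  have hLc := Cl_cont hL
  -- bound for the difference
  have hd : ∀ y, (v y - q0 * Qf k y) ^ 2 ≤ C1 * Real.exp (7 / 8 * |y|) * J :=
    fun y => hdiff p q v hp hq hv y
  set S := √(C1 * J) with hS
  have hS2 : S ^ 2 = C1 * J := Real.sq_sqrt (by positivity)
  have hS0 : 0 ≤ S := Real.sqrt_nonneg _
  have hd' : ∀ y, |v y - q0 * Qf k y| ≤ S * Real.exp (7 / 16 * |y|) := by
    intro y
    apply abs_le_of_sq_le_sq _ (by positivity)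
    rw [mul_pow, hS2, sq (Real.exp _), ← Real.exp_add]
    have : 7 / 16 * |y| + 7 / 16 * |y| = 7 / 8 * |y| := by ring
    rw [this]
    linarith [hd y]
  -- the pairing
  have hdL : |∫ y, (v y - q0 * Qf k y) * L y| ≤ S * E * M := by
    have hpt : ∀ y, ‖(v y - q0 * Qf k y) * L y‖ ≤ S * E * bd (37 / 80) (37 / 80) y := by
      intro y
      rw [norm_mul, Real.norm_eq_abs, Real.norm_eq_abs]
      have h1 := hLam y
      rw [bd_abs] at h1
      calc |v y - q0 * Qf k y| * |L y|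
          ≤ (S * Real.exp (7 / 16 * |y|)) * (E * Real.exp (-(9 / 10 * |y|))) :=
            mul_le_mul (hd' y) h1 (abs_nonneg _) (by positivity)
        _ = S * E * (Real.exp (7 / 16 * |y|) * Real.exp (-(9 / 10 * |y|))) := by ring
        _ = S * E * bd (37 / 80) (37 / 80) y := by
            rw [← Real.exp_add, bd_abs]
            congr 2; ring
    have hb := norm_integral_le_of_norm_le ((bd_int (p := 37 / 80) (q := 37 / 80) (by norm_num)
      (by norm_num)).const_mul (S * E)) (Eventually.of_forall hpt)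
    rw [integral_const_mul, Real.norm_eq_abs] at hb
    exact hb
  have hsplit : ip v L = q0 * (-m) + ∫ y, (v y - q0 * Qf k y) * L y := by
    have h1 : ip L (Qf k) = -m := hLm
    have hvi : Integrable (fun y => v y * L y) :=
      Cl_int (Cl_mul hv hL) (by linarith) (by linarith)
    have hQi : Integrable (fun y => L y * Qf k y) :=
      Cl_int (Cl_mul hL (Cl_Qf hk1)) (by norm_num) (by norm_num)
    rw [← h1]
    unfold ip
    rw [← integral_const_mul, ← integral_add (hQi.const_mul q0)]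
    · congr 1
      ext y
      ring
    · have h2 : (fun y => (v y - q0 * Qf k y) * L y)
          = fun y => v y * L y - q0 * (L y * Qf k y) := by
        ext y; ring
      rw [h2]
      exact hvi.sub (hQi.const_mul q0)
  set X := ip v L with hX
  set Z := ∫ y, (v y - q0 * Qf k y) * L y with hZ
  have hZ2 : Z ^ 2 ≤ C1 * J * E ^ 2 * M ^ 2 := by
    have h1 : Z ^ 2 ≤ (S * E * M) ^ 2 := by
      rw [← sq_abs Z]
      exact pow_le_pow_left₀ (abs_nonneg _) hdL 2
    calc Z ^ 2 ≤ (S * E * M) ^ 2 := h1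
      _ = S ^ 2 * E ^ 2 * M ^ 2 := by ring
      _ = _ := by rw [hS2]
  have hq02 : q0 ^ 2 ≤ 2 / m ^ 2 * X ^ 2 + 2 * C1 * E ^ 2 * M ^ 2 / m ^ 2 * J := by
    have h1 : q0 * m = Z - X := by linarith
    have h2 : q0 ^ 2 * m ^ 2 ≤ 2 * X ^ 2 + 2 * Z ^ 2 := by
      have : q0 ^ 2 * m ^ 2 = (Z - X) ^ 2 := by rw [← h1]; ring
      rw [this]; (first | linarith only [sq_nonneg (Z + X)] | nlinarith only [sq_nonneg (Z + X)])
    have h3 : q0 ^ 2 = (q0 ^ 2 * m ^ 2) / m ^ 2 := by field_simp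
    rw [h3]
    calc (q0 ^ 2 * m ^ 2) / m ^ 2 ≤ (2 * X ^ 2 + 2 * (C1 * J * E ^ 2 * M ^ 2)) / m ^ 2 := by
          gcongr
          linarith
      _ = _ := by ring
  -- pointwise bound of the integrand
  have hpt : ∀ y, (1 + k * |y|) * Qf k y ^ k * (v y) ^ 2 ≤ K * (q0 ^ 2 + J) * bd 1 1 y := by
    intro y
    have hQ := Qf_pos k y
    have hy0 := abs_nonneg y
    have hk5 : (4 : ℝ) ≤ k := by exact_mod_cast hk
    have h1 : Qf k y ^ k ≤ D ^ k * Real.exp (-(k * |y|)) := by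
      calc Qf k y ^ k ≤ (D * Real.exp (-|y|)) ^ k := pow_le_pow_left₀ hQ.le (hhi y) k
        _ = D ^ k * Real.exp (-(k * |y|)) := by
            rw [mul_pow, ← Real.exp_nat_mul]
            congr 2; ring
    have h2 : (1 + k * |y|) ≤ k * Real.exp |y| := by
      have := Real.add_one_le_exp |y|
      (first | linarith only [hk5, this] | nlinarith only [hk5, this])
    have h3 : (1 + k * |y|) * Qf k y ^ k ≤ k * D ^ k * Real.exp (-(3 * |y|)) := by
      calc (1 + k * |y|) * Qf k y ^ k ≤ (k * Real.exp |y|) * (D ^ k * Real.exp (-(k * |y|))) :=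
            mul_le_mul h2 h1 (by positivity) (by positivity)
        _ = k * D ^ k * (Real.exp |y| * Real.exp (-(k * |y|))) := by ring
        _ ≤ k * D ^ k * Real.exp (-(3 * |y|)) := by
            rw [← Real.exp_add]
            gcongr
            (first | linarith only [hk5, hy0] | nlinarith only [hk5, hy0])
    have h4 : Qf k y ^ 2 ≤ D ^ 2 := by
      have : Qf k y ≤ D := by
        have h5 := hhi y
        have : Real.exp (-|y|) ≤ 1 := Real.exp_le_one_iff.2 (by linarith)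
        (first | linarith only [h5, hD, this] | nlinarith only [h5, hD, this])
      exact pow_le_pow_left₀ hQ.le this 2
    have h5 : v y ^ 2 ≤ 2 * q0 ^ 2 * D ^ 2 + 2 * (C1 * Real.exp (7 / 8 * |y|) * J) := by
      have h6 := hd y
      have h7 : v y ^ 2 ≤ 2 * (q0 * Qf k y) ^ 2 + 2 * (v y - q0 * Qf k y) ^ 2 := by
        (first | linarith only [sq_nonneg (v y - 2 * (q0 * Qf k y))] | nlinarith only [sq_nonneg (v y - 2 * (q0 * Qf k y))])
      have h8 : (q0 * Qf k y) ^ 2 ≤ q0 ^ 2 * D ^ 2 := by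
        rw [mul_pow]; gcongr
      linarith
    have he : 1 ≤ Real.exp (7 / 8 * |y|) := Real.one_le_exp (by positivity)
    have h9 : v y ^ 2 ≤ 2 * (D ^ 2 + C1) * (q0 ^ 2 + J) * Real.exp (7 / 8 * |y|) := by
      have h10 : 2 * q0 ^ 2 * D ^ 2 ≤ 2 * q0 ^ 2 * D ^ 2 * Real.exp (7 / 8 * |y|) :=
        le_mul_of_one_le_right (by positivity) he
      have h11 : 0 ≤ 2 * D ^ 2 * J * Real.exp (7 / 8 * |y|) := by positivity
      have h12 : 0 ≤ 2 * C1 * q0 ^ 2 * Real.exp (7 / 8 * |y|) := by positivity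
      (first | linarith only [h10, h11, h12, h5] | nlinarith only [h10, h11, h12, h5])
    calc (1 + k * |y|) * Qf k y ^ k * (v y) ^ 2
        ≤ (k * D ^ k * Real.exp (-(3 * |y|))) *
          (2 * (D ^ 2 + C1) * (q0 ^ 2 + J) * Real.exp (7 / 8 * |y|)) :=
          mul_le_mul h3 h9 (by positivity) (by positivity)
      _ = K * (q0 ^ 2 + J) * (Real.exp (-(3 * |y|)) * Real.exp (7 / 8 * |y|)) := by
          rw [hK]; ring
      _ ≤ K * (q0 ^ 2 + J) * bd 1 1 y := by
          rw [← Real.exp_add, bd_abs]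
          gcongr
          linarith
  have hfin : ∫ y, (1 + k * |y|) * Qf k y ^ k * (v y) ^ 2 ≤ K * (q0 ^ 2 + J) * N := by
    have h1 := integral_mono_of_nonneg (Eventually.of_forall (fun y => by
        have hQ := Qf_pos k y
        have hy0 := abs_nonneg y
        show (0 : ℝ) ≤ (1 + k * |y|) * Qf k y ^ k * (v y) ^ 2
        positivity))
      ((bd_int (p := 1) (q := 1) one_pos one_pos).const_mul (K * (q0 ^ 2 + J)))
      (Eventually.of_forall hpt)
    rw [integral_const_mul] at h1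
    exact h1
  refine hfin.trans ?_
  have hKN : 0 ≤ K * N := by positivity
  have hX2 : 0 ≤ X ^ 2 := sq_nonneg _
  have ha : 0 ≤ 2 / m ^ 2 := by positivity
  have hb : 0 ≤ 2 * C1 * E ^ 2 * M ^ 2 / m ^ 2 := by positivity
  calc K * (q0 ^ 2 + J) * N = K * N * (q0 ^ 2 + J) := by ring
    _ ≤ K * N * ((2 / m ^ 2 * X ^ 2 + 2 * C1 * E ^ 2 * M ^ 2 / m ^ 2 * J) + J) := by gcongr
    _ ≤ K * N * ((2 / m ^ 2 + 2 * C1 * E ^ 2 * M ^ 2 / m ^ 2 + 1) * (X ^ 2 + J)) := by
        apply mul_le_mul_of_nonneg_left _ hKN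
        (first | linarith only [mul_nonneg ha hJ0, mul_nonneg hb hX2, hJ0, hX2, ha, hb] | nlinarith only [mul_nonneg ha hJ0, mul_nonneg hb hX2, hJ0, hX2, ha, hb])
    _ ≤ _ := by (first | linarith only [hJ0] | nlinarith only [hJ0])

theorem Vka_loc (k : ℕ) (hk : 4 ≤ k) {L : ℝ → ℝ} (hL : Cl (9 / 10) (9 / 10) L) {m : ℝ}
    (hm0 : 0 < m) (hLm : ip L (Qf k) = -m) (ν : ℝ) (hν : 0 < ν) : ∃ C : ℝ, 0 < C ∧
    ∀ γ : ℝ, 0 < γ → γ ≤ 1 / 8 → ∀ (p q : ℝ) (v : ℝ → ℝ), 0 < p → 0 < q → Cl p q v →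
    ∫ y, (1 + k * |y|) * Qf k y ^ k * (v y) ^ 2 ≤
      C * ((ip v L) ^ 2 + ∫ y, deriv (th k) y * (deriv v y + th k y * v y) ^ 2)
        + ν * ∫ y, se2 γ y * ((v y) ^ 2 + (deriv v y) ^ 2) := by
  have hk1 : 1 ≤ k := by omega
  obtain ⟨C1, hC1, hmain⟩ := Vka_main hk hL hm0 hLm
  obtain ⟨A, hA, hwt⟩ := Vco_wt k hk1 (ε := ν / (2 * C1)) (by positivity)
  refine ⟨C1 + ν / 2 * A, by positivity, ?_⟩
  intro γ hγ hγ' p q v hp hq hv
  refine (hmain p q v hp hq hv).trans ?_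
  have hG := Vco_ClG k hv
  have hG2 := Cl_pow hG 2
  have hthd : deriv (th k) = fun y => (k : ℝ) / 2 * (1 - th k y ^ 2) := by
    ext y; exact (th_hd k y).deriv
  have hClt : Cl 0 0 (deriv (th k)) := Cl_der (Cl_th k)
  have hClw : Cl 0 0 (se2 γ) := Cl_mono (Cl_se2 hγ) (by linarith) (by linarith)
  have hi1 : Integrable (fun y => deriv (th k) y * (deriv v y + th k y * v y) ^ 2) :=
    Cl_int (Cl_mul0 hClt hG2) (by push_cast; linarith) (by push_cast; linarith)
  have hi2 : Integrable (fun y => se2 γ y * (deriv v y + th k y * v y) ^ 2) :=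
    Cl_int (Cl_mul0 hClw hG2) (by push_cast; linarith) (by push_cast; linarith)
  have hi3 : Integrable (fun y => se2 γ y * ((v y) ^ 2 + (deriv v y) ^ 2)) := by
    have := Cl_mul0 hClw (Cl_add (Cl_pow hv 2) (Cl_pow (Cl_der hv) 2))
    exact Cl_int this (by push_cast; linarith) (by push_cast; linarith)
  have hJ : (∫ z, Real.exp (-(3 / 4 * |z|)) * (deriv v z + th k z * v z) ^ 2) ≤
      ν / (2 * C1) * (A * (∫ y, deriv (th k) y * (deriv v y + th k y * v y) ^ 2)
        + 2 * ∫ y, se2 γ y * ((v y) ^ 2 + (deriv v y) ^ 2)) := by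
    rw [← integral_const_mul, ← integral_const_mul, ← integral_add (hi1.const_mul A) (hi3.const_mul 2),
      ← integral_const_mul]
    apply integral_mono_of_nonneg (Eventually.of_forall fun z => by
      show (0 : ℝ) ≤ Real.exp (-(3 / 4 * |z|)) * (deriv v z + th k z * v z) ^ 2
      positivity)
    · exact ((hi1.const_mul A).add (hi3.const_mul 2)).const_mul _
    · refine Eventually.of_forall fun z => ?_
      show Real.exp (-(3 / 4 * |z|)) * (deriv v z + th k z * v z) ^ 2 ≤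
        ν / (2 * C1) * (A * (deriv (th k) z * (deriv v z + th k z * v z) ^ 2)
          + 2 * (se2 γ z * ((v z) ^ 2 + (deriv v z) ^ 2)))
      have hw := se2_pos γ z
      have h1 := hwt γ hγ hγ' z
      have h2 : (deriv v z + th k z * v z) ^ 2 ≤ 2 * ((v z) ^ 2 + (deriv v z) ^ 2) := by
        have ht := th_abs_lt k z
        have ht2 : th k z ^ 2 ≤ 1 := by
          rw [← sq_abs]
          have := abs_nonneg (th k z)
          nlinarith
        have h3 : (th k z * v z) ^ 2 ≤ v z ^ 2 := by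
          rw [mul_pow]
          nlinarith [sq_nonneg (v z)]
        nlinarith [sq_nonneg (deriv v z - th k z * v z)]
      calc Real.exp (-(3 / 4 * |z|)) * (deriv v z + th k z * v z) ^ 2
          ≤ (ν / (2 * C1) * (A * deriv (th k) z + se2 γ z)) * (deriv v z + th k z * v z) ^ 2 := by
            gcongr
        _ = ν / (2 * C1) * (A * (deriv (th k) z * (deriv v z + th k z * v z) ^ 2)
            + se2 γ z * (deriv v z + th k z * v z) ^ 2) := by ring
        _ ≤ ν / (2 * C1) * (A * (deriv (th k) z * (deriv v z + th k z * v z) ^ 2)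
            + se2 γ z * (2 * ((v z) ^ 2 + (deriv v z) ^ 2))) := by gcongr
        _ = _ := by ring
  have hI1 : 0 ≤ ∫ y, deriv (th k) y * (deriv v y + th k y * v y) ^ 2 := by
    apply integral_nonneg
    intro y
    have ht := th_abs_lt k y
    have ht2 : th k y ^ 2 ≤ 1 := by
      rw [← sq_abs]
      have := abs_nonneg (th k y)
      nlinarith
    have : 0 ≤ deriv (th k) y := by
      rw [hthd]
      have : 0 ≤ 1 - th k y ^ 2 := by linarith
      positivity
    show (0 : ℝ) ≤ _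
    positivity
  set I1 := ∫ y, deriv (th k) y * (deriv v y + th k y * v y) ^ 2 with hI1d
  set I2 := ∫ y, se2 γ y * ((v y) ^ 2 + (deriv v y) ^ 2) with hI2d
  set J := ∫ z, Real.exp (-(3 / 4 * |z|)) * (deriv v z + th k z * v z) ^ 2 with hJd
  set X := ip v L with hX
  have h5 : C1 * (ν / (2 * C1) * (A * I1 + 2 * I2)) = ν / 2 * A * I1 + ν * I2 := by
    field_simp
  have h6 : C1 * J ≤ ν / 2 * A * I1 + ν * I2 := by
    rw [← h5]; gcongr
  have h7 : 0 ≤ ν / 2 * A * X ^ 2 := by positivity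
  (first | linarith only [mul_nonneg hC1.le hI1, h6, h7, hC1, hI1] | nlinarith only [mul_nonneg hC1.le hI1, h6, h7, hC1, hI1])

theorem vir_local4 (ν : ℝ) (hν : 0 < ν) : ∃ C : ℝ, 0 < C ∧
    ∀ γ : ℝ, 0 < γ → γ ≤ 1 / 8 → ∀ (p q : ℝ) (v : ℝ → ℝ), 0 < p → 0 < q → Cl p q v →
    ∫ y, (1 + 4 * |y|) * Qf 4 y ^ 4 * (v y) ^ 2 ≤
      C * ((ip v (deriv (deriv (Qf 4)))) ^ 2 + Jn v)
        + ν * ∫ y, se2 γ y * ((v y) ^ 2 + (deriv v y) ^ 2) := by
  have hL : Cl (9 / 10) (9 / 10) (deriv (deriv (Qf 4))) :=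
    Cl_mono (Cl_der (Cl_der (Cl_Qf (k := 4) (by norm_num)))) (by norm_num) (by norm_num)
  obtain ⟨C, hC, h⟩ := Vka_loc 4 (le_refl 4) hL (Qd2_pos (k := 4) (by norm_num))
    (ip_Qdd_Q (k := 4) (by norm_num)) ν hν
  refine ⟨C, hC, fun γ hγ hγ' p q v hp hq hv => ?_⟩
  have h1 := h γ hγ hγ' p q v hp hq hv
  unfold Jn
  norm_num at h1
  exact h1

end H98KC

end
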