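import Pool.Agent.H98.KC.Vka
import Pool.Agent.H98.KB.Vcp

/-!
# Vkb (MP_95be7d_S4): coercivity of the virial form with constraint `Q''` (variant of `vir_coer` in `KB/Vcp.lean`; uses the statement `vir_local4`)

`σ = ηγ`.  `H_psi(v) = H_th(v) + H_{η tanh(γ·)}(v)`, `H_th(v) = (3/2)Jn v` (`vir_tanh`, `k = 4`),
`H_{η tanh γ}(v) ≥ σ(3/8)∫w(v²+v'²) - (σ/2)∫(1+4|y|)Q⁴v²` (`w = se2 γ`; `Vcp_point` etc. of `KB/Vcp.lean`).
`vir_local4` with `ν = 1/8`, constant `C'`: `H_psi ≥ (3/2-σC'/2)Jn + σ(3/8-1/16)∫w(v²+v'²) - (σC'/2)(v,Q'')²`;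
`(v,Q'')² ≤ 2(v,G_δ)²+2δ²(v,Q'''')²`, `(v,Q'''')² ≤ C''∫w v²` (Cauchy-Schwarz, `γ ≤ 1/8`, `|Q''''| ≤ Ce^{-|y|}`).  Choose `η ≤ 1/K` with `ηγC' ≤ 1`
(so `3/2-σC'/2 ≥ 1`) and `δ₀ ≤ ηγ/K`, `δ₀ ≤ 1/16` with `C'C''δ₀² ≤ 1/16`.
-/

open MeasureTheory Filter Topology Set
open scoped ContDiff

noncomputable section

namespace H98KC

open H98KB H68KC

theorem vir_coer4 (γ : ℝ) (hγ : 0 < γ) (hγ' : γ ≤ 1 / 8) (K : ℝ) (hK : 1 ≤ K) :
    ∃ η δ₀ C : ℝ, 0 < η ∧ K * η ≤ 1 ∧ 0 < δ₀ ∧ δ₀ ≤ 1 / 16 ∧ K * δ₀ ≤ η * γ ∧ 0 < C ∧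
    ∀ δ : ℝ, 0 < δ → δ ≤ δ₀ → ∀ (p q : ℝ) (v : ℝ → ℝ), 0 < p → 0 < q → Cl p q v →
    η * γ / 4 * (∫ y, se2 γ y * ((v y) ^ 2 + (deriv v y) ^ 2)) + Jn v ≤
      Hf 4 (psi 4 η γ) v + C * (ip v (Gd4 δ)) ^ 2 := by
  have hk1 : 1 ≤ 4 := by norm_num
  obtain ⟨CV, hCV, hV0⟩ := vir_local4 (1 / 8) (by norm_num)
  have hV : ∀ γ : ℝ, 0 < γ → γ ≤ 1 / 8 → ∀ (p q : ℝ) (v : ℝ → ℝ), 0 < p → 0 < q → Cl p q v →
      ∫ y, (1 + ((4 : ℕ) : ℝ) * |y|) * Qf 4 y ^ 4 * (v y) ^ 2 ≤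
      CV * ((ip v (deriv (deriv (Qf 4)))) ^ 2 + ∫ y, deriv (th 4) y * (deriv v y + th 4 y * v y) ^ 2)
        + 1 / 8 * ∫ y, se2 γ y * ((v y) ^ 2 + (deriv v y) ^ 2) := by
    intro γ h1 h2 p q v h3 h4 h5
    refine le_trans (le_of_eq ?_) (hV0 γ h1 h2 p q v h3 h4 h5)
    norm_num
  -- the function `(ΛQ)''`
  set φ : ℝ → ℝ := deriv (deriv (deriv (deriv (Qf 4)))) with hφ
  have cL : Cl (3 / 4) (3 / 4) (deriv (deriv (Qf 4))) :=
    Cl_mono (Cl_der (Cl_der (Cl_Qf hk1))) (by norm_num) (by norm_num)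
  have cφ : Cl (3 / 4) (3 / 4) φ := Cl_der (Cl_der cL)
  have cs : Cl (2 * γ) (2 * γ) (se2 γ) := Cl_se2 hγ
  have hsc : Continuous (se2 γ) := Cl_cont cs
  have hφw : Integrable (fun y => φ y ^ 2 / se2 γ y) := by
    obtain ⟨C, hC, hb⟩ := Cl_bnd cφ
    refine int_of_bd (p := 1) (q := 1) (((Cl_cont cφ).pow 2).div hsc fun y => (se2_pos γ y).ne')
      one_pos one_pos ⟨C ^ 2, fun y => ?_⟩
    have h1 := hb y
    have h2 := se2_lo γ y
    have h3 := se2_pos γ y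
    rw [abs_of_nonneg (by positivity), div_le_iff₀ h3, bd_abs]
    rw [bd_abs] at h1
    have h4 : φ y ^ 2 ≤ (C * Real.exp (-(3 / 4 * |y|))) ^ 2 := by
      rw [← sq_abs]
      exact pow_le_pow_left₀ (abs_nonneg _) h1 2
    have h5 : Real.exp (-(|y| / 4)) ≤ se2 γ y := by
      refine le_trans (Real.exp_le_exp.mpr ?_) h2
      rw [abs_mul, abs_of_pos hγ]
      nlinarith [abs_nonneg y]
    calc φ y ^ 2 ≤ (C * Real.exp (-(3 / 4 * |y|))) ^ 2 := h4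
      _ = C ^ 2 * Real.exp (-(3 / 2 * |y|)) := by
          rw [mul_pow, ← Real.exp_nat_mul]
          congr 2
          push_cast
          ring
      _ ≤ C ^ 2 * Real.exp (-(1 * |y|) + -(|y| / 4)) := by
          apply mul_le_mul_of_nonneg_left _ (by positivity)
          apply Real.exp_le_exp.mpr
          linarith [abs_nonneg y]
      _ = C ^ 2 * Real.exp (-(1 * |y|)) * Real.exp (-(|y| / 4)) := by
          rw [Real.exp_add]; ring
      _ ≤ C ^ 2 * Real.exp (-(1 * |y|)) * se2 γ y := by gcongr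
  set Kc : ℝ := ∫ y, φ y ^ 2 / se2 γ y with hKc
  have hKc0 : 0 ≤ Kc := integral_nonneg fun y => div_nonneg (sq_nonneg _) (se2_pos γ y).le
  set η : ℝ := min (1 / K) (1 / (γ * CV)) with hη
  have hK0 : 0 < K := by linarith
  have hη0 : 0 < η := lt_min (by positivity) (by positivity)
  have hηK : K * η ≤ 1 := by
    have h1 : η ≤ 1 / K := min_le_left _ _
    rw [le_div_iff₀ hK0] at h1
    linarith
  have hη1 : η ≤ 1 := by nlinarith
  have hσ : η * γ * CV ≤ 1 := by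
    have h1 : η ≤ 1 / (γ * CV) := min_le_right _ _
    have h2 : 0 < γ * CV := by positivity
    rw [le_div_iff₀ h2] at h1
    linarith
  refine ⟨η, min (1 / 16) (min (1 / (16 * (CV * Kc + 1))) (η * γ / K)), 1, hη0, hηK, ?_,
    min_le_left _ _, ?_, one_pos, ?_⟩
  · exact lt_min (by norm_num) (lt_min (by positivity) (by positivity))
  · have h1 : min (1 / 16) (min (1 / (16 * (CV * Kc + 1))) (η * γ / K)) ≤ η * γ / K :=
      (min_le_right _ _).trans (min_le_right _ _)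
    rw [le_div_iff₀ hK0] at h1
    linarith
  intro δ hδ hδ₀ p q v hp hq hv
  have hδ16 : δ ≤ 1 / 16 := hδ₀.trans (min_le_left _ _)
  have hδK : CV * Kc * δ ^ 2 ≤ 1 / 16 := by
    have h1 : δ ≤ 1 / (16 * (CV * Kc + 1)) := hδ₀.trans ((min_le_right _ _).trans (min_le_left _ _))
    have h0 : 0 ≤ CV * Kc := by positivity
    have h2 : (0 : ℝ) < 16 * (CV * Kc + 1) := by positivity
    rw [le_div_iff₀ h2] at h1
    have h3 : CV * Kc * δ ≤ 1 / 16 := by nlinarith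
    calc CV * Kc * δ ^ 2 = (CV * Kc * δ) * δ := by ring
      _ ≤ (1 / 16) * 1 := by gcongr; linarith
      _ = 1 / 16 := by ring
  -- classes and integrability
  have cv' := Cl_der hv
  have cv2 : Cl (p + p) (q + q) (fun y => v y * v y) := Cl_mul hv hv
  have cvd2 : Cl (p + p) (q + q) (fun y => deriv v y * deriv v y) := Cl_mul cv' cv'
  have hpp : 0 < p + p := by linarith
  have hqq : 0 < q + q := by linarith
  have i0 : Integrable (fun y => se2 γ y * (v y) ^ 2) := by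
    have := Cl_int (Cl_mul cs cv2) (by linarith) (by linarith)
    refine this.congr (Eventually.of_forall fun y => ?_)
    show se2 γ y * (v y * v y) = se2 γ y * (v y) ^ 2
    ring
  have i1 : Integrable (fun y => se2 γ y * (deriv v y) ^ 2) := by
    have := Cl_int (Cl_mul cs cvd2) (by linarith) (by linarith)
    refine this.congr (Eventually.of_forall fun y => ?_)
    show se2 γ y * (deriv v y * deriv v y) = se2 γ y * (deriv v y) ^ 2
    ring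
  have iA : Integrable (fun y => (1 + ((4 : ℕ) : ℝ) * |y|) * Qf 4 y ^ 4 * (v y) ^ 2) := by
    obtain ⟨C, hC, hQ⟩ := Qf_hi hk1
    have iv : Integrable (fun y => C ^ 4 * (v y * v y)) := (Cl_int cv2 hpp hqq).const_mul _
    have hc : Continuous (fun y => (1 + ((4 : ℕ) : ℝ) * |y|) * Qf 4 y ^ 4 * (v y) ^ 2) := by
      have h1 := Cl_cont (Cl_Qf hk1)
      have h2 := Cl_cont hv
      fun_prop
    refine iv.mono' hc.aestronglyMeasurable (Eventually.of_forall fun y => ?_)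
    have h1 : (1 + ((4 : ℕ) : ℝ) * |y|) * Qf 4 y ^ 4 ≤ C ^ 4 := by
      have h2 : Qf 4 y ^ 4 ≤ (C * Real.exp (-|y|)) ^ 4 :=
        pow_le_pow_left₀ (Qf_pos 4 y).le (hQ y) 4
      have h3 : (C * Real.exp (-|y|)) ^ 4 = C ^ 4 * Real.exp (-(((4 : ℕ) : ℝ) * |y|)) := by
        rw [mul_pow, ← Real.exp_nat_mul]
        congr 2
        ring
      rw [h3] at h2
      have h4 : 1 + ((4 : ℕ) : ℝ) * |y| ≤ Real.exp (((4 : ℕ) : ℝ) * |y|) := by
        have := Real.add_one_le_exp (((4 : ℕ) : ℝ) * |y|)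
        linarith
      have h5 : (0 : ℝ) ≤ 1 + ((4 : ℕ) : ℝ) * |y| := by positivity
      calc (1 + ((4 : ℕ) : ℝ) * |y|) * Qf 4 y ^ 4 ≤ Real.exp (((4 : ℕ) : ℝ) * |y|) * (C ^ 4 * Real.exp (-(((4 : ℕ) : ℝ) * |y|))) := by
            have := pow_nonneg (Qf_pos 4 y).le 4
            gcongr
        _ = C ^ 4 * (Real.exp (((4 : ℕ) : ℝ) * |y|) * Real.exp (-(((4 : ℕ) : ℝ) * |y|))) := by ring
        _ = C ^ 4 := by rw [← Real.exp_add, add_neg_cancel, Real.exp_zero, mul_one]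
    have h6 : 0 ≤ (1 + ((4 : ℕ) : ℝ) * |y|) * Qf 4 y ^ 4 * (v y) ^ 2 := by
      have := pow_nonneg (Qf_pos 4 y).le 4
      positivity
    rw [Real.norm_eq_abs, abs_of_nonneg h6]
    calc _ ≤ C ^ 4 * (v y) ^ 2 := by gcongr
      _ = _ := by ring
  have ct := Cl_th 4
  have ct1 := Cl_der ct
  have ct3 := Cl_der (Cl_der ct1)
  have cQk : Cl ((4 : ℕ) : ℝ) ((4 : ℕ) : ℝ) (fun y => Qf 4 y ^ 4) := Cl_Qk hk1
  have cQ0 : Cl 0 0 (fun y => Qf 4 y ^ 4) := Cl_mono cQk (by positivity) (by positivity)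
  have ctQ : Cl 0 0 (deriv (fun z => th 4 z * Qf 4 z ^ 4)) := Cl_der (Cl_mul0 ct cQ0)
  have iH : ∀ {W1 W3 WQ : ℝ → ℝ}, Cl 0 0 W1 → Cl 0 0 W3 → Cl 0 0 WQ →
      Integrable (fun y => 3 / 2 * W1 y * (deriv v y) ^ 2 + 1 / 2 * (W1 y - W3 y) * (v y) ^ 2
        - 1 / 2 * WQ y * (v y) ^ 2) := by
    intro W1 W3 WQ h1 h3 hQ
    have a1 := (Cl_int (Cl_mul0 h1 cvd2) hpp hqq).const_mul (3 / 2 : ℝ)
    have a2 := (Cl_int (Cl_mul0 (Cl_sub h1 h3) cv2) hpp hqq).const_mul (1 / 2 : ℝ)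
    have a3 := (Cl_int (Cl_mul0 hQ cv2) hpp hqq).const_mul (1 / 2 : ℝ)
    refine ((a1.add a2).sub a3).congr (Eventually.of_forall fun y => ?_)
    simp only [Pi.add_apply, Pi.sub_apply]
    ring
  have iT : Integrable (fun y => 3 / 2 * deriv (th 4) y * (deriv v y) ^ 2
      + 1 / 2 * (deriv (th 4) y - deriv (deriv (deriv (th 4))) y) * (v y) ^ 2
      - 1 / 2 * deriv (fun z => th 4 z * Qf 4 z ^ 4) y * (v y) ^ 2) := iH ct1 ct3 ctQ
  have cpsi : Cl 0 0 (psi 4 η γ) := Cl_psi 4 η γ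
  have iP : Integrable (fun y => 3 / 2 * deriv (psi 4 η γ) y * (deriv v y) ^ 2
      + 1 / 2 * (deriv (psi 4 η γ) y - deriv (deriv (deriv (psi 4 η γ))) y) * (v y) ^ 2
      - 1 / 2 * deriv (fun z => psi 4 η γ z * Qf 4 z ^ 4) y * (v y) ^ 2) :=
    iH (Cl_der cpsi) (Cl_der (Cl_der (Cl_der cpsi))) (Cl_der (Cl_mul0 cpsi cQ0))
  set S0 : ℝ := ∫ y, se2 γ y * (v y) ^ 2 with hS0
  set S1 : ℝ := ∫ y, se2 γ y * (deriv v y) ^ 2 with hS1
  set A : ℝ := ∫ y, (1 + ((4 : ℕ) : ℝ) * |y|) * Qf 4 y ^ 4 * (v y) ^ 2 with hA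
  have hS00 : 0 ≤ S0 := integral_nonneg fun y => mul_nonneg (se2_pos γ y).le (sq_nonneg _)
  have hS10 : 0 ≤ S1 := integral_nonneg fun y => mul_nonneg (se2_pos γ y).le (sq_nonneg _)
  have hS : ∫ y, se2 γ y * ((v y) ^ 2 + (deriv v y) ^ 2) = S0 + S1 := by
    rw [hS0, hS1, ← integral_add i0 i1]
    congr 1
    funext y
    ring
  -- the integrated form of V2
  have key : Hf 4 (th 4) v + η * γ * (3 / 2 * S1 + 3 / 8 * S0) - η * γ / 2 * A ≤
      Hf 4 (psi 4 η γ) v := by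
    have i2 : Integrable (fun y => 3 / 2 * (se2 γ y * (deriv v y) ^ 2) + 3 / 8 * (se2 γ y * (v y) ^ 2)) :=
      (i1.const_mul _).add (i0.const_mul _)
    have i3 : Integrable (fun y => η * γ * (3 / 2 * (se2 γ y * (deriv v y) ^ 2)
      + 3 / 8 * (se2 γ y * (v y) ^ 2))) := i2.const_mul _
    have i4 := iT.add i3
    have i5 : Integrable (fun y => η * γ / 2 * ((1 + ((4 : ℕ) : ℝ) * |y|) * Qf 4 y ^ 4 * (v y) ^ 2)) :=
      iA.const_mul _
    have h1 := integral_mono (i4.sub i5) iP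
      (fun y => Vcp_point 4 hk1 η γ hη0.le hγ hγ' (v y) (deriv v y) y)
    rw [integral_sub' i4 i5, integral_add' iT i3] at h1
    rw [integral_const_mul (η * γ), integral_const_mul (η * γ / 2),
      integral_add (i1.const_mul (3 / 2 : ℝ)) (i0.const_mul (3 / 8 : ℝ)),
      integral_const_mul, integral_const_mul] at h1
    exact h1
  rw [vir_tanh hk1 hv hp hq] at key
  set J : ℝ := ∫ y, deriv (th 4) y * (deriv v y + th 4 y * v y) ^ 2 with hJ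
  have hJ0 : 0 ≤ J := by
    refine integral_nonneg fun y => mul_nonneg ?_ (sq_nonneg _)
    rw [(th_hd 4 y).deriv]
    have := th_abs_lt 4 y
    have h2 : th 4 y ^ 2 ≤ 1 := by
      rw [← sq_abs]
      (first | linarith only [abs_nonneg (th 4 y), hδ, hδ16, this] | nlinarith only [abs_nonneg (th 4 y), hδ, hδ16, this])
    have h3 : (0 : ℝ) ≤ ((4 : ℕ) : ℝ) / 2 := by positivity
    exact mul_nonneg h3 (by linarith)
  have hVv := hV γ hγ hγ' p q v hp hq hv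
  rw [hS] at hVv
  -- the inner product
  have hip : ip v (deriv (deriv (Qf 4))) = ip v (Gd4 δ) + δ * ∫ y, v y * φ y := by
    have cG : Cl (3 / 4) (3 / 4) (Gd4 δ) := Cl_sub cL (Cl_smul δ cφ)
    have j1 : Integrable (fun y => v y * Gd4 δ y) := Cl_int (Cl_mul hv cG) (by linarith) (by linarith)
    have j2 : Integrable (fun y => v y * φ y) := Cl_int (Cl_mul hv cφ) (by linarith) (by linarith)
    unfold ip
    rw [← integral_const_mul, ← integral_add j1 (j2.const_mul δ)]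
    congr 1
    funext y
    simp only [Gd4, hφ]
    ring
  have hcs := (cs_wt (F := v) (φ := φ) (W := se2 γ) (Cl_cont hv) (Cl_cont cφ) hsc (fun y => se2_pos γ y) i0
    hφw).2
  have hcs2 : (∫ y, v y * φ y) ^ 2 ≤ Kc * S0 := by
    rw [← sq_abs]
    calc |∫ y, v y * φ y| ^ 2 ≤ (√Kc * √S0) ^ 2 := pow_le_pow_left₀ (abs_nonneg _) hcs 2
      _ = Kc * S0 := by rw [mul_pow, Real.sq_sqrt hKc0, Real.sq_sqrt hS00]
  have hL2 : (ip v (deriv (deriv (Qf 4)))) ^ 2 ≤ 2 * (ip v (Gd4 δ)) ^ 2 + 2 * δ ^ 2 * (Kc * S0) := by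
    rw [hip]
    have h1 : (ip v (Gd4 δ) + δ * ∫ y, v y * φ y) ^ 2 ≤
        2 * (ip v (Gd4 δ)) ^ 2 + 2 * (δ * ∫ y, v y * φ y) ^ 2 := by
      (first | linarith only [sq_nonneg (ip v (Gd4 δ) - δ * ∫ y, v y * φ y)] | nlinarith only [sq_nonneg (ip v (Gd4 δ) - δ * ∫ y, v y * φ y)])
    have h2 : 2 * (δ * ∫ y, v y * φ y) ^ 2 ≤ 2 * δ ^ 2 * (Kc * S0) := by
      rw [mul_pow]
      (first | linarith only [sq_nonneg δ, hcs2] | nlinarith only [sq_nonneg δ, hcs2])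
    linarith
  rw [hS]
  set G : ℝ := (ip v (Gd4 δ)) ^ 2 with hG
  have hG0 : 0 ≤ G := sq_nonneg _
  have hσ0 : 0 < η * γ := by positivity
  set σ : ℝ := η * γ with hσd
  have hA2 : A ≤ CV * (2 * G + 2 * δ ^ 2 * (Kc * S0) + J) + 1 / 8 * (S0 + S1) := by
    refine hVv.trans ?_
    have : CV * ((ip v (deriv (deriv (Qf 4)))) ^ 2 + J) ≤ CV * (2 * G + 2 * δ ^ 2 * (Kc * S0) + J) := by
      gcongr
    linarith
  have h1 : σ / 2 * A ≤ σ / 2 * (CV * (2 * G + 2 * δ ^ 2 * (Kc * S0) + J) + 1 / 8 * (S0 + S1)) := by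
    gcongr
  have h2 : σ / 2 * (CV * J) ≤ 1 / 2 * J := by
    have : σ * CV * J ≤ 1 * J := mul_le_mul_of_nonneg_right hσ hJ0
    linarith
  have h3 : σ / 2 * (CV * (2 * δ ^ 2 * (Kc * S0))) ≤ σ * (1 / 16) * S0 := by
    have h4 : CV * Kc * δ ^ 2 * (σ * S0) ≤ 1 / 16 * (σ * S0) :=
      mul_le_mul_of_nonneg_right hδK (mul_nonneg hσ0.le hS00)
    calc _ = CV * Kc * δ ^ 2 * (σ * S0) := by ring
      _ ≤ _ := h4
      _ = _ := by ring
  have h5 : σ / 2 * (CV * (2 * G)) ≤ 1 * G := by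
    have : σ * CV * G ≤ 1 * G := mul_le_mul_of_nonneg_right hσ hG0
    linarith
  have h6 : 0 ≤ σ * S1 := mul_nonneg hσ0.le hS10
  have h7 : 0 ≤ σ * S0 := mul_nonneg hσ0.le hS00
  have hJn : Jn v = J := rfl
  rw [hJn]
  (first | linarith only [h1, h2, h3, h5, h6, key] | nlinarith only [h1, h2, h3, h5, h6, key])

end H98KC

end
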