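import Pool.Agent.H98.KC.Base
import Pool.Agent.H98.KB.Vcv

/-!
# Vkd (MP_95be7d_S4): cut-off of pairings and of the local norm, class `Cl 0 0` (variant of `cut_ip`, `cut_loc` in `KB/Vcv.lean`)

`F = rh B · v`.
* `cut_ip0`: `ip F φ - ip v φ = ∫ F (1-1/rh) φ`, `|1-1/rh| = cosh(y/B)-1 ≤ (y²/(2B²))e^{|y|/B} ≤ (1/B) y² e^{|y|/16}` (`Vcv_cosh`, `Vcv_one`);
  Cauchy-Schwarz with the weight `se2 γ ≥ e^{-2γ|y|} ≥ e^{-|y|/4}` (`se2_lo`), `|φ| ≤ C e^{-3|y|/4}` (`Cl_bnd`, `bd_abs`); the integral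
  `∫ y⁴e^{|y|/8}e^{-3|y|/2}e^{|y|/4}` is finite: constant independent of `γ, B`.  Third statement: the same with `|φ||F|` (directly Cauchy-Schwarz
  for `|F|` and `|φ|`); it implies the second.
* `cut_loc0`: proof of `cut_loc` (pointwise `rh v' = F' - (rh'/rh)F`), integrability from `loc ∈ Cl(..)(..)` (decaying) and `v ∈ Cl 0 0`.
-/

open MeasureTheory Filter Topology Set
open scoped ContDiff

noncomputable section

namespace H98KC

open H98KB H68KC

theorem Vkd_key {γ : ℝ} (hγ : 0 < γ) (hγ' : γ ≤ 1 / 8) {F g : ℝ → ℝ} {K : ℝ} (hK : 0 ≤ K)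
    (hF : Continuous F) (hg : Continuous g) (hgK : ∀ y, |g y| ≤ K * Real.exp (-(|y| / 2)))
    (i3 : Integrable (fun y => se2 γ y * (F y) ^ 2)) :
    |∫ y, F y * g y| ≤ K * √(∫ y, bd (3 / 4) (3 / 4) y) * √(∫ y, se2 γ y * (F y) ^ 2) := by
  have hw : Continuous (se2 γ) := Cl_cont (Cl_se2 hγ)
  have hb : ∀ y, (g y) ^ 2 / se2 γ y ≤ K ^ 2 * bd (3 / 4) (3 / 4) y := by
    intro y
    have a4 : (g y) ^ 2 ≤ K ^ 2 * Real.exp (-|y|) := by
      have h := pow_le_pow_left₀ (abs_nonneg _) (hgK y) 2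
      have e : (K * Real.exp (-(|y| / 2))) ^ 2 = K ^ 2 * Real.exp (-|y|) := by
        rw [mul_pow, ← Real.exp_nat_mul]
        congr 2
        push_cast
        ring
      rw [sq_abs, e] at h
      exact h
    have a5 : Real.exp (-(|y| / 4)) ≤ se2 γ y := by
      refine le_trans (Real.exp_le_exp.2 ?_) (se2_lo γ y)
      rw [abs_mul, abs_of_pos hγ]
      have := abs_nonneg y
      nlinarith
    rw [div_le_iff₀ (se2_pos γ y), bd_abs]
    refine a4.trans ?_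
    rw [mul_assoc]
    refine mul_le_mul_of_nonneg_left ?_ (by positivity)
    calc Real.exp (-|y|) = Real.exp (-(3 / 4 * |y|)) * Real.exp (-(|y| / 4)) := by
          rw [← Real.exp_add]
          congr 1
          ring
      _ ≤ _ := mul_le_mul_of_nonneg_left a5 (Real.exp_pos _).le
  have i4 : Integrable (fun y => (g y) ^ 2 / se2 γ y) := by
    refine int_of_bd (p := 3 / 4) (q := 3 / 4) ((hg.pow 2).div hw fun y => (se2_pos γ y).ne')
      (by norm_num) (by norm_num) ⟨K ^ 2, fun y => ?_⟩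
    rw [abs_of_nonneg (div_nonneg (sq_nonneg _) (se2_pos γ y).le)]
    exact hb y
  have key := (cs_wt hF hg hw (se2_pos γ) i3 i4).2
  refine key.trans ?_
  have hJ : ∫ y, (g y) ^ 2 / se2 γ y ≤ K ^ 2 * ∫ y, bd (3 / 4) (3 / 4) y := by
    rw [← integral_const_mul]
    exact integral_mono i4 ((bd_int (by norm_num) (by norm_num)).const_mul _) hb
  have hJ2 : √(∫ y, (g y) ^ 2 / se2 γ y) ≤ K * √(∫ y, bd (3 / 4) (3 / 4) y) := by
    refine (Real.sqrt_le_sqrt hJ).trans (le_of_eq ?_)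
    rw [Real.sqrt_mul (sq_nonneg _), Real.sqrt_sq hK]
  exact mul_le_mul_of_nonneg_right hJ2 (Real.sqrt_nonneg _)

theorem cut_ip0 {φ : ℝ → ℝ} (hφ : Cl (3 / 4) (3 / 4) φ) : ∃ C : ℝ, 0 < C ∧
    ∀ γ : ℝ, 0 < γ → γ ≤ 1 / 8 → ∀ B : ℝ, 16 ≤ B → ∀ v : ℝ → ℝ, Cl 0 0 v →
    |ip (fun y => rh B y * v y) φ - ip v φ| ≤
      C / B * √(∫ y, se2 γ y * (rh B y * v y) ^ 2) ∧
    |ip (fun y => rh B y * v y) φ| ≤ C * √(∫ y, se2 γ y * (rh B y * v y) ^ 2) ∧
    (∫ y, |φ y| * |rh B y * v y|) ≤ C * √(∫ y, se2 γ y * (rh B y * v y) ^ 2) := by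
  obtain ⟨C1, hC1, h1⟩ := Cl_bnd hφ
  refine ⟨4 * C1 * √(∫ y, bd (3 / 4) (3 / 4) y) + 1, by positivity, ?_⟩
  intro γ hγ hγ' B hB v hv
  have hB0 : 0 < B := by linarith
  have hB1 : 0 < 1 / B := by positivity
  have hrv : Cl (1 / B + 0) (1 / B + 0) (fun y => rh B y * v y) := Cl_mul (Vcv_Cl_rh hB0) hv
  have i1 : Integrable (fun y => rh B y * v y * φ y) :=
    Cl_int (Cl_mul hrv hφ) (by linarith) (by linarith)
  have i2 : Integrable (fun y => v y * φ y) :=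
    Cl_int (Cl_mul hv hφ) (by linarith) (by linarith)
  have hcosh : Continuous (fun y : ℝ => Real.cosh (y / B)) :=
    Real.continuous_cosh.comp (continuous_id.div_const B)
  have hφ1 : Continuous (fun y => (1 - Real.cosh (y / B)) * φ y) :=
    (continuous_const.sub hcosh).mul (Cl_cont hφ)
  have e1 : ip (fun y => rh B y * v y) φ - ip v φ =
      ∫ y, (rh B y * v y) * ((1 - Real.cosh (y / B)) * φ y) := by
    unfold ip
    rw [← integral_sub i1 i2]
    congr 1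
    funext y
    have : rh B y * Real.cosh (y / B) = 1 := by
      unfold rh
      exact one_div_mul_cancel (Real.cosh_pos _).ne'
    change rh B y * v y * φ y - v y * φ y = rh B y * v y * ((1 - Real.cosh (y / B)) * φ y)
    linear_combination (v y * φ y) * this
  have hse := Cl_se2 hγ
  have i3 : Integrable (fun y => se2 γ y * (rh B y * v y) ^ 2) :=
    Cl_int (Cl_mul hse (Cl_pow hrv 2)) (by push_cast; linarith) (by push_cast; linarith)
  have hp : ∀ y, |φ y| ≤ C1 * Real.exp (-(|y| / 2)) := by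
    intro y
    have a2 := h1 y
    rw [bd_abs] at a2
    refine a2.trans (mul_le_mul_of_nonneg_left (Real.exp_le_exp.2 ?_) hC1)
    have := abs_nonneg y
    linarith
  have hb : ∀ y, |(1 - Real.cosh (y / B)) * φ y| ≤ 4 * C1 / B * Real.exp (-(|y| / 2)) := by
    intro y
    have a1 := Vcv_one hB y
    have a2 := h1 y
    rw [bd_abs] at a2
    rw [abs_mul]
    calc |1 - Real.cosh (y / B)| * |φ y| ≤
        (4 / B * Real.exp (|y| / 4)) * (C1 * Real.exp (-(3 / 4 * |y|))) :=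
          mul_le_mul a1 a2 (abs_nonneg _) (by positivity)
      _ = 4 * C1 / B * (Real.exp (|y| / 4) * Real.exp (-(3 / 4 * |y|))) := by ring
      _ = _ := by
          rw [← Real.exp_add]
          congr 2
          ring
  obtain ⟨J, hJ⟩ : ∃ J, J = √(∫ y, bd (3 / 4) (3 / 4) y) := ⟨_, rfl⟩
  have hJ0 : 0 ≤ J := by rw [hJ]; exact Real.sqrt_nonneg _
  have k1 := Vkd_key hγ hγ' (F := fun y => rh B y * v y) (by positivity) (Cl_cont hrv) hφ1 hb i3
  have k2 := Vkd_key hγ hγ' (F := fun y => rh B y * v y) hC1 (Cl_cont hrv) (Cl_cont hφ) hp i3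
  have i3' : Integrable (fun y => se2 γ y * (|rh B y * v y|) ^ 2) := by
    simpa only [sq_abs] using i3
  have k3 := Vkd_key hγ hγ' (F := fun y => |rh B y * v y|) (g := fun y => |φ y|) hC1
    (Cl_cont hrv).abs (Cl_cont hφ).abs (fun y => by rw [abs_abs]; exact hp y) i3'
  simp only [sq_abs] at k3
  rw [← hJ] at k1 k2 k3 ⊢
  obtain ⟨S, hS⟩ : ∃ S, S = √(∫ y, se2 γ y * (rh B y * v y) ^ 2) := ⟨_, rfl⟩
  have hS0 : 0 ≤ S := by rw [hS]; exact Real.sqrt_nonneg _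
  rw [← hS] at k1 k2 k3 ⊢
  have hm : C1 * J * S ≤ (4 * C1 * J + 1) * S := by
    refine mul_le_mul_of_nonneg_right ?_ hS0
    have : 0 ≤ C1 * J := mul_nonneg hC1 hJ0
    linarith
  refine ⟨?_, k2.trans hm, ?_⟩
  · rw [e1]
    refine k1.trans (mul_le_mul_of_nonneg_right ?_ hS0)
    rw [add_div]
    have : 4 * C1 / B * J = 4 * C1 * J / B := by ring
    rw [this]
    linarith
  · have e : ∫ y, |φ y| * |rh B y * v y| = ∫ y, |rh B y * v y| * |φ y| := by
      congr 1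
      funext y
      ring
    rw [e]
    exact ((le_abs_self _).trans k3).trans hm

theorem cut_loc0 {γ B : ℝ} {v : ℝ → ℝ} (hγ : 0 < γ) (hB : 16 ≤ B) (hv : Cl 0 0 v) :
    ∫ y, loc γ B y * ((v y) ^ 2 + (deriv v y) ^ 2) ≤
      3 * ∫ y, se2 γ y * ((rh B y * v y) ^ 2 + (deriv (fun y => rh B y * v y) y) ^ 2) := by
  have hB0 : 0 < B := by linarith
  have hB1 : 0 < 1 / B := by positivity
  have hrv : Cl (1 / B + 0) (1 / B + 0) (fun y => rh B y * v y) := Cl_mul (Vcv_Cl_rh hB0) hv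
  have hse := Cl_se2 hγ
  have hch := Cl_ch hB0
  have i1 : Integrable (fun y => loc γ B y * ((v y) ^ 2 + (deriv v y) ^ 2)) := by
    have hloc : Cl (2 * γ + 2 / B) (2 * γ + 2 / B) (loc γ B) := Cl_mul hse hch
    have h2B : 0 < 2 / B := by positivity
    exact Cl_int (Cl_mul hloc (Cl_add (Cl_pow hv 2) (Cl_pow (Cl_der hv) 2)))
      (by push_cast; linarith) (by push_cast; linarith)
  have i2 : Integrable (fun y => se2 γ y * ((rh B y * v y) ^ 2 +
      (deriv (fun y => rh B y * v y) y) ^ 2)) :=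
    Cl_int (Cl_mul hse (Cl_add (Cl_pow hrv 2) (Cl_pow (Cl_der hrv) 2)))
      (by push_cast; linarith) (by push_cast; linarith)
  rw [← integral_const_mul]
  refine integral_mono i1 (i2.const_mul 3) fun y => ?_
  have hd : deriv (fun y => rh B y * v y) y =
      -(1 / B) * Real.tanh (1 / B * y) * rh B y * v y + rh B y * deriv v y :=
    ((Vcv_rh_hd B y).mul (Cl_hd hv y)).deriv
  change loc γ B y * ((v y) ^ 2 + (deriv v y) ^ 2) ≤
    3 * (se2 γ y * ((rh B y * v y) ^ 2 + (deriv (fun y => rh B y * v y) y) ^ 2))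
  rw [hd]
  have hse0 := se2_pos γ y
  have e : loc γ B y = se2 γ y * rh B y ^ 2 := rfl
  rw [e]
  obtain ⟨a, ha⟩ : ∃ a, a = rh B y * v y := ⟨_, rfl⟩
  obtain ⟨b, hb⟩ : ∃ b, b = rh B y * deriv v y := ⟨_, rfl⟩
  obtain ⟨τ, hτ⟩ : ∃ τ, τ = 1 / B * Real.tanh (1 / B * y) := ⟨_, rfl⟩
  have ht : |τ| ≤ 1 / 16 := by
    rw [hτ, abs_mul, abs_of_pos hB1]
    have h1 := (tanh_abs_lt (1 / B * y)).le
    have h2 : 1 / B ≤ 1 / 16 := one_div_le_one_div_of_le (by norm_num) hB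
    have h3 := abs_nonneg (Real.tanh (1 / B * y))
    nlinarith
  have e1 : -(1 / B) * Real.tanh (1 / B * y) * rh B y * v y + rh B y * deriv v y = -τ * a + b := by
    rw [hτ, ha, hb]
    ring
  have e2 : se2 γ y * rh B y ^ 2 * ((v y) ^ 2 + (deriv v y) ^ 2) = se2 γ y * (a ^ 2 + b ^ 2) := by
    rw [ha, hb]
    ring
  rw [e1, e2, ← ha]
  have h5 : a ^ 2 + b ^ 2 ≤ 3 * (a ^ 2 + (-τ * a + b) ^ 2) := by
    have h6 : τ ^ 2 ≤ 1 / 256 := by
      have := pow_le_pow_left₀ (abs_nonneg τ) ht 2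
      rw [sq_abs] at this
      linarith
    have h7 : b ^ 2 ≤ 2 * (-τ * a + b) ^ 2 + 2 * (τ ^ 2 * a ^ 2) := by
      (first | linarith only [sq_nonneg ((-τ * a + b) - τ * a)] | nlinarith only [sq_nonneg ((-τ * a + b) - τ * a)])
    have h8 : τ ^ 2 * a ^ 2 ≤ 1 / 256 * a ^ 2 := mul_le_mul_of_nonneg_right h6 (sq_nonneg a)
    (first | linarith only [sq_nonneg a, sq_nonneg (-τ * a + b), h7, h8] | nlinarith only [sq_nonneg a, sq_nonneg (-τ * a + b), h7, h8])
  nlinarith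

end H98KC

end
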