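import Pool.Agent.H98.KC.Base

/-!
# Wza (MP_95be7d_S4): the weight `om4 B s y = Th B y * Zf (s y)` and its derivatives

`Zf ξ = sech²(ξ-2)`, `t = tanh(ξ-2)`, `t' = 1 - t²`:  `Z' = -2tZ`, `Z'' = (6t²-2)Z`, `Z''' = (16t-24t³)Z`, so
`|Z'| ≤ 2Z`, `|Z''| ≤ 4Z`, `|Z'''| ≤ 8Z`.  `Zf_lo`: `cosh(ξ-2) ≤ cosh 2 · e^{|ξ|}`, `cosh² 2 ≤ 15`.
`σ = Th B`: `σ' = σ(1-σ)/B > 0`, `|σ''| ≤ σ'/B`, `|σ'''| ≤ σ'/B²` (`σ''' = σ'/B² (1-6σ(1-σ))`).
`om4 = σ Z(s·)`: `om4' = σ'Z + sσZ'`, `om4'' = σ''Z+2sσ'Z'+s²σZ''`, `om4''' = σ'''Z+3sσ''Z'+3s²σ'Z''+s³σZ'''`.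
`ta = (σ'+sσ)Z`.  `|om4'| ≤ 2 ta`.  `|om4''| ≤ (1/B+4s)σ'Z+4s·sσZ ≤ (2/B) ta` (`16 s B ≤ 1`).
`|om4'''| ≤ σ'Z(1/B²+6s/B+12s²)+8s²·sσZ ≤ (2/B²) ta`.
`om41_lo`: for `y ≤ 1/s`, `ξ = s y ≤ 1`, `Z' = -2 tanh(ξ-2) Z ≥ 2 tanh(1) Z ≥ Z`, so `om4' ≥ ta`; for `y ≥ 1/s`: `Z' ≥ -2Z`, so
`om4' ≥ σ'Z - 2sσZ = ta - 3sσZ ≥ ta - 3s·sech(sy-2)` (`σ ≤ 1`, `sech ≤ 1`).
`Cl_Zs`: `1/cosh(s y - 2)` : `1/cosh(x-2) = ` translate; bootstrap `Cl_of_deriv`, or write `Zf(s y) = se2 s (y - 2/s)`; the class `Cl p q` is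
translation invariant (`bd p q (y-a) ≤ C bd p q y`); or: `sech(sy-2) = 2e^{2}e^{-sy}/(1+e^{4}e^{-2sy})`.  See `Cl_sech`, `Cl_se2` in `KB/Tan.lean`
(the proof there, via `Cl_of_deriv` / bound of all iterated derivatives, can be copied for the translate).
`Cl_ta`: `deriv (Th B) = Th(1-Th)/B` (`Th_hd`), `Cl_Th`, `Cl_mul`, `Cl_mono`.
-/

open MeasureTheory Filter Topology Set
open scoped ContDiff

noncomputable section


open MeasureTheory Filter Topology Set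
open scoped ContDiff

noncomputable section

namespace H98KC

open H98KB H68KC

variable {B s : ℝ}

theorem Zf_pos (ξ : ℝ) : 0 < Zf ξ := by
  unfold Zf
  have := Real.cosh_pos (ξ - 2)
  positivity

theorem Wza_Z (ξ : ℝ) : Zf ξ = 1 - Real.tanh (ξ - 2) ^ 2 := by
  rw [Tan_sub_sq, Zf, div_pow, one_pow]

theorem Zf_le_one (ξ : ℝ) : Zf ξ ≤ 1 := by
  rw [Wza_Z]
  nlinarith [sq_nonneg (Real.tanh (ξ - 2))]

theorem Wza_t (ξ : ℝ) : HasDerivAt (fun ξ => Real.tanh (ξ - 2)) (1 - Real.tanh (ξ - 2) ^ 2) ξ := by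
  have h1 : HasDerivAt (fun y : ℝ => y - 2) 1 ξ := (hasDerivAt_id ξ).sub_const 2
  have h2 := (Tan_hd0 (ξ - 2)).comp ξ h1
  refine h2.congr_deriv ?_
  ring

theorem Zf_hd (ξ : ℝ) : HasDerivAt Zf (-2 * Real.tanh (ξ - 2) * Zf ξ) ξ := by
  have e : Zf = fun y => 1 - Real.tanh (y - 2) ^ 2 := funext Wza_Z
  have h := ((Wza_t ξ).pow 2).const_sub 1
  rw [Wza_Z ξ, e]
  refine h.congr_deriv ?_
  ring

theorem Zf_lo (ξ : ℝ) : 1 / 15 * Real.exp (-(2 * |ξ|)) ≤ Zf ξ := by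
  have h1 : Real.cosh (ξ - 2) ≤ Real.exp |ξ| * Real.cosh 2 := by
    rw [Real.cosh_eq, Real.cosh_eq]
    have a1 : Real.exp (ξ - 2) ≤ Real.exp |ξ| * Real.exp (-2) := by
      rw [← Real.exp_add, Real.exp_le_exp]
      linarith [le_abs_self ξ]
    have a2 : Real.exp (-(ξ - 2)) ≤ Real.exp |ξ| * Real.exp 2 := by
      rw [← Real.exp_add, Real.exp_le_exp]
      linarith [neg_abs_le ξ]
    linarith
  have h2 : Real.cosh 2 ^ 2 ≤ 15 := by
    have b1 := Real.exp_one_lt_d9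
    have b2 := Real.exp_one_gt_d9
    have b3 : Real.exp 2 = Real.exp 1 ^ 2 := by
      rw [← Real.exp_nat_mul]; norm_num
    have b4 : Real.exp (-2) = 1 / Real.exp 1 ^ 2 := by
      rw [Real.exp_neg, b3, one_div]
    have b5 : Real.exp 2 ≤ 7.3891 := by
      rw [b3]
      nlinarith
    have b6 : Real.exp (-2) ≤ 0.1354 := by
      rw [b4, div_le_iff₀ (by positivity)]
      nlinarith
    have b7 := Real.exp_pos 2
    have b8 := Real.exp_pos (-2)
    have b9 : Real.cosh 2 ≤ 3.7623 := by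
      rw [Real.cosh_eq]
      linarith
    have b10 := Real.cosh_pos 2
    nlinarith
  have h3 := Real.cosh_pos (ξ - 2)
  have h4 : Real.cosh (ξ - 2) ^ 2 ≤ Real.exp (2 * |ξ|) * 15 := by
    have c1 : Real.cosh (ξ - 2) ^ 2 ≤ (Real.exp |ξ| * Real.cosh 2) ^ 2 := pow_le_pow_left₀ h3.le h1 2
    have c2 : (Real.exp |ξ| * Real.cosh 2) ^ 2 = Real.exp (2 * |ξ|) * Real.cosh 2 ^ 2 := by
      rw [mul_pow, ← Real.exp_nat_mul]
      norm_num
    rw [c2] at c1
    exact c1.trans (mul_le_mul_of_nonneg_left h2 (Real.exp_pos _).le)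
  unfold Zf
  rw [div_pow, one_pow, Real.exp_neg, ← one_div, div_mul_div_comm, one_mul, mul_comm (15 : ℝ)]
  exact one_div_le_one_div_of_le (by positivity) h4

theorem Wza_bd (p q a y : ℝ) : bd p q (y - a) ≤ Real.exp ((|p| + |q|) * |a|) * bd p q y := by
  unfold bd
  rw [← Real.exp_add, Real.exp_le_exp]
  have h1 : |max (y - a) 0 - max y 0| ≤ |a| := by
    have := abs_max_sub_max_le_abs (y - a) y 0
    rwa [sub_sub_cancel_left, abs_neg] at this
  have h2 : |max (-(y - a)) 0 - max (-y) 0| ≤ |a| := by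
    have := abs_max_sub_max_le_abs (-(y - a)) (-y) 0
    have e : -(y - a) - -y = a := by ring
    rwa [e] at this
  have h3 : -(p * (max (y - a) 0 - max y 0)) ≤ |p| * |a| := by
    refine (neg_le_abs _).trans ?_
    rw [abs_mul]
    exact mul_le_mul_of_nonneg_left h1 (abs_nonneg _)
  have h4 : -(q * (max (-(y - a)) 0 - max (-y) 0)) ≤ |q| * |a| := by
    refine (neg_le_abs _).trans ?_
    rw [abs_mul]
    exact mul_le_mul_of_nonneg_left h2 (abs_nonneg _)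
  linarith

theorem Wza_tr {p q : ℝ} {f : ℝ → ℝ} (hf : Cl p q f) (a : ℝ) : Cl p q (fun y => f (y - a)) := by
  refine ⟨hf.1.comp (contDiff_id.sub contDiff_const), fun j => ?_⟩
  obtain ⟨C, hC, hb⟩ := Cl_bndj hf j
  refine ⟨C * Real.exp ((|p| + |q|) * |a|), fun y => ?_⟩
  rw [iteratedDeriv_comp_sub_const]
  refine (hb (y - a)).trans ?_
  rw [mul_assoc]
  exact mul_le_mul_of_nonneg_left (Wza_bd p q a y) hC

theorem Cl_Zs (hs : 0 < s) : Cl (2 * s) (2 * s) (fun y => Zf (s * y)) := by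
  have h := Wza_tr (Cl_se2 hs) (2 / s)
  have e : (fun y => se2 s (y - 2 / s)) = fun y => Zf (s * y) := by
    funext y
    unfold se2 Zf
    have : s * (y - 2 / s) = s * y - 2 := by
      field_simp
    rw [this]
  rwa [e] at h

theorem Cl_om4 (h : Slow4 B s) : Cl (2 * s) (2 * s + 1 / B) (om4 B s) := by
  obtain ⟨hB, hs, _⟩ := h
  have h1 := Cl_mul (Cl_Th (B := B) (by linarith)) (Cl_Zs hs)
  have e1 : 0 + 2 * s = 2 * s := by ring
  have e2 : 1 / B + 2 * s = 2 * s + 1 / B := by ring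
  rw [e1, e2] at h1
  exact h1

theorem om4_pos (B s y : ℝ) : 0 < om4 B s y := by
  exact mul_pos (Th_pos B y) (Zf_pos _)

theorem om4_le_one (B s y : ℝ) : om4 B s y ≤ 1 := by
  unfold om4
  have h1 := Th_pos B y
  have h2 := Th_lt_one B y
  have h3 := Zf_pos (s * y)
  have h4 := Zf_le_one (s * y)
  nlinarith

theorem Cl_ta (h : Slow4 B s) : Cl (2 * s) (2 * s + 1 / B) (ta B s) := by
  obtain ⟨hB, hs, _⟩ := h
  have h0 := Cl_Th (B := B) (by linarith)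
  have h1 := Cl_mul (Cl_add (Cl_der h0) (Cl_smul s h0)) (Cl_Zs hs)
  have e1 : 0 + 2 * s = 2 * s := by ring
  have e2 : 1 / B + 2 * s = 2 * s + 1 / B := by ring
  rw [e1, e2] at h1
  exact h1

theorem Wza_s (h : Slow4 B s) : 0 < B ∧ 0 < s ∧ 16 * s ≤ 1 / B := by
  obtain ⟨h1, h2, h3⟩ := h
  refine ⟨by linarith, h2, ?_⟩
  rw [le_div_iff₀ (by linarith)]
  exact h3

theorem Wza_r {a b c Z : ℝ} (hZ : 0 ≤ Z) (h : a ≤ c * b) : a * Z ≤ c * (b * Z) := by
  have := mul_le_mul_of_nonneg_right h hZ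
  linarith

theorem Wza_m {a x b : ℝ} (ha : 0 ≤ a) (h : |x| ≤ b) : |a * x| ≤ a * b := by
  rw [abs_mul, abs_of_nonneg ha]
  exact mul_le_mul_of_nonneg_left h ha

theorem Wza_T1 (hB : 0 < B) (y : ℝ) : deriv (Th B) y = 1 / B * (Th B y * (1 - Th B y)) := by
  rw [(Th_hd hB y).deriv]
  ring

theorem Wza_ta (hB : 0 < B) (s y : ℝ) : ta B s y =
    (1 / B * (Th B y * (1 - Th B y)) + s * Th B y) * Zf (s * y) := by
  unfold ta
  rw [Wza_T1 hB]

theorem ta_pos (h : Slow4 B s) (y : ℝ) : 0 < ta B s y := by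
  obtain ⟨hB, hs, _⟩ := Wza_s h
  rw [Wza_ta hB]
  have h1 := Th_pos B y
  have h2 : 0 < 1 - Th B y := by linarith [Th_lt_one B y]
  have h3 := Zf_pos (s * y)
  positivity

theorem ta_ge (h : Slow4 B s) (y : ℝ) : s * om4 B s y ≤ ta B s y := by
  obtain ⟨hB, hs, _⟩ := Wza_s h
  rw [Wza_ta hB, om4]
  have h1 := Th_pos B y
  have h2 : 0 < 1 - Th B y := by linarith [Th_lt_one B y]
  have h3 := Zf_pos (s * y)
  have h4 : 0 < 1 / B * (Th B y * (1 - Th B y)) * Zf (s * y) := by positivity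
  linarith

theorem ta_le (h : Slow4 B s) (y : ℝ) : ta B s y ≤ 2 / B * om4 B s y := by
  obtain ⟨hB, hs, hsB⟩ := Wza_s h
  rw [Wza_ta hB, om4]
  have h1 := Th_pos B y
  have h2 : 0 < 1 - Th B y := by linarith [Th_lt_one B y]
  have h3 := Zf_pos (s * y)
  have e : 2 / B = 2 * (1 / B) := by ring
  rw [e]
  obtain ⟨β, hβ⟩ : ∃ β, β = 1 / B := ⟨_, rfl⟩
  rw [← hβ] at hsB ⊢
  have hβ0 : 0 < β := by rw [hβ]; positivity
  refine Wza_r h3.le ?_
  have h5 : Th B y * (1 - Th B y) ≤ Th B y * 1 := mul_le_mul_of_nonneg_left (by linarith [Th_pos B y]) h1.le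
  have h6 := mul_le_mul_of_nonneg_left h5 hβ0.le
  have h7 : s * Th B y ≤ β * Th B y := mul_le_mul_of_nonneg_right (by linarith) h1.le
  linarith

/-! derivatives -/

theorem Wza_ts (s y : ℝ) : HasDerivAt (fun y => Real.tanh (s * y - 2))
    (s * (1 - Real.tanh (s * y - 2) ^ 2)) y := by
  have h1 : HasDerivAt (fun y : ℝ => s * y) (s * 1) y := (hasDerivAt_id y).const_mul s
  have h2 := HasDerivAt.comp y (Wza_t (s * y)) h1
  refine h2.congr_deriv ?_
  ring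

theorem Wza_Zs (s y : ℝ) : HasDerivAt (fun y => Zf (s * y))
    (-2 * s * Real.tanh (s * y - 2) * Zf (s * y)) y := by
  have h1 : HasDerivAt (fun y : ℝ => s * y) (s * 1) y := (hasDerivAt_id y).const_mul s
  have h2 := HasDerivAt.comp y (Zf_hd (s * y)) h1
  refine h2.congr_deriv ?_
  ring

theorem Wza_h1 (hB : 0 < B) (s y : ℝ) : HasDerivAt (om4 B s)
    ((1 / B * (Th B y * (1 - Th B y)) - 2 * s * (Real.tanh (s * y - 2) * Th B y)) * Zf (s * y)) y := by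
  have h := (Th_hd hB y).mul (Wza_Zs s y)
  refine HasDerivAt.congr_deriv (f := om4 B s) h ?_
  ring

theorem Wza_h2 (hB : 0 < B) (s y : ℝ) : HasDerivAt
    (fun y => (1 / B * (Th B y * (1 - Th B y)) - 2 * s * (Real.tanh (s * y - 2) * Th B y)) * Zf (s * y))
    (((1 / B) ^ 2 * (Th B y * (1 - Th B y) * (1 - 2 * Th B y))
      - 4 * s * (1 / B) * (Real.tanh (s * y - 2) * (Th B y * (1 - Th B y)))
      + s ^ 2 * ((6 * Real.tanh (s * y - 2) ^ 2 - 2) * Th B y)) * Zf (s * y)) y := by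
  have hT := Th_hd hB y
  have h := (((hT.mul (hT.const_sub 1)).const_mul (1 / B)).sub
    (((Wza_ts s y).mul hT).const_mul (2 * s))).mul (Wza_Zs s y)
  refine h.congr_deriv ?_
  simp only [Pi.mul_apply, Pi.sub_apply]
  ring

theorem Wza_h3 (hB : 0 < B) (s y : ℝ) : HasDerivAt
    (fun y => ((1 / B) ^ 2 * (Th B y * (1 - Th B y) * (1 - 2 * Th B y))
      - 4 * s * (1 / B) * (Real.tanh (s * y - 2) * (Th B y * (1 - Th B y)))
      + s ^ 2 * ((6 * Real.tanh (s * y - 2) ^ 2 - 2) * Th B y)) * Zf (s * y))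
    (((1 / B) ^ 3 * (Th B y * (1 - Th B y) * (1 - 6 * (Th B y * (1 - Th B y))))
      - 6 * s * (1 / B) ^ 2 * (Real.tanh (s * y - 2) * (Th B y * (1 - Th B y) * (1 - 2 * Th B y)))
      + 3 * s ^ 2 * (1 / B) * ((6 * Real.tanh (s * y - 2) ^ 2 - 2) * (Th B y * (1 - Th B y)))
      + s ^ 3 * ((16 * Real.tanh (s * y - 2) - 24 * Real.tanh (s * y - 2) ^ 3) * Th B y)) *
        Zf (s * y)) y := by
  have hT := Th_hd hB y
  have ht := Wza_ts s y
  have h := (((((hT.mul (hT.const_sub 1)).mul ((hT.const_mul 2).const_sub 1)).const_mul ((1 / B) ^ 2)).sub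
    ((ht.mul (hT.mul (hT.const_sub 1))).const_mul (4 * s * (1 / B)))).add
    (((((ht.pow 2).const_mul 6).sub_const 2).mul hT).const_mul (s ^ 2))).mul (Wza_Zs s y)
  refine h.congr_deriv ?_
  simp only [Pi.mul_apply, Pi.sub_apply, Pi.add_apply, Pi.pow_apply]
  ring

theorem Wza_d1 (hB : 0 < B) (s : ℝ) : deriv (om4 B s) = fun y =>
    (1 / B * (Th B y * (1 - Th B y)) - 2 * s * (Real.tanh (s * y - 2) * Th B y)) * Zf (s * y) := by
  funext y
  exact (Wza_h1 hB s y).deriv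

theorem Wza_d2 (hB : 0 < B) (s : ℝ) : deriv (deriv (om4 B s)) = fun y =>
    ((1 / B) ^ 2 * (Th B y * (1 - Th B y) * (1 - 2 * Th B y))
      - 4 * s * (1 / B) * (Real.tanh (s * y - 2) * (Th B y * (1 - Th B y)))
      + s ^ 2 * ((6 * Real.tanh (s * y - 2) ^ 2 - 2) * Th B y)) * Zf (s * y) := by
  rw [Wza_d1 hB]
  funext y
  exact (Wza_h2 hB s y).deriv

theorem om41_eq (h : Slow4 B s) (y : ℝ) : deriv (om4 B s) y =
    deriv (Th B) y * Zf (s * y) + s * (Th B y * deriv Zf (s * y)) := by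
  obtain ⟨hB, hs, hsB⟩ := Wza_s h
  rw [Wza_d1 hB, Wza_T1 hB, (Zf_hd (s * y)).deriv]
  ring

theorem Wza_abs {t : ℝ} (ht : |t| < 1) : -1 < t ∧ t < 1 ∧ t ^ 2 < 1 := by
  rw [abs_lt] at ht
  refine ⟨ht.1, ht.2, ?_⟩
  nlinarith [ht.1, ht.2]

theorem om41_le (h : Slow4 B s) (y : ℝ) : |deriv (om4 B s) y| ≤ 2 * ta B s y := by
  obtain ⟨hB, hs, hsB⟩ := Wza_s h
  rw [Wza_d1 hB, Wza_ta hB]
  have h1 := Th_pos B y
  have h2 : 0 < 1 - Th B y := by linarith [Th_lt_one B y]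
  have h3 := Zf_pos (s * y)
  obtain ⟨t1, t2, -⟩ := Wza_abs (tanh_abs_lt (s * y - 2))
  simp only []
  rw [abs_mul, abs_of_pos h3]
  refine Wza_r h3.le ?_
  have a1 : 0 < 1 / B * (Th B y * (1 - Th B y)) := by positivity
  have a2 : 0 < s * Th B y := by positivity
  have a3 : s * Th B y * Real.tanh (s * y - 2) ≤ s * Th B y * 1 := mul_le_mul_of_nonneg_left t2.le a2.le
  have a4 : s * Th B y * (-1) ≤ s * Th B y * Real.tanh (s * y - 2) := mul_le_mul_of_nonneg_left t1.le a2.le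
  rw [abs_le]
  constructor <;> nlinarith

theorem Wza_th {x : ℝ} (hx : x ≤ -1) : Real.tanh x ≤ -1 / 2 := by
  have hc := Real.cosh_pos x
  rw [Real.tanh_eq_sinh_div_cosh, div_le_iff₀ hc, Real.sinh_eq, Real.cosh_eq]
  have h1 : Real.exp x ≤ Real.exp (-1) := by rw [Real.exp_le_exp]; exact hx
  have h2 : Real.exp 1 ≤ Real.exp (-x) := by rw [Real.exp_le_exp]; linarith
  have h3 := Real.exp_one_gt_d9
  have h4 : Real.exp (-1) ≤ 1 / 2 := by
    rw [Real.exp_neg, ← one_div]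
    exact one_div_le_one_div_of_le (by norm_num) (by linarith)
  linarith

theorem om41_lo (h : Slow4 B s) (y : ℝ) : ta B s y - 3 * s * bi s y ≤ deriv (om4 B s) y := by
  obtain ⟨hB, hs, hsB⟩ := Wza_s h
  rw [Wza_d1 hB, Wza_ta hB]
  have h1 := Th_pos B y
  have h1' := Th_lt_one B y
  have h2 : 0 < 1 - Th B y := by linarith
  have h3 := Zf_pos (s * y)
  obtain ⟨t1, t2, -⟩ := Wza_abs (tanh_abs_lt (s * y - 2))
  simp only []
  rcases lt_or_ge y (1 / s) with hy | hy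
  · have e : bi s y = 0 := by
      unfold bi
      exact indicator_of_notMem (by simpa using hy) _
    rw [e, mul_zero, sub_zero]
    apply mul_le_mul_of_nonneg_right _ h3.le
    have hsy : s * y ≤ 1 := by
      rw [lt_div_iff₀ hs] at hy
      linarith
    have ht := Wza_th (x := s * y - 2) (by linarith)
    have a2 : 0 < s * Th B y := by positivity
    have a3 : s * Th B y * Real.tanh (s * y - 2) ≤ s * Th B y * (-1 / 2) := mul_le_mul_of_nonneg_left ht a2.le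
    nlinarith
  · have e : bi s y = 1 / Real.cosh (s * y - 2) := by
      unfold bi
      exact indicator_of_mem (by simpa using hy) _
    rw [e]
    have hc := Real.one_le_cosh (s * y - 2)
    have hc0 := Real.cosh_pos (s * y - 2)
    have hx0 : 0 < 1 / Real.cosh (s * y - 2) := by positivity
    have hx1 : 1 / Real.cosh (s * y - 2) ≤ 1 := by
      rw [div_le_one hc0]
      exact hc
    have hZ : Zf (s * y) ≤ 1 / Real.cosh (s * y - 2) := by
      unfold Zf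
      nlinarith
    have a2 : 0 < s * Th B y := by positivity
    have a3 : s * Th B y * Real.tanh (s * y - 2) ≤ s * Th B y * 1 := mul_le_mul_of_nonneg_left t2.le a2.le
    have a4 : s * Th B y * Real.tanh (s * y - 2) * Zf (s * y) ≤ s * Th B y * 1 * Zf (s * y) :=
      mul_le_mul_of_nonneg_right a3 h3.le
    have a5 : s * Th B y * Zf (s * y) ≤ s * (1 / Real.cosh (s * y - 2)) := by
      have b1 : s * Th B y ≤ s * 1 := mul_le_mul_of_nonneg_left h1'.le hs.le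
      have b2 : s * Th B y * Zf (s * y) ≤ s * 1 * Zf (s * y) := mul_le_mul_of_nonneg_right b1 h3.le
      have b3 := mul_le_mul_of_nonneg_left hZ hs.le
      linarith
    nlinarith

theorem om42_le (h : Slow4 B s) (y : ℝ) :
    |deriv (deriv (om4 B s)) y| ≤ 2 / B * ta B s y := by
  obtain ⟨hB, hs, hsB⟩ := Wza_s h
  rw [Wza_d2 hB, Wza_ta hB]
  have h1 := Th_pos B y
  have h1' := Th_lt_one B y
  have h2 : 0 < 1 - Th B y := by linarith
  have h3 := Zf_pos (s * y)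
  obtain ⟨t1, t2, t3⟩ := Wza_abs (tanh_abs_lt (s * y - 2))
  simp only []
  have e : 2 / B = 2 * (1 / B) := by ring
  rw [e, abs_mul, abs_of_pos h3]
  refine Wza_r h3.le ?_
  obtain ⟨β, hβ⟩ : ∃ β, β = 1 / B := ⟨_, rfl⟩
  rw [← hβ] at hsB ⊢
  have hβ0 : 0 < β := by rw [hβ]; positivity
  generalize Real.tanh (s * y - 2) = t at *
  generalize Th B y = T at *
  obtain ⟨P, hP⟩ : ∃ P, P = T * (1 - T) := ⟨_, rfl⟩
  have hP0 : 0 < P := by rw [hP]; positivity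
  rw [← hP]
  have t4 : 0 ≤ t ^ 2 := sq_nonneg t
  have q1 : |β ^ 2 * (P * (1 - 2 * T))| ≤ β ^ 2 * P := by
    rw [abs_mul, abs_mul, abs_of_pos (by positivity : 0 < β ^ 2), abs_of_pos hP0]
    apply mul_le_mul_of_nonneg_left _ (by positivity)
    have : |1 - 2 * T| ≤ 1 := by rw [abs_le]; constructor <;> linarith
    nlinarith
  have q2 : |4 * s * β * (t * P)| ≤ 4 * s * β * P := by
    refine Wza_m (by positivity) ?_
    rw [abs_mul, abs_of_pos hP0]
    have : |t| ≤ 1 := by rw [abs_le]; constructor <;> linarith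
    nlinarith
  have q3 : |s ^ 2 * ((6 * t ^ 2 - 2) * T)| ≤ s ^ 2 * (4 * T) := by
    rw [abs_mul, abs_mul, abs_of_pos (by positivity : 0 < s ^ 2), abs_of_pos h1]
    apply mul_le_mul_of_nonneg_left _ (by positivity)
    have : |6 * t ^ 2 - 2| ≤ 4 := by rw [abs_le]; constructor <;> linarith
    exact mul_le_mul_of_nonneg_right this h1.le
  have q4 := abs_add_le (β ^ 2 * (P * (1 - 2 * T)) - 4 * s * β * (t * P)) (s ^ 2 * ((6 * t ^ 2 - 2) * T))
  have q5 := abs_sub (β ^ 2 * (P * (1 - 2 * T))) (4 * s * β * (t * P))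
  have q6 : 4 * s * β * P ≤ β ^ 2 * P := by
    have : 4 * s * (β * P) ≤ β * (β * P) := mul_le_mul_of_nonneg_right (by linarith) (by positivity)
    nlinarith
  have q7 : s ^ 2 * (4 * T) ≤ β * (s * T) := by
    have : 4 * s * (s * T) ≤ β * (s * T) := mul_le_mul_of_nonneg_right (by linarith) (by positivity)
    nlinarith
  have q8 : 0 < β * (s * T) := by positivity
  nlinarith

theorem om43_le (h : Slow4 B s) (y : ℝ) :
    |deriv (deriv (deriv (om4 B s))) y| ≤ 2 / B ^ 2 * ta B s y := by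
  obtain ⟨hB, hs, hsB⟩ := Wza_s h
  rw [Wza_d2 hB, (Wza_h3 hB s y).deriv, Wza_ta hB]
  have h1 := Th_pos B y
  have h1' := Th_lt_one B y
  have h2 : 0 < 1 - Th B y := by linarith
  have h3 := Zf_pos (s * y)
  obtain ⟨t1, t2, t3⟩ := Wza_abs (tanh_abs_lt (s * y - 2))
  have e : 2 / B ^ 2 = 2 * (1 / B) ^ 2 := by ring
  rw [e, abs_mul, abs_of_pos h3]
  refine Wza_r h3.le ?_
  obtain ⟨β, hβ⟩ : ∃ β, β = 1 / B := ⟨_, rfl⟩
  rw [← hβ] at hsB ⊢
  have hβ0 : 0 < β := by rw [hβ]; positivity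
  generalize Real.tanh (s * y - 2) = t at *
  generalize Th B y = T at *
  obtain ⟨P, hP⟩ : ∃ P, P = T * (1 - T) := ⟨_, rfl⟩
  have hP0 : 0 < P := by rw [hP]; positivity
  have hP1 : P ≤ 1 / 4 := by rw [hP]; nlinarith [sq_nonneg (T - 1 / 2)]
  rw [← hP]
  have t4 : 0 ≤ t ^ 2 := sq_nonneg t
  have q1 : |β ^ 3 * (P * (1 - 6 * P))| ≤ β ^ 3 * P := by
    rw [abs_mul, abs_mul, abs_of_pos (by positivity : 0 < β ^ 3), abs_of_pos hP0]
    apply mul_le_mul_of_nonneg_left _ (by positivity)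
    have : |1 - 6 * P| ≤ 1 := by rw [abs_le]; constructor <;> linarith
    nlinarith
  have q2 : |6 * s * β ^ 2 * (t * (P * (1 - 2 * T)))| ≤ 6 * s * β ^ 2 * P := by
    refine Wza_m (by positivity) ?_
    rw [abs_mul, abs_mul P, abs_of_pos hP0]
    have k1 : |t| ≤ 1 := by rw [abs_le]; constructor <;> linarith
    have k2 : |1 - 2 * T| ≤ 1 := by rw [abs_le]; constructor <;> linarith
    have k3 : P * |1 - 2 * T| ≤ P * 1 := mul_le_mul_of_nonneg_left k2 hP0.le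
    have k4 : |t| * (P * |1 - 2 * T|) ≤ 1 * (P * 1) := mul_le_mul k1 k3 (by positivity) zero_le_one
    linarith
  have q3 : |3 * s ^ 2 * β * ((6 * t ^ 2 - 2) * P)| ≤ 3 * s ^ 2 * β * (4 * P) := by
    refine Wza_m (by positivity) ?_
    rw [abs_mul, abs_of_pos hP0]
    have : |6 * t ^ 2 - 2| ≤ 4 := by rw [abs_le]; constructor <;> linarith
    exact mul_le_mul_of_nonneg_right this hP0.le
  have q4 : |s ^ 3 * ((16 * t - 24 * t ^ 3) * T)| ≤ s ^ 3 * (16 * T) := by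
    rw [abs_mul, abs_mul _ T, abs_of_pos (by positivity : 0 < s ^ 3), abs_of_pos h1]
    apply mul_le_mul_of_nonneg_left _ (by positivity)
    have : |16 * t - 24 * t ^ 3| ≤ 16 := by
      have e3 : 16 * t - 24 * t ^ 3 = t * (16 - 24 * t ^ 2) := by ring
      rw [e3, abs_mul]
      have k1 : |t| ≤ 1 := by rw [abs_le]; constructor <;> linarith
      have k2 : |16 - 24 * t ^ 2| ≤ 16 := by rw [abs_le]; constructor <;> linarith
      have := mul_le_mul k1 k2 (abs_nonneg _) zero_le_one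
      linarith
    exact mul_le_mul_of_nonneg_right this h1.le
  have q5 := abs_add_le (β ^ 3 * (P * (1 - 6 * P)) - 6 * s * β ^ 2 * (t * (P * (1 - 2 * T)))
    + 3 * s ^ 2 * β * ((6 * t ^ 2 - 2) * P)) (s ^ 3 * ((16 * t - 24 * t ^ 3) * T))
  have q6 := abs_add_le (β ^ 3 * (P * (1 - 6 * P)) - 6 * s * β ^ 2 * (t * (P * (1 - 2 * T))))
    (3 * s ^ 2 * β * ((6 * t ^ 2 - 2) * P))
  have q7 := abs_sub (β ^ 3 * (P * (1 - 6 * P))) (6 * s * β ^ 2 * (t * (P * (1 - 2 * T))))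
  have r1 : s * (β ^ 2 * P) ≤ β / 16 * (β ^ 2 * P) := mul_le_mul_of_nonneg_right (by linarith) (by positivity)
  have r2 : s ^ 2 ≤ (β / 16) ^ 2 := pow_le_pow_left₀ hs.le (by linarith) 2
  have r3 : s ^ 2 * (β * P) ≤ (β / 16) ^ 2 * (β * P) := mul_le_mul_of_nonneg_right r2 (by positivity)
  have r4 : s ^ 2 * (s * T) ≤ (β / 16) ^ 2 * (s * T) := mul_le_mul_of_nonneg_right r2 (by positivity)
  have r5 : 0 < β ^ 2 * (s * T) := by positivity
  have r6 : 0 < β ^ 3 * P := by positivity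
  (first | linarith only [q1, q2, q3, q4, q5, q6, q7, r1, r3, r4, r5, r6] | nlinarith only [q1, q2, q3, q4, q5, q6, q7, r1, r3, r4, r5, r6])

end H98KC

end
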